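import Mathlib

set_option autoImplicit false

namespace Pool.Agent.Helper1.CycleMagic

/-- Consecutive pairs of a list. -/
def prs : List ℕ → List (ℕ × ℕ)
  | a :: b :: l => (a, b) :: prs (b :: l)
  | _ => []

/-- Number of cuts `c k`, `k < K`, lying below `x`. -/
def lev (c : ℕ → ℕ) (x : ℕ) : ℕ → ℕ
  | 0 => 0
  | K + 1 => lev c x K + if c K < x then 1 else 0

/-- Partial sums. -/
def W (w : ℕ → ℕ) : ℕ → ℕ
  | 0 => 0
  | k + 1 => W w k + w k

theorem W_mono (w : ℕ → ℕ) {i j : ℕ} (h : i ≤ j) : W w i ≤ W w j := by
  induction j, h using Nat.le_induction with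
  | base => exact le_rfl
  | succ j _ ih => exact ih.trans (by simp [W])

/-- `l` is the level of `x`: exactly the cuts with index below `l` lie below `x`. -/
def IsLev (c : ℕ → ℕ) (K x l : ℕ) : Prop :=
  l ≤ K ∧ (∀ k < l, c k < x) ∧ ∀ k < K, l ≤ k → x ≤ c k

theorem lev_unique {c : ℕ → ℕ} {K x l : ℕ} (h : IsLev c K x l) : lev c x K = l := by
  induction K generalizing l with
  | zero =>
    have := h.1
    simp [lev]
    omega
  | succ K ih =>
    obtain ⟨h1, h2, h3⟩ := h
    rcases Nat.lt_or_ge K l with hl | hl
    · have e : l = K + 1 := by omega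
      subst e
      have h4 : IsLev c K x K :=
        ⟨le_rfl, fun k hk => h2 k (by omega), fun k hk hk' => absurd hk (by omega)⟩
      have := ih h4
      have h5 := h2 K (by omega)
      simp [lev, this, h5]
    · have h4 : IsLev c K x l :=
        ⟨hl, h2, fun k hk hk' => h3 k (by omega) hk'⟩
      have := ih h4
      have h5 := h3 K (by omega) hl
      simp [lev, this, h5]

theorem mono_le {c : ℕ → ℕ} {K : ℕ} (hm : ∀ k, k + 1 < K → c k ≤ c (k + 1)) {i j : ℕ}
    (h : i ≤ j) (hj : j < K) : c i ≤ c j := by
  induction j, h using Nat.le_induction with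
  | base => exact le_rfl
  | succ j _ ih => exact (ih (by omega)).trans (hm j hj)

theorem isLev_lev {c : ℕ → ℕ} {K : ℕ} (hm : ∀ k, k + 1 < K → c k ≤ c (k + 1)) (x : ℕ) :
    IsLev c K x (lev c x K) := by
  induction K with
  | zero => exact ⟨le_rfl, fun k hk => absurd hk (by simp [lev]), fun k hk _ => absurd hk (by omega)⟩
  | succ K ih =>
    have ih' := ih (fun k hk => hm k (by omega))
    obtain ⟨h1, h2, h3⟩ := ih'
    by_cases hx : c K < x
    · have : IsLev c (K + 1) x (K + 1) := by
        refine ⟨le_rfl, fun k hk => ?_, fun k hk hk' => absurd hk (by omega)⟩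
        exact lt_of_le_of_lt (mono_le hm (by omega) (by omega)) hx
      rw [lev_unique this]
      exact this
    · simp only [lev, hx, if_false, Nat.add_zero]
      refine ⟨by omega, h2, fun k hk hk' => ?_⟩
      rcases Nat.lt_or_ge k K with h | h
      · exact h3 k h hk'
      · have : k = K := by omega
        subst this
        omega

/-- New positions of the cuts after one growth step with weights `w`. -/
def nc (w : ℕ → ℕ) (fl : ℕ → Bool) (c : ℕ → ℕ) (k : ℕ) : ℕ :=
  c k + W w k + if fl k = true then w k else 0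

theorem nc_ge (w : ℕ → ℕ) (fl : ℕ → Bool) (c : ℕ → ℕ) (k : ℕ) : c k + W w k ≤ nc w fl c k := by
  unfold nc
  omega

theorem nc_le (w : ℕ → ℕ) (fl : ℕ → Bool) (c : ℕ → ℕ) (k : ℕ) :
    nc w fl c k ≤ c k + W w (k + 1) := by
  unfold nc
  simp only [W]
  split_ifs <;> omega

theorem nc_mono {w : ℕ → ℕ} {fl : ℕ → Bool} {c : ℕ → ℕ} {K : ℕ}
    (hm : ∀ k, k + 1 < K → c k ≤ c (k + 1)) : ∀ k, k + 1 < K → nc w fl c k ≤ nc w fl c (k + 1) := by
  intro k hk
  have h1 := nc_le w fl c k
  have h2 := nc_ge w fl c (k + 1)
  have h3 := hm k hk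
  omega

/-- Old labels keep their level. -/
theorem isLev_step {w : ℕ → ℕ} {fl : ℕ → Bool} {c : ℕ → ℕ} {K x l : ℕ} (h : IsLev c K x l) :
    IsLev (nc w fl c) K (x + W w l) l := by
  obtain ⟨h1, h2, h3⟩ := h
  refine ⟨h1, fun k hk => ?_, fun k hk hk' => ?_⟩
  · have := nc_le w fl c k
    have h4 := h2 k hk
    have h5 := W_mono w (show k + 1 ≤ l by omega)
    omega
  · have := nc_ge w fl c k
    have h4 := h3 k hk hk'
    have h5 := W_mono w hk'
    omega

/-- Every number is a shifted old label or lies in one of the inserted blocks. -/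
theorem cover {w : ℕ → ℕ} {c : ℕ → ℕ} {K : ℕ} (hm : ∀ k, k + 1 < K → c k ≤ c (k + 1)) (y : ℕ) :
    (∃ x l, IsLev c K x l ∧ y = x + W w l) ∨
      ∃ k < K, c k + W w k < y ∧ y ≤ c k + W w k + w k := by
  induction K with
  | zero =>
    left
    exact ⟨y, 0, ⟨le_rfl, fun k hk => absurd hk (by omega), fun k hk _ => absurd hk (by omega)⟩,
      by simp [W]⟩
  | succ K ih =>
    by_cases h : c K + W w K < y
    · by_cases h' : y ≤ c K + W w K + w K
      · right
        exact ⟨K, by omega, h, h'⟩
      · left
        have e : W w (K + 1) = W w K + w K := rfl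
        refine ⟨y - W w (K + 1), K + 1, ⟨le_rfl, fun k hk => ?_, fun k hk hk' => absurd hk (by omega)⟩,
          by omega⟩
        have := mono_le hm (show k ≤ K by omega) (by omega)
        omega
    · rcases ih (fun k hk => hm k (by omega)) with ⟨x, l, ⟨h1, h2, h3⟩, h4⟩ | ⟨k, hk, h1⟩
      · left
        refine ⟨x, l, ⟨by omega, h2, fun k hk hk' => ?_⟩, h4⟩
        rcases Nat.lt_or_ge k K with h5 | h5
        · exact h3 k h5 hk'
        · have e : k = K := by omega
          subst e
          rcases Nat.lt_or_ge l k with h6 | h6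
          · have h7 := h3 (k - 1) (by omega) (by omega)
            have h8 := hm (k - 1) (by omega)
            have e2 : k - 1 + 1 = k := by omega
            rw [e2] at h8
            omega
          · have e3 : l = k := by omega
            subst e3
            omega
      · right
        exact ⟨k, by omega, h1⟩

/-! ### Lists -/

/-- Insert between consecutive elements `a, b` the list `f a b`, and apply `g` to the others. -/
def gr (f : ℕ → ℕ → List ℕ) (g : ℕ → ℕ) : List ℕ → List ℕ
  | [] => []
  | [a] => [g a]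
  | a :: b :: l => g a :: (f a b ++ gr f g (b :: l))

theorem gr_cons (f : ℕ → ℕ → List ℕ) (g : ℕ → ℕ) (a : ℕ) (l : List ℕ) :
    ∃ t, gr f g (a :: l) = g a :: t := by
  cases l with
  | nil => exact ⟨[], rfl⟩
  | cons b l => exact ⟨_, rfl⟩

theorem gr_head (f : ℕ → ℕ → List ℕ) (g : ℕ → ℕ) (l : List ℕ) :
    (gr f g l).head? = l.head?.map g := by
  cases l with
  | nil => rfl
  | cons a l =>
    obtain ⟨t, ht⟩ := gr_cons f g a l
    rw [ht]
    rfl

theorem gr_last (f : ℕ → ℕ → List ℕ) (g : ℕ → ℕ) (l : List ℕ) :
    (gr f g l).getLast? = l.getLast?.map g := by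
  induction l with
  | nil => rfl
  | cons a l ih =>
    cases l with
    | nil => rfl
    | cons b l =>
      obtain ⟨t, ht⟩ := gr_cons f g b l
      have e : gr f g (a :: b :: l) = (g a :: f a b) ++ gr f g (b :: l) := rfl
      obtain ⟨z, hz⟩ : ∃ z, (b :: l).getLast? = some z :=
        ⟨_, List.getLast?_eq_some_getLast (by simp)⟩
      rw [e, List.getLast?_append, ih, List.getLast?_cons_cons, hz]
      rfl

theorem mem_gr {f : ℕ → ℕ → List ℕ} {g : ℕ → ℕ} {l : List ℕ} {x : ℕ} (h : x ∈ l) :
    g x ∈ gr f g l := by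
  induction l with
  | nil => simp at h
  | cons a l ih =>
    cases l with
    | nil =>
      simp at h
      subst h
      simp [gr]
    | cons b l =>
      rcases List.mem_cons.1 h with h | h
      · subst h
        simp [gr]
      · have := ih h
        simp [gr, this]

theorem mem_gr_ins {f : ℕ → ℕ → List ℕ} {g : ℕ → ℕ} {l : List ℕ} {p : ℕ × ℕ} {y : ℕ}
    (h : p ∈ prs l) (hy : y ∈ f p.1 p.2) : y ∈ gr f g l := by
  induction l with
  | nil => simp [prs] at h
  | cons a l ih =>
    cases l with
    | nil => simp [prs] at h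
    | cons b l =>
      simp only [prs, List.mem_cons] at h
      rcases h with h | h
      · subst h
        simp [gr, hy]
      · have := ih h
        simp [gr, this]

theorem prs_append (s : List ℕ) (x : ℕ) (t : List ℕ) :
    prs (s ++ x :: t) = prs (s ++ [x]) ++ prs (x :: t) := by
  induction s with
  | nil => simp [prs]
  | cons a s ih =>
    cases s with
    | nil => simp [prs]
    | cons b s =>
      simp only [List.cons_append, prs] at ih ⊢
      rw [ih]

theorem prs_gr {f : ℕ → ℕ → List ℕ} {g : ℕ → ℕ} {l : List ℕ} {p : ℕ × ℕ} :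
    p ∈ prs (gr f g l) ↔ ∃ q ∈ prs l, p ∈ prs (g q.1 :: (f q.1 q.2 ++ [g q.2])) := by
  induction l with
  | nil => simp [prs, gr]
  | cons a l ih =>
    cases l with
    | nil => simp [prs, gr]
    | cons b l =>
      obtain ⟨t, ht⟩ := gr_cons f g b l
      have e : gr f g (a :: b :: l) = (g a :: f a b) ++ g b :: t := by
        rw [← ht]
        rfl
      rw [e, prs_append, List.mem_append, ← ht, ih]
      simp only [prs, List.mem_cons, List.cons_append]
      constructor
      · rintro (h | ⟨q, hq, h⟩)
        · exact ⟨(a, b), Or.inl rfl, h⟩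
        · exact ⟨q, Or.inr hq, h⟩
      · rintro ⟨q, hq | hq, h⟩
        · subst hq
          exact Or.inl h
        · exact Or.inr ⟨q, hq, h⟩

theorem mem_prs_iff {l : List ℕ} {p : ℕ × ℕ} :
    p ∈ prs l ↔ ∃ i, i + 1 < l.length ∧ p = (l.getD i 0, l.getD (i + 1) 0) := by
  induction l with
  | nil => simp [prs]
  | cons a l ih =>
    cases l with
    | nil => simp [prs]
    | cons b l =>
      simp only [prs, List.mem_cons, ih]
      constructor
      · rintro (h | ⟨i, hi, h⟩)
        · exact ⟨0, by simp, by simpa using h⟩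
        · exact ⟨i + 1, by simpa using hi, by simpa using h⟩
      · rintro ⟨i, hi, h⟩
        cases i with
        | zero => left; simpa using h
        | succ i => right; exact ⟨i, by simpa using hi, by simpa using h⟩

theorem gr_length (f : ℕ → ℕ → List ℕ) (g : ℕ → ℕ) (l : List ℕ) :
    (gr f g l).length = l.length +
      ∑ i ∈ Finset.range (l.length - 1), (f (l.getD i 0) (l.getD (i + 1) 0)).length := by
  induction l with
  | nil => simp [gr]
  | cons a l ih =>
    cases l with
    | nil => simp [gr]
    | cons b l =>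
      simp only [gr, List.length_cons, List.length_append, ih]
      have e : l.length + 1 + 1 - 1 = l.length + 1 := by omega
      have e2 : l.length + 1 - 1 = l.length := by omega
      rw [e, Finset.sum_range_succ', e2]
      simp
      omega

end Pool.Agent.Helper1.CycleMagic
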