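import Mathlib
import Pool.Agent.Helper1.CycleMagic

set_option autoImplicit false

namespace Pool.Agent.Helper1.CycleMagic.Multi

variable {D ι : Type}

/-- Static data of a family of labelled unions of closed walks: number of cuts, growth weights
in each direction, which cuts are of vertex kind, growth of the magic sum, growth of each walk,
the pieces, and their owners. -/
structure Ty (D ι : Type) where
  K : ℕ
  w : D → ℕ → ℕ
  fl : ℕ → Bool
  dj : D → ℕ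
  G : D → ι → ℕ
  pcs : List (ℕ × ℕ × ℕ)
  own : ℕ → ι

/-- Validity of the static data. -/
structure Ok [Fintype ι] [DecidableEq ι] (T : Ty D ι) : Prop where
  lt : ∀ q ∈ T.pcs, q.1 < T.K ∧ q.2.1 < T.K ∧ q.2.2 < T.K
  flq : ∀ q ∈ T.pcs, T.fl q.1 = true ∧ T.fl q.2.1 = true ∧ T.fl q.2.2 = false
  wq : ∀ d, ∀ q ∈ T.pcs, (T.w d q.1 = 0 ∧ T.w d q.2.1 = 0 ∧ T.w d q.2.2 = 0) ∨
    (T.w d q.1 = 1 ∧ T.w d q.2.1 = 1 ∧ T.w d q.2.2 = 2)
  sum : ∀ d, ∀ q ∈ T.pcs, W (T.w d) q.1 + W (T.w d) q.2.1 + W (T.w d) (q.2.2 + 1) = T.dj d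
  inj : ∀ q ∈ T.pcs, ∀ q' ∈ T.pcs, q.2.2 = q'.2.2 → q = q'
  cov : ∀ d, ∀ k < T.K, T.w d k = 0 ∨ ∃ q ∈ T.pcs, k = q.1 ∨ k = q.2.1 ∨ k = q.2.2
  tot : ∀ d, W (T.w d) T.K = 4 * ∑ i, T.G d i
  nodup : T.pcs.Nodup
  cnt : ∀ d i, (T.pcs.filter (fun q => decide (T.w d q.1 ≠ 0 ∧ T.own q.2.2 = i))).length = T.G d i

/-- Regular edges: the shifts add up to the growth of the magic sum in all directions. -/
def Reg (T : Ty D ι) (c : ℕ → ℕ) (a b e : ℕ) : Prop :=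
  ∀ d, W (T.w d) (lev c a T.K) + W (T.w d) (lev c b T.K) + W (T.w d) (lev c e T.K) = T.dj d

/-- The pair `(a, b)` is the marked edge of the piece `q`. -/
def Mk (c : ℕ → ℕ) (q : ℕ × ℕ × ℕ) (a b : ℕ) : Prop :=
  (a = c q.1 ∧ b = c q.2.1 + 1) ∨ (a = c q.2.1 + 1 ∧ b = c q.1)

instance (c : ℕ → ℕ) (q : ℕ × ℕ × ℕ) (a b : ℕ) : Decidable (Mk c q a b) := by
  unfold Mk
  infer_instance

/-- A good edge. -/
def Gd (T : Ty D ι) (J : ℕ) (c : ℕ → ℕ) (a b : ℕ) : Prop :=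
  a + b < J ∧ (Reg T c a b (J - a - b) ∨ ∃ q ∈ T.pcs, Mk c q a b)

/-- A labelled union of closed walks with cuts that can grow. -/
structure St [Fintype ι] (T : Ty D ι) (m : ι → ℕ) (J : ℕ) (c : ℕ → ℕ) (L : ι → List ℕ) :
    Prop where
  mono : ∀ k < T.K, k + 1 < T.K → c k ≤ c (k + 1)
  bd : ∀ k < T.K, c k ≤ 2 * ∑ i, m i
  len : ∀ i, (L i).length = m i + 1
  closed : ∀ i, (L i).head? = (L i).getLast?
  good : ∀ i, ∀ p ∈ prs (L i), Gd T J c p.1 p.2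
  surj : ∀ x < 2 * (∑ i, m i) + 1, 1 ≤ x →
    ∃ i, x ∈ L i ∨ ∃ p ∈ prs (L i), p.1 + p.2 + x = J
  pc : ∀ q ∈ T.pcs, c q.1 + c q.2.1 + c q.2.2 + 1 = J ∧ lev c (c q.1) T.K = q.1 ∧
    lev c (c q.2.1 + 1) T.K = q.2.1 + 1 ∧ lev c (c q.2.2) T.K = q.2.2 ∧
    ((c q.1, c q.2.1 + 1) ∈ prs (L (T.own q.2.2)) ∨
      (c q.2.1 + 1, c q.1) ∈ prs (L (T.own q.2.2)))

/-- The labels inserted in an edge. -/
def ins (T : Ty D ι) (d : D) (c : ℕ → ℕ) (a b : ℕ) : List ℕ :=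
  match T.pcs.find? (fun q => decide (T.w d q.1 ≠ 0 ∧ Mk c q a b)) with
  | none => []
  | some q =>
    if a = c q.1 ∧ b = c q.2.1 + 1 then
      [c q.2.1 + W (T.w d) q.2.1 + 1, c q.1 + W (T.w d) q.1 + 1]
    else [c q.1 + W (T.w d) q.1 + 1, c q.2.1 + W (T.w d) q.2.1 + 1]

theorem ins_cases (T : Ty D ι) (d : D) (c : ℕ → ℕ) (a b : ℕ) :
    (ins T d c a b = [] ∧ ∀ q ∈ T.pcs, T.w d q.1 ≠ 0 → ¬ Mk c q a b) ∨
    ∃ q ∈ T.pcs, T.w d q.1 ≠ 0 ∧
      ((a = c q.1 ∧ b = c q.2.1 + 1 ∧ ins T d c a b =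
        [c q.2.1 + W (T.w d) q.2.1 + 1, c q.1 + W (T.w d) q.1 + 1]) ∨
      (a = c q.2.1 + 1 ∧ b = c q.1 ∧ ins T d c a b =
        [c q.1 + W (T.w d) q.1 + 1, c q.2.1 + W (T.w d) q.2.1 + 1])) := by
  unfold ins
  cases h : T.pcs.find? (fun q => decide (T.w d q.1 ≠ 0 ∧ Mk c q a b)) with
  | none =>
    left
    refine ⟨rfl, fun q hq hw hm => ?_⟩
    rw [List.find?_eq_none] at h
    have := h q hq
    simp at this
    exact this hw hm
  | some q =>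
    right
    have h1 := List.find?_some h
    have h2 := List.mem_of_find?_eq_some h
    simp only [decide_eq_true_eq] at h1
    refine ⟨q, h2, h1.1, ?_⟩
    by_cases hc : a = c q.1 ∧ b = c q.2.1 + 1
    · left
      exact ⟨hc.1, hc.2, by simp [hc]⟩
    · right
      rcases h1.2 with h3 | h3
      · exact absurd h3 hc
      · refine ⟨h3.1, h3.2, ?_⟩
        simp only [hc, if_false]

theorem Mk_symm {c : ℕ → ℕ} {q : ℕ × ℕ × ℕ} {a b : ℕ} (h : Mk c q a b) : Mk c q b a := by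
  rcases h with ⟨h1, h2⟩ | ⟨h1, h2⟩
  · exact Or.inr ⟨h2, h1⟩
  · exact Or.inl ⟨h2, h1⟩

theorem Gd_symm {T : Ty D ι} {J : ℕ} {c : ℕ → ℕ} {a b : ℕ} (h : Gd T J c a b) :
    Gd T J c b a := by
  obtain ⟨h1, h2⟩ := h
  refine ⟨by omega, ?_⟩
  rcases h2 with h2 | ⟨q, hq, h2⟩
  · left
    intro d
    have := h2 d
    have e : J - b - a = J - a - b := by omega
    rw [e]
    omega
  · right
    exact ⟨q, hq, Mk_symm h2⟩

/-! ### Counting -/

/-- The labels of a family of closed walks, vertices first, then edges. -/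
def slot (L : ι → List ℕ) (J : ℕ) (len : ι → ℕ) :
    (Σ i, Fin (len i)) ⊕ (Σ i, Fin (len i)) → ℕ
  | Sum.inl s => (L s.1).getD s.2.val 0
  | Sum.inr s => J - (L s.1).getD s.2.val 0 - (L s.1).getD (s.2.val + 1) 0

theorem closed_getD {l : List ℕ} {m : ℕ} (hl : l.length = m + 1)
    (hc : l.head? = l.getLast?) : l.getD m 0 = l.getD 0 0 := by
  rw [List.head?_eq_getElem?, List.getLast?_eq_getElem?] at hc
  rw [hl] at hc
  simp only [Nat.add_sub_cancel] at hc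
  rw [List.getD_eq_getElem?_getD, List.getD_eq_getElem?_getD, hc]

theorem slot_surj {L : ι → List ℕ} {J N : ℕ} {len : ι → ℕ} (hl : ∀ i, (L i).length = len i + 1)
    (hm : ∀ i, 0 < len i) (hc : ∀ i, (L i).head? = (L i).getLast?)
    (hs : ∀ x < 2 * N + 1, 1 ≤ x → ∃ i, x ∈ L i ∨ ∃ p ∈ prs (L i), p.1 + p.2 + x = J) :
    ∀ x ∈ Finset.Icc 1 (2 * N), ∃ s, slot L J len s = x := by
  intro x hx
  rw [Finset.mem_Icc] at hx
  obtain ⟨a, h⟩ := hs x (by omega) hx.1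
  rcases h with h | ⟨p, hp, h⟩
  · obtain ⟨i, hi, hi'⟩ := List.getElem_of_mem h
    rcases Nat.lt_or_ge i (len a) with him | him
    · refine ⟨Sum.inl ⟨a, ⟨i, him⟩⟩, ?_⟩
      simp [slot, List.getD_eq_getElem?_getD, List.getElem?_eq_getElem hi, hi']
    · have e : i = len a := by
        have := hl a
        omega
      subst e
      refine ⟨Sum.inl ⟨a, ⟨0, hm a⟩⟩, ?_⟩
      have := closed_getD (hl a) (hc a)
      simp only [slot]
      rw [← this]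
      simp [List.getD_eq_getElem?_getD, List.getElem?_eq_getElem hi, hi']
  · obtain ⟨i, hi, hi'⟩ := mem_prs_iff.1 hp
    refine ⟨Sum.inr ⟨a, ⟨i, ?_⟩⟩, ?_⟩
    · have := hl a
      omega
    subst hi'
    simp only [slot]
    simp only at h
    omega

theorem slot_inj [Fintype ι] {L : ι → List ℕ} {J : ℕ} {len : ι → ℕ}
    (hl : ∀ i, (L i).length = len i + 1)
    (hm : ∀ i, 0 < len i) (hc : ∀ i, (L i).head? = (L i).getLast?)
    (hs : ∀ x < 2 * (∑ i, len i) + 1, 1 ≤ x →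
      ∃ i, x ∈ L i ∨ ∃ p ∈ prs (L i), p.1 + p.2 + x = J) :
    Function.Injective (slot L J len) ∧
      ∀ s, 1 ≤ slot L J len s ∧ slot L J len s ≤ 2 * ∑ i, len i := by
  classical
  have h1 : Finset.Icc 1 (2 * ∑ i, len i) ⊆ Finset.univ.image (slot L J len) := by
    intro x hx
    obtain ⟨s, hs'⟩ := slot_surj hl hm hc hs x hx
    exact Finset.mem_image.2 ⟨s, Finset.mem_univ _, hs'⟩
  have h3 := Finset.card_image_le (s := Finset.univ) (f := slot L J len)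
  have h4 : (Finset.univ : Finset ((Σ i, Fin (len i)) ⊕ (Σ i, Fin (len i)))).card =
      2 * ∑ i, len i := by
    simp [two_mul]
  have h5 : (Finset.Icc 1 (2 * ∑ i, len i)).card = 2 * ∑ i, len i := by simp
  have h6 : Finset.Icc 1 (2 * ∑ i, len i) = Finset.univ.image (slot L J len) := by
    apply Finset.eq_of_subset_of_card_le h1
    omega
  constructor
  · have h7 : (Finset.univ.image (slot L J len)).card =
        (Finset.univ : Finset ((Σ i, Fin (len i)) ⊕ (Σ i, Fin (len i)))).card := by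
      rw [← h6, h4, h5]
    have h8 := Finset.card_image_iff.1 h7
    intro a b hab
    exact h8 (by simp) (by simp) hab
  · intro s
    have : slot L J len s ∈ Finset.univ.image (slot L J len) :=
      Finset.mem_image.2 ⟨s, Finset.mem_univ _, rfl⟩
    rw [← h6, Finset.mem_Icc] at this
    exact this

theorem mono' [Fintype ι] {T : Ty D ι} {len : ι → ℕ} {J : ℕ} {c : ℕ → ℕ} {L : ι → List ℕ}
    (h : St T len J c L) :
    ∀ k, k + 1 < T.K → c k ≤ c (k + 1) := fun k hk => h.mono k (by omega) hk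

/-- Two pieces marking the same edge are equal. -/
theorem mk_unique [Fintype ι] [DecidableEq ι] {T : Ty D ι} (hT : Ok T) {len : ι → ℕ} {J : ℕ}
    {c : ℕ → ℕ} {L : ι → List ℕ} (h : St T len J c L)
    {q q' : ℕ × ℕ × ℕ} (hq : q ∈ T.pcs) (hq' : q' ∈ T.pcs) {a b : ℕ} (h1 : Mk c q a b)
    (h2 : Mk c q' a b) : q = q' := by
  have e1 := (h.pc q hq).1
  have e2 := (h.pc q' hq').1
  have s1 : a + b + c q.2.2 = J := by
    rcases h1 with ⟨h1, h1'⟩ | ⟨h1, h1'⟩ <;> omega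
  have s2 : a + b + c q'.2.2 = J := by
    rcases h2 with ⟨h2, h2'⟩ | ⟨h2, h2'⟩ <;> omega
  have e3 : c q.2.2 = c q'.2.2 := by omega
  apply hT.inj q hq q' hq'
  have l1 := (h.pc q hq).2.2.2.1
  have l2 := (h.pc q' hq').2.2.2.1
  rw [← l1, ← l2, e3]

/-- The shift of labels. -/
def sh (T : Ty D ι) (d : D) (c : ℕ → ℕ) (x : ℕ) : ℕ := x + W (T.w d) (lev c x T.K)

/-- New cuts. -/
def cN (T : Ty D ι) (d : D) (c : ℕ → ℕ) : ℕ → ℕ := nc (T.w d) T.fl c

/-- New walks. -/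
def LN (T : Ty D ι) (d : D) (c : ℕ → ℕ) (L : ι → List ℕ) (i : ι) : List ℕ :=
  gr (ins T d c) (sh T d c) (L i)

end Pool.Agent.Helper1.CycleMagic.Multi
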