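import Mathlib
import Pool.Agent.Helper1.Multi1

set_option autoImplicit false

namespace Pool.Agent.Helper1.CycleMagic.Multi

variable {D ι : Type}

/-- One growth step. -/
theorem step [Fintype ι] [DecidableEq ι] {T : Ty D ι} (hT : Ok T) {m : ι → ℕ} {J : ℕ}
    {c : ℕ → ℕ} {L : ι → List ℕ} (h : St T m J c L) (hn : ∀ i, 0 < m i) (d : D) :
    St T (fun i => m i + 2 * T.G d i) (J + T.dj d) (cN T d c) (LN T d c L) := by
  have hm := mono' h
  set w := T.w d with hw
  set K := T.K with hK
  set n := ∑ i, m i with hnn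
  have hsum : ∑ i, (m i + 2 * T.G d i) = n + 2 * ∑ i, T.G d i := by
    rw [Finset.sum_add_distrib, Finset.mul_sum]
  set c' := cN T d c with hc'
  have hc'' : c' = nc w T.fl c := rfl
  have hm' : ∀ k, k + 1 < K → c' k ≤ c' (k + 1) := nc_mono hm
  set g : ℕ → ℕ := sh T d c with hg
  have hgx : ∀ x, g x = x + W w (lev c x K) := fun x => rfl
  set L' := LN T d c L with hL'def
  have hl' : ∀ i, L' i = gr (ins T d c) g (L i) := fun i => rfl
  have hL : ∀ x, IsLev c K x (lev c x K) := fun x => isLev_lev hm x
  have hL' : ∀ x, lev c' (g x) K = lev c x K := fun x =>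
    lev_unique (isLev_step (w := w) (fl := T.fl) (hL x))
  -- level facts for pieces
  have hP : ∀ q ∈ T.pcs, IsLev c K (c q.1) q.1 := fun q hq => by
    have := hL (c q.1)
    rwa [(h.pc q hq).2.1] at this
  have hQ : ∀ q ∈ T.pcs, IsLev c K (c q.2.1 + 1) (q.2.1 + 1) := fun q hq => by
    have := hL (c q.2.1 + 1)
    rwa [(h.pc q hq).2.2.1] at this
  have hR : ∀ q ∈ T.pcs, IsLev c K (c q.2.2) q.2.2 := fun q hq => by
    have := hL (c q.2.2)
    rwa [(h.pc q hq).2.2.2.1] at this
  have gP : ∀ q ∈ T.pcs, g (c q.1) = c q.1 + W w q.1 := fun q hq => by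
    rw [hgx]
    rw [(h.pc q hq).2.1]
  have gQ : ∀ q ∈ T.pcs, g (c q.2.1 + 1) = c q.2.1 + 1 + W w (q.2.1 + 1) := fun q hq => by
    rw [hgx]
    rw [(h.pc q hq).2.2.1]
  have gR : ∀ q ∈ T.pcs, g (c q.2.2) = c q.2.2 + W w q.2.2 := fun q hq => by
    rw [hgx]
    rw [(h.pc q hq).2.2.2.1]
  have cP : ∀ q ∈ T.pcs, c' q.1 = c q.1 + W w q.1 + w q.1 := fun q hq => by
    simp only [hc'', nc, (hT.flq q hq).1, if_true]
  have cQ : ∀ q ∈ T.pcs, c' q.2.1 = c q.2.1 + W w q.2.1 + w q.2.1 := fun q hq => by
    simp only [hc'', nc, (hT.flq q hq).2.1, if_true]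
  have cR : ∀ q ∈ T.pcs, c' q.2.2 = c q.2.2 + W w q.2.2 := fun q hq => by
    simp only [hc'', nc, (hT.flq q hq).2.2, Bool.false_eq_true, if_false, Nat.add_zero]
  -- new cut levels
  have lP : ∀ q ∈ T.pcs, lev c' (c' q.1) K = q.1 := fun q hq => by
    apply lev_unique
    obtain ⟨a1, a2, a3⟩ := hP q hq
    refine ⟨a1, fun k hk => ?_, fun k hk hk' => mono_le hm' hk' hk⟩
    have b1 := nc_le w T.fl c k
    have b2 := a2 k hk
    have b3 := W_mono w (show k + 1 ≤ q.1 by omega)
    have b4 := cP q hq
    simp only [hc''] at b4 ⊢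
    omega
  have lQ : ∀ q ∈ T.pcs, lev c' (c' q.2.1) K = q.2.1 ∨ w q.2.1 = 0 := fun q hq => by
    rcases Nat.eq_zero_or_pos (w q.2.1) with h0 | h0
    · exact Or.inr h0
    left
    apply lev_unique
    have a1 := (hT.lt q hq).2.1
    refine ⟨le_of_lt a1, fun k hk => ?_, fun k hk hk' => mono_le hm' hk' hk⟩
    have b1 := nc_le w T.fl c k
    have b2 := mono_le hm (show k ≤ q.2.1 by omega) a1
    have b3 := W_mono w (show k + 1 ≤ q.2.1 by omega)
    have b4 := cQ q hq
    simp only [hc''] at b4 ⊢
    omega
  have lQ1 : ∀ q ∈ T.pcs, lev c' (c' q.2.1 + 1) K = q.2.1 + 1 := fun q hq => by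
    apply lev_unique
    obtain ⟨a1, a2, a3⟩ := hQ q hq
    refine ⟨a1, fun k hk => ?_, fun k hk hk' => ?_⟩
    · have := mono_le hm' (show k ≤ q.2.1 by omega) (hT.lt q hq).2.1
      omega
    · have b1 := nc_ge w T.fl c k
      have b2 := a3 k hk hk'
      have b3 := W_mono w hk'
      have b4 := cQ q hq
      have b5 : W w (q.2.1 + 1) = W w q.2.1 + w q.2.1 := rfl
      simp only [hc''] at b4 ⊢
      omega
  have lR : ∀ q ∈ T.pcs, lev c' (c' q.2.2) K = q.2.2 := fun q hq => by
    apply lev_unique
    obtain ⟨a1, a2, a3⟩ := hR q hq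
    refine ⟨a1, fun k hk => ?_, fun k hk hk' => mono_le hm' hk' hk⟩
    have b1 := nc_le w T.fl c k
    have b2 := a2 k hk
    have b3 := W_mono w (show k + 1 ≤ q.2.2 by omega)
    have b4 := cR q hq
    simp only [hc''] at b4 ⊢
    omega
  have lR1 : ∀ q ∈ T.pcs, ∀ t, 1 ≤ t → t ≤ w q.2.2 → lev c' (c' q.2.2 + t) K = q.2.2 + 1 :=
      fun q hq t ht ht' => by
    apply lev_unique
    have a0 := (hT.lt q hq).2.2
    refine ⟨a0, fun k hk => ?_, fun k hk hk' => ?_⟩
    · have := mono_le hm' (show k ≤ q.2.2 by omega) a0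
      omega
    · have b1 := nc_ge w T.fl c k
      have b2 := mono_le hm (show q.2.2 ≤ k by omega) hk
      have b3 := W_mono w hk'
      have b4 := cR q hq
      have b5 : W w (q.2.2 + 1) = W w q.2.2 + w q.2.2 := rfl
      simp only [hc''] at b4 ⊢
      omega
  -- piece identity in the new state
  have hJ' : ∀ q ∈ T.pcs, c' q.1 + c' q.2.1 + c' q.2.2 + 1 = J + T.dj d := fun q hq => by
    have e1 := (h.pc q hq).1
    have e2 := hT.sum d q hq
    have e3 : W w (q.2.2 + 1) = W w q.2.2 + w q.2.2 := rfl
    rw [cP q hq, cQ q hq, cR q hq]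
    rcases hT.wq d q hq with ⟨z1, z2, z3⟩ | ⟨z1, z2, z3⟩
    · simp only [← hw] at z1 z2 z3 e2
      omega
    · simp only [← hw] at z1 z2 z3 e2
      omega
  -- growing pieces
  have hgrow : ∀ q ∈ T.pcs, w q.1 ≠ 0 → w q.1 = 1 ∧ w q.2.1 = 1 ∧ w q.2.2 = 2 := fun q hq hz => by
    rcases hT.wq d q hq with ⟨z1, z2, z3⟩ | z
    · exact absurd z1 hz
    · exact z
  have hstat : ∀ q ∈ T.pcs, ¬ w q.1 ≠ 0 → w q.1 = 0 ∧ w q.2.1 = 0 ∧ w q.2.2 = 0 := fun q hq hz => by
    rcases hT.wq d q hq with z | ⟨z1, z2, z3⟩
    · exact z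
    · exact absurd (by rw [hw, z1]; omega) hz
  -- good new edges of a growing piece
  have good1 : ∀ q ∈ T.pcs, w q.1 ≠ 0 → Gd T (J + T.dj d) c' (g (c q.1)) (c' q.2.1) := by
    intro q hq hz
    obtain ⟨z1, z2, z3⟩ := hgrow q hq hz
    have j := hJ' q hq
    have a1 := gP q hq
    have a2 := cP q hq
    refine ⟨by omega, Or.inl ?_⟩
    intro d'
    have e : J + T.dj d - g (c q.1) - c' q.2.1 = c' q.2.2 + 2 := by omega
    rw [e, hL' (c q.1), (h.pc q hq).2.1]
    rcases lQ q hq with l1 | l1
    · rw [l1, lR1 q hq 2 (by omega) (by omega)]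
      exact hT.sum d' q hq
    · omega
  have good2 : ∀ q ∈ T.pcs, w q.1 ≠ 0 → Gd T (J + T.dj d) c' (c' q.2.1) (c' q.1) := by
    intro q hq hz
    obtain ⟨z1, z2, z3⟩ := hgrow q hq hz
    have j := hJ' q hq
    refine ⟨by omega, Or.inl ?_⟩
    intro d'
    have e : J + T.dj d - c' q.2.1 - c' q.1 = c' q.2.2 + 1 := by omega
    rw [e, lP q hq]
    rcases lQ q hq with l1 | l1
    · rw [l1, lR1 q hq 1 (by omega) (by omega)]
      have := hT.sum d' q hq
      omega
    · omega
  have gQ' : ∀ q ∈ T.pcs, g (c q.2.1 + 1) = c' q.2.1 + 1 := by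
    intro q hq
    have a1 := gQ q hq
    have a2 := cQ q hq
    have a3 : W w (q.2.1 + 1) = W w q.2.1 + w q.2.1 := rfl
    omega
  have good3 : ∀ q ∈ T.pcs, Gd T (J + T.dj d) c' (c' q.1) (g (c q.2.1 + 1)) := by
    intro q hq
    have j := hJ' q hq
    have a1 := gQ' q hq
    have e1 := (h.pc q hq).1
    refine ⟨?_, Or.inr ⟨q, hq, Or.inl ⟨rfl, a1⟩⟩⟩
    -- the label of the marked edge is positive
    have b1 : c q.1 + (c q.2.1 + 1) < J := by
      rcases (h.pc q hq).2.2.2.2 with hp | hp
      · have := (h.good _ _ hp).1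
        simpa using this
      · have := (h.good _ _ hp).1
        simp only at this
        omega
    have b2 := cR q hq
    omega
  -- inserted labels in terms of the new cuts
  have insP : ∀ q ∈ T.pcs, w q.1 ≠ 0 → c q.1 + W w q.1 + 1 = c' q.1 := fun q hq hz => by
    obtain ⟨z1, z2, z3⟩ := hgrow q hq hz
    have := cP q hq
    omega
  have insQ : ∀ q ∈ T.pcs, w q.1 ≠ 0 → c q.2.1 + W w q.2.1 + 1 = c' q.2.1 := fun q hq hz => by
    obtain ⟨z1, z2, z3⟩ := hgrow q hq hz
    have := cQ q hq
    omega
  -- all new edges are good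
  have hgood : ∀ i, ∀ p ∈ prs (L' i), Gd T (J + T.dj d) c' p.1 p.2 := by
    intro i p hp
    rw [hl', prs_gr] at hp
    obtain ⟨⟨a, b⟩, hab, hp⟩ := hp
    simp only at hp
    rcases ins_cases T d c a b with ⟨i1, i2⟩ | ⟨q, hq, hz, hi⟩
    · rw [i1] at hp
      simp only [List.nil_append, prs, List.mem_cons, List.not_mem_nil, or_false] at hp
      subst hp
      simp only
      obtain ⟨g1, g2⟩ := h.good _ _ hab
      simp only at g1 g2
      rcases g2 with g2 | ⟨q, hq, g2⟩
      · have e : g a + g b + g (J - a - b) = J + T.dj d := by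
          have := g2 d
          simp only [hgx]
          simp only [← hw, ← hK] at this
          omega
        have e5 : J - a - b ≤ g (J - a - b) := by simp [hgx]
        refine ⟨by omega, Or.inl ?_⟩
        have e2 : J + T.dj d - g a - g b = g (J - a - b) := by omega
        intro d'
        rw [e2, hL' a, hL' b, hL' (J - a - b)]
        exact g2 d'
      · have hz : ¬ w q.1 ≠ 0 := fun hz => i2 q hq hz g2
        obtain ⟨z1, z2, z3⟩ := hstat q hq hz
        have b1 := good3 q hq
        have b2 := gP q hq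
        have b3 := cP q hq
        have b4 : g (c q.1) = c' q.1 := by omega
        rcases g2 with ⟨g3, g4⟩ | ⟨g3, g4⟩
        · subst g3 g4
          rw [b4]
          exact b1
        · subst g3 g4
          rw [b4]
          exact Gd_symm b1
    · have y1 := insP q hq hz
      have y2 := insQ q hq hz
      have z1 := good1 q hq hz
      have z2 := good2 q hq hz
      have z3 := good3 q hq
      rcases hi with ⟨ha, hb, hi⟩ | ⟨ha, hb, hi⟩
      · rw [hi, ha, hb, y1, y2] at hp
        simp only [List.cons_append, List.nil_append, prs, List.mem_cons, List.not_mem_nil,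
          or_false] at hp
        rcases hp with hp | hp | hp
        · subst hp
          exact z1
        · subst hp
          exact z2
        · subst hp
          exact z3
      · rw [hi, ha, hb, y1, y2] at hp
        simp only [List.cons_append, List.nil_append, prs, List.mem_cons, List.not_mem_nil,
          or_false] at hp
        rcases hp with hp | hp | hp
        · subst hp
          exact Gd_symm z3
        · subst hp
          exact Gd_symm z2
        · subst hp
          exact Gd_symm z1
  -- the new path of a growing piece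
  have hpath : ∀ q ∈ T.pcs, w q.1 ≠ 0 →
      ((g (c q.1), c' q.2.1) ∈ prs (L' (T.own q.2.2)) ∧
        (c' q.2.1, c' q.1) ∈ prs (L' (T.own q.2.2)) ∧
        (c' q.1, g (c q.2.1 + 1)) ∈ prs (L' (T.own q.2.2)) ∧
        c' q.1 ∈ L' (T.own q.2.2) ∧ c' q.2.1 ∈ L' (T.own q.2.2)) ∨
      ((c' q.2.1, g (c q.1)) ∈ prs (L' (T.own q.2.2)) ∧
        (c' q.1, c' q.2.1) ∈ prs (L' (T.own q.2.2)) ∧
        (g (c q.2.1 + 1), c' q.1) ∈ prs (L' (T.own q.2.2)) ∧
        c' q.1 ∈ L' (T.own q.2.2) ∧ c' q.2.1 ∈ L' (T.own q.2.2)) := by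
    intro q hq hz
    have y1 := insP q hq hz
    have y2 := insQ q hq hz
    -- both orientations handled uniformly
    have main : ∀ a b, (a, b) ∈ prs (L (T.own q.2.2)) → Mk c q a b →
      ((g (c q.1), c' q.2.1) ∈ prs (L' (T.own q.2.2)) ∧
        (c' q.2.1, c' q.1) ∈ prs (L' (T.own q.2.2)) ∧
        (c' q.1, g (c q.2.1 + 1)) ∈ prs (L' (T.own q.2.2)) ∧
        c' q.1 ∈ L' (T.own q.2.2) ∧ c' q.2.1 ∈ L' (T.own q.2.2)) ∨
      ((c' q.2.1, g (c q.1)) ∈ prs (L' (T.own q.2.2)) ∧
        (c' q.1, c' q.2.1) ∈ prs (L' (T.own q.2.2)) ∧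
        (g (c q.2.1 + 1), c' q.1) ∈ prs (L' (T.own q.2.2)) ∧
        c' q.1 ∈ L' (T.own q.2.2) ∧ c' q.2.1 ∈ L' (T.own q.2.2)) := by
      intro a b hab hmk
      rcases ins_cases T d c a b with ⟨i1, i2⟩ | ⟨q', hq', hz', hi⟩
      · exact absurd hmk (i2 q hq hz)
      · have hmk' : Mk c q' a b := by
          rcases hi with ⟨u1, u2, _⟩ | ⟨u1, u2, _⟩
          · exact Or.inl ⟨u1, u2⟩
          · exact Or.inr ⟨u1, u2⟩
        have e := mk_unique hT h hq hq' hmk hmk'
        subst e
        rcases hi with ⟨ha, hb, hi⟩ | ⟨ha, hb, hi⟩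
        · left
          rw [y1, y2] at hi
          have hp : ∀ p, p ∈ prs (g a :: (ins T d c a b ++ [g b])) →
              p ∈ prs (L' (T.own q.2.2)) := by
            intro p hp
            rw [hl', prs_gr]
            exact ⟨(a, b), hab, hp⟩
          rw [hi, ha, hb] at hp
          refine ⟨hp _ (by simp [prs]), hp _ (by simp [prs]), hp _ (by simp [prs]), ?_, ?_⟩
          · exact mem_gr_ins hab (by simp only [hi]; simp)
          · exact mem_gr_ins hab (by simp only [hi]; simp)
        · right
          rw [y1, y2] at hi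
          have hp : ∀ p, p ∈ prs (g a :: (ins T d c a b ++ [g b])) →
              p ∈ prs (L' (T.own q.2.2)) := by
            intro p hp
            rw [hl', prs_gr]
            exact ⟨(a, b), hab, hp⟩
          rw [hi, ha, hb] at hp
          refine ⟨hp _ (by simp [prs]), hp _ (by simp [prs]), hp _ (by simp [prs]), ?_, ?_⟩
          · exact mem_gr_ins hab (by simp only [hi]; simp)
          · exact mem_gr_ins hab (by simp only [hi]; simp)
    rcases (h.pc q hq).2.2.2.2 with hp | hp
    · exact main _ _ hp (Or.inl ⟨rfl, rfl⟩)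
    · exact main _ _ hp (Or.inr ⟨rfl, rfl⟩)
  have htot : W w K = 4 * ∑ i, T.G d i := hT.tot d
  -- every label is used
  have hsurj : ∀ y < 2 * (n + 2 * ∑ i, T.G d i) + 1, 1 ≤ y →
      ∃ i, y ∈ L' i ∨ ∃ p ∈ prs (L' i), p.1 + p.2 + y = J + T.dj d := by
    intro y hy hy1
    rcases cover (w := w) hm y with ⟨x, lv, hlv, hx⟩ | ⟨k, hk, hk1, hk2⟩
    · have hlv' := lev_unique hlv
      have hgx' : g x = y := by
        simp only [hgx]
        rw [hlv', hx]
      have hxn : x < 2 * n + 1 := by
        by_contra hc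
        have : lv = K := by
          rcases Nat.lt_or_ge lv K with h1 | h1
          · have h2 := hlv.2.2 lv h1 le_rfl
            have h3 := h.bd lv h1
            omega
          · have := hlv.1
            omega
        rw [this] at hx
        omega
      have hx1 : 1 ≤ x := by
        by_contra hc
        have h0 : x = 0 := by omega
        have : lv = 0 := by
          rcases Nat.eq_zero_or_pos lv with h1 | h1
          · exact h1
          · have := hlv.2.1 0 h1
            omega
        subst this
        simp [W] at hx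
        omega
      obtain ⟨io, h4⟩ := h.surj x hxn hx1
      rcases h4 with hs | ⟨⟨a, b⟩, hab, hs⟩
      · refine ⟨io, Or.inl ?_⟩
        rw [← hgx']
        exact mem_gr hs
      · simp only at hs
        rcases ins_cases T d c a b with ⟨i1, i2⟩ | ⟨q, hq, hz, hi⟩
        · refine ⟨io, Or.inr ⟨(g a, g b), ?_, ?_⟩⟩
          · rw [hl', prs_gr]
            refine ⟨(a, b), hab, ?_⟩
            simp only [i1]
            simp [prs]
          · simp only
            rw [← hgx']
            obtain ⟨g1, g2⟩ := h.good _ _ hab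
            simp only at g1 g2
            have e : J - a - b = x := by omega
            rw [e] at g2
            rcases g2 with g2 | ⟨q, hq, g2⟩
            · have := g2 d
              simp only [hgx]
              simp only [← hw, ← hK] at this
              omega
            · have hz : ¬ w q.1 ≠ 0 := fun hz => i2 q hq hz g2
              obtain ⟨z1, z2, z3⟩ := hstat q hq hz
              have j1 := (h.pc q hq).1
              have j2 := hJ' q hq
              have b1 := gP q hq
              have b2 := gQ' q hq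
              have b3 := gR q hq
              have b4 := cP q hq
              have b5 := cR q hq
              have ex : x = c q.2.2 := by
                rcases g2 with ⟨g3, g4⟩ | ⟨g3, g4⟩ <;> omega
              subst ex
              rcases g2 with ⟨g3, g4⟩ | ⟨g3, g4⟩
              · subst g3 g4
                omega
              · subst g3 g4
                omega
        · have ex : x = c q.2.2 := by
            have j1 := (h.pc q hq).1
            rcases hi with ⟨g3, g4, _⟩ | ⟨g3, g4, _⟩ <;> omega
          have b1 := gR q hq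
          have b2 := cR q hq
          have j2 := hJ' q hq
          have b3 := gQ' q hq
          refine ⟨T.own q.2.2, Or.inr ?_⟩
          rcases hpath q hq hz with hp | hp
          · refine ⟨_, hp.2.2.1, ?_⟩
            simp only
            rw [← hgx', ex]
            omega
          · refine ⟨_, hp.2.2.1, ?_⟩
            simp only
            rw [← hgx', ex]
            omega
    · have hwk : w k ≠ 0 := by omega
      rcases hT.cov d k hk with h0 | ⟨q, hq, hk'⟩
      · exact absurd h0 hwk
      · have hz : w q.1 ≠ 0 := by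
          rcases hT.wq d q hq with ⟨z1, z2, z3⟩ | ⟨z1, z2, z3⟩
          · simp only [← hw] at z1 z2 z3
            rcases hk' with e | e | e <;> (subst e; omega)
          · simp only [← hw] at z1
            omega
        obtain ⟨z1, z2, z3⟩ := hgrow q hq hz
        have y1 := insP q hq hz
        have y2 := insQ q hq hz
        have b2 := cR q hq
        have j2 := hJ' q hq
        have b3 := gP q hq
        refine ⟨T.own q.2.2, ?_⟩
        rcases hk' with e | e | e
        · left
          subst e
          have ey : y = c' q.1 := by omega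
          rw [ey]
          rcases hpath q hq hz with hp | hp
          · exact hp.2.2.2.1
          · exact hp.2.2.2.1
        · left
          subst e
          have ey : y = c' q.2.1 := by omega
          rw [ey]
          rcases hpath q hq hz with hp | hp
          · exact hp.2.2.2.2
          · exact hp.2.2.2.2
        · right
          subst e
          have ey : y = c' q.2.2 + 1 ∨ y = c' q.2.2 + 2 := by omega
          rcases ey with ey | ey
          · rcases hpath q hq hz with hp | hp
            · exact ⟨_, hp.2.1, by simp only; omega⟩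
            · exact ⟨_, hp.2.1, by simp only; omega⟩
          · rcases hpath q hq hz with hp | hp
            · exact ⟨_, hp.1, by simp only; omega⟩
            · exact ⟨_, hp.1, by simp only; omega⟩
  have hclosed : ∀ i, (L' i).head? = (L' i).getLast? := by
    intro i
    rw [hl', gr_head, gr_last, h.closed]
  -- length
  have hlen1 : ∀ i, (L' i).length = m i + 1 +
      ∑ j ∈ Finset.range (m i), (ins T d c ((L i).getD j 0) ((L i).getD (j + 1) 0)).length := by
    intro i
    rw [hl', gr_length, h.len]
    simp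
  have hins2 : ∀ a b, (ins T d c a b).length = if ins T d c a b = [] then 0 else 2 := by
    intro a b
    rcases ins_cases T d c a b with ⟨i1, i2⟩ | ⟨q, hq, hz, ⟨_, _, hi⟩ | ⟨_, _, hi⟩⟩
    · simp [i1]
    · simp [hi]
    · simp [hi]
  have hinj := (slot_inj h.len hn h.closed h.surj).1
  -- marked edge of a piece as an index
  have hidx : ∀ q ∈ T.pcs, ∃ j, j < m (T.own q.2.2) ∧
      Mk c q ((L (T.own q.2.2)).getD j 0) ((L (T.own q.2.2)).getD (j + 1) 0) := by
    intro q hq
    have hlen := h.len (T.own q.2.2)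
    rcases (h.pc q hq).2.2.2.2 with hp | hp
    · obtain ⟨j, hj, hj'⟩ := mem_prs_iff.1 hp
      refine ⟨j, by omega, ?_⟩
      rw [Prod.mk.injEq] at hj'
      exact Or.inl ⟨hj'.1.symm, hj'.2.symm⟩
    · obtain ⟨j, hj, hj'⟩ := mem_prs_iff.1 hp
      refine ⟨j, by omega, ?_⟩
      rw [Prod.mk.injEq] at hj'
      exact Or.inr ⟨hj'.1.symm, hj'.2.symm⟩
  have hmksum : ∀ q ∈ T.pcs, ∀ a b, Mk c q a b → a + b + c q.2.2 = J := by
    intro q hq a b hmk
    have j1 := (h.pc q hq).1
    rcases hmk with ⟨g3, g4⟩ | ⟨g3, g4⟩ <;> omega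
  have hslot : ∀ i j i' j', j < m i → j' < m i' →
      J - (L i).getD j 0 - (L i).getD (j + 1) 0 = J - (L i').getD j' 0 - (L i').getD (j' + 1) 0 →
      i = i' ∧ j = j' := by
    intro i j i' j' hj hj' he
    have e3 : slot L J m (Sum.inr ⟨i, ⟨j, hj⟩⟩) = slot L J m (Sum.inr ⟨i', ⟨j', hj'⟩⟩) := he
    have := hinj e3
    simp only [Sum.inr.injEq, Sigma.mk.injEq] at this
    obtain ⟨h1, h2⟩ := this
    subst h1
    simp only [heq_eq_eq, Fin.mk.injEq] at h2
    exact ⟨rfl, h2⟩
  have hcardeq : ∀ i, ((Finset.range (m i)).filter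
      (fun j => ¬ ins T d c ((L i).getD j 0) ((L i).getD (j + 1) 0) = [])).card = T.G d i := by
    intro i
    have hGc : (T.pcs.filter (fun q => decide (T.w d q.1 ≠ 0 ∧ T.own q.2.2 = i))).toFinset.card
        = T.G d i := by
      rw [List.toFinset_card_of_nodup (hT.nodup.filter _), hT.cnt d i]
    rw [← hGc]
    apply le_antisymm
    · have hex : ∀ j ∈ (Finset.range (m i)).filter
          (fun j => ¬ ins T d c ((L i).getD j 0) ((L i).getD (j + 1) 0) = []),
          ∃ q ∈ T.pcs, T.w d q.1 ≠ 0 ∧ T.own q.2.2 = i ∧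
            Mk c q ((L i).getD j 0) ((L i).getD (j + 1) 0) := by
        intro j hj
        rw [Finset.mem_filter, Finset.mem_range] at hj
        rcases ins_cases T d c ((L i).getD j 0) ((L i).getD (j + 1) 0) with
          ⟨i1, i2⟩ | ⟨q, hq, hz, hi'⟩
        · exact absurd i1 hj.2
        · have hmk : Mk c q ((L i).getD j 0) ((L i).getD (j + 1) 0) := by
            rcases hi' with ⟨u1, u2, _⟩ | ⟨u1, u2, _⟩
            · exact Or.inl ⟨u1, u2⟩
            · exact Or.inr ⟨u1, u2⟩
          refine ⟨q, hq, hz, ?_, hmk⟩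
          obtain ⟨j', hj', hmk'⟩ := hidx q hq
          have s1 := hmksum q hq _ _ hmk
          have s2 := hmksum q hq _ _ hmk'
          exact (hslot _ _ _ _ hj' hj.1 (by omega)).1
      choose! F hF1 hF2 hF3 hF4 using hex
      apply Finset.card_le_card_of_injOn F
      · intro j hj
        have a1 := hF1 j hj
        have a2 := hF2 j hj
        have a3 := hF3 j hj
        simp only [Finset.mem_coe, List.mem_toFinset, List.mem_filter, decide_eq_true_eq]
        exact ⟨a1, a2, a3⟩
      · intro j hj k hk hjk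
        have s1 := hmksum _ (hF1 j hj) _ _ (hF4 j hj)
        have s2 := hmksum _ (hF1 k hk) _ _ (hF4 k hk)
        rw [hjk] at s1
        have hj1 := (Finset.mem_filter.1 hj).1
        have hk1 := (Finset.mem_filter.1 hk).1
        rw [Finset.mem_range] at hj1 hk1
        exact (hslot _ _ _ _ hj1 hk1 (by omega)).2
    · have hex : ∀ q ∈ (T.pcs.filter
          (fun q => decide (T.w d q.1 ≠ 0 ∧ T.own q.2.2 = i))).toFinset,
          ∃ j, j < m i ∧ Mk c q ((L i).getD j 0) ((L i).getD (j + 1) 0) := by
        intro q hq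
        simp only [List.mem_toFinset, List.mem_filter, decide_eq_true_eq] at hq
        obtain ⟨hq, hz, ho⟩ := hq
        obtain ⟨j, hj, hmk⟩ := hidx q hq
        rw [ho] at hj hmk
        exact ⟨j, hj, hmk⟩
      choose! F hF1 hF2 using hex
      apply Finset.card_le_card_of_injOn F
      · intro q hq
        have a1 := hF1 q hq
        have a2 := hF2 q hq
        have hq' := hq
        simp only [Finset.mem_coe, List.mem_toFinset, List.mem_filter, decide_eq_true_eq] at hq'
        simp only [Finset.coe_filter, Finset.mem_range, Set.mem_setOf_eq]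
        refine ⟨a1, ?_⟩
        rcases ins_cases T d c ((L i).getD (F q) 0) ((L i).getD (F q + 1) 0) with
          ⟨i1, i2⟩ | ⟨q', hq', hz, hi'⟩
        · exact absurd a2 (i2 q hq'.1 hq'.2.1)
        · rcases hi' with ⟨_, _, hi'⟩ | ⟨_, _, hi'⟩ <;>
            (rw [hi']; exact List.cons_ne_nil _ _)
      · intro q hq q' hq' he
        have a2 := hF2 q hq
        have a2' := hF2 q' hq'
        simp only [Finset.mem_coe, List.mem_toFinset, List.mem_filter, decide_eq_true_eq]
          at hq hq'
        rw [he] at a2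
        exact mk_unique hT h hq.1 hq'.1 a2 a2'
  have hlen2 : ∀ i, (L' i).length = m i + 2 * T.G d i + 1 := by
    intro i
    rw [hlen1]
    have : ∑ j ∈ Finset.range (m i),
        (ins T d c ((L i).getD j 0) ((L i).getD (j + 1) 0)).length = 2 * T.G d i := by
      rw [← hcardeq i, Finset.card_filter, Finset.mul_sum]
      apply Finset.sum_congr rfl
      intro j _
      rw [hins2]
      split_ifs <;> simp_all
    omega
  refine ⟨fun k _ hk => hm' k hk, ?_, hlen2, hclosed, hgood, ?_, ?_⟩
  · intro k hk
    have b1 := nc_le w T.fl c k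
    have b2 := h.bd k hk
    have b3 := W_mono w (show k + 1 ≤ K by omega)
    rw [hsum]
    simp only [hc'']
    omega
  · rw [hsum]
    exact hsurj
  · intro q hq
    refine ⟨hJ' q hq, lP q hq, lQ1 q hq, lR q hq, ?_⟩
    by_cases hz : w q.1 ≠ 0
    · have := gQ' q hq
      rcases hpath q hq hz with hp | hp
      · left
        rw [← this]
        exact hp.2.2.1
      · right
        rw [← this]
        exact hp.2.2.1
    · obtain ⟨z1, z2, z3⟩ := hstat q hq hz
      have b1 := gP q hq
      have b2 := cP q hq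
      have b3 : g (c q.1) = c' q.1 := by omega
      have b4 := gQ' q hq
      have main : ∀ a b, (a, b) ∈ prs (L (T.own q.2.2)) → Mk c q a b →
          (g a, g b) ∈ prs (L' (T.own q.2.2)) := by
        intro a b hab hmk
        rw [hl', prs_gr]
        refine ⟨(a, b), hab, ?_⟩
        rcases ins_cases T d c a b with ⟨i1, i2⟩ | ⟨q', hq', hz', hi⟩
        · simp only [i1]
          simp [prs]
        · have hmk' : Mk c q' a b := by
            rcases hi with ⟨u1, u2, _⟩ | ⟨u1, u2, _⟩
            · exact Or.inl ⟨u1, u2⟩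
            · exact Or.inr ⟨u1, u2⟩
          have e := mk_unique hT h hq hq' hmk hmk'
          subst e
          exact absurd hz' hz
      rcases (h.pc q hq).2.2.2.2 with hp | hp
      · left
        have := main _ _ hp (Or.inl ⟨rfl, rfl⟩)
        rwa [b3, b4] at this
      · right
        have := main _ _ hp (Or.inr ⟨rfl, rfl⟩)
        rwa [b3, b4] at this

end Pool.Agent.Helper1.CycleMagic.Multi
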