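import Mathlib
import Pool.Agent.Helper1.Multi2

set_option autoImplicit false

namespace Pool.Agent.Helper1.CycleMagic.Multi

variable {D ι : Type}

/-- The walks carry exactly the small labels: the first `KV` cuts are at most `n`, the others at
least `n`, and all labels on the walks are at most `n`. -/
structure Sup (T : Ty D ι) (KV n : ℕ) (c : ℕ → ℕ) (L : ι → List ℕ) : Prop where
  a : ∀ k < T.K, k < KV → c k ≤ n
  b : ∀ k < T.K, KV ≤ k → n ≤ c k
  v : ∀ i, ∀ x ∈ L i, x ≤ n

/-- Static data compatible with the super condition. -/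
structure SupOk [Fintype ι] (T : Ty D ι) (KV : ℕ) : Prop where
  le : KV ≤ T.K
  pq : ∀ q ∈ T.pcs, q.1 < KV ∧ q.2.1 < KV
  tot : ∀ d, W (T.w d) KV = 2 * ∑ i, T.G d i

theorem mem_gr_cases {f : ℕ → ℕ → List ℕ} {g : ℕ → ℕ} {l : List ℕ} {y : ℕ}
    (h : y ∈ gr f g l) : (∃ x ∈ l, y = g x) ∨ ∃ a b, y ∈ f a b := by
  induction l with
  | nil => simp [gr] at h
  | cons a l ih =>
    cases l with
    | nil =>
      simp [gr] at h
      left
      exact ⟨a, by simp, h⟩
    | cons b l =>
      simp only [gr, List.mem_cons, List.mem_append] at h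
      rcases h with h | h | h
      · left
        exact ⟨a, by simp, h⟩
      · right
        exact ⟨a, b, h⟩
      · rcases ih h with ⟨x, hx, h⟩ | h
        · left
          exact ⟨x, List.mem_cons_of_mem _ hx, h⟩
        · exact Or.inr h

theorem stepSup [Fintype ι] [DecidableEq ι] {T : Ty D ι} {KV n : ℕ} {c : ℕ → ℕ}
    {L : ι → List ℕ} (hm : ∀ k, k + 1 < T.K → c k ≤ c (k + 1)) (hT : Ok T)
    (hS : SupOk T KV) (h : Sup T KV n c L) (d : D) :
    Sup T KV (n + 2 * ∑ i, T.G d i) (cN T d c) (LN T d c L) := by
  have hlt : ∀ k < KV, cN T d c k ≤ n + 2 * ∑ i, T.G d i := by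
    intro k hk
    have b1 := nc_le (T.w d) T.fl c k
    have b2 := h.a k (lt_of_lt_of_le hk hS.le) hk
    have b3 := W_mono (T.w d) (show k + 1 ≤ KV by omega)
    have b4 := hS.tot d
    simp only [cN]
    omega
  refine ⟨fun k _ hk => hlt k hk, ?_, ?_⟩
  · intro k hk hk'
    have b1 := nc_ge (T.w d) T.fl c k
    have b2 := h.b k hk hk'
    have b3 := W_mono (T.w d) hk'
    have b4 := hS.tot d
    simp only [cN]
    omega
  · intro i y hy
    rcases mem_gr_cases hy with ⟨x, hx, hy⟩ | ⟨a, b, hy⟩
    · have h1 := h.v i x hx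
      have h2 := isLev_lev hm x
      have h3 : lev c x T.K ≤ KV := by
        by_contra hc
        push Not at hc
        have h4 := h2.1
        have h5 := h2.2.1 KV hc
        have h6 := h.b KV (by omega) le_rfl
        omega
      have h4 := W_mono (T.w d) h3
      have h5 := hS.tot d
      simp only [sh] at hy
      omega
    · rcases ins_cases T d c a b with ⟨i1, i2⟩ | ⟨q, hq, hz, hi⟩
      · rw [i1] at hy
        simp at hy
      · have hp := hS.pq q hq
        have e1 := hlt q.1 hp.1
        have e2 := hlt q.2.1 hp.2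
        have f := hT.flq q hq
        have g1 : cN T d c q.1 = c q.1 + W (T.w d) q.1 + T.w d q.1 := by
          simp only [cN, nc, f.1, if_true]
        have g2 : cN T d c q.2.1 = c q.2.1 + W (T.w d) q.2.1 + T.w d q.2.1 := by
          simp only [cN, nc, f.2.1, if_true]
        have g3 : T.w d q.1 = 1 ∧ T.w d q.2.1 = 1 := by
          rcases hT.wq d q hq with z | z
          · exact absurd z.1 hz
          · exact ⟨z.1, z.2.1⟩
        rcases hi with ⟨_, _, hi⟩ | ⟨_, _, hi⟩
        · rw [hi] at hy
          simp only [List.mem_cons, List.not_mem_nil, or_false] at hy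
          omega
        · rw [hi] at hy
          simp only [List.mem_cons, List.not_mem_nil, or_false] at hy
          omega

/-- A family member. -/
def Good [Fintype ι] (T : Ty D ι) (KV : ℕ) (m : ι → ℕ) (J : ℕ) : Prop :=
  ∃ c L, St T m J c L ∧ Sup T KV (∑ i, m i) c L

theorem Good.grow [Fintype ι] [DecidableEq ι] {T : Ty D ι} (hT : Ok T) {KV : ℕ}
    (hS : SupOk T KV) {m : ι → ℕ} {J : ℕ} (hm : ∀ i, 0 < m i) (h : Good T KV m J) (d : D)
    (a : ℕ) : Good T KV (fun i => m i + 2 * T.G d i * a) (J + T.dj d * a) := by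
  induction a with
  | zero => simpa using h
  | succ a ih =>
    obtain ⟨c, L, h1, h2⟩ := ih
    have h3 := step hT h1 (fun i => by have := hm i; omega) d
    have h4 := stepSup (mono' h1) hT hS h2 d
    have e1 : (fun i => m i + 2 * T.G d i * (a + 1)) =
        fun i => (m i + 2 * T.G d i * a) + 2 * T.G d i := by
      funext i
      ring
    have e2 : J + T.dj d * (a + 1) = J + T.dj d * a + T.dj d := by ring
    have e3 : ∑ i, (m i + 2 * T.G d i * (a + 1)) =
        (∑ i, (m i + 2 * T.G d i * a)) + 2 * ∑ i, T.G d i := by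
      rw [Finset.mul_sum, ← Finset.sum_add_distrib]
      apply Finset.sum_congr rfl
      intro i _
      ring
    refine ⟨cN T d c, LN T d c L, ?_, ?_⟩
    · rw [e1, e2]
      exact h3
    · rw [e3]
      exact h4

/-- The union of two cycles has a super edge-magic total labeling. -/
def Has (m n : ℕ) : Prop :=
  ∃ f : Fin m ⊕ Fin n → ℕ, ∃ g : Fin m ⊕ Fin n → ℕ, ∃ k : ℕ,
    Function.Injective f ∧
    Function.Injective g ∧
    (∀ v, 1 ≤ f v ∧ f v ≤ m + n) ∧
    (∀ e, m + n + 1 ≤ g e ∧ g e ≤ 2 * (m + n)) ∧
    (∀ i j : Fin m, j.val = (i.val + 1) % m →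
        f (Sum.inl i) + f (Sum.inl j) + g (Sum.inl i) = k) ∧
    (∀ i j : Fin n, j.val = (i.val + 1) % n →
        f (Sum.inr i) + f (Sum.inr j) + g (Sum.inr i) = k)

theorem Has.symm {m n : ℕ} (h : Has m n) : Has n m := by
  obtain ⟨f, g, k, h1, h2, h3, h4, h5, h6⟩ := h
  refine ⟨fun x => f x.swap, fun x => g x.swap, k, ?_, ?_, ?_, ?_, ?_, ?_⟩
  · exact h1.comp Sum.swap_leftInverse.injective
  · exact h2.comp Sum.swap_leftInverse.injective
  · intro v
    rw [Nat.add_comm n m]
    exact h3 _
  · intro v
    rw [Nat.add_comm n m]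
    exact h4 _
  · intro i j hij
    exact h6 i j hij
  · intro i j hij
    exact h5 i j hij

/-- Lengths of the two walks. -/
def two (m n : ℕ) : Bool → ℕ := fun b => bif b then n else m

theorem Good.has {T : Ty D Bool} {KV m n J : ℕ} (hm : 0 < m) (hn : 0 < n)
    (h : Good T KV (two m n) J) : Has m n := by
  obtain ⟨c, L, h1, h2⟩ := h
  have hpos : ∀ b, 0 < two m n b := by
    intro b
    cases b
    · exact hm
    · exact hn
  have hsum : ∑ i, two m n i = m + n := by
    rw [Fintype.sum_bool]
    simp only [two, cond_true, cond_false]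
    omega
  obtain ⟨hinj, hbd⟩ := slot_inj h1.len hpos h1.closed h1.surj
  rw [hsum] at hbd
  have hv := h2.v
  rw [hsum] at hv
  -- the embedding of slots
  let e : Fin m ⊕ Fin n → Σ i, Fin (two m n i) := fun x =>
    match x with
    | Sum.inl i => ⟨false, i⟩
    | Sum.inr i => ⟨true, i⟩
  have he : Function.Injective e := by
    intro x y hxy
    rcases x with x | x <;> rcases y with y | y
    · simp only [e, Sigma.mk.injEq, heq_eq_eq, true_and] at hxy
      rw [hxy]
    · simp [e] at hxy
    · simp [e] at hxy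
    · simp only [e, Sigma.mk.injEq, heq_eq_eq, true_and] at hxy
      rw [hxy]
  have hf1 : Function.Injective (fun x => slot L J (two m n) (Sum.inl (e x))) := by
    intro x y hxy
    have := hinj hxy
    simp only [Sum.inl.injEq] at this
    exact he this
  have hg1 : Function.Injective (fun x => slot L J (two m n) (Sum.inr (e x))) := by
    intro x y hxy
    have := hinj hxy
    simp only [Sum.inr.injEq] at this
    exact he this
  have hf2 : ∀ x, 1 ≤ slot L J (two m n) (Sum.inl (e x)) ∧
      slot L J (two m n) (Sum.inl (e x)) ≤ m + n := by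
    intro x
    refine ⟨(hbd _).1, ?_⟩
    simp only [slot]
    have hlt : (e x).2.val < (L (e x).1).length := by
      have a1 := (e x).2.isLt
      have a2 := h1.len (e x).1
      omega
    apply hv (e x).1
    rw [List.getD_eq_getElem _ _ hlt]
    exact List.getElem_mem hlt
  have himg : Finset.univ.image (fun x => slot L J (two m n) (Sum.inl (e x))) =
      Finset.Icc 1 (m + n) := by
    apply Finset.eq_of_subset_of_card_le
    · intro y hy
      obtain ⟨x, _, hx⟩ := Finset.mem_image.1 hy
      rw [Finset.mem_Icc, ← hx]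
      exact hf2 x
    · rw [Finset.card_image_of_injective _ hf1]
      simp
  have hg2 : ∀ x, m + n + 1 ≤ slot L J (two m n) (Sum.inr (e x)) ∧
      slot L J (two m n) (Sum.inr (e x)) ≤ 2 * (m + n) := by
    intro x
    refine ⟨?_, (hbd _).2⟩
    by_contra hc
    have h3 : slot L J (two m n) (Sum.inr (e x)) ∈ Finset.Icc 1 (m + n) := by
      rw [Finset.mem_Icc]
      have := (hbd (Sum.inr (e x))).1
      omega
    rw [← himg] at h3
    obtain ⟨y, _, hy⟩ := Finset.mem_image.1 h3
    have := hinj hy
    simp at this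
  have hedge : ∀ (i : Bool) (j : ℕ), j < two m n i →
      (L i).getD j 0 + (L i).getD ((j + 1) % two m n i) 0 +
        (J - (L i).getD j 0 - (L i).getD (j + 1) 0) = J := by
    intro i j hj
    have h3 := closed_getD (h1.len i) (h1.closed i)
    have h4 := (hbd (Sum.inr ⟨i, ⟨j, hj⟩⟩)).1
    simp only [slot] at h4
    have h5 : (L i).getD ((j + 1) % two m n i) 0 = (L i).getD (j + 1) 0 := by
      rcases Nat.lt_or_ge (j + 1) (two m n i) with h6 | h6
      · rw [Nat.mod_eq_of_lt h6]
      · have h7 : j + 1 = two m n i := by omega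
        rw [h7, Nat.mod_self]
        exact h3.symm
    rw [h5]
    omega
  refine ⟨fun x => slot L J (two m n) (Sum.inl (e x)), fun x => slot L J (two m n) (Sum.inr (e x)),
    J, hf1, hg1, hf2, hg2, ?_, ?_⟩
  · intro i j hij
    have := hedge false i.val i.isLt
    simp only [slot, e]
    simp only [two, cond_false] at this
    rw [← hij] at this
    omega
  · intro i j hij
    have := hedge true i.val i.isLt
    simp only [slot, e]
    simp only [two, cond_true] at this
    rw [← hij] at this
    omega

end Pool.Agent.Helper1.CycleMagic.Multi
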