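import Mathlib
import Pool.Agent.Helper1.Multi3

set_option autoImplicit false

namespace Pool.Agent.Helper1.CycleMagic.Multi

instance {D ι : Type} [Fintype D] (T : Ty D ι) (c : ℕ → ℕ) (a b e : ℕ) :
    Decidable (Reg T c a b e) := by
  unfold Reg
  infer_instance

instance {D ι : Type} [Fintype D] (T : Ty D ι) (J : ℕ) (c : ℕ → ℕ) (a b : ℕ) :
    Decidable (Gd T J c a b) := by
  unfold Gd
  infer_instance

/-- Two-directional families. -/
theorem fam2 {T : Ty Bool Bool} {KV m n J : ℕ} (hT : Ok T) (hS : SupOk T KV) (hm : 0 < m)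
    (hn : 0 < n) (h : Good T KV (two m n) J) (a b : ℕ) :
    Has (m + 2 * T.G false false * a + 2 * T.G true false * b)
      (n + 2 * T.G false true * a + 2 * T.G true true * b) := by
  have h0 : ∀ i, 0 < two m n i := by
    intro i
    cases i
    · exact hm
    · exact hn
  have h1 := h.grow hT hS h0 false a
  have h2 := h1.grow hT hS (fun i => by have := h0 i; omega) true b
  have e : (fun i => two m n i + 2 * T.G false i * a + 2 * T.G true i * b) =
      two (m + 2 * T.G false false * a + 2 * T.G true false * b)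
        (n + 2 * T.G false true * a + 2 * T.G true true * b) := by
    funext i
    cases i <;> simp [two]
  rw [e] at h2
  exact h2.has (by omega) (by omega)

/-- Data. -/
def ty_8_3 : Ty Bool Bool where
  K := 15
  w := fun d k => bif d then [1, 1, 0, 0, 0, 1, 0, 0, 1, 0, 0, 0, 2, 0, 2].getD k 0
    else [0, 0, 1, 1, 1, 0, 1, 1, 0, 1, 2, 2, 0, 2, 0].getD k 0
  fl := fun k => decide (k < 10)
  dj := fun d => bif d then 10 else 15
  G := fun d i => bif d then (bif i then 0 else 2) else (bif i then 1 else 2)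
  pcs := [(3, 4, 13), (9, 2, 11), (7, 6, 10), (5, 0, 14), (1, 8, 12)]
  own := fun k => [false, false, false, false, false, false, false, false, false, false, true, false, false, false, false].getD k false

theorem ok_8_3 : Ok ty_8_3 := by
  constructor <;> decide +kernel

theorem sok_8_3 : SupOk ty_8_3 10 := by
  constructor <;> decide +kernel

theorem st_8_3 : St ty_8_3 (two 8 3) 29
    (fun k => [0, 1, 1, 4, 5, 6, 7, 9, 9, 10, 12, 17, 18, 19, 22].getD k 0)
    (fun b => bif b then [7, 8, 9, 7]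
      else [1, 6, 4, 5, 3, 11, 2, 10, 1]) := by
  constructor <;> decide +kernel

theorem sp_8_3 : Sup ty_8_3 10 (∑ i, two 8 3 i)
    (fun k => [0, 1, 1, 4, 5, 6, 7, 9, 9, 10, 12, 17, 18, 19, 22].getD k 0)
    (fun b => bif b then [7, 8, 9, 7]
      else [1, 6, 4, 5, 3, 11, 2, 10, 1]) := by
  constructor <;> decide +kernel

theorem has_8_3 (a b : ℕ) : Has (8 + 4 * a + 4 * b) (3 + 2 * a) := by
  have h := fam2 ok_8_3 sok_8_3 (by norm_num) (by norm_num) ⟨_, _, st_8_3, sp_8_3⟩ a b
  have e1 : 8 + 2 * ty_8_3.G false false * a + 2 * ty_8_3.G true false * b = 8 + 4 * a + 4 * b := by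
    simp only [ty_8_3, cond_true, cond_false]
    try omega
  have e2 : 3 + 2 * ty_8_3.G false true * a + 2 * ty_8_3.G true true * b = 3 + 2 * a := by
    simp only [ty_8_3, cond_true, cond_false]
    try omega
  rwa [e1, e2] at h

/-- Data. -/
def ty_14_3 : Ty Bool Bool where
  K := 21
  w := fun d k => bif d then [1, 1, 1, 0, 0, 0, 1, 1, 0, 0, 1, 1, 0, 1, 2, 0, 0, 2, 2, 0, 2].getD k 0
    else [0, 0, 0, 1, 1, 1, 0, 0, 1, 1, 0, 0, 1, 0, 0, 2, 2, 0, 0, 2, 0].getD k 0
  fl := fun k => decide (k < 14)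
  dj := fun d => bif d then 20 else 15
  G := fun d i => bif d then (bif i then 0 else 4) else (bif i then 1 else 2)
  pcs := [(4, 5, 19), (3, 12, 16), (8, 9, 15), (0, 7, 20), (10, 1, 18), (11, 2, 17), (13, 6, 14)]
  own := fun k => [false, false, false, false, false, false, false, false, false, false, false, false, false, false, false, true, false, false, false, false, false].getD k false

theorem ok_14_3 : Ok ty_14_3 := by
  constructor <;> decide +kernel

theorem sok_14_3 : SupOk ty_14_3 14 := by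
  constructor <;> decide +kernel

theorem st_14_3 : St ty_14_3 (two 14 3) 44
    (fun k => [1, 2, 4, 5, 6, 6, 7, 8, 10, 11, 13, 15, 15, 17, 19, 22, 23, 24, 28, 31, 34].getD k 0)
    (fun b => bif b then [2, 10, 12, 2]
      else [1, 9, 17, 8, 3, 13, 11, 6, 7, 16, 5, 15, 4, 14, 1]) := by
  constructor <;> decide +kernel

theorem sp_14_3 : Sup ty_14_3 14 (∑ i, two 14 3 i)
    (fun k => [1, 2, 4, 5, 6, 6, 7, 8, 10, 11, 13, 15, 15, 17, 19, 22, 23, 24, 28, 31, 34].getD k 0)
    (fun b => bif b then [2, 10, 12, 2]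
      else [1, 9, 17, 8, 3, 13, 11, 6, 7, 16, 5, 15, 4, 14, 1]) := by
  constructor <;> decide +kernel

theorem has_14_3 (a b : ℕ) : Has (14 + 4 * a + 8 * b) (3 + 2 * a) := by
  have h := fam2 ok_14_3 sok_14_3 (by norm_num) (by norm_num) ⟨_, _, st_14_3, sp_14_3⟩ a b
  have e1 : 14 + 2 * ty_14_3.G false false * a + 2 * ty_14_3.G true false * b = 14 + 4 * a + 8 * b := by
    simp only [ty_14_3, cond_true, cond_false]
    try omega
  have e2 : 3 + 2 * ty_14_3.G false true * a + 2 * ty_14_3.G true true * b = 3 + 2 * a := by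
    simp only [ty_14_3, cond_true, cond_false]
    try omega
  rwa [e1, e2] at h

/-- Data. -/
def ty_18_3 : Ty Bool Bool where
  K := 21
  w := fun d k => bif d then [0, 1, 1, 0, 0, 1, 0, 1, 1, 1, 1, 0, 1, 0, 2, 0, 2, 0, 2, 2, 0].getD k 0
    else [1, 0, 0, 1, 1, 0, 1, 0, 0, 0, 0, 1, 0, 1, 0, 2, 0, 2, 0, 0, 2].getD k 0
  fl := fun k => decide (k < 14)
  dj := fun d => bif d then 20 else 15
  G := fun d i => bif d then (bif i then 0 else 4) else (bif i then 1 else 2)
  pcs := [(3, 4, 20), (13, 0, 17), (11, 6, 15), (1, 8, 19), (2, 9, 18), (10, 5, 16), (12, 7, 14)]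
  own := fun k => [false, false, false, false, false, false, false, false, false, false, false, false, false, false, false, true, false, false, false, false, false].getD k false

theorem ok_18_3 : Ok ty_18_3 := by
  constructor <;> decide +kernel

theorem sok_18_3 : SupOk ty_18_3 14 := by
  constructor <;> decide +kernel

theorem st_18_3 : St ty_18_3 (two 18 3) 54
    (fun k => [0, 2, 4, 5, 6, 8, 9, 11, 12, 14, 16, 17, 19, 20, 23, 27, 29, 33, 35, 39, 42].getD k 0)
    (fun b => bif b then [3, 10, 17, 3]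
      else [1, 15, 4, 14, 18, 11, 19, 12, 5, 7, 21, 2, 13, 9, 16, 8, 6, 20, 1]) := by
  constructor <;> decide +kernel

theorem sp_18_3 : Sup ty_18_3 14 (∑ i, two 18 3 i)
    (fun k => [0, 2, 4, 5, 6, 8, 9, 11, 12, 14, 16, 17, 19, 20, 23, 27, 29, 33, 35, 39, 42].getD k 0)
    (fun b => bif b then [3, 10, 17, 3]
      else [1, 15, 4, 14, 18, 11, 19, 12, 5, 7, 21, 2, 13, 9, 16, 8, 6, 20, 1]) := by
  constructor <;> decide +kernel

theorem has_18_3 (a b : ℕ) : Has (18 + 4 * a + 8 * b) (3 + 2 * a) := by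
  have h := fam2 ok_18_3 sok_18_3 (by norm_num) (by norm_num) ⟨_, _, st_18_3, sp_18_3⟩ a b
  have e1 : 18 + 2 * ty_18_3.G false false * a + 2 * ty_18_3.G true false * b = 18 + 4 * a + 8 * b := by
    simp only [ty_18_3, cond_true, cond_false]
    try omega
  have e2 : 3 + 2 * ty_18_3.G false true * a + 2 * ty_18_3.G true true * b = 3 + 2 * a := by
    simp only [ty_18_3, cond_true, cond_false]
    try omega
  rwa [e1, e2] at h

/-- Data. -/
def ty_8_9 : Ty Bool Bool where
  K := 18
  w := fun d k => bif d then [0, 1, 0, 1, 0, 1, 0, 1, 0, 1, 0, 1, 2, 0, 2, 0, 2, 0].getD k 0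
    else [1, 0, 1, 0, 1, 0, 1, 0, 1, 0, 1, 0, 0, 2, 0, 2, 0, 2].getD k 0
  fl := fun k => decide (k < 12)
  dj := fun d => bif d then 15 else 15
  G := fun d i => bif d then (bif i then 3 else 0) else (bif i then 1 else 2)
  pcs := [(6, 0, 17), (2, 8, 15), (10, 4, 13), (1, 7, 16), (3, 9, 14), (11, 5, 12)]
  own := fun k => [false, false, false, false, false, false, false, false, false, false, false, false, true, true, true, false, true, false].getD k false

theorem ok_8_9 : Ok ty_8_9 := by
  constructor <;> decide +kernel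

theorem sok_8_9 : SupOk ty_8_9 12 := by
  constructor <;> decide +kernel

theorem st_8_9 : St ty_8_9 (two 8 9) 44
    (fun k => [1, 3, 5, 6, 7, 8, 10, 11, 12, 13, 15, 16, 19, 21, 24, 26, 29, 32].getD k 0)
    (fun b => bif b then [1, 9, 16, 3, 12, 14, 6, 8, 15, 1]
      else [2, 10, 7, 4, 17, 5, 13, 11, 2]) := by
  constructor <;> decide +kernel

theorem sp_8_9 : Sup ty_8_9 12 (∑ i, two 8 9 i)
    (fun k => [1, 3, 5, 6, 7, 8, 10, 11, 12, 13, 15, 16, 19, 21, 24, 26, 29, 32].getD k 0)
    (fun b => bif b then [1, 9, 16, 3, 12, 14, 6, 8, 15, 1]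
      else [2, 10, 7, 4, 17, 5, 13, 11, 2]) := by
  constructor <;> decide +kernel

theorem has_8_9 (a b : ℕ) : Has (8 + 4 * a) (9 + 2 * a + 6 * b) := by
  have h := fam2 ok_8_9 sok_8_9 (by norm_num) (by norm_num) ⟨_, _, st_8_9, sp_8_9⟩ a b
  have e1 : 8 + 2 * ty_8_9.G false false * a + 2 * ty_8_9.G true false * b = 8 + 4 * a := by
    simp only [ty_8_9, cond_true, cond_false]
    try omega
  have e2 : 9 + 2 * ty_8_9.G false true * a + 2 * ty_8_9.G true true * b = 9 + 2 * a + 6 * b := by
    simp only [ty_8_9, cond_true, cond_false]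
    try omega
  rwa [e1, e2] at h

/-- Data. -/
def ty_8_11 : Ty Bool Bool where
  K := 18
  w := fun d k => bif d then [0, 1, 0, 1, 0, 1, 0, 1, 0, 1, 0, 1, 2, 0, 2, 0, 2, 0].getD k 0
    else [1, 0, 1, 0, 1, 0, 1, 0, 1, 0, 1, 0, 0, 2, 0, 2, 0, 2].getD k 0
  fl := fun k => decide (k < 12)
  dj := fun d => bif d then 15 else 15
  G := fun d i => bif d then (bif i then 3 else 0) else (bif i then 1 else 2)
  pcs := [(6, 0, 17), (8, 2, 15), (4, 10, 13), (7, 1, 16), (9, 3, 14), (5, 11, 12)]
  own := fun k => [false, false, false, false, false, false, false, false, false, false, false, false, true, false, true, true, true, false].getD k false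

theorem ok_8_11 : Ok ty_8_11 := by
  constructor <;> decide +kernel

theorem sok_8_11 : SupOk ty_8_11 12 := by
  constructor <;> decide +kernel

theorem st_8_11 : St ty_8_11 (two 8 11) 49
    (fun k => [1, 2, 4, 5, 7, 8, 10, 11, 12, 13, 15, 16, 24, 26, 30, 32, 35, 37].getD k 0)
    (fun b => bif b then [1, 14, 12, 5, 8, 17, 3, 11, 13, 6, 15, 1]
      else [2, 10, 19, 9, 18, 4, 7, 16, 2]) := by
  constructor <;> decide +kernel

theorem sp_8_11 : Sup ty_8_11 12 (∑ i, two 8 11 i)
    (fun k => [1, 2, 4, 5, 7, 8, 10, 11, 12, 13, 15, 16, 24, 26, 30, 32, 35, 37].getD k 0)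
    (fun b => bif b then [1, 14, 12, 5, 8, 17, 3, 11, 13, 6, 15, 1]
      else [2, 10, 19, 9, 18, 4, 7, 16, 2]) := by
  constructor <;> decide +kernel

theorem has_8_11 (a b : ℕ) : Has (8 + 4 * a) (11 + 2 * a + 6 * b) := by
  have h := fam2 ok_8_11 sok_8_11 (by norm_num) (by norm_num) ⟨_, _, st_8_11, sp_8_11⟩ a b
  have e1 : 8 + 2 * ty_8_11.G false false * a + 2 * ty_8_11.G true false * b = 8 + 4 * a := by
    simp only [ty_8_11, cond_true, cond_false]
    try omega
  have e2 : 11 + 2 * ty_8_11.G false true * a + 2 * ty_8_11.G true true * b = 11 + 2 * a + 6 * b := by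
    simp only [ty_8_11, cond_true, cond_false]
    try omega
  rwa [e1, e2] at h

/-- Data. -/
def ty_8_13 : Ty Bool Bool where
  K := 18
  w := fun d k => bif d then [1, 0, 1, 0, 1, 0, 1, 0, 1, 0, 1, 0, 0, 2, 0, 2, 0, 2].getD k 0
    else [0, 1, 0, 1, 0, 1, 0, 1, 0, 1, 0, 1, 2, 0, 2, 0, 2, 0].getD k 0
  fl := fun k => decide (k < 12)
  dj := fun d => bif d then 15 else 15
  G := fun d i => bif d then (bif i then 3 else 0) else (bif i then 1 else 2)
  pcs := [(1, 7, 16), (9, 3, 14), (5, 11, 12), (4, 2, 17), (0, 10, 15), (8, 6, 13)]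
  own := fun k => [false, false, false, false, false, false, false, false, false, false, false, false, true, true, false, true, false, true].getD k false

theorem ok_8_13 : Ok ty_8_13 := by
  constructor <;> decide +kernel

theorem sok_8_13 : SupOk ty_8_13 12 := by
  constructor <;> decide +kernel

theorem st_8_13 : St ty_8_13 (two 8 13) 54
    (fun k => [2, 3, 5, 6, 8, 10, 11, 13, 15, 16, 18, 19, 24, 27, 31, 33, 37, 40].getD k 0)
    (fun b => bif b then [2, 11, 21, 5, 15, 12, 10, 20, 4, 8, 6, 9, 19, 2]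
      else [1, 17, 14, 3, 13, 16, 7, 18, 1]) := by
  constructor <;> decide +kernel

theorem sp_8_13 : Sup ty_8_13 12 (∑ i, two 8 13 i)
    (fun k => [2, 3, 5, 6, 8, 10, 11, 13, 15, 16, 18, 19, 24, 27, 31, 33, 37, 40].getD k 0)
    (fun b => bif b then [2, 11, 21, 5, 15, 12, 10, 20, 4, 8, 6, 9, 19, 2]
      else [1, 17, 14, 3, 13, 16, 7, 18, 1]) := by
  constructor <;> decide +kernel

theorem has_8_13 (a b : ℕ) : Has (8 + 4 * a) (13 + 2 * a + 6 * b) := by
  have h := fam2 ok_8_13 sok_8_13 (by norm_num) (by norm_num) ⟨_, _, st_8_13, sp_8_13⟩ a b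
  have e1 : 8 + 2 * ty_8_13.G false false * a + 2 * ty_8_13.G true false * b = 8 + 4 * a := by
    simp only [ty_8_13, cond_true, cond_false]
    try omega
  have e2 : 13 + 2 * ty_8_13.G false true * a + 2 * ty_8_13.G true true * b = 13 + 2 * a + 6 * b := by
    simp only [ty_8_13, cond_true, cond_false]
    try omega
  rwa [e1, e2] at h

/-- Data. -/
def ty_10_9 : Ty Bool Bool where
  K := 18
  w := fun d k => bif d then [1, 0, 1, 0, 1, 0, 1, 0, 1, 0, 1, 0, 0, 2, 0, 2, 0, 2].getD k 0
    else [0, 1, 0, 1, 0, 1, 0, 1, 0, 1, 0, 1, 2, 0, 2, 0, 2, 0].getD k 0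
  fl := fun k => decide (k < 12)
  dj := fun d => bif d then 15 else 15
  G := fun d i => bif d then (bif i then 3 else 0) else (bif i then 1 else 2)
  pcs := [(7, 1, 16), (9, 3, 14), (5, 11, 12), (6, 0, 17), (8, 2, 15), (4, 10, 13)]
  own := fun k => [false, false, false, false, false, false, false, false, false, false, false, false, true, true, false, true, false, true].getD k false

theorem ok_10_9 : Ok ty_10_9 := by
  constructor <;> decide +kernel

theorem sok_10_9 : SupOk ty_10_9 12 := by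
  constructor <;> decide +kernel

theorem st_10_9 : St ty_10_9 (two 10 9) 49
    (fun k => [1, 2, 4, 5, 9, 10, 12, 13, 14, 15, 17, 18, 20, 22, 28, 30, 33, 35].getD k 0)
    (fun b => bif b then [2, 12, 14, 5, 10, 19, 4, 9, 18, 2]
      else [1, 11, 7, 17, 8, 3, 13, 15, 6, 16, 1]) := by
  constructor <;> decide +kernel

theorem sp_10_9 : Sup ty_10_9 12 (∑ i, two 10 9 i)
    (fun k => [1, 2, 4, 5, 9, 10, 12, 13, 14, 15, 17, 18, 20, 22, 28, 30, 33, 35].getD k 0)
    (fun b => bif b then [2, 12, 14, 5, 10, 19, 4, 9, 18, 2]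
      else [1, 11, 7, 17, 8, 3, 13, 15, 6, 16, 1]) := by
  constructor <;> decide +kernel

theorem has_10_9 (a b : ℕ) : Has (10 + 4 * a) (9 + 2 * a + 6 * b) := by
  have h := fam2 ok_10_9 sok_10_9 (by norm_num) (by norm_num) ⟨_, _, st_10_9, sp_10_9⟩ a b
  have e1 : 10 + 2 * ty_10_9.G false false * a + 2 * ty_10_9.G true false * b = 10 + 4 * a := by
    simp only [ty_10_9, cond_true, cond_false]
    try omega
  have e2 : 9 + 2 * ty_10_9.G false true * a + 2 * ty_10_9.G true true * b = 9 + 2 * a + 6 * b := by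
    simp only [ty_10_9, cond_true, cond_false]
    try omega
  rwa [e1, e2] at h

/-- Data. -/
def ty_10_11 : Ty Bool Bool where
  K := 18
  w := fun d k => bif d then [0, 1, 0, 1, 0, 1, 0, 1, 0, 1, 0, 1, 2, 0, 2, 0, 2, 0].getD k 0
    else [1, 0, 1, 0, 1, 0, 1, 0, 1, 0, 1, 0, 0, 2, 0, 2, 0, 2].getD k 0
  fl := fun k => decide (k < 12)
  dj := fun d => bif d then 15 else 15
  G := fun d i => bif d then (bif i then 3 else 0) else (bif i then 1 else 2)
  pcs := [(0, 6, 17), (2, 8, 15), (10, 4, 13), (5, 3, 16), (11, 1, 14), (7, 9, 12)]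
  own := fun k => [false, false, false, false, false, false, false, false, false, false, false, false, true, true, true, false, true, false].getD k false

theorem ok_10_11 : Ok ty_10_11 := by
  constructor <;> decide +kernel

theorem sok_10_11 : SupOk ty_10_11 12 := by
  constructor <;> decide +kernel

theorem st_10_11 : St ty_10_11 (two 10 11) 54
    (fun k => [3, 3, 6, 6, 8, 10, 12, 14, 15, 16, 19, 20, 23, 26, 30, 32, 37, 38].getD k 0)
    (fun b => bif b then [1, 17, 14, 9, 19, 8, 4, 20, 10, 7, 18, 1]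
      else [2, 11, 21, 5, 15, 6, 16, 13, 3, 12, 2]) := by
  constructor <;> decide +kernel

theorem sp_10_11 : Sup ty_10_11 12 (∑ i, two 10 11 i)
    (fun k => [3, 3, 6, 6, 8, 10, 12, 14, 15, 16, 19, 20, 23, 26, 30, 32, 37, 38].getD k 0)
    (fun b => bif b then [1, 17, 14, 9, 19, 8, 4, 20, 10, 7, 18, 1]
      else [2, 11, 21, 5, 15, 6, 16, 13, 3, 12, 2]) := by
  constructor <;> decide +kernel

theorem has_10_11 (a b : ℕ) : Has (10 + 4 * a) (11 + 2 * a + 6 * b) := by
  have h := fam2 ok_10_11 sok_10_11 (by norm_num) (by norm_num) ⟨_, _, st_10_11, sp_10_11⟩ a b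
  have e1 : 10 + 2 * ty_10_11.G false false * a + 2 * ty_10_11.G true false * b = 10 + 4 * a := by
    simp only [ty_10_11, cond_true, cond_false]
    try omega
  have e2 : 11 + 2 * ty_10_11.G false true * a + 2 * ty_10_11.G true true * b = 11 + 2 * a + 6 * b := by
    simp only [ty_10_11, cond_true, cond_false]
    try omega
  rwa [e1, e2] at h

/-- Data. -/
def ty_10_13 : Ty Bool Bool where
  K := 18
  w := fun d k => bif d then [0, 1, 0, 1, 0, 1, 0, 1, 0, 1, 0, 1, 2, 0, 2, 0, 2, 0].getD k 0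
    else [1, 0, 1, 0, 1, 0, 1, 0, 1, 0, 1, 0, 0, 2, 0, 2, 0, 2].getD k 0
  fl := fun k => decide (k < 12)
  dj := fun d => bif d then 15 else 15
  G := fun d i => bif d then (bif i then 3 else 0) else (bif i then 1 else 2)
  pcs := [(0, 6, 17), (8, 2, 15), (10, 4, 13), (7, 1, 16), (9, 3, 14), (5, 11, 12)]
  own := fun k => [false, false, false, false, false, false, false, false, false, false, false, false, true, false, true, true, true, false].getD k false

theorem ok_10_13 : Ok ty_10_13 := by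
  constructor <;> decide +kernel

theorem sok_10_13 : SupOk ty_10_13 12 := by
  constructor <;> decide +kernel

theorem st_10_13 : St ty_10_13 (two 10 13) 59
    (fun k => [1, 3, 5, 7, 8, 12, 12, 15, 16, 18, 19, 22, 24, 31, 33, 37, 40, 45].getD k 0)
    (fun b => bif b then [4, 15, 17, 6, 16, 5, 8, 18, 7, 11, 22, 12, 23, 4]
      else [1, 13, 2, 14, 3, 21, 10, 20, 9, 19, 1]) := by
  constructor <;> decide +kernel

theorem sp_10_13 : Sup ty_10_13 12 (∑ i, two 10 13 i)
    (fun k => [1, 3, 5, 7, 8, 12, 12, 15, 16, 18, 19, 22, 24, 31, 33, 37, 40, 45].getD k 0)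
    (fun b => bif b then [4, 15, 17, 6, 16, 5, 8, 18, 7, 11, 22, 12, 23, 4]
      else [1, 13, 2, 14, 3, 21, 10, 20, 9, 19, 1]) := by
  constructor <;> decide +kernel

theorem has_10_13 (a b : ℕ) : Has (10 + 4 * a) (13 + 2 * a + 6 * b) := by
  have h := fam2 ok_10_13 sok_10_13 (by norm_num) (by norm_num) ⟨_, _, st_10_13, sp_10_13⟩ a b
  have e1 : 10 + 2 * ty_10_13.G false false * a + 2 * ty_10_13.G true false * b = 10 + 4 * a := by
    simp only [ty_10_13, cond_true, cond_false]
    try omega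
  have e2 : 13 + 2 * ty_10_13.G false true * a + 2 * ty_10_13.G true true * b = 13 + 2 * a + 6 * b := by
    simp only [ty_10_13, cond_true, cond_false]
    try omega
  rwa [e1, e2] at h

/-- Data. -/
def ty_8_5 : Ty Bool Bool where
  K := 9
  w := fun d k => bif d then [1, 1, 1, 1, 1, 1, 2, 2, 2].getD k 0
    else [1, 1, 1, 1, 1, 1, 2, 2, 2].getD k 0
  fl := fun k => decide (k < 6)
  dj := fun d => bif d then 15 else 15
  G := fun d i => bif d then (bif i then 1 else 2) else (bif i then 1 else 2)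
  pcs := [(0, 3, 8), (1, 4, 7), (2, 5, 6)]
  own := fun k => [false, false, false, false, false, false, true, false, false].getD k false

theorem ok_8_5 : Ok ty_8_5 := by
  constructor <;> decide +kernel

theorem sok_8_5 : SupOk ty_8_5 6 := by
  constructor <;> decide +kernel

theorem st_8_5 : St ty_8_5 (two 8 5) 34
    (fun k => [1, 3, 4, 6, 10, 12, 17, 20, 26].getD k 0)
    (fun b => bif b then [4, 6, 10, 5, 13, 4]
      else [1, 7, 2, 9, 3, 11, 8, 12, 1]) := by
  constructor <;> decide +kernel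

theorem sp_8_5 : Sup ty_8_5 6 (∑ i, two 8 5 i)
    (fun k => [1, 3, 4, 6, 10, 12, 17, 20, 26].getD k 0)
    (fun b => bif b then [4, 6, 10, 5, 13, 4]
      else [1, 7, 2, 9, 3, 11, 8, 12, 1]) := by
  constructor <;> decide +kernel

theorem has_8_5 (a : ℕ) : Has (8 + 4 * a) (5 + 2 * a) := by
  have h := fam2 ok_8_5 sok_8_5 (by norm_num) (by norm_num) ⟨_, _, st_8_5, sp_8_5⟩ a 0
  have e1 : 8 + 2 * ty_8_5.G false false * a + 2 * ty_8_5.G true false * 0 = 8 + 4 * a := by
    simp only [ty_8_5, cond_true, cond_false]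
    try omega
  have e2 : 5 + 2 * ty_8_5.G false true * a + 2 * ty_8_5.G true true * 0 = 5 + 2 * a := by
    simp only [ty_8_5, cond_true, cond_false]
    try omega
  rwa [e1, e2] at h

/-- Data. -/
def ty_8_7 : Ty Bool Bool where
  K := 9
  w := fun d k => bif d then [1, 1, 1, 1, 1, 1, 2, 2, 2].getD k 0
    else [1, 1, 1, 1, 1, 1, 2, 2, 2].getD k 0
  fl := fun k => decide (k < 6)
  dj := fun d => bif d then 15 else 15
  G := fun d i => bif d then (bif i then 1 else 2) else (bif i then 1 else 2)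
  pcs := [(3, 0, 8), (1, 4, 7), (5, 2, 6)]
  own := fun k => [false, false, false, false, false, false, true, false, false].getD k false

theorem ok_8_7 : Ok ty_8_7 := by
  constructor <;> decide +kernel

theorem sok_8_7 : SupOk ty_8_7 6 := by
  constructor <;> decide +kernel

theorem st_8_7 : St ty_8_7 (two 8 7) 39
    (fun k => [0, 1, 3, 8, 9, 12, 23, 28, 30].getD k 0)
    (fun b => bif b then [4, 12, 9, 6, 14, 5, 13, 4]
      else [1, 8, 15, 7, 3, 11, 2, 10, 1]) := by
  constructor <;> decide +kernel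

theorem sp_8_7 : Sup ty_8_7 6 (∑ i, two 8 7 i)
    (fun k => [0, 1, 3, 8, 9, 12, 23, 28, 30].getD k 0)
    (fun b => bif b then [4, 12, 9, 6, 14, 5, 13, 4]
      else [1, 8, 15, 7, 3, 11, 2, 10, 1]) := by
  constructor <;> decide +kernel

theorem has_8_7 (a : ℕ) : Has (8 + 4 * a) (7 + 2 * a) := by
  have h := fam2 ok_8_7 sok_8_7 (by norm_num) (by norm_num) ⟨_, _, st_8_7, sp_8_7⟩ a 0
  have e1 : 8 + 2 * ty_8_7.G false false * a + 2 * ty_8_7.G true false * 0 = 8 + 4 * a := by
    simp only [ty_8_7, cond_true, cond_false]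
    try omega
  have e2 : 7 + 2 * ty_8_7.G false true * a + 2 * ty_8_7.G true true * 0 = 7 + 2 * a := by
    simp only [ty_8_7, cond_true, cond_false]
    try omega
  rwa [e1, e2] at h

/-- Data. -/
def ty_10_3 : Ty Bool Bool where
  K := 9
  w := fun d k => bif d then [1, 1, 1, 1, 1, 1, 2, 2, 2].getD k 0
    else [1, 1, 1, 1, 1, 1, 2, 2, 2].getD k 0
  fl := fun k => decide (k < 6)
  dj := fun d => bif d then 15 else 15
  G := fun d i => bif d then (bif i then 1 else 2) else (bif i then 1 else 2)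
  pcs := [(0, 3, 8), (4, 1, 7), (2, 5, 6)]
  own := fun k => [false, false, false, false, false, false, true, false, false].getD k false

theorem ok_10_3 : Ok ty_10_3 := by
  constructor <;> decide +kernel

theorem sok_10_3 : SupOk ty_10_3 6 := by
  constructor <;> decide +kernel

theorem st_10_3 : St ty_10_3 (two 10 3) 34
    (fun k => [1, 2, 4, 6, 10, 12, 17, 21, 26].getD k 0)
    (fun b => bif b then [4, 5, 13, 4]
      else [1, 7, 12, 3, 10, 6, 8, 2, 9, 11, 1]) := by
  constructor <;> decide +kernel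

theorem sp_10_3 : Sup ty_10_3 6 (∑ i, two 10 3 i)
    (fun k => [1, 2, 4, 6, 10, 12, 17, 21, 26].getD k 0)
    (fun b => bif b then [4, 5, 13, 4]
      else [1, 7, 12, 3, 10, 6, 8, 2, 9, 11, 1]) := by
  constructor <;> decide +kernel

theorem has_10_3 (a : ℕ) : Has (10 + 4 * a) (3 + 2 * a) := by
  have h := fam2 ok_10_3 sok_10_3 (by norm_num) (by norm_num) ⟨_, _, st_10_3, sp_10_3⟩ a 0
  have e1 : 10 + 2 * ty_10_3.G false false * a + 2 * ty_10_3.G true false * 0 = 10 + 4 * a := by
    simp only [ty_10_3, cond_true, cond_false]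
    try omega
  have e2 : 3 + 2 * ty_10_3.G false true * a + 2 * ty_10_3.G true true * 0 = 3 + 2 * a := by
    simp only [ty_10_3, cond_true, cond_false]
    try omega
  rwa [e1, e2] at h

/-- Data. -/
def ty_10_5 : Ty Bool Bool where
  K := 9
  w := fun d k => bif d then [1, 1, 1, 1, 1, 1, 2, 2, 2].getD k 0
    else [1, 1, 1, 1, 1, 1, 2, 2, 2].getD k 0
  fl := fun k => decide (k < 6)
  dj := fun d => bif d then 15 else 15
  G := fun d i => bif d then (bif i then 1 else 2) else (bif i then 1 else 2)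
  pcs := [(3, 0, 8), (1, 4, 7), (2, 5, 6)]
  own := fun k => [false, false, false, false, false, false, true, false, false].getD k false

theorem ok_10_5 : Ok ty_10_5 := by
  constructor <;> decide +kernel

theorem sok_10_5 : SupOk ty_10_5 6 := by
  constructor <;> decide +kernel

theorem st_10_5 : St ty_10_5 (two 10 5) 39
    (fun k => [0, 1, 5, 8, 9, 13, 20, 28, 30].getD k 0)
    (fun b => bif b then [4, 6, 14, 5, 13, 4]
      else [1, 8, 15, 7, 9, 12, 3, 11, 2, 10, 1]) := by
  constructor <;> decide +kernel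

theorem sp_10_5 : Sup ty_10_5 6 (∑ i, two 10 5 i)
    (fun k => [0, 1, 5, 8, 9, 13, 20, 28, 30].getD k 0)
    (fun b => bif b then [4, 6, 14, 5, 13, 4]
      else [1, 8, 15, 7, 9, 12, 3, 11, 2, 10, 1]) := by
  constructor <;> decide +kernel

theorem has_10_5 (a : ℕ) : Has (10 + 4 * a) (5 + 2 * a) := by
  have h := fam2 ok_10_5 sok_10_5 (by norm_num) (by norm_num) ⟨_, _, st_10_5, sp_10_5⟩ a 0
  have e1 : 10 + 2 * ty_10_5.G false false * a + 2 * ty_10_5.G true false * 0 = 10 + 4 * a := by
    simp only [ty_10_5, cond_true, cond_false]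
    try omega
  have e2 : 5 + 2 * ty_10_5.G false true * a + 2 * ty_10_5.G true true * 0 = 5 + 2 * a := by
    simp only [ty_10_5, cond_true, cond_false]
    try omega
  rwa [e1, e2] at h

/-- Data. -/
def ty_10_7 : Ty Bool Bool where
  K := 9
  w := fun d k => bif d then [1, 1, 1, 1, 1, 1, 2, 2, 2].getD k 0
    else [1, 1, 1, 1, 1, 1, 2, 2, 2].getD k 0
  fl := fun k => decide (k < 6)
  dj := fun d => bif d then 15 else 15
  G := fun d i => bif d then (bif i then 1 else 2) else (bif i then 1 else 2)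
  pcs := [(2, 1, 8), (0, 5, 7), (3, 4, 6)]
  own := fun k => [false, false, false, false, false, false, true, false, false].getD k false

theorem ok_10_7 : Ok ty_10_7 := by
  constructor <;> decide +kernel

theorem sok_10_7 : SupOk ty_10_7 6 := by
  constructor <;> decide +kernel

theorem st_10_7 : St ty_10_7 (two 10 7) 44
    (fun k => [2, 3, 6, 10, 10, 13, 23, 28, 34].getD k 0)
    (fun b => bif b then [1, 11, 10, 16, 9, 5, 12, 1]
      else [2, 13, 6, 4, 7, 17, 3, 15, 8, 14, 2]) := by
  constructor <;> decide +kernel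

theorem sp_10_7 : Sup ty_10_7 6 (∑ i, two 10 7 i)
    (fun k => [2, 3, 6, 10, 10, 13, 23, 28, 34].getD k 0)
    (fun b => bif b then [1, 11, 10, 16, 9, 5, 12, 1]
      else [2, 13, 6, 4, 7, 17, 3, 15, 8, 14, 2]) := by
  constructor <;> decide +kernel

theorem has_10_7 (a : ℕ) : Has (10 + 4 * a) (7 + 2 * a) := by
  have h := fam2 ok_10_7 sok_10_7 (by norm_num) (by norm_num) ⟨_, _, st_10_7, sp_10_7⟩ a 0
  have e1 : 10 + 2 * ty_10_7.G false false * a + 2 * ty_10_7.G true false * 0 = 10 + 4 * a := by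
    simp only [ty_10_7, cond_true, cond_false]
    try omega
  have e2 : 7 + 2 * ty_10_7.G false true * a + 2 * ty_10_7.G true true * 0 = 7 + 2 * a := by
    simp only [ty_10_7, cond_true, cond_false]
    try omega
  rwa [e1, e2] at h

/-- Data. -/
def ty_4_7 : Ty Bool Bool where
  K := 6
  w := fun d k => bif d then [1, 1, 1, 1, 2, 2].getD k 0
    else [1, 1, 1, 1, 2, 2].getD k 0
  fl := fun k => decide (k < 4)
  dj := fun d => bif d then 10 else 10
  G := fun d i => bif d then (bif i then 2 else 0) else (bif i then 2 else 0)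
  pcs := [(0, 2, 5), (1, 3, 4)]
  own := fun k => [false, false, false, false, true, true].getD k false

theorem ok_4_7 : Ok ty_4_7 := by
  constructor <;> decide +kernel

theorem sok_4_7 : SupOk ty_4_7 4 := by
  constructor <;> decide +kernel

theorem st_4_7 : St ty_4_7 (two 4 7) 29
    (fun k => [1, 2, 5, 9, 17, 22].getD k 0)
    (fun b => bif b then [1, 6, 7, 9, 8, 2, 10, 1]
      else [3, 5, 4, 11, 3]) := by
  constructor <;> decide +kernel

theorem sp_4_7 : Sup ty_4_7 4 (∑ i, two 4 7 i)
    (fun k => [1, 2, 5, 9, 17, 22].getD k 0)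
    (fun b => bif b then [1, 6, 7, 9, 8, 2, 10, 1]
      else [3, 5, 4, 11, 3]) := by
  constructor <;> decide +kernel

theorem has_4_7 (a : ℕ) : Has (4) (7 + 4 * a) := by
  have h := fam2 ok_4_7 sok_4_7 (by norm_num) (by norm_num) ⟨_, _, st_4_7, sp_4_7⟩ a 0
  have e1 : 4 + 2 * ty_4_7.G false false * a + 2 * ty_4_7.G true false * 0 = 4 := by
    simp only [ty_4_7, cond_true, cond_false]
    try omega
  have e2 : 7 + 2 * ty_4_7.G false true * a + 2 * ty_4_7.G true true * 0 = 7 + 4 * a := by
    simp only [ty_4_7, cond_true, cond_false]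
    try omega
  rwa [e1, e2] at h

/-- Data. -/
def ty_4_9 : Ty Bool Bool where
  K := 6
  w := fun d k => bif d then [1, 1, 1, 1, 2, 2].getD k 0
    else [1, 1, 1, 1, 2, 2].getD k 0
  fl := fun k => decide (k < 4)
  dj := fun d => bif d then 10 else 10
  G := fun d i => bif d then (bif i then 2 else 0) else (bif i then 2 else 0)
  pcs := [(0, 2, 5), (3, 1, 4)]
  own := fun k => [false, false, false, false, true, true].getD k false

theorem ok_4_9 : Ok ty_4_9 := by
  constructor <;> decide +kernel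

theorem sok_4_9 : SupOk ty_4_9 4 := by
  constructor <;> decide +kernel

theorem st_4_9 : St ty_4_9 (two 4 9) 34
    (fun k => [1, 3, 6, 11, 19, 26].getD k 0)
    (fun b => bif b then [1, 7, 9, 11, 4, 5, 12, 6, 13, 1]
      else [2, 8, 3, 10, 2]) := by
  constructor <;> decide +kernel

theorem sp_4_9 : Sup ty_4_9 4 (∑ i, two 4 9 i)
    (fun k => [1, 3, 6, 11, 19, 26].getD k 0)
    (fun b => bif b then [1, 7, 9, 11, 4, 5, 12, 6, 13, 1]
      else [2, 8, 3, 10, 2]) := by
  constructor <;> decide +kernel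

theorem has_4_9 (a : ℕ) : Has (4) (9 + 4 * a) := by
  have h := fam2 ok_4_9 sok_4_9 (by norm_num) (by norm_num) ⟨_, _, st_4_9, sp_4_9⟩ a 0
  have e1 : 4 + 2 * ty_4_9.G false false * a + 2 * ty_4_9.G true false * 0 = 4 := by
    simp only [ty_4_9, cond_true, cond_false]
    try omega
  have e2 : 9 + 2 * ty_4_9.G false true * a + 2 * ty_4_9.G true true * 0 = 9 + 4 * a := by
    simp only [ty_4_9, cond_true, cond_false]
    try omega
  rwa [e1, e2] at h

/-- Data. -/
def ty_6_9 : Ty Bool Bool where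
  K := 6
  w := fun d k => bif d then [1, 1, 1, 1, 2, 2].getD k 0
    else [1, 1, 1, 1, 2, 2].getD k 0
  fl := fun k => decide (k < 4)
  dj := fun d => bif d then 10 else 10
  G := fun d i => bif d then (bif i then 2 else 0) else (bif i then 2 else 0)
  pcs := [(0, 2, 5), (3, 1, 4)]
  own := fun k => [false, false, false, false, true, true].getD k false

theorem ok_6_9 : Ok ty_6_9 := by
  constructor <;> decide +kernel

theorem sok_6_9 : SupOk ty_6_9 4 := by
  constructor <;> decide +kernel

theorem st_6_9 : St ty_6_9 (two 6 9) 39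
    (fun k => [1, 3, 7, 14, 21, 30].getD k 0)
    (fun b => bif b then [1, 8, 3, 14, 4, 6, 7, 5, 15, 1]
      else [2, 12, 11, 10, 9, 13, 2]) := by
  constructor <;> decide +kernel

theorem sp_6_9 : Sup ty_6_9 4 (∑ i, two 6 9 i)
    (fun k => [1, 3, 7, 14, 21, 30].getD k 0)
    (fun b => bif b then [1, 8, 3, 14, 4, 6, 7, 5, 15, 1]
      else [2, 12, 11, 10, 9, 13, 2]) := by
  constructor <;> decide +kernel

theorem has_6_9 (a : ℕ) : Has (6) (9 + 4 * a) := by
  have h := fam2 ok_6_9 sok_6_9 (by norm_num) (by norm_num) ⟨_, _, st_6_9, sp_6_9⟩ a 0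
  have e1 : 6 + 2 * ty_6_9.G false false * a + 2 * ty_6_9.G true false * 0 = 6 := by
    simp only [ty_6_9, cond_true, cond_false]
    try omega
  have e2 : 9 + 2 * ty_6_9.G false true * a + 2 * ty_6_9.G true true * 0 = 9 + 4 * a := by
    simp only [ty_6_9, cond_true, cond_false]
    try omega
  rwa [e1, e2] at h

/-- Data. -/
def ty_6_11 : Ty Bool Bool where
  K := 6
  w := fun d k => bif d then [1, 1, 1, 1, 2, 2].getD k 0
    else [1, 1, 1, 1, 2, 2].getD k 0
  fl := fun k => decide (k < 4)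
  dj := fun d => bif d then 10 else 10
  G := fun d i => bif d then (bif i then 2 else 0) else (bif i then 2 else 0)
  pcs := [(0, 2, 5), (3, 1, 4)]
  own := fun k => [false, false, false, false, true, true].getD k false

theorem ok_6_11 : Ok ty_6_11 := by
  constructor <;> decide +kernel

theorem sok_6_11 : SupOk ty_6_11 4 := by
  constructor <;> decide +kernel

theorem st_6_11 : St ty_6_11 (two 6 11) 44
    (fun k => [1, 4, 8, 16, 23, 34].getD k 0)
    (fun b => bif b then [1, 9, 2, 15, 4, 16, 5, 7, 8, 6, 17, 1]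
      else [3, 10, 12, 14, 11, 13, 3]) := by
  constructor <;> decide +kernel

theorem sp_6_11 : Sup ty_6_11 4 (∑ i, two 6 11 i)
    (fun k => [1, 4, 8, 16, 23, 34].getD k 0)
    (fun b => bif b then [1, 9, 2, 15, 4, 16, 5, 7, 8, 6, 17, 1]
      else [3, 10, 12, 14, 11, 13, 3]) := by
  constructor <;> decide +kernel

theorem has_6_11 (a : ℕ) : Has (6) (11 + 4 * a) := by
  have h := fam2 ok_6_11 sok_6_11 (by norm_num) (by norm_num) ⟨_, _, st_6_11, sp_6_11⟩ a 0
  have e1 : 6 + 2 * ty_6_11.G false false * a + 2 * ty_6_11.G true false * 0 = 6 := by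
    simp only [ty_6_11, cond_true, cond_false]
    try omega
  have e2 : 11 + 2 * ty_6_11.G false true * a + 2 * ty_6_11.G true true * 0 = 11 + 4 * a := by
    simp only [ty_6_11, cond_true, cond_false]
    try omega
  rwa [e1, e2] at h

/-- Data. -/
def ty_4_5 : Ty Bool Bool where
  K := 0
  w := fun d k => bif d then (0 : ℕ) * k
    else 0
  fl := fun k => decide (k < 0)
  dj := fun d => bif d then 0 else 0
  G := fun d i => bif d then (bif i then 0 else 0) else (bif i then 0 else 0)
  pcs := []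
  own := fun k => [].getD k false

theorem ok_4_5 : Ok ty_4_5 := by
  constructor <;> decide +kernel

theorem sok_4_5 : SupOk ty_4_5 0 := by
  constructor <;> decide +kernel

theorem st_4_5 : St ty_4_5 (two 4 5) 24
    (fun _ => 0)
    (fun b => bif b then [2, 4, 8, 5, 9, 2]
      else [1, 6, 3, 7, 1]) := by
  constructor <;> decide +kernel

theorem sp_4_5 : Sup ty_4_5 0 (∑ i, two 4 5 i)
    (fun _ => 0)
    (fun b => bif b then [2, 4, 8, 5, 9, 2]
      else [1, 6, 3, 7, 1]) := by
  constructor <;> decide +kernel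

theorem has_4_5 : Has 4 5 :=
  Good.has (by norm_num) (by norm_num) ⟨_, _, st_4_5, sp_4_5⟩

/-- Data. -/
def ty_6_3 : Ty Bool Bool where
  K := 0
  w := fun d k => bif d then (0 : ℕ) * k
    else 0
  fl := fun k => decide (k < 0)
  dj := fun d => bif d then 0 else 0
  G := fun d i => bif d then (bif i then 0 else 0) else (bif i then 0 else 0)
  pcs := []
  own := fun k => [].getD k false

theorem ok_6_3 : Ok ty_6_3 := by
  constructor <;> decide +kernel

theorem sok_6_3 : SupOk ty_6_3 0 := by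
  constructor <;> decide +kernel

theorem st_6_3 : St ty_6_3 (two 6 3) 24
    (fun _ => 0)
    (fun b => bif b then [3, 5, 9, 3]
      else [1, 6, 7, 4, 2, 8, 1]) := by
  constructor <;> decide +kernel

theorem sp_6_3 : Sup ty_6_3 0 (∑ i, two 6 3 i)
    (fun _ => 0)
    (fun b => bif b then [3, 5, 9, 3]
      else [1, 6, 7, 4, 2, 8, 1]) := by
  constructor <;> decide +kernel

theorem has_6_3 : Has 6 3 :=
  Good.has (by norm_num) (by norm_num) ⟨_, _, st_6_3, sp_6_3⟩

/-- Data. -/
def ty_6_5 : Ty Bool Bool where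
  K := 0
  w := fun d k => bif d then (0 : ℕ) * k
    else 0
  fl := fun k => decide (k < 0)
  dj := fun d => bif d then 0 else 0
  G := fun d i => bif d then (bif i then 0 else 0) else (bif i then 0 else 0)
  pcs := []
  own := fun k => [].getD k false

theorem ok_6_5 : Ok ty_6_5 := by
  constructor <;> decide +kernel

theorem sok_6_5 : SupOk ty_6_5 0 := by
  constructor <;> decide +kernel

theorem st_6_5 : St ty_6_5 (two 6 5) 29
    (fun _ => 0)
    (fun b => bif b then [1, 6, 11, 4, 10, 1]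
      else [2, 7, 9, 3, 5, 8, 2]) := by
  constructor <;> decide +kernel

theorem sp_6_5 : Sup ty_6_5 0 (∑ i, two 6 5 i)
    (fun _ => 0)
    (fun b => bif b then [1, 6, 11, 4, 10, 1]
      else [2, 7, 9, 3, 5, 8, 2]) := by
  constructor <;> decide +kernel

theorem has_6_5 : Has 6 5 :=
  Good.has (by norm_num) (by norm_num) ⟨_, _, st_6_5, sp_6_5⟩

/-- Data. -/
def ty_6_7 : Ty Bool Bool where
  K := 0
  w := fun d k => bif d then (0 : ℕ) * k
    else 0
  fl := fun k => decide (k < 0)
  dj := fun d => bif d then 0 else 0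
  G := fun d i => bif d then (bif i then 0 else 0) else (bif i then 0 else 0)
  pcs := []
  own := fun k => [].getD k false

theorem ok_6_7 : Ok ty_6_7 := by
  constructor <;> decide +kernel

theorem sok_6_7 : SupOk ty_6_7 0 := by
  constructor <;> decide +kernel

theorem st_6_7 : St ty_6_7 (two 6 7) 34
    (fun _ => 0)
    (fun b => bif b then [2, 6, 12, 7, 13, 3, 11, 2]
      else [1, 9, 8, 4, 5, 10, 1]) := by
  constructor <;> decide +kernel

theorem sp_6_7 : Sup ty_6_7 0 (∑ i, two 6 7 i)
    (fun _ => 0)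
    (fun b => bif b then [2, 6, 12, 7, 13, 3, 11, 2]
      else [1, 9, 8, 4, 5, 10, 1]) := by
  constructor <;> decide +kernel

theorem has_6_7 : Has 6 7 :=
  Good.has (by norm_num) (by norm_num) ⟨_, _, st_6_7, sp_6_7⟩

end Pool.Agent.Helper1.CycleMagic.Multi
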