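import Mathlib
import Pool.Agent.Helper1.Multi4

set_option autoImplicit false

namespace Pool.Agent.Helper1.CycleMagic.Multi

theorem has0 (x y : ℕ) (hx : x % 4 = 0) (hy : y % 2 = 1) (h3 : 3 ≤ y) (h4 : 4 ≤ x)
    (h : ¬ (x = 4 ∧ y = 3)) : Has x y := by
  rcases Nat.lt_or_ge x 8 with h8 | h8
  · have hx4 : x = 4 := by omega
    subst hx4
    rcases Nat.lt_or_ge y 7 with h7 | h7
    · have : y = 5 := by omega
      subst this
      exact has_4_5
    · rcases Nat.lt_or_ge (y % 4) 2 with h2 | h2
      · have e : y = 9 + 4 * ((y - 9) / 4) := by omega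
        rw [e]
        exact has_4_9 _
      · have e : y = 7 + 4 * ((y - 7) / 4) := by omega
        rw [e]
        exact has_4_7 _
  · rcases Nat.lt_or_ge x (2 * y + 2) with ha | ha
    · rcases Nat.lt_or_ge x (2 * y - 2) with hb | hb
      · rcases Nat.lt_or_ge x (2 * y - 6) with hc | hc
        · obtain ⟨a, ha'⟩ : ∃ a, a = (x - 8) / 4 := ⟨_, rfl⟩
          obtain ⟨r, hr⟩ : ∃ r, r = y - 2 * a - 9 := ⟨_, rfl⟩
          have hr6 : r % 6 = 0 ∨ r % 6 = 2 ∨ r % 6 = 4 := by omega
          rcases hr6 with h6 | h6 | h6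
          · have e1 : x = 8 + 4 * a := by omega
            have e2 : y = 9 + 2 * a + 6 * (r / 6) := by omega
            rw [e1, e2]
            exact has_8_9 _ _
          · have e1 : x = 8 + 4 * a := by omega
            have e2 : y = 11 + 2 * a + 6 * (r / 6) := by omega
            rw [e1, e2]
            exact has_8_11 _ _
          · have e1 : x = 8 + 4 * a := by omega
            have e2 : y = 13 + 2 * a + 6 * (r / 6) := by omega
            rw [e1, e2]
            exact has_8_13 _ _
        · obtain ⟨a, ha'⟩ : ∃ a, a = (x - 8) / 4 := ⟨_, rfl⟩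
          have e1 : x = 8 + 4 * a := by omega
          have e2 : y = 7 + 2 * a := by omega
          rw [e1, e2]
          exact has_8_7 _
      · obtain ⟨a, ha'⟩ : ∃ a, a = (x - 8) / 4 := ⟨_, rfl⟩
        have e1 : x = 8 + 4 * a := by omega
        have e2 : y = 5 + 2 * a := by omega
        rw [e1, e2]
        exact has_8_5 _
    · obtain ⟨a, ha'⟩ : ∃ a, a = (y - 3) / 2 := ⟨_, rfl⟩
      obtain ⟨b, hb'⟩ : ∃ b, b = (x - 8 - 4 * a) / 4 := ⟨_, rfl⟩
      have e1 : x = 8 + 4 * a + 4 * b := by omega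
      have e2 : y = 3 + 2 * a := by omega
      rw [e1, e2]
      exact has_8_3 _ _

theorem has2 (x y : ℕ) (hx : x % 4 = 2) (hy : y % 2 = 1) (h3 : 3 ≤ y) (h4 : 4 ≤ x) :
    Has x y := by
  rcases Nat.lt_or_ge x 10 with h8 | h8
  · have hx6 : x = 6 := by omega
    subst hx6
    rcases Nat.lt_or_ge y 9 with h9 | h9
    · have : y = 3 ∨ y = 5 ∨ y = 7 := by omega
      rcases this with e | e | e
      · subst e
        exact has_6_3
      · subst e
        exact has_6_5
      · subst e
        exact has_6_7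
    · rcases Nat.lt_or_ge (y % 4) 2 with h2 | h2
      · have e : y = 9 + 4 * ((y - 9) / 4) := by omega
        rw [e]
        exact has_6_9 _
      · have e : y = 11 + 4 * ((y - 11) / 4) := by omega
        rw [e]
        exact has_6_11 _
  · rcases Nat.lt_or_ge x (2 * y + 8) with ha | ha
    · rcases Nat.lt_or_ge x (2 * y + 4) with hb | hb
      · rcases Nat.lt_or_ge x (2 * y) with hc | hc
        · rcases Nat.lt_or_ge x (2 * y - 4) with hd | hd
          · obtain ⟨a, ha'⟩ : ∃ a, a = (x - 10) / 4 := ⟨_, rfl⟩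
            obtain ⟨r, hr⟩ : ∃ r, r = y - 2 * a - 9 := ⟨_, rfl⟩
            have hr6 : r % 6 = 0 ∨ r % 6 = 2 ∨ r % 6 = 4 := by omega
            rcases hr6 with h6 | h6 | h6
            · have e1 : x = 10 + 4 * a := by omega
              have e2 : y = 9 + 2 * a + 6 * (r / 6) := by omega
              rw [e1, e2]
              exact has_10_9 _ _
            · have e1 : x = 10 + 4 * a := by omega
              have e2 : y = 11 + 2 * a + 6 * (r / 6) := by omega
              rw [e1, e2]
              exact has_10_11 _ _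
            · have e1 : x = 10 + 4 * a := by omega
              have e2 : y = 13 + 2 * a + 6 * (r / 6) := by omega
              rw [e1, e2]
              exact has_10_13 _ _
          · obtain ⟨a, ha'⟩ : ∃ a, a = (x - 10) / 4 := ⟨_, rfl⟩
            have e1 : x = 10 + 4 * a := by omega
            have e2 : y = 7 + 2 * a := by omega
            rw [e1, e2]
            exact has_10_7 _
        · obtain ⟨a, ha'⟩ : ∃ a, a = (x - 10) / 4 := ⟨_, rfl⟩
          have e1 : x = 10 + 4 * a := by omega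
          have e2 : y = 5 + 2 * a := by omega
          rw [e1, e2]
          exact has_10_5 _
      · obtain ⟨a, ha'⟩ : ∃ a, a = (x - 10) / 4 := ⟨_, rfl⟩
        have e1 : x = 10 + 4 * a := by omega
        have e2 : y = 3 + 2 * a := by omega
        rw [e1, e2]
        exact has_10_3 _
    · obtain ⟨a, ha'⟩ : ∃ a, a = (y - 3) / 2 := ⟨_, rfl⟩
      obtain ⟨r, hr⟩ : ∃ r, r = x - 14 - 4 * a := ⟨_, rfl⟩
      have hr8 : r % 8 = 0 ∨ r % 8 = 4 := by omega
      rcases hr8 with h6 | h6
      · have e1 : x = 14 + 4 * a + 8 * (r / 8) := by omega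
        have e2 : y = 3 + 2 * a := by omega
        rw [e1, e2]
        exact has_14_3 _ _
      · have e1 : x = 18 + 4 * a + 8 * (r / 8) := by omega
        have e2 : y = 3 + 2 * a := by omega
        rw [e1, e2]
        exact has_18_3 _ _

/-- The existence part. -/
theorem has_all (m n : ℕ) (hm : 3 ≤ m) (hn : 3 ≤ n)
    (h : ¬ ((m = 3 ∧ n = 4) ∨ (m = 4 ∧ n = 3))) (ho : Odd (m + n)) : Has m n := by
  obtain ⟨t, ht⟩ := ho
  rcases Nat.lt_or_ge (m % 2) 1 with h1 | h1
  · rcases Nat.lt_or_ge (m % 4) 1 with h2 | h2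
    · exact has0 m n (by omega) (by omega) hn (by omega) (by omega)
    · exact has2 m n (by omega) (by omega) hn (by omega)
  · apply Has.symm
    rcases Nat.lt_or_ge (n % 4) 1 with h2 | h2
    · exact has0 n m (by omega) (by omega) hm (by omega) (by omega)
    · exact has2 n m (by omega) (by omega) hm (by omega)

/-- The parity obstruction. -/
theorem odd_of_has (m n : ℕ) (hm : 3 ≤ m) (hn : 3 ≤ n) (h : Has m n) : Odd (m + n) := by
  obtain ⟨f, g, k, h1, h2, h3, h4, h5, h6⟩ := h
  have himg : ∀ (u : Fin m ⊕ Fin n → ℕ) (A : ℕ), Function.Injective u →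
      (∀ v, A + 1 ≤ u v ∧ u v ≤ A + (m + n)) →
      ∑ v, u v = ∑ x ∈ Finset.Icc (A + 1) (A + (m + n)), x := by
    intro u A hu hb
    have e : Finset.univ.image u = Finset.Icc (A + 1) (A + (m + n)) := by
      apply Finset.eq_of_subset_of_card_le
      · intro y hy
        obtain ⟨x, _, hx⟩ := Finset.mem_image.1 hy
        rw [Finset.mem_Icc, ← hx]
        exact hb x
      · rw [Finset.card_image_of_injective _ hu]
        simp
    rw [← e, Finset.sum_image (fun x _ y _ hxy => hu hxy)]
  have hshift : ∀ (r : ℕ) (hr : 3 ≤ r) (u : Fin r → ℕ),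
      ∑ i : Fin r, u ⟨(i.val + 1) % r, Nat.mod_lt _ (by omega)⟩ = ∑ i : Fin r, u i := by
    intro r hr u
    haveI : NeZero r := ⟨by omega⟩
    have e : ∀ i : Fin r, (⟨(i.val + 1) % r, Nat.mod_lt _ (by omega)⟩ : Fin r) = i + 1 := by
      intro i
      apply Fin.ext
      rw [Fin.val_add]
      congr 1
      rw [Fin.val_one', Nat.mod_eq_of_lt (show 1 < r by omega)]
    simp_rw [e]
    exact Equiv.sum_comp (Equiv.addRight (1 : Fin r)) u
  have hsum1 : ∑ i : Fin m, (f (Sum.inl i) + f (Sum.inl ⟨(i.val + 1) % m, Nat.mod_lt _ (by omega)⟩)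
      + g (Sum.inl i)) = m * k := by
    rw [Finset.sum_congr rfl (fun i _ => h5 i ⟨(i.val + 1) % m, Nat.mod_lt _ (by omega)⟩ rfl)]
    simp
  have hsum2 : ∑ i : Fin n, (f (Sum.inr i) + f (Sum.inr ⟨(i.val + 1) % n, Nat.mod_lt _ (by omega)⟩)
      + g (Sum.inr i)) = n * k := by
    rw [Finset.sum_congr rfl (fun i _ => h6 i ⟨(i.val + 1) % n, Nat.mod_lt _ (by omega)⟩ rfl)]
    simp
  rw [Finset.sum_add_distrib, Finset.sum_add_distrib] at hsum1 hsum2
  have s1 := hshift m hm (fun i => f (Sum.inl i))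
  have s2 := hshift n hn (fun i => f (Sum.inr i))
  rw [s1] at hsum1
  rw [s2] at hsum2
  have hf := himg f 0 h1 (fun v => by have := h3 v; omega)
  have hg := himg g (m + n) h2 (fun v => by have := h4 v; omega)
  rw [Fintype.sum_sum_type] at hf hg
  have q1 : ∀ A p : ℕ, 2 * ∑ x ∈ Finset.Icc (A + 1) (A + p), x = 2 * A * p + p * (p + 1) := by
    intro A p
    induction p with
    | zero => simp
    | succ p ih =>
      rw [← Nat.add_assoc, Finset.sum_Icc_succ_top (by omega), Nat.mul_add, ih]
      ring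
  have q2 := q1 0 (m + n)
  have q3 := q1 (m + n) (m + n)
  obtain ⟨p, hp⟩ : ∃ p, p = m + n := ⟨_, rfl⟩
  rw [← hp] at hf hg q2 q3 ⊢
  have tot : 2 * (p * k) = 2 * (p * (p + 1)) + (2 * p * p + p * (p + 1)) := by
    have e1 : p * k = m * k + n * k := by rw [hp]; ring
    rw [e1]
    have q2' : 2 * ∑ x ∈ Finset.Icc (0 + 1) (0 + p), x = p * (p + 1) := by
      rw [q2]
      ring
    omega
  have hp0 : 0 < p := by omega
  have e3 : 2 * k = 2 * (p + 1) + (2 * p + (p + 1)) := by
    apply Nat.eq_of_mul_eq_mul_left hp0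
    calc p * (2 * k) = 2 * (p * k) := by ring
      _ = _ := by rw [tot]; ring
  rw [Nat.odd_iff]
  omega

end Pool.Agent.Helper1.CycleMagic.Multi
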