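import Pool.Agent.Helper1.CycleMagic

set_option autoImplicit false

namespace Pool.Agent.Helper1.CycleMagic

/-! ### Counting -/

/-- The labels of a closed walk, vertices first, then edges. -/
def slot (l : List ℕ) (J m : ℕ) : Fin m ⊕ Fin m → ℕ
  | Sum.inl i => l.getD i.val 0
  | Sum.inr i => J - l.getD i.val 0 - l.getD (i.val + 1) 0

theorem closed_getD {l : List ℕ} {m : ℕ} (hl : l.length = m + 1)
    (hc : l.head? = l.getLast?) : l.getD m 0 = l.getD 0 0 := by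
  rw [List.head?_eq_getElem?, List.getLast?_eq_getElem?] at hc
  rw [hl] at hc
  simp only [Nat.add_sub_cancel] at hc
  rw [List.getD_eq_getElem?_getD, List.getD_eq_getElem?_getD, hc]

theorem slot_surj {l : List ℕ} {J m N : ℕ} (hl : l.length = m + 1) (hm : 0 < m)
    (hc : l.head? = l.getLast?)
    (hs : ∀ x < 2 * N + 1, 1 ≤ x → x ∈ l ∨ ∃ p ∈ prs l, p.1 + p.2 + x = J) :
    ∀ x ∈ Finset.Icc 1 (2 * N), ∃ s, slot l J m s = x := by
  intro x hx
  rw [Finset.mem_Icc] at hx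
  rcases hs x (by omega) hx.1 with h | ⟨p, hp, h⟩
  · obtain ⟨i, hi, hi'⟩ := List.getElem_of_mem h
    rcases Nat.lt_or_ge i m with him | him
    · refine ⟨Sum.inl ⟨i, him⟩, ?_⟩
      simp [slot, List.getD_eq_getElem?_getD, List.getElem?_eq_getElem hi, hi']
    · have e : i = m := by omega
      subst e
      refine ⟨Sum.inl ⟨0, hm⟩, ?_⟩
      have := closed_getD hl hc
      simp only [slot]
      rw [← this]
      simp [List.getD_eq_getElem?_getD, List.getElem?_eq_getElem hi, hi']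
  · obtain ⟨i, hi, hi'⟩ := mem_prs_iff.1 hp
    refine ⟨Sum.inr ⟨i, by omega⟩, ?_⟩
    subst hi'
    simp only [slot]
    simp only at h
    omega

theorem slot_card {l : List ℕ} {J m N : ℕ} (hl : l.length = m + 1) (hm : 0 < m)
    (hc : l.head? = l.getLast?)
    (hs : ∀ x < 2 * N + 1, 1 ≤ x → x ∈ l ∨ ∃ p ∈ prs l, p.1 + p.2 + x = J) : N ≤ m := by
  have h1 : Finset.Icc 1 (2 * N) ⊆ Finset.univ.image (slot l J m) := by
    intro x hx
    obtain ⟨s, hs'⟩ := slot_surj hl hm hc hs x hx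
    exact Finset.mem_image.2 ⟨s, Finset.mem_univ _, hs'⟩
  have h2 := Finset.card_le_card h1
  have h3 := Finset.card_image_le (s := Finset.univ) (f := slot l J m)
  simp at h2 h3
  omega

theorem slot_inj {l : List ℕ} {J m : ℕ} (hl : l.length = m + 1) (hm : 0 < m)
    (hc : l.head? = l.getLast?)
    (hs : ∀ x < 2 * m + 1, 1 ≤ x → x ∈ l ∨ ∃ p ∈ prs l, p.1 + p.2 + x = J) :
    Function.Injective (slot l J m) ∧ ∀ s, 1 ≤ slot l J m s ∧ slot l J m s ≤ 2 * m := by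
  have h1 : Finset.Icc 1 (2 * m) ⊆ Finset.univ.image (slot l J m) := by
    intro x hx
    obtain ⟨s, hs'⟩ := slot_surj hl hm hc hs x hx
    exact Finset.mem_image.2 ⟨s, Finset.mem_univ _, hs'⟩
  have h3 := Finset.card_image_le (s := Finset.univ) (f := slot l J m)
  have h4 : (Finset.univ : Finset (Fin m ⊕ Fin m)).card = 2 * m := by
    simp [two_mul]
  have h5 : (Finset.Icc 1 (2 * m)).card = 2 * m := by simp
  have h6 : Finset.Icc 1 (2 * m) = Finset.univ.image (slot l J m) := by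
    apply Finset.eq_of_subset_of_card_le h1
    omega
  constructor
  · have h7 : (Finset.univ.image (slot l J m)).card = (Finset.univ : Finset (Fin m ⊕ Fin m)).card := by
      rw [← h6, h4, h5]
    have h8 := Finset.card_image_iff.1 h7
    intro a b hab
    exact h8 (by simp) (by simp) hab
  · intro s
    have : slot l J m s ∈ Finset.univ.image (slot l J m) :=
      Finset.mem_image.2 ⟨s, Finset.mem_univ _, rfl⟩
    rw [← h6, Finset.mem_Icc] at this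
    exact this

/-! ### Family types and states -/

/-- Static data of a family: number of cuts, growth weights in two directions, which cuts are of
vertex kind, growth of the magic sum, number of growing pieces, and the pieces. -/
structure Ty where
  K : ℕ
  w : Bool → ℕ → ℕ
  fl : ℕ → Bool
  dj : Bool → ℕ
  G : Bool → ℕ
  pcs : List (ℕ × ℕ × ℕ)

/-- Validity of the static data. -/
structure Ok (T : Ty) : Prop where
  lt : ∀ q ∈ T.pcs, q.1 < T.K ∧ q.2.1 < T.K ∧ q.2.2 < T.K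
  flq : ∀ q ∈ T.pcs, T.fl q.1 = true ∧ T.fl q.2.1 = true ∧ T.fl q.2.2 = false
  wq : ∀ d, ∀ q ∈ T.pcs, (T.w d q.1 = 0 ∧ T.w d q.2.1 = 0 ∧ T.w d q.2.2 = 0) ∨
    (T.w d q.1 = 1 ∧ T.w d q.2.1 = 1 ∧ T.w d q.2.2 = 2)
  sum : ∀ d, ∀ q ∈ T.pcs, W (T.w d) q.1 + W (T.w d) q.2.1 + W (T.w d) (q.2.2 + 1) = T.dj d
  inj : ∀ q ∈ T.pcs, ∀ q' ∈ T.pcs, q.2.2 = q'.2.2 → q = q'
  cov : ∀ d, ∀ k < T.K, T.w d k = 0 ∨ ∃ q ∈ T.pcs, k = q.1 ∨ k = q.2.1 ∨ k = q.2.2
  tot : ∀ d, W (T.w d) T.K = 4 * T.G d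
  cnt : ∀ d, (T.pcs.filter (fun q => decide (T.w d q.1 ≠ 0))).length ≤ T.G d

/-- Regular edges: the shifts add up to the growth of the magic sum in both directions. -/
def Reg (T : Ty) (c : ℕ → ℕ) (a b e : ℕ) : Prop :=
  ∀ d, W (T.w d) (lev c a T.K) + W (T.w d) (lev c b T.K) + W (T.w d) (lev c e T.K) = T.dj d

/-- The pair `(a, b)` is the marked edge of the piece `q`. -/
def Mk (c : ℕ → ℕ) (q : ℕ × ℕ × ℕ) (a b : ℕ) : Prop :=
  (a = c q.1 ∧ b = c q.2.1 + 1) ∨ (a = c q.2.1 + 1 ∧ b = c q.1)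

instance (c : ℕ → ℕ) (q : ℕ × ℕ × ℕ) (a b : ℕ) : Decidable (Mk c q a b) := by
  unfold Mk
  infer_instance

/-- A good edge. -/
def Gd (T : Ty) (J : ℕ) (c : ℕ → ℕ) (a b : ℕ) : Prop :=
  a + b < J ∧ (Reg T c a b (J - a - b) ∨ ∃ q ∈ T.pcs, Mk c q a b)

/-- A labelled cycle with cuts that can grow. -/
structure St (T : Ty) (n J : ℕ) (c : ℕ → ℕ) (l : List ℕ) : Prop where
  mono : ∀ k < T.K, k + 1 < T.K → c k ≤ c (k + 1)
  bd : ∀ k < T.K, c k ≤ 2 * n
  len : l.length = n + 1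
  closed : l.head? = l.getLast?
  good : ∀ p ∈ prs l, Gd T J c p.1 p.2
  surj : ∀ x < 2 * n + 1, 1 ≤ x → x ∈ l ∨ ∃ p ∈ prs l, p.1 + p.2 + x = J
  pc : ∀ q ∈ T.pcs, c q.1 + c q.2.1 + c q.2.2 + 1 = J ∧ lev c (c q.1) T.K = q.1 ∧
    lev c (c q.2.1 + 1) T.K = q.2.1 + 1 ∧ lev c (c q.2.2) T.K = q.2.2 ∧
    ((c q.1, c q.2.1 + 1) ∈ prs l ∨ (c q.2.1 + 1, c q.1) ∈ prs l)

/-- The labels inserted in an edge. -/
def ins (T : Ty) (d : Bool) (c : ℕ → ℕ) (a b : ℕ) : List ℕ :=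
  match T.pcs.find? (fun q => decide (T.w d q.1 ≠ 0 ∧ Mk c q a b)) with
  | none => []
  | some q =>
    if a = c q.1 ∧ b = c q.2.1 + 1 then
      [c q.2.1 + W (T.w d) q.2.1 + 1, c q.1 + W (T.w d) q.1 + 1]
    else [c q.1 + W (T.w d) q.1 + 1, c q.2.1 + W (T.w d) q.2.1 + 1]

theorem ins_cases (T : Ty) (d : Bool) (c : ℕ → ℕ) (a b : ℕ) :
    (ins T d c a b = [] ∧ ∀ q ∈ T.pcs, T.w d q.1 ≠ 0 → ¬ Mk c q a b) ∨
    ∃ q ∈ T.pcs, T.w d q.1 ≠ 0 ∧
      ((a = c q.1 ∧ b = c q.2.1 + 1 ∧ ins T d c a b =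
        [c q.2.1 + W (T.w d) q.2.1 + 1, c q.1 + W (T.w d) q.1 + 1]) ∨
      (a = c q.2.1 + 1 ∧ b = c q.1 ∧ ins T d c a b =
        [c q.1 + W (T.w d) q.1 + 1, c q.2.1 + W (T.w d) q.2.1 + 1])) := by
  unfold ins
  cases h : T.pcs.find? (fun q => decide (T.w d q.1 ≠ 0 ∧ Mk c q a b)) with
  | none =>
    left
    refine ⟨rfl, fun q hq hw hm => ?_⟩
    rw [List.find?_eq_none] at h
    have := h q hq
    simp at this
    exact this hw hm
  | some q =>
    right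
    have h1 := List.find?_some h
    have h2 := List.mem_of_find?_eq_some h
    simp only [decide_eq_true_eq] at h1
    refine ⟨q, h2, h1.1, ?_⟩
    by_cases hc : a = c q.1 ∧ b = c q.2.1 + 1
    · left
      exact ⟨hc.1, hc.2, by simp [hc]⟩
    · right
      rcases h1.2 with h3 | h3
      · exact absurd h3 hc
      · refine ⟨h3.1, h3.2, ?_⟩
        simp only [hc, if_false]

theorem Mk_symm {c : ℕ → ℕ} {q : ℕ × ℕ × ℕ} {a b : ℕ} (h : Mk c q a b) : Mk c q b a := by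
  rcases h with ⟨h1, h2⟩ | ⟨h1, h2⟩
  · exact Or.inr ⟨h2, h1⟩
  · exact Or.inl ⟨h2, h1⟩

theorem Gd_symm {T : Ty} {J : ℕ} {c : ℕ → ℕ} {a b : ℕ} (h : Gd T J c a b) : Gd T J c b a := by
  obtain ⟨h1, h2⟩ := h
  refine ⟨by omega, ?_⟩
  rcases h2 with h2 | ⟨q, hq, h2⟩
  · left
    intro d
    have := h2 d
    have e : J - b - a = J - a - b := by omega
    rw [e]
    omega
  · right
    exact ⟨q, hq, Mk_symm h2⟩

end Pool.Agent.Helper1.CycleMagic
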