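import Pool.Agent.Helper1.CycleMagic3

set_option autoImplicit false

namespace Pool.Agent.Helper1.CycleMagic

/-- The cycle with `n` vertices has an edge-magic labeling with magic sum `J`. -/
def Has (n J : ℕ) : Prop :=
  ∃ f : ZMod n ⊕ ZMod n → ℕ,
    Function.Injective f ∧
    (∀ x, 1 ≤ f x ∧ f x ≤ 2 * n) ∧
    ∀ i : ZMod n, f (Sum.inl i) + f (Sum.inr i) + f (Sum.inl (i + 1)) = J

theorem has_of {n J : ℕ} {l : List ℕ} (hn : 0 < n) (hl : l.length = n + 1)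
    (hc : l.head? = l.getLast?)
    (hs : ∀ x < 2 * n + 1, 1 ≤ x → x ∈ l ∨ ∃ p ∈ prs l, p.1 + p.2 + x = J) : Has n J := by
  obtain ⟨h1, h2⟩ := slot_inj hl hn hc hs
  have h3 := closed_getD hl hc
  cases n with
  | zero => omega
  | succ m =>
    have key : ∀ i : Fin (m + 1), l.getD i.val 0 + (J - l.getD i.val 0 - l.getD (i.val + 1) 0) +
        l.getD (i + 1).val 0 = J := by
      intro i
      have h4 := (h2 (Sum.inr i)).1
      change 1 ≤ J - l.getD i.val 0 - l.getD (i.val + 1) 0 at h4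
      have h5 : (i + 1).val = if i.val = m then 0 else i.val + 1 := by
        rw [Fin.val_add_one]
        by_cases hi : i = Fin.last m
        · subst hi
          simp
        · have hi' : i.val ≠ m := fun h => hi (Fin.ext h)
          simp [hi, hi']
      rw [h5]
      by_cases hi : i.val = m
      · rw [if_pos hi]
        rw [hi] at h4 ⊢
        rw [h3] at h4 ⊢
        omega
      · rw [if_neg hi]
        omega
    exact ⟨slot l J (m + 1), h1, h2, fun i => key i⟩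

theorem has_dual {n J J' : ℕ} (h : Has n J) (hJ : J + J' = 3 * (2 * n + 1)) : Has n J' := by
  obtain ⟨f, h1, h2, h3⟩ := h
  refine ⟨fun x => 2 * n + 1 - f x, ?_, ?_, ?_⟩
  · intro x y hxy
    have a1 := h2 x
    have a2 := h2 y
    simp only at hxy
    apply h1
    omega
  · intro x
    have a1 := h2 x
    simp only
    omega
  · intro i
    have a1 := h2 (Sum.inl i)
    have a2 := h2 (Sum.inr i)
    have a3 := h2 (Sum.inl (i + 1))
    have a4 := h3 i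
    simp only
    omega

theorem grow {T : Ty} (hT : Ok T) (d : Bool) (a : ℕ) {n J : ℕ} {c : ℕ → ℕ} {l : List ℕ}
    (h : St T n J c l) (hn : 0 < n) :
    ∃ c' l', St T (n + 2 * T.G d * a) (J + T.dj d * a) c' l' := by
  induction a with
  | zero => exact ⟨c, l, by simpa using h⟩
  | succ a ih =>
    obtain ⟨c1, l1, h1⟩ := ih
    obtain ⟨c2, l2, h2⟩ := step hT h1 (by omega) d
    refine ⟨c2, l2, ?_⟩
    have e1 : n + 2 * T.G d * (a + 1) = n + 2 * T.G d * a + 2 * T.G d := by ring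
    have e2 : J + T.dj d * (a + 1) = J + T.dj d * a + T.dj d := by ring
    rw [e1, e2]
    exact h2

theorem fam {T : Ty} (hT : Ok T) {n J : ℕ} {c : ℕ → ℕ} {l : List ℕ}
    (h : St T n J c l) (hn : 0 < n) (a b : ℕ) :
    Has (n + 2 * T.G false * a + 2 * T.G true * b) (J + T.dj false * a + T.dj true * b) := by
  obtain ⟨c1, l1, h1⟩ := grow hT false a h hn
  obtain ⟨c2, l2, h2⟩ := grow hT true b h1 (by omega)
  exact has_of (by omega) h2.len h2.closed h2.surj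

instance (T : Ty) (c : ℕ → ℕ) (a b e : ℕ) : Decidable (Reg T c a b e) := by
  unfold Reg
  infer_instance

instance (T : Ty) (J : ℕ) (c : ℕ → ℕ) (a b : ℕ) : Decidable (Gd T J c a b) := by
  unfold Gd
  infer_instance

/-- Type with cut pattern `V0 V1 V0 V1 E1 E0`. -/
def tyP (p : List (ℕ × ℕ × ℕ)) : Ty where
  K := 6
  w := fun _ k => [1, 1, 1, 1, 2, 2].getD k 0
  fl := fun k => [true, true, true, true, false, false].getD k false
  dj := fun _ => 10
  G := fun _ => 2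
  pcs := p

/-- Type with cut pattern `V0 V1 E1 E0 V0 V1`. -/
def tyQ (p : List (ℕ × ℕ × ℕ)) : Ty where
  K := 6
  w := fun _ k => [1, 1, 2, 2, 1, 1].getD k 0
  fl := fun k => [true, true, false, false, true, true].getD k false
  dj := fun _ => 12
  G := fun _ => 2
  pcs := p

/-- Type with cut pattern `V0 V1 V2 V3 V4 E3 V0 V2 V4 E1 E4 V1 E2 V3 E0`. -/
def tyA (p : List (ℕ × ℕ × ℕ)) : Ty where
  K := 15
  w := fun d k => if d then [0, 1, 0, 1, 0, 2, 0, 0, 0, 2, 0, 1, 0, 1, 0].getD k 0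
    else [1, 0, 1, 0, 1, 0, 1, 1, 1, 0, 2, 0, 2, 0, 2].getD k 0
  fl := fun k => [true, true, true, true, true, false, true, true, true, false, false, true,
    false, true, false].getD k false
  dj := fun d => if d then 12 else 15
  G := fun d => if d then 2 else 3
  pcs := p

theorem okfP_8_0 : Ok (tyP [(2, 0, 5), (3, 1, 4)]) := by
  constructor <;> decide +kernel

theorem stfP_8_0 : St (tyP [(2, 0, 5), (3, 1, 4)]) 8 22
    (fun k => [2, 4, 6, 7, 10, 13].getD k 0)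
    [1, 5, 7, 4, 3, 6, 2, 12, 1] := by
  constructor <;> decide +kernel

theorem fP_8_0 (a : ℕ) : Has (8 + 4 * a) (22 + 10 * a) := by
  have h := fam okfP_8_0 stfP_8_0 (by norm_num) a 0
  have e1 : 8 + 2 * (tyP [(2, 0, 5), (3, 1, 4)]).G false * a + 2 * (tyP [(2, 0, 5), (3, 1, 4)]).G true * 0 = 8 + 4 * a := by
    simp only [tyP]
    omega
  have e2 : 22 + (tyP [(2, 0, 5), (3, 1, 4)]).dj false * a + (tyP [(2, 0, 5), (3, 1, 4)]).dj true * 0 = 22 + 10 * a := by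
    simp only [tyP]
    omega
  rwa [e1, e2] at h

theorem okfP_5_0 : Ok (tyP [(2, 0, 5), (1, 3, 4)]) := by
  constructor <;> decide +kernel

theorem stfP_5_0 : St (tyP [(2, 0, 5), (1, 3, 4)]) 5 14
    (fun k => [0, 1, 3, 3, 9, 10].getD k 0)
    [1, 3, 5, 2, 4, 1] := by
  constructor <;> decide +kernel

theorem fP_5_0 (a : ℕ) : Has (5 + 4 * a) (14 + 10 * a) := by
  have h := fam okfP_5_0 stfP_5_0 (by norm_num) a 0
  have e1 : 5 + 2 * (tyP [(2, 0, 5), (1, 3, 4)]).G false * a + 2 * (tyP [(2, 0, 5), (1, 3, 4)]).G true * 0 = 5 + 4 * a := by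
    simp only [tyP]
    omega
  have e2 : 14 + (tyP [(2, 0, 5), (1, 3, 4)]).dj false * a + (tyP [(2, 0, 5), (1, 3, 4)]).dj true * 0 = 14 + 10 * a := by
    simp only [tyP]
    omega
  rwa [e1, e2] at h

theorem okfP_6_0 : Ok (tyP [(0, 2, 5), (1, 3, 4)]) := by
  constructor <;> decide +kernel

theorem stfP_6_0 : St (tyP [(0, 2, 5), (1, 3, 4)]) 6 17
    (fun k => [1, 3, 4, 5, 8, 11].getD k 0)
    [1, 5, 2, 3, 6, 7, 1] := by
  constructor <;> decide +kernel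

theorem fP_6_0 (a : ℕ) : Has (6 + 4 * a) (17 + 10 * a) := by
  have h := fam okfP_6_0 stfP_6_0 (by norm_num) a 0
  have e1 : 6 + 2 * (tyP [(0, 2, 5), (1, 3, 4)]).G false * a + 2 * (tyP [(0, 2, 5), (1, 3, 4)]).G true * 0 = 6 + 4 * a := by
    simp only [tyP]
    omega
  have e2 : 17 + (tyP [(0, 2, 5), (1, 3, 4)]).dj false * a + (tyP [(0, 2, 5), (1, 3, 4)]).dj true * 0 = 17 + 10 * a := by
    simp only [tyP]
    omega
  rwa [e1, e2] at h

theorem okfP_7_0 : Ok (tyP [(2, 0, 5), (1, 3, 4)]) := by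
  constructor <;> decide +kernel

theorem stfP_7_0 : St (tyP [(2, 0, 5), (1, 3, 4)]) 7 19
    (fun k => [0, 1, 4, 4, 13, 14].getD k 0)
    [1, 4, 7, 3, 6, 2, 5, 1] := by
  constructor <;> decide +kernel

theorem fP_7_0 (a : ℕ) : Has (7 + 4 * a) (19 + 10 * a) := by
  have h := fam okfP_7_0 stfP_7_0 (by norm_num) a 0
  have e1 : 7 + 2 * (tyP [(2, 0, 5), (1, 3, 4)]).G false * a + 2 * (tyP [(2, 0, 5), (1, 3, 4)]).G true * 0 = 7 + 4 * a := by
    simp only [tyP]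
    omega
  have e2 : 19 + (tyP [(2, 0, 5), (1, 3, 4)]).dj false * a + (tyP [(2, 0, 5), (1, 3, 4)]).dj true * 0 = 19 + 10 * a := by
    simp only [tyP]
    omega
  rwa [e1, e2] at h

theorem okfP_8_1 : Ok (tyP [(0, 2, 5), (1, 3, 4)]) := by
  constructor <;> decide +kernel

theorem stfP_8_1 : St (tyP [(0, 2, 5), (1, 3, 4)]) 8 23
    (fun k => [2, 4, 4, 7, 11, 16].getD k 0)
    [1, 8, 4, 13, 3, 5, 2, 12, 1] := by
  constructor <;> decide +kernel

theorem fP_8_1 (a : ℕ) : Has (8 + 4 * a) (23 + 10 * a) := by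
  have h := fam okfP_8_1 stfP_8_1 (by norm_num) a 0
  have e1 : 8 + 2 * (tyP [(0, 2, 5), (1, 3, 4)]).G false * a + 2 * (tyP [(0, 2, 5), (1, 3, 4)]).G true * 0 = 8 + 4 * a := by
    simp only [tyP]
    omega
  have e2 : 23 + (tyP [(0, 2, 5), (1, 3, 4)]).dj false * a + (tyP [(0, 2, 5), (1, 3, 4)]).dj true * 0 = 23 + 10 * a := by
    simp only [tyP]
    omega
  rwa [e1, e2] at h

theorem okfP_13_1 : Ok (tyP [(0, 2, 5), (3, 1, 4)]) := by
  constructor <;> decide +kernel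

theorem stfP_13_1 : St (tyP [(0, 2, 5), (3, 1, 4)]) 13 35
    (fun k => [4, 6, 8, 12, 16, 22].getD k 0)
    [1, 8, 4, 9, 15, 3, 7, 12, 5, 6, 19, 2, 13, 1] := by
  constructor <;> decide +kernel

theorem fP_13_1 (a : ℕ) : Has (13 + 4 * a) (35 + 10 * a) := by
  have h := fam okfP_13_1 stfP_13_1 (by norm_num) a 0
  have e1 : 13 + 2 * (tyP [(0, 2, 5), (3, 1, 4)]).G false * a + 2 * (tyP [(0, 2, 5), (3, 1, 4)]).G true * 0 = 13 + 4 * a := by
    simp only [tyP]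
    omega
  have e2 : 35 + (tyP [(0, 2, 5), (3, 1, 4)]).dj false * a + (tyP [(0, 2, 5), (3, 1, 4)]).dj true * 0 = 35 + 10 * a := by
    simp only [tyP]
    omega
  rwa [e1, e2] at h

theorem okfP_14_1 : Ok (tyP [(2, 0, 5), (1, 3, 4)]) := by
  constructor <;> decide +kernel

theorem stfP_14_1 : St (tyP [(2, 0, 5), (1, 3, 4)]) 14 38
    (fun k => [3, 7, 12, 12, 18, 22].getD k 0)
    [1, 17, 2, 11, 3, 12, 4, 6, 5, 7, 13, 15, 9, 21, 1] := by
  constructor <;> decide +kernel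

theorem fP_14_1 (a : ℕ) : Has (14 + 4 * a) (38 + 10 * a) := by
  have h := fam okfP_14_1 stfP_14_1 (by norm_num) a 0
  have e1 : 14 + 2 * (tyP [(2, 0, 5), (1, 3, 4)]).G false * a + 2 * (tyP [(2, 0, 5), (1, 3, 4)]).G true * 0 = 14 + 4 * a := by
    simp only [tyP]
    omega
  have e2 : 38 + (tyP [(2, 0, 5), (1, 3, 4)]).dj false * a + (tyP [(2, 0, 5), (1, 3, 4)]).dj true * 0 = 38 + 10 * a := by
    simp only [tyP]
    omega
  rwa [e1, e2] at h

theorem okfP_7_1 : Ok (tyP [(2, 0, 5), (1, 3, 4)]) := by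
  constructor <;> decide +kernel

theorem stfP_7_1 : St (tyP [(2, 0, 5), (1, 3, 4)]) 7 20
    (fun k => [0, 2, 5, 7, 10, 14].getD k 0)
    [1, 5, 4, 3, 8, 2, 12, 1] := by
  constructor <;> decide +kernel

theorem fP_7_1 (a : ℕ) : Has (7 + 4 * a) (20 + 10 * a) := by
  have h := fam okfP_7_1 stfP_7_1 (by norm_num) a 0
  have e1 : 7 + 2 * (tyP [(2, 0, 5), (1, 3, 4)]).G false * a + 2 * (tyP [(2, 0, 5), (1, 3, 4)]).G true * 0 = 7 + 4 * a := by
    simp only [tyP]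
    omega
  have e2 : 20 + (tyP [(2, 0, 5), (1, 3, 4)]).dj false * a + (tyP [(2, 0, 5), (1, 3, 4)]).dj true * 0 = 20 + 10 * a := by
    simp only [tyP]
    omega
  rwa [e1, e2] at h

theorem okfP_8_2 : Ok (tyP [(2, 0, 5), (3, 1, 4)]) := by
  constructor <;> decide +kernel

theorem stfP_8_2 : St (tyP [(2, 0, 5), (3, 1, 4)]) 8 24
    (fun k => [0, 2, 7, 10, 11, 16].getD k 0)
    [1, 7, 4, 15, 3, 10, 2, 14, 1] := by
  constructor <;> decide +kernel

theorem fP_8_2 (a : ℕ) : Has (8 + 4 * a) (24 + 10 * a) := by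
  have h := fam okfP_8_2 stfP_8_2 (by norm_num) a 0
  have e1 : 8 + 2 * (tyP [(2, 0, 5), (3, 1, 4)]).G false * a + 2 * (tyP [(2, 0, 5), (3, 1, 4)]).G true * 0 = 8 + 4 * a := by
    simp only [tyP]
    omega
  have e2 : 24 + (tyP [(2, 0, 5), (3, 1, 4)]).dj false * a + (tyP [(2, 0, 5), (3, 1, 4)]).dj true * 0 = 24 + 10 * a := by
    simp only [tyP]
    omega
  rwa [e1, e2] at h

theorem okfP_9_2 : Ok (tyP [(2, 0, 5), (3, 1, 4)]) := by
  constructor <;> decide +kernel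

theorem stfP_9_2 : St (tyP [(2, 0, 5), (3, 1, 4)]) 9 26
    (fun k => [1, 3, 6, 10, 12, 18].getD k 0)
    [2, 6, 5, 4, 10, 3, 14, 11, 8, 2] := by
  constructor <;> decide +kernel

theorem fP_9_2 (a : ℕ) : Has (9 + 4 * a) (26 + 10 * a) := by
  have h := fam okfP_9_2 stfP_9_2 (by norm_num) a 0
  have e1 : 9 + 2 * (tyP [(2, 0, 5), (3, 1, 4)]).G false * a + 2 * (tyP [(2, 0, 5), (3, 1, 4)]).G true * 0 = 9 + 4 * a := by
    simp only [tyP]
    omega
  have e2 : 26 + (tyP [(2, 0, 5), (3, 1, 4)]).dj false * a + (tyP [(2, 0, 5), (3, 1, 4)]).dj true * 0 = 26 + 10 * a := by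
    simp only [tyP]
    omega
  rwa [e1, e2] at h

theorem okfP_10_2 : Ok (tyP [(0, 2, 5), (1, 3, 4)]) := by
  constructor <;> decide +kernel

theorem stfP_10_2 : St (tyP [(0, 2, 5), (1, 3, 4)]) 10 29
    (fun k => [4, 5, 6, 9, 14, 18].getD k 0)
    [3, 6, 4, 7, 9, 8, 5, 10, 17, 11, 3] := by
  constructor <;> decide +kernel

theorem fP_10_2 (a : ℕ) : Has (10 + 4 * a) (29 + 10 * a) := by
  have h := fam okfP_10_2 stfP_10_2 (by norm_num) a 0
  have e1 : 10 + 2 * (tyP [(0, 2, 5), (1, 3, 4)]).G false * a + 2 * (tyP [(0, 2, 5), (1, 3, 4)]).G true * 0 = 10 + 4 * a := by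
    simp only [tyP]
    omega
  have e2 : 29 + (tyP [(0, 2, 5), (1, 3, 4)]).dj false * a + (tyP [(0, 2, 5), (1, 3, 4)]).dj true * 0 = 29 + 10 * a := by
    simp only [tyP]
    omega
  rwa [e1, e2] at h

theorem okfP_7_2 : Ok (tyP [(2, 0, 5), (3, 1, 4)]) := by
  constructor <;> decide +kernel

theorem stfP_7_2 : St (tyP [(2, 0, 5), (3, 1, 4)]) 7 21
    (fun k => [0, 3, 6, 8, 9, 14].getD k 0)
    [1, 6, 5, 4, 8, 11, 7, 1] := by
  constructor <;> decide +kernel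

theorem fP_7_2 (a : ℕ) : Has (7 + 4 * a) (21 + 10 * a) := by
  have h := fam okfP_7_2 stfP_7_2 (by norm_num) a 0
  have e1 : 7 + 2 * (tyP [(2, 0, 5), (3, 1, 4)]).G false * a + 2 * (tyP [(2, 0, 5), (3, 1, 4)]).G true * 0 = 7 + 4 * a := by
    simp only [tyP]
    omega
  have e2 : 21 + (tyP [(2, 0, 5), (3, 1, 4)]).dj false * a + (tyP [(2, 0, 5), (3, 1, 4)]).dj true * 0 = 21 + 10 * a := by
    simp only [tyP]
    omega
  rwa [e1, e2] at h

theorem okfP_8_3 : Ok (tyP [(2, 0, 5), (1, 3, 4)]) := by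
  constructor <;> decide +kernel

theorem stfP_8_3 : St (tyP [(2, 0, 5), (1, 3, 4)]) 8 25
    (fun k => [3, 5, 6, 8, 11, 15].getD k 0)
    [3, 6, 4, 13, 5, 9, 14, 10, 3] := by
  constructor <;> decide +kernel

theorem fP_8_3 (a : ℕ) : Has (8 + 4 * a) (25 + 10 * a) := by
  have h := fam okfP_8_3 stfP_8_3 (by norm_num) a 0
  have e1 : 8 + 2 * (tyP [(2, 0, 5), (1, 3, 4)]).G false * a + 2 * (tyP [(2, 0, 5), (1, 3, 4)]).G true * 0 = 8 + 4 * a := by
    simp only [tyP]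
    omega
  have e2 : 25 + (tyP [(2, 0, 5), (1, 3, 4)]).dj false * a + (tyP [(2, 0, 5), (1, 3, 4)]).dj true * 0 = 25 + 10 * a := by
    simp only [tyP]
    omega
  rwa [e1, e2] at h

theorem okfP_9_3 : Ok (tyP [(2, 0, 5), (1, 3, 4)]) := by
  constructor <;> decide +kernel

theorem stfP_9_3 : St (tyP [(2, 0, 5), (1, 3, 4)]) 9 27
    (fun k => [1, 4, 8, 10, 12, 17].getD k 0)
    [1, 8, 2, 16, 6, 14, 10, 4, 11, 1] := by
  constructor <;> decide +kernel

theorem fP_9_3 (a : ℕ) : Has (9 + 4 * a) (27 + 10 * a) := by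
  have h := fam okfP_9_3 stfP_9_3 (by norm_num) a 0
  have e1 : 9 + 2 * (tyP [(2, 0, 5), (1, 3, 4)]).G false * a + 2 * (tyP [(2, 0, 5), (1, 3, 4)]).G true * 0 = 9 + 4 * a := by
    simp only [tyP]
    omega
  have e2 : 27 + (tyP [(2, 0, 5), (1, 3, 4)]).dj false * a + (tyP [(2, 0, 5), (1, 3, 4)]).dj true * 0 = 27 + 10 * a := by
    simp only [tyP]
    omega
  rwa [e1, e2] at h

theorem okfP_10_3 : Ok (tyP [(0, 2, 5), (3, 1, 4)]) := by
  constructor <;> decide +kernel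

theorem stfP_10_3 : St (tyP [(0, 2, 5), (3, 1, 4)]) 10 30
    (fun k => [3, 6, 7, 10, 13, 19].getD k 0)
    [1, 12, 16, 9, 6, 10, 7, 3, 8, 18, 1] := by
  constructor <;> decide +kernel

theorem fP_10_3 (a : ℕ) : Has (10 + 4 * a) (30 + 10 * a) := by
  have h := fam okfP_10_3 stfP_10_3 (by norm_num) a 0
  have e1 : 10 + 2 * (tyP [(0, 2, 5), (3, 1, 4)]).G false * a + 2 * (tyP [(0, 2, 5), (3, 1, 4)]).G true * 0 = 10 + 4 * a := by
    simp only [tyP]
    omega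
  have e2 : 30 + (tyP [(0, 2, 5), (3, 1, 4)]).dj false * a + (tyP [(0, 2, 5), (3, 1, 4)]).dj true * 0 = 30 + 10 * a := by
    simp only [tyP]
    omega
  rwa [e1, e2] at h

theorem okfP_7_3 : Ok (tyP [(0, 2, 5), (1, 3, 4)]) := by
  constructor <;> decide +kernel

theorem stfP_7_3 : St (tyP [(0, 2, 5), (1, 3, 4)]) 7 22
    (fun k => [1, 3, 6, 8, 10, 14].getD k 0)
    [1, 7, 13, 5, 11, 3, 9, 1] := by
  constructor <;> decide +kernel

theorem fP_7_3 (a : ℕ) : Has (7 + 4 * a) (22 + 10 * a) := by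
  have h := fam okfP_7_3 stfP_7_3 (by norm_num) a 0
  have e1 : 7 + 2 * (tyP [(0, 2, 5), (1, 3, 4)]).G false * a + 2 * (tyP [(0, 2, 5), (1, 3, 4)]).G true * 0 = 7 + 4 * a := by
    simp only [tyP]
    omega
  have e2 : 22 + (tyP [(0, 2, 5), (1, 3, 4)]).dj false * a + (tyP [(0, 2, 5), (1, 3, 4)]).dj true * 0 = 22 + 10 * a := by
    simp only [tyP]
    omega
  rwa [e1, e2] at h

theorem okfP_12_4 : Ok (tyP [(0, 2, 5), (3, 1, 4)]) := by
  constructor <;> decide +kernel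

theorem stfP_12_4 : St (tyP [(0, 2, 5), (3, 1, 4)]) 12 36
    (fun k => [5, 6, 8, 12, 17, 22].getD k 0)
    [4, 8, 5, 9, 6, 19, 15, 20, 13, 7, 12, 14, 4] := by
  constructor <;> decide +kernel

theorem fP_12_4 (a : ℕ) : Has (12 + 4 * a) (36 + 10 * a) := by
  have h := fam okfP_12_4 stfP_12_4 (by norm_num) a 0
  have e1 : 12 + 2 * (tyP [(0, 2, 5), (3, 1, 4)]).G false * a + 2 * (tyP [(0, 2, 5), (3, 1, 4)]).G true * 0 = 12 + 4 * a := by
    simp only [tyP]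
    omega
  have e2 : 36 + (tyP [(0, 2, 5), (3, 1, 4)]).dj false * a + (tyP [(0, 2, 5), (3, 1, 4)]).dj true * 0 = 36 + 10 * a := by
    simp only [tyP]
    omega
  rwa [e1, e2] at h

theorem okfP_9_4 : Ok (tyP [(0, 2, 5), (1, 3, 4)]) := by
  constructor <;> decide +kernel

theorem stfP_9_4 : St (tyP [(0, 2, 5), (1, 3, 4)]) 9 28
    (fun k => [1, 3, 8, 10, 14, 18].getD k 0)
    [1, 9, 17, 5, 16, 4, 11, 3, 15, 1] := by
  constructor <;> decide +kernel

theorem fP_9_4 (a : ℕ) : Has (9 + 4 * a) (28 + 10 * a) := by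
  have h := fam okfP_9_4 stfP_9_4 (by norm_num) a 0
  have e1 : 9 + 2 * (tyP [(0, 2, 5), (1, 3, 4)]).G false * a + 2 * (tyP [(0, 2, 5), (1, 3, 4)]).G true * 0 = 9 + 4 * a := by
    simp only [tyP]
    omega
  have e2 : 28 + (tyP [(0, 2, 5), (1, 3, 4)]).dj false * a + (tyP [(0, 2, 5), (1, 3, 4)]).dj true * 0 = 28 + 10 * a := by
    simp only [tyP]
    omega
  rwa [e1, e2] at h

theorem okfP_10_4 : Ok (tyP [(0, 2, 5), (1, 3, 4)]) := by
  constructor <;> decide +kernel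

theorem stfP_10_4 : St (tyP [(0, 2, 5), (1, 3, 4)]) 10 31
    (fun k => [4, 6, 7, 9, 15, 19].getD k 0)
    [1, 14, 8, 4, 20, 6, 10, 18, 2, 17, 1] := by
  constructor <;> decide +kernel

theorem fP_10_4 (a : ℕ) : Has (10 + 4 * a) (31 + 10 * a) := by
  have h := fam okfP_10_4 stfP_10_4 (by norm_num) a 0
  have e1 : 10 + 2 * (tyP [(0, 2, 5), (1, 3, 4)]).G false * a + 2 * (tyP [(0, 2, 5), (1, 3, 4)]).G true * 0 = 10 + 4 * a := by
    simp only [tyP]
    omega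
  have e2 : 31 + (tyP [(0, 2, 5), (1, 3, 4)]).dj false * a + (tyP [(0, 2, 5), (1, 3, 4)]).dj true * 0 = 31 + 10 * a := by
    simp only [tyP]
    omega
  rwa [e1, e2] at h

theorem okfP_11_4 : Ok (tyP [(2, 0, 5), (3, 1, 4)]) := by
  constructor <;> decide +kernel

theorem stfP_11_4 : St (tyP [(2, 0, 5), (3, 1, 4)]) 11 33
    (fun k => [2, 5, 10, 12, 15, 20].getD k 0)
    [2, 9, 8, 18, 14, 6, 12, 17, 11, 3, 10, 2] := by
  constructor <;> decide +kernel

theorem fP_11_4 (a : ℕ) : Has (11 + 4 * a) (33 + 10 * a) := by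
  have h := fam okfP_11_4 stfP_11_4 (by norm_num) a 0
  have e1 : 11 + 2 * (tyP [(2, 0, 5), (3, 1, 4)]).G false * a + 2 * (tyP [(2, 0, 5), (3, 1, 4)]).G true * 0 = 11 + 4 * a := by
    simp only [tyP]
    omega
  have e2 : 33 + (tyP [(2, 0, 5), (3, 1, 4)]).dj false * a + (tyP [(2, 0, 5), (3, 1, 4)]).dj true * 0 = 33 + 10 * a := by
    simp only [tyP]
    omega
  rwa [e1, e2] at h

theorem okfP_12_5 : Ok (tyP [(2, 0, 5), (1, 3, 4)]) := by
  constructor <;> decide +kernel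

theorem stfP_12_5 : St (tyP [(2, 0, 5), (1, 3, 4)]) 12 37
    (fun k => [5, 8, 9, 11, 17, 22].getD k 0)
    [3, 16, 11, 19, 4, 9, 6, 8, 12, 20, 15, 21, 3] := by
  constructor <;> decide +kernel

theorem fP_12_5 (a : ℕ) : Has (12 + 4 * a) (37 + 10 * a) := by
  have h := fam okfP_12_5 stfP_12_5 (by norm_num) a 0
  have e1 : 12 + 2 * (tyP [(2, 0, 5), (1, 3, 4)]).G false * a + 2 * (tyP [(2, 0, 5), (1, 3, 4)]).G true * 0 = 12 + 4 * a := by
    simp only [tyP]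
    omega
  have e2 : 37 + (tyP [(2, 0, 5), (1, 3, 4)]).dj false * a + (tyP [(2, 0, 5), (1, 3, 4)]).dj true * 0 = 37 + 10 * a := by
    simp only [tyP]
    omega
  rwa [e1, e2] at h

theorem okfP_13_5 : Ok (tyP [(0, 2, 5), (3, 1, 4)]) := by
  constructor <;> decide +kernel

theorem stfP_13_5 : St (tyP [(0, 2, 5), (3, 1, 4)]) 13 39
    (fun k => [2, 4, 13, 15, 19, 23].getD k 0)
    [1, 12, 20, 9, 22, 6, 16, 5, 15, 21, 14, 2, 13, 1] := by
  constructor <;> decide +kernel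

theorem fP_13_5 (a : ℕ) : Has (13 + 4 * a) (39 + 10 * a) := by
  have h := fam okfP_13_5 stfP_13_5 (by norm_num) a 0
  have e1 : 13 + 2 * (tyP [(0, 2, 5), (3, 1, 4)]).G false * a + 2 * (tyP [(0, 2, 5), (3, 1, 4)]).G true * 0 = 13 + 4 * a := by
    simp only [tyP]
    omega
  have e2 : 39 + (tyP [(0, 2, 5), (3, 1, 4)]).dj false * a + (tyP [(0, 2, 5), (3, 1, 4)]).dj true * 0 = 39 + 10 * a := by
    simp only [tyP]
    omega
  rwa [e1, e2] at h

theorem okfP_14_5 : Ok (tyP [(0, 2, 5), (3, 1, 4)]) := by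
  constructor <;> decide +kernel

theorem stfP_14_5 : St (tyP [(0, 2, 5), (3, 1, 4)]) 14 42
    (fun k => [7, 7, 10, 14, 20, 24].getD k 0)
    [5, 9, 6, 10, 7, 11, 19, 22, 17, 23, 15, 14, 8, 16, 5] := by
  constructor <;> decide +kernel

theorem fP_14_5 (a : ℕ) : Has (14 + 4 * a) (42 + 10 * a) := by
  have h := fam okfP_14_5 stfP_14_5 (by norm_num) a 0
  have e1 : 14 + 2 * (tyP [(0, 2, 5), (3, 1, 4)]).G false * a + 2 * (tyP [(0, 2, 5), (3, 1, 4)]).G true * 0 = 14 + 4 * a := by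
    simp only [tyP]
    omega
  have e2 : 42 + (tyP [(0, 2, 5), (3, 1, 4)]).dj false * a + (tyP [(0, 2, 5), (3, 1, 4)]).dj true * 0 = 42 + 10 * a := by
    simp only [tyP]
    omega
  rwa [e1, e2] at h

theorem okfP_11_5 : Ok (tyP [(0, 2, 5), (1, 3, 4)]) := by
  constructor <;> decide +kernel

theorem stfP_11_5 : St (tyP [(0, 2, 5), (1, 3, 4)]) 11 34
    (fun k => [2, 4, 10, 13, 16, 21].getD k 0)
    [2, 10, 18, 15, 14, 4, 17, 8, 19, 3, 11, 2] := by
  constructor <;> decide +kernel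

theorem fP_11_5 (a : ℕ) : Has (11 + 4 * a) (34 + 10 * a) := by
  have h := fam okfP_11_5 stfP_11_5 (by norm_num) a 0
  have e1 : 11 + 2 * (tyP [(0, 2, 5), (1, 3, 4)]).G false * a + 2 * (tyP [(0, 2, 5), (1, 3, 4)]).G true * 0 = 11 + 4 * a := by
    simp only [tyP]
    omega
  have e2 : 34 + (tyP [(0, 2, 5), (1, 3, 4)]).dj false * a + (tyP [(0, 2, 5), (1, 3, 4)]).dj true * 0 = 34 + 10 * a := by
    simp only [tyP]
    omega
  rwa [e1, e2] at h

theorem okfQ_9_4 : Ok (tyQ [(4, 0, 3), (5, 1, 2)]) := by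
  constructor <;> decide +kernel

theorem stfQ_9_4 : St (tyQ [(4, 0, 3), (5, 1, 2)]) 9 28
    (fun k => [2, 4, 7, 11, 14, 16].getD k 0)
    [1, 14, 3, 10, 6, 5, 16, 8, 18, 1] := by
  constructor <;> decide +kernel

theorem fQ_9_4 (a : ℕ) : Has (9 + 4 * a) (28 + 12 * a) := by
  have h := fam okfQ_9_4 stfQ_9_4 (by norm_num) a 0
  have e1 : 9 + 2 * (tyQ [(4, 0, 3), (5, 1, 2)]).G false * a + 2 * (tyQ [(4, 0, 3), (5, 1, 2)]).G true * 0 = 9 + 4 * a := by
    simp only [tyQ]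
    omega
  have e2 : 28 + (tyQ [(4, 0, 3), (5, 1, 2)]).dj false * a + (tyQ [(4, 0, 3), (5, 1, 2)]).dj true * 0 = 28 + 12 * a := by
    simp only [tyQ]
    omega
  rwa [e1, e2] at h

theorem okfQ_11_5 : Ok (tyQ [(0, 4, 3), (5, 1, 2)]) := by
  constructor <;> decide +kernel

theorem stfQ_11_5 : St (tyQ [(0, 4, 3), (5, 1, 2)]) 11 34
    (fun k => [2, 4, 9, 13, 18, 20].getD k 0)
    [1, 12, 16, 10, 7, 5, 20, 11, 19, 2, 18, 1] := by
  constructor <;> decide +kernel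

theorem fQ_11_5 (a : ℕ) : Has (11 + 4 * a) (34 + 12 * a) := by
  have h := fam okfQ_11_5 stfQ_11_5 (by norm_num) a 0
  have e1 : 11 + 2 * (tyQ [(0, 4, 3), (5, 1, 2)]).G false * a + 2 * (tyQ [(0, 4, 3), (5, 1, 2)]).G true * 0 = 11 + 4 * a := by
    simp only [tyQ]
    omega
  have e2 : 34 + (tyQ [(0, 4, 3), (5, 1, 2)]).dj false * a + (tyQ [(0, 4, 3), (5, 1, 2)]).dj true * 0 = 34 + 12 * a := by
    simp only [tyQ]
    omega
  rwa [e1, e2] at h

theorem okfQ_8_3 : Ok (tyQ [(0, 4, 3), (5, 1, 2)]) := by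
  constructor <;> decide +kernel

theorem stfQ_8_3 : St (tyQ [(0, 4, 3), (5, 1, 2)]) 8 25
    (fun k => [2, 4, 7, 11, 11, 13].getD k 0)
    [1, 8, 2, 12, 9, 13, 5, 14, 1] := by
  constructor <;> decide +kernel

theorem fQ_8_3 (a : ℕ) : Has (8 + 4 * a) (25 + 12 * a) := by
  have h := fam okfQ_8_3 stfQ_8_3 (by norm_num) a 0
  have e1 : 8 + 2 * (tyQ [(0, 4, 3), (5, 1, 2)]).G false * a + 2 * (tyQ [(0, 4, 3), (5, 1, 2)]).G true * 0 = 8 + 4 * a := by
    simp only [tyQ]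
    omega
  have e2 : 25 + (tyQ [(0, 4, 3), (5, 1, 2)]).dj false * a + (tyQ [(0, 4, 3), (5, 1, 2)]).dj true * 0 = 25 + 12 * a := by
    simp only [tyQ]
    omega
  rwa [e1, e2] at h

theorem okfQ_10_4 : Ok (tyQ [(4, 0, 3), (1, 5, 2)]) := by
  constructor <;> decide +kernel

theorem stfQ_10_4 : St (tyQ [(4, 0, 3), (1, 5, 2)]) 10 31
    (fun k => [3, 5, 8, 12, 15, 17].getD k 0)
    [2, 9, 19, 11, 7, 18, 5, 10, 4, 15, 2] := by
  constructor <;> decide +kernel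

theorem fQ_10_4 (a : ℕ) : Has (10 + 4 * a) (31 + 12 * a) := by
  have h := fam okfQ_10_4 stfQ_10_4 (by norm_num) a 0
  have e1 : 10 + 2 * (tyQ [(4, 0, 3), (1, 5, 2)]).G false * a + 2 * (tyQ [(4, 0, 3), (1, 5, 2)]).G true * 0 = 10 + 4 * a := by
    simp only [tyQ]
    omega
  have e2 : 31 + (tyQ [(4, 0, 3), (1, 5, 2)]).dj false * a + (tyQ [(4, 0, 3), (1, 5, 2)]).dj true * 0 = 31 + 12 * a := by
    simp only [tyQ]
    omega
  rwa [e1, e2] at h

theorem okfQ_9_3 : Ok (tyQ [(0, 4, 3), (1, 5, 2)]) := by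
  constructor <;> decide +kernel

theorem stfQ_9_3 : St (tyQ [(0, 4, 3), (1, 5, 2)]) 9 27
    (fun k => [1, 3, 7, 11, 14, 16].getD k 0)
    [1, 8, 3, 17, 4, 9, 5, 10, 15, 1] := by
  constructor <;> decide +kernel

theorem fQ_9_3 (a : ℕ) : Has (9 + 4 * a) (27 + 12 * a) := by
  have h := fam okfQ_9_3 stfQ_9_3 (by norm_num) a 0
  have e1 : 9 + 2 * (tyQ [(0, 4, 3), (1, 5, 2)]).G false * a + 2 * (tyQ [(0, 4, 3), (1, 5, 2)]).G true * 0 = 9 + 4 * a := by
    simp only [tyQ]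
    omega
  have e2 : 27 + (tyQ [(0, 4, 3), (1, 5, 2)]).dj false * a + (tyQ [(0, 4, 3), (1, 5, 2)]).dj true * 0 = 27 + 12 * a := by
    simp only [tyQ]
    omega
  rwa [e1, e2] at h

theorem okfQ_11_4 : Ok (tyQ [(4, 0, 3), (1, 5, 2)]) := by
  constructor <;> decide +kernel

theorem stfQ_11_4 : St (tyQ [(4, 0, 3), (1, 5, 2)]) 11 33
    (fun k => [1, 3, 9, 13, 18, 20].getD k 0)
    [2, 11, 3, 21, 8, 10, 6, 5, 12, 14, 18, 2] := by
  constructor <;> decide +kernel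

theorem fQ_11_4 (a : ℕ) : Has (11 + 4 * a) (33 + 12 * a) := by
  have h := fam okfQ_11_4 stfQ_11_4 (by norm_num) a 0
  have e1 : 11 + 2 * (tyQ [(4, 0, 3), (1, 5, 2)]).G false * a + 2 * (tyQ [(4, 0, 3), (1, 5, 2)]).G true * 0 = 11 + 4 * a := by
    simp only [tyQ]
    omega
  have e2 : 33 + (tyQ [(4, 0, 3), (1, 5, 2)]).dj false * a + (tyQ [(4, 0, 3), (1, 5, 2)]).dj true * 0 = 33 + 12 * a := by
    simp only [tyQ]
    omega
  rwa [e1, e2] at h

theorem okfQ_8_2 : Ok (tyQ [(4, 0, 3), (1, 5, 2)]) := by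
  constructor <;> decide +kernel

theorem stfQ_8_2 : St (tyQ [(4, 0, 3), (1, 5, 2)]) 8 24
    (fun k => [0, 2, 6, 10, 13, 15].getD k 0)
    [1, 8, 2, 16, 3, 9, 4, 13, 1] := by
  constructor <;> decide +kernel

theorem fQ_8_2 (a : ℕ) : Has (8 + 4 * a) (24 + 12 * a) := by
  have h := fam okfQ_8_2 stfQ_8_2 (by norm_num) a 0
  have e1 : 8 + 2 * (tyQ [(4, 0, 3), (1, 5, 2)]).G false * a + 2 * (tyQ [(4, 0, 3), (1, 5, 2)]).G true * 0 = 8 + 4 * a := by
    simp only [tyQ]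
    omega
  have e2 : 24 + (tyQ [(4, 0, 3), (1, 5, 2)]).dj false * a + (tyQ [(4, 0, 3), (1, 5, 2)]).dj true * 0 = 24 + 12 * a := by
    simp only [tyQ]
    omega
  rwa [e1, e2] at h

theorem okfQ_10_3 : Ok (tyQ [(0, 4, 3), (5, 1, 2)]) := by
  constructor <;> decide +kernel

theorem stfQ_10_3 : St (tyQ [(0, 4, 3), (5, 1, 2)]) 10 30
    (fun k => [2, 4, 8, 12, 15, 17].getD k 0)
    [1, 9, 17, 5, 6, 10, 13, 2, 16, 11, 1] := by
  constructor <;> decide +kernel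

theorem fQ_10_3 (a : ℕ) : Has (10 + 4 * a) (30 + 12 * a) := by
  have h := fam okfQ_10_3 stfQ_10_3 (by norm_num) a 0
  have e1 : 10 + 2 * (tyQ [(0, 4, 3), (5, 1, 2)]).G false * a + 2 * (tyQ [(0, 4, 3), (5, 1, 2)]).G true * 0 = 10 + 4 * a := by
    simp only [tyQ]
    omega
  have e2 : 30 + (tyQ [(0, 4, 3), (5, 1, 2)]).dj false * a + (tyQ [(0, 4, 3), (5, 1, 2)]).dj true * 0 = 30 + 12 * a := by
    simp only [tyQ]
    omega
  rwa [e1, e2] at h

theorem okfA_18_6 : Ok (tyA [(0, 6, 14), (1, 11, 9), (7, 2, 12), (13, 3, 5), (4, 8, 10)]) := by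
  constructor <;> decide +kernel

theorem stfA_18_6 : St (tyA [(0, 6, 14), (1, 11, 9), (7, 2, 12), (13, 3, 5), (4, 8, 10)]) 18 53
    (fun k => [2, 4, 6, 8, 9, 12, 14, 16, 18, 21, 25, 27, 30, 32, 36].getD k 0)
    [1, 17, 7, 16, 31, 8, 32, 9, 19, 24, 26, 4, 28, 20, 11, 15, 2, 18, 1] := by
  constructor <;> decide +kernel

theorem fA_18_6 (a b : ℕ) : Has (18 + 6 * a + 4 * b) (53 + 15 * a + 12 * b) := by
  have h := fam okfA_18_6 stfA_18_6 (by norm_num) a b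
  have e1 : 18 + 2 * (tyA [(0, 6, 14), (1, 11, 9), (7, 2, 12), (13, 3, 5), (4, 8, 10)]).G false * a + 2 * (tyA [(0, 6, 14), (1, 11, 9), (7, 2, 12), (13, 3, 5), (4, 8, 10)]).G true * b = 18 + 6 * a + 4 * b := by
    simp [tyA]
  have e2 : 53 + (tyA [(0, 6, 14), (1, 11, 9), (7, 2, 12), (13, 3, 5), (4, 8, 10)]).dj false * a + (tyA [(0, 6, 14), (1, 11, 9), (7, 2, 12), (13, 3, 5), (4, 8, 10)]).dj true * b = 53 + 15 * a + 12 * b := by
    simp [tyA]
  rwa [e1, e2] at h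

theorem okfA_16_5 : Ok (tyA [(6, 0, 14), (1, 11, 9), (7, 2, 12), (13, 3, 5), (4, 8, 10)]) := by
  constructor <;> decide +kernel

theorem stfA_16_5 : St (tyA [(6, 0, 14), (1, 11, 9), (7, 2, 12), (13, 3, 5), (4, 8, 10)]) 16 47
    (fun k => [1, 2, 3, 5, 8, 12, 13, 15, 17, 20, 21, 24, 28, 29, 32].getD k 0)
    [2, 13, 29, 6, 10, 30, 16, 4, 15, 9, 14, 22, 8, 18, 3, 25, 2] := by
  constructor <;> decide +kernel

theorem fA_16_5 (a b : ℕ) : Has (16 + 6 * a + 4 * b) (47 + 15 * a + 12 * b) := by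
  have h := fam okfA_16_5 stfA_16_5 (by norm_num) a b
  have e1 : 16 + 2 * (tyA [(6, 0, 14), (1, 11, 9), (7, 2, 12), (13, 3, 5), (4, 8, 10)]).G false * a + 2 * (tyA [(6, 0, 14), (1, 11, 9), (7, 2, 12), (13, 3, 5), (4, 8, 10)]).G true * b = 16 + 6 * a + 4 * b := by
    simp [tyA]
  have e2 : 47 + (tyA [(6, 0, 14), (1, 11, 9), (7, 2, 12), (13, 3, 5), (4, 8, 10)]).dj false * a + (tyA [(6, 0, 14), (1, 11, 9), (7, 2, 12), (13, 3, 5), (4, 8, 10)]).dj true * b = 47 + 15 * a + 12 * b := by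
    simp [tyA]
  rwa [e1, e2] at h

theorem okfA_15_4 : Ok (tyA [(6, 0, 14), (1, 11, 9), (2, 7, 12), (3, 13, 5), (4, 8, 10)]) := by
  constructor <;> decide +kernel

theorem stfA_15_4 : St (tyA [(6, 0, 14), (1, 11, 9), (2, 7, 12), (3, 13, 5), (4, 8, 10)]) 15 43
    (fun k => [0, 1, 3, 4, 7, 11, 12, 14, 16, 18, 19, 23, 25, 27, 30].getD k 0)
    [1, 12, 4, 28, 9, 5, 15, 3, 14, 8, 13, 20, 7, 17, 24, 1] := by
  constructor <;> decide +kernel

theorem fA_15_4 (a b : ℕ) : Has (15 + 6 * a + 4 * b) (43 + 15 * a + 12 * b) := by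
  have h := fam okfA_15_4 stfA_15_4 (by norm_num) a b
  have e1 : 15 + 2 * (tyA [(6, 0, 14), (1, 11, 9), (2, 7, 12), (3, 13, 5), (4, 8, 10)]).G false * a + 2 * (tyA [(6, 0, 14), (1, 11, 9), (2, 7, 12), (3, 13, 5), (4, 8, 10)]).G true * b = 15 + 6 * a + 4 * b := by
    simp [tyA]
  have e2 : 43 + (tyA [(6, 0, 14), (1, 11, 9), (2, 7, 12), (3, 13, 5), (4, 8, 10)]).dj false * a + (tyA [(6, 0, 14), (1, 11, 9), (2, 7, 12), (3, 13, 5), (4, 8, 10)]).dj true * b = 43 + 15 * a + 12 * b := by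
    simp [tyA]
  rwa [e1, e2] at h

theorem okfA_17_5 : Ok (tyA [(6, 0, 14), (1, 11, 9), (2, 7, 12), (13, 3, 5), (8, 4, 10)]) := by
  constructor <;> decide +kernel

theorem stfA_17_5 : St (tyA [(6, 0, 14), (1, 11, 9), (2, 7, 12), (13, 3, 5), (8, 4, 10)]) 17 49
    (fun k => [0, 1, 3, 4, 7, 12, 14, 17, 19, 21, 22, 26, 28, 32, 34].getD k 0)
    [1, 14, 4, 32, 5, 19, 8, 15, 23, 10, 33, 7, 18, 3, 17, 2, 27, 1] := by
  constructor <;> decide +kernel

theorem fA_17_5 (a b : ℕ) : Has (17 + 6 * a + 4 * b) (49 + 15 * a + 12 * b) := by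
  have h := fam okfA_17_5 stfA_17_5 (by norm_num) a b
  have e1 : 17 + 2 * (tyA [(6, 0, 14), (1, 11, 9), (2, 7, 12), (13, 3, 5), (8, 4, 10)]).G false * a + 2 * (tyA [(6, 0, 14), (1, 11, 9), (2, 7, 12), (13, 3, 5), (8, 4, 10)]).G true * b = 17 + 6 * a + 4 * b := by
    simp [tyA]
  have e2 : 49 + (tyA [(6, 0, 14), (1, 11, 9), (2, 7, 12), (13, 3, 5), (8, 4, 10)]).dj false * a + (tyA [(6, 0, 14), (1, 11, 9), (2, 7, 12), (13, 3, 5), (8, 4, 10)]).dj true * b = 49 + 15 * a + 12 * b := by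
    simp [tyA]
  rwa [e1, e2] at h

theorem okfA_12_2 : Ok (tyA [(6, 0, 14), (11, 1, 9), (2, 7, 12), (3, 13, 5), (8, 4, 10)]) := by
  constructor <;> decide +kernel

theorem stfA_12_2 : St (tyA [(6, 0, 14), (11, 1, 9), (2, 7, 12), (3, 13, 5), (8, 4, 10)]) 12 34
    (fun k => [0, 2, 4, 5, 6, 8, 9, 10, 11, 14, 16, 17, 19, 20, 24].getD k 0)
    [1, 9, 5, 21, 7, 11, 4, 18, 3, 17, 2, 10, 1] := by
  constructor <;> decide +kernel

theorem fA_12_2 (a b : ℕ) : Has (12 + 6 * a + 4 * b) (34 + 15 * a + 12 * b) := by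
  have h := fam okfA_12_2 stfA_12_2 (by norm_num) a b
  have e1 : 12 + 2 * (tyA [(6, 0, 14), (11, 1, 9), (2, 7, 12), (3, 13, 5), (8, 4, 10)]).G false * a + 2 * (tyA [(6, 0, 14), (11, 1, 9), (2, 7, 12), (3, 13, 5), (8, 4, 10)]).G true * b = 12 + 6 * a + 4 * b := by
    simp [tyA]
  have e2 : 34 + (tyA [(6, 0, 14), (11, 1, 9), (2, 7, 12), (3, 13, 5), (8, 4, 10)]).dj false * a + (tyA [(6, 0, 14), (11, 1, 9), (2, 7, 12), (3, 13, 5), (8, 4, 10)]).dj true * b = 34 + 15 * a + 12 * b := by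
    simp [tyA]
  rwa [e1, e2] at h

theorem okfA_18_5 : Ok (tyA [(6, 0, 14), (11, 1, 9), (2, 7, 12), (3, 13, 5), (8, 4, 10)]) := by
  constructor <;> decide +kernel

theorem stfA_18_5 : St (tyA [(6, 0, 14), (11, 1, 9), (2, 7, 12), (3, 13, 5), (8, 4, 10)]) 18 52
    (fun k => [0, 2, 4, 6, 8, 12, 15, 17, 19, 21, 24, 28, 30, 33, 36].getD k 0)
    [1, 15, 5, 33, 6, 34, 16, 25, 19, 9, 17, 4, 18, 7, 10, 20, 3, 28, 1] := by
  constructor <;> decide +kernel

theorem fA_18_5 (a b : ℕ) : Has (18 + 6 * a + 4 * b) (52 + 15 * a + 12 * b) := by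
  have h := fam okfA_18_5 stfA_18_5 (by norm_num) a b
  have e1 : 18 + 2 * (tyA [(6, 0, 14), (11, 1, 9), (2, 7, 12), (3, 13, 5), (8, 4, 10)]).G false * a + 2 * (tyA [(6, 0, 14), (11, 1, 9), (2, 7, 12), (3, 13, 5), (8, 4, 10)]).G true * b = 18 + 6 * a + 4 * b := by
    simp [tyA]
  have e2 : 52 + (tyA [(6, 0, 14), (11, 1, 9), (2, 7, 12), (3, 13, 5), (8, 4, 10)]).dj false * a + (tyA [(6, 0, 14), (11, 1, 9), (2, 7, 12), (3, 13, 5), (8, 4, 10)]).dj true * b = 52 + 15 * a + 12 * b := by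
    simp [tyA]
  rwa [e1, e2] at h

theorem okfA_13_2 : Ok (tyA [(6, 0, 14), (1, 11, 9), (2, 7, 12), (3, 13, 5), (4, 8, 10)]) := by
  constructor <;> decide +kernel

theorem stfA_13_2 : St (tyA [(6, 0, 14), (1, 11, 9), (2, 7, 12), (3, 13, 5), (4, 8, 10)]) 13 36
    (fun k => [0, 2, 4, 5, 6, 8, 9, 11, 12, 16, 17, 17, 20, 22, 26].getD k 0)
    [1, 9, 13, 6, 23, 5, 12, 4, 11, 3, 18, 2, 10, 1] := by
  constructor <;> decide +kernel

theorem fA_13_2 (a b : ℕ) : Has (13 + 6 * a + 4 * b) (36 + 15 * a + 12 * b) := by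
  have h := fam okfA_13_2 stfA_13_2 (by norm_num) a b
  have e1 : 13 + 2 * (tyA [(6, 0, 14), (1, 11, 9), (2, 7, 12), (3, 13, 5), (4, 8, 10)]).G false * a + 2 * (tyA [(6, 0, 14), (1, 11, 9), (2, 7, 12), (3, 13, 5), (4, 8, 10)]).G true * b = 13 + 6 * a + 4 * b := by
    simp [tyA]
  have e2 : 36 + (tyA [(6, 0, 14), (1, 11, 9), (2, 7, 12), (3, 13, 5), (4, 8, 10)]).dj false * a + (tyA [(6, 0, 14), (1, 11, 9), (2, 7, 12), (3, 13, 5), (4, 8, 10)]).dj true * b = 36 + 15 * a + 12 * b := by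
    simp [tyA]
  rwa [e1, e2] at h

theorem okfA_15_3 : Ok (tyA [(0, 6, 14), (1, 11, 9), (2, 7, 12), (3, 13, 5), (8, 4, 10)]) := by
  constructor <;> decide +kernel

theorem stfA_15_3 : St (tyA [(0, 6, 14), (1, 11, 9), (2, 7, 12), (3, 13, 5), (8, 4, 10)]) 15 42
    (fun k => [1, 2, 4, 5, 7, 10, 11, 12, 14, 18, 20, 21, 25, 26, 29].getD k 0)
    [1, 11, 16, 3, 22, 2, 21, 14, 8, 6, 27, 5, 13, 4, 12, 1] := by
  constructor <;> decide +kernel

theorem fA_15_3 (a b : ℕ) : Has (15 + 6 * a + 4 * b) (42 + 15 * a + 12 * b) := by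
  have h := fam okfA_15_3 stfA_15_3 (by norm_num) a b
  have e1 : 15 + 2 * (tyA [(0, 6, 14), (1, 11, 9), (2, 7, 12), (3, 13, 5), (8, 4, 10)]).G false * a + 2 * (tyA [(0, 6, 14), (1, 11, 9), (2, 7, 12), (3, 13, 5), (8, 4, 10)]).G true * b = 15 + 6 * a + 4 * b := by
    simp [tyA]
  have e2 : 42 + (tyA [(0, 6, 14), (1, 11, 9), (2, 7, 12), (3, 13, 5), (8, 4, 10)]).dj false * a + (tyA [(0, 6, 14), (1, 11, 9), (2, 7, 12), (3, 13, 5), (8, 4, 10)]).dj true * b = 42 + 15 * a + 12 * b := by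
    simp [tyA]
  rwa [e1, e2] at h

theorem okfA_18_4 : Ok (tyA [(6, 0, 14), (11, 1, 9), (2, 7, 12), (3, 13, 5), (4, 8, 10)]) := by
  constructor <;> decide +kernel

theorem stfA_18_4 : St (tyA [(6, 0, 14), (11, 1, 9), (2, 7, 12), (3, 13, 5), (4, 8, 10)]) 18 51
    (fun k => [1, 4, 5, 7, 9, 13, 15, 16, 18, 20, 23, 26, 29, 30, 34].getD k 0)
    [1, 14, 7, 31, 8, 11, 19, 9, 18, 6, 17, 5, 26, 22, 25, 16, 2, 15, 1] := by
  constructor <;> decide +kernel

theorem fA_18_4 (a b : ℕ) : Has (18 + 6 * a + 4 * b) (51 + 15 * a + 12 * b) := by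
  have h := fam okfA_18_4 stfA_18_4 (by norm_num) a b
  have e1 : 18 + 2 * (tyA [(6, 0, 14), (11, 1, 9), (2, 7, 12), (3, 13, 5), (4, 8, 10)]).G false * a + 2 * (tyA [(6, 0, 14), (11, 1, 9), (2, 7, 12), (3, 13, 5), (4, 8, 10)]).G true * b = 18 + 6 * a + 4 * b := by
    simp [tyA]
  have e2 : 51 + (tyA [(6, 0, 14), (11, 1, 9), (2, 7, 12), (3, 13, 5), (4, 8, 10)]).dj false * a + (tyA [(6, 0, 14), (11, 1, 9), (2, 7, 12), (3, 13, 5), (4, 8, 10)]).dj true * b = 51 + 15 * a + 12 * b := by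
    simp [tyA]
  rwa [e1, e2] at h

theorem okfA_18_7 : Ok (tyA [(0, 6, 14), (11, 1, 9), (7, 2, 12), (13, 3, 5), (4, 8, 10)]) := by
  constructor <;> decide +kernel

theorem stfA_18_7 : St (tyA [(0, 6, 14), (11, 1, 9), (7, 2, 12), (13, 3, 5), (4, 8, 10)]) 18 54
    (fun k => [3, 5, 7, 8, 10, 14, 14, 16, 18, 21, 25, 27, 30, 31, 36].getD k 0)
    [3, 15, 26, 23, 27, 6, 20, 12, 10, 19, 11, 9, 31, 16, 8, 17, 35, 18, 3] := by
  constructor <;> decide +kernel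

theorem fA_18_7 (a b : ℕ) : Has (18 + 6 * a + 4 * b) (54 + 15 * a + 12 * b) := by
  have h := fam okfA_18_7 stfA_18_7 (by norm_num) a b
  have e1 : 18 + 2 * (tyA [(0, 6, 14), (11, 1, 9), (7, 2, 12), (13, 3, 5), (4, 8, 10)]).G false * a + 2 * (tyA [(0, 6, 14), (11, 1, 9), (7, 2, 12), (13, 3, 5), (4, 8, 10)]).G true * b = 18 + 6 * a + 4 * b := by
    simp [tyA]
  have e2 : 54 + (tyA [(0, 6, 14), (11, 1, 9), (7, 2, 12), (13, 3, 5), (4, 8, 10)]).dj false * a + (tyA [(0, 6, 14), (11, 1, 9), (7, 2, 12), (13, 3, 5), (4, 8, 10)]).dj true * b = 54 + 15 * a + 12 * b := by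
    simp [tyA]
  rwa [e1, e2] at h

theorem okfA_17_6 : Ok (tyA [(0, 6, 14), (11, 1, 9), (2, 7, 12), (3, 13, 5), (4, 8, 10)]) := by
  constructor <;> decide +kernel

theorem stfA_17_6 : St (tyA [(0, 6, 14), (11, 1, 9), (2, 7, 12), (3, 13, 5), (4, 8, 10)]) 17 50
    (fun k => [2, 3, 5, 7, 8, 12, 14, 17, 18, 20, 23, 26, 27, 30, 33].getD k 0)
    [2, 14, 30, 7, 31, 18, 5, 17, 4, 26, 3, 22, 19, 8, 10, 24, 15, 2] := by
  constructor <;> decide +kernel

theorem fA_17_6 (a b : ℕ) : Has (17 + 6 * a + 4 * b) (50 + 15 * a + 12 * b) := by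
  have h := fam okfA_17_6 stfA_17_6 (by norm_num) a b
  have e1 : 17 + 2 * (tyA [(0, 6, 14), (11, 1, 9), (2, 7, 12), (3, 13, 5), (4, 8, 10)]).G false * a + 2 * (tyA [(0, 6, 14), (11, 1, 9), (2, 7, 12), (3, 13, 5), (4, 8, 10)]).G true * b = 17 + 6 * a + 4 * b := by
    simp [tyA]
  have e2 : 50 + (tyA [(0, 6, 14), (11, 1, 9), (2, 7, 12), (3, 13, 5), (4, 8, 10)]).dj false * a + (tyA [(0, 6, 14), (11, 1, 9), (2, 7, 12), (3, 13, 5), (4, 8, 10)]).dj true * b = 50 + 15 * a + 12 * b := by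
    simp [tyA]
  rwa [e1, e2] at h

theorem okfA_15_5 : Ok (tyA [(6, 0, 14), (11, 1, 9), (2, 7, 12), (3, 13, 5), (4, 8, 10)]) := by
  constructor <;> decide +kernel

theorem stfA_15_5 : St (tyA [(6, 0, 14), (11, 1, 9), (2, 7, 12), (3, 13, 5), (4, 8, 10)]) 15 44
    (fun k => [1, 3, 4, 6, 7, 11, 12, 14, 16, 18, 20, 22, 25, 26, 30].getD k 0)
    [2, 12, 6, 27, 16, 5, 15, 4, 22, 19, 17, 7, 9, 21, 13, 2] := by
  constructor <;> decide +kernel

theorem fA_15_5 (a b : ℕ) : Has (15 + 6 * a + 4 * b) (44 + 15 * a + 12 * b) := by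
  have h := fam okfA_15_5 stfA_15_5 (by norm_num) a b
  have e1 : 15 + 2 * (tyA [(6, 0, 14), (11, 1, 9), (2, 7, 12), (3, 13, 5), (4, 8, 10)]).G false * a + 2 * (tyA [(6, 0, 14), (11, 1, 9), (2, 7, 12), (3, 13, 5), (4, 8, 10)]).G true * b = 15 + 6 * a + 4 * b := by
    simp [tyA]
  have e2 : 44 + (tyA [(6, 0, 14), (11, 1, 9), (2, 7, 12), (3, 13, 5), (4, 8, 10)]).dj false * a + (tyA [(6, 0, 14), (11, 1, 9), (2, 7, 12), (3, 13, 5), (4, 8, 10)]).dj true * b = 44 + 15 * a + 12 * b := by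
    simp [tyA]
  rwa [e1, e2] at h

theorem sp_4_0 : Has 4 12 :=
  has_of (l := [1, 3, 2, 6, 1]) (by decide) (by decide) (by decide) (by decide +kernel)

theorem sp_4_1 : Has 4 13 :=
  has_of (l := [1, 4, 6, 5, 1]) (by decide) (by decide) (by decide) (by decide +kernel)

theorem sp_6_1 : Has 6 18 :=
  has_of (l := [1, 8, 4, 2, 5, 10, 1]) (by decide) (by decide) (by decide) (by decide +kernel)

theorem sp_6_2 : Has 6 19 :=
  has_of (l := [1, 6, 11, 3, 7, 8, 1]) (by decide) (by decide) (by decide) (by decide +kernel)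

theorem sp_9_1 : Has 9 25 :=
  has_of (l := [1, 6, 2, 7, 3, 8, 12, 4, 11, 1]) (by decide) (by decide) (by decide) (by decide +kernel)

theorem sp_10_1 : Has 10 28 :=
  has_of (l := [1, 7, 2, 8, 4, 9, 14, 3, 12, 10, 1]) (by decide) (by decide) (by decide) (by decide +kernel)

theorem lower_odd (t s : ℕ) (ht : 3 ≤ t) (hs : s ≤ t) : Has (2 * t + 1) (5 * t + 4 + s) := by
  rcases Nat.lt_or_ge s 6 with h6 | h6
  · interval_cases s
    · -- s = 0
      rcases Nat.even_or_odd' t with ⟨u, hu | hu⟩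
      · obtain ⟨a, ha⟩ : ∃ a, 2 * t + 1 = 5 + 4 * a := ⟨(2 * t + 1 - 5) / 4, by omega⟩
        have h := fP_5_0 a
        have e1 : 5 + 4 * a = 2 * t + 1 := ha.symm
        have e2 : 14 + 10 * a = 5 * t + 4 + 0 := by omega
        rwa [e1, e2] at h
      · obtain ⟨a, ha⟩ : ∃ a, 2 * t + 1 = 7 + 4 * a := ⟨(2 * t + 1 - 7) / 4, by omega⟩
        have h := fP_7_0 a
        have e1 : 7 + 4 * a = 2 * t + 1 := ha.symm
        have e2 : 19 + 10 * a = 5 * t + 4 + 0 := by omega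
        rwa [e1, e2] at h
    · -- s = 1
      rcases eq_or_ne t 4 with ht0 | ht0
      · subst ht0
        exact sp_9_1
      rcases Nat.even_or_odd' t with ⟨u, hu | hu⟩
      · obtain ⟨a, ha⟩ : ∃ a, 2 * t + 1 = 13 + 4 * a := ⟨(2 * t + 1 - 13) / 4, by omega⟩
        have h := fP_13_1 a
        have e1 : 13 + 4 * a = 2 * t + 1 := ha.symm
        have e2 : 35 + 10 * a = 5 * t + 4 + 1 := by omega
        rwa [e1, e2] at h
      · obtain ⟨a, ha⟩ : ∃ a, 2 * t + 1 = 7 + 4 * a := ⟨(2 * t + 1 - 7) / 4, by omega⟩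
        have h := fP_7_1 a
        have e1 : 7 + 4 * a = 2 * t + 1 := ha.symm
        have e2 : 20 + 10 * a = 5 * t + 4 + 1 := by omega
        rwa [e1, e2] at h
    · -- s = 2
      rcases Nat.even_or_odd' t with ⟨u, hu | hu⟩
      · obtain ⟨a, ha⟩ : ∃ a, 2 * t + 1 = 9 + 4 * a := ⟨(2 * t + 1 - 9) / 4, by omega⟩
        have h := fP_9_2 a
        have e1 : 9 + 4 * a = 2 * t + 1 := ha.symm
        have e2 : 26 + 10 * a = 5 * t + 4 + 2 := by omega
        rwa [e1, e2] at h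
      · obtain ⟨a, ha⟩ : ∃ a, 2 * t + 1 = 7 + 4 * a := ⟨(2 * t + 1 - 7) / 4, by omega⟩
        have h := fP_7_2 a
        have e1 : 7 + 4 * a = 2 * t + 1 := ha.symm
        have e2 : 21 + 10 * a = 5 * t + 4 + 2 := by omega
        rwa [e1, e2] at h
    · -- s = 3
      rcases Nat.even_or_odd' t with ⟨u, hu | hu⟩
      · obtain ⟨a, ha⟩ : ∃ a, 2 * t + 1 = 9 + 4 * a := ⟨(2 * t + 1 - 9) / 4, by omega⟩
        have h := fP_9_3 a
        have e1 : 9 + 4 * a = 2 * t + 1 := ha.symm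
        have e2 : 27 + 10 * a = 5 * t + 4 + 3 := by omega
        rwa [e1, e2] at h
      · obtain ⟨a, ha⟩ : ∃ a, 2 * t + 1 = 7 + 4 * a := ⟨(2 * t + 1 - 7) / 4, by omega⟩
        have h := fP_7_3 a
        have e1 : 7 + 4 * a = 2 * t + 1 := ha.symm
        have e2 : 22 + 10 * a = 5 * t + 4 + 3 := by omega
        rwa [e1, e2] at h
    · -- s = 4
      rcases Nat.even_or_odd' t with ⟨u, hu | hu⟩
      · obtain ⟨a, ha⟩ : ∃ a, 2 * t + 1 = 9 + 4 * a := ⟨(2 * t + 1 - 9) / 4, by omega⟩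
        have h := fP_9_4 a
        have e1 : 9 + 4 * a = 2 * t + 1 := ha.symm
        have e2 : 28 + 10 * a = 5 * t + 4 + 4 := by omega
        rwa [e1, e2] at h
      · obtain ⟨a, ha⟩ : ∃ a, 2 * t + 1 = 11 + 4 * a := ⟨(2 * t + 1 - 11) / 4, by omega⟩
        have h := fP_11_4 a
        have e1 : 11 + 4 * a = 2 * t + 1 := ha.symm
        have e2 : 33 + 10 * a = 5 * t + 4 + 4 := by omega
        rwa [e1, e2] at h
    · -- s = 5
      rcases Nat.even_or_odd' t with ⟨u, hu | hu⟩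
      · obtain ⟨a, ha⟩ : ∃ a, 2 * t + 1 = 13 + 4 * a := ⟨(2 * t + 1 - 13) / 4, by omega⟩
        have h := fP_13_5 a
        have e1 : 13 + 4 * a = 2 * t + 1 := ha.symm
        have e2 : 39 + 10 * a = 5 * t + 4 + 5 := by omega
        rwa [e1, e2] at h
      · obtain ⟨a, ha⟩ : ∃ a, 2 * t + 1 = 11 + 4 * a := ⟨(2 * t + 1 - 11) / 4, by omega⟩
        have h := fP_11_5 a
        have e1 : 11 + 4 * a = 2 * t + 1 := ha.symm
        have e2 : 34 + 10 * a = 5 * t + 4 + 5 := by omega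
        rwa [e1, e2] at h
  · rcases Nat.lt_or_ge (2 * t + 1) (2 * s + 5) with h5 | h5
    · have h7 : 2 * t + 1 = 2 * s + 1 ∨ 2 * t + 1 = 2 * s + 3 := by omega
      rcases h7 with h7 | h7
      · rcases Nat.even_or_odd' s with ⟨u, hu | hu⟩
        · obtain ⟨a, ha⟩ : ∃ a, s = 4 + 2 * a := ⟨(s - 4) / 2, by omega⟩
          have h := fQ_9_4 a
          have e1 : 9 + 4 * a = 2 * t + 1 := by omega
          have e2 : 28 + 12 * a = 5 * t + 4 + s := by omega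
          rwa [e1, e2] at h
        · obtain ⟨a, ha⟩ : ∃ a, s = 5 + 2 * a := ⟨(s - 5) / 2, by omega⟩
          have h := fQ_11_5 a
          have e1 : 11 + 4 * a = 2 * t + 1 := by omega
          have e2 : 34 + 12 * a = 5 * t + 4 + s := by omega
          rwa [e1, e2] at h
      · rcases Nat.even_or_odd' s with ⟨u, hu | hu⟩
        · obtain ⟨a, ha⟩ : ∃ a, s = 4 + 2 * a := ⟨(s - 4) / 2, by omega⟩
          have h := fQ_11_4 a
          have e1 : 11 + 4 * a = 2 * t + 1 := by omega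
          have e2 : 33 + 12 * a = 5 * t + 4 + s := by omega
          rwa [e1, e2] at h
        · obtain ⟨a, ha⟩ : ∃ a, s = 3 + 2 * a := ⟨(s - 3) / 2, by omega⟩
          have h := fQ_9_3 a
          have e1 : 9 + 4 * a = 2 * t + 1 := by omega
          have e2 : 27 + 12 * a = 5 * t + 4 + s := by omega
          rwa [e1, e2] at h
    · obtain ⟨v, hv⟩ : ∃ v, 2 * t + 1 = 2 * s + v := ⟨2 * t + 1 - 2 * s, by omega⟩
      have h7 : v % 6 = 1 ∨ v % 6 = 3 ∨ v % 6 = 5 := by omega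
      rcases h7 with h7 | h7 | h7
      · rcases Nat.even_or_odd' s with ⟨u, hu | hu⟩
        · obtain ⟨b, hb⟩ : ∃ b, s = 4 + 2 * b := ⟨(s - 4) / 2, by omega⟩
          obtain ⟨a, ha⟩ : ∃ a, v = 7 + 6 * a := ⟨(v - 7) / 6, by omega⟩
          have h := fA_15_4 a b
          have e1 : 15 + 6 * a + 4 * b = 2 * t + 1 := by omega
          have e2 : 43 + 15 * a + 12 * b = 5 * t + 4 + s := by omega
          rwa [e1, e2] at h
        · obtain ⟨b, hb⟩ : ∃ b, s = 5 + 2 * b := ⟨(s - 5) / 2, by omega⟩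
          obtain ⟨a, ha⟩ : ∃ a, v = 7 + 6 * a := ⟨(v - 7) / 6, by omega⟩
          have h := fA_17_5 a b
          have e1 : 17 + 6 * a + 4 * b = 2 * t + 1 := by omega
          have e2 : 49 + 15 * a + 12 * b = 5 * t + 4 + s := by omega
          rwa [e1, e2] at h
      · rcases Nat.even_or_odd' s with ⟨u, hu | hu⟩
        · obtain ⟨b, hb⟩ : ∃ b, s = 2 + 2 * b := ⟨(s - 2) / 2, by omega⟩
          obtain ⟨a, ha⟩ : ∃ a, v = 9 + 6 * a := ⟨(v - 9) / 6, by omega⟩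
          have h := fA_13_2 a b
          have e1 : 13 + 6 * a + 4 * b = 2 * t + 1 := by omega
          have e2 : 36 + 15 * a + 12 * b = 5 * t + 4 + s := by omega
          rwa [e1, e2] at h
        · obtain ⟨b, hb⟩ : ∃ b, s = 3 + 2 * b := ⟨(s - 3) / 2, by omega⟩
          obtain ⟨a, ha⟩ : ∃ a, v = 9 + 6 * a := ⟨(v - 9) / 6, by omega⟩
          have h := fA_15_3 a b
          have e1 : 15 + 6 * a + 4 * b = 2 * t + 1 := by omega
          have e2 : 42 + 15 * a + 12 * b = 5 * t + 4 + s := by omega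
          rwa [e1, e2] at h
      · rcases Nat.even_or_odd' s with ⟨u, hu | hu⟩
        · obtain ⟨b, hb⟩ : ∃ b, s = 6 + 2 * b := ⟨(s - 6) / 2, by omega⟩
          obtain ⟨a, ha⟩ : ∃ a, v = 5 + 6 * a := ⟨(v - 5) / 6, by omega⟩
          have h := fA_17_6 a b
          have e1 : 17 + 6 * a + 4 * b = 2 * t + 1 := by omega
          have e2 : 50 + 15 * a + 12 * b = 5 * t + 4 + s := by omega
          rwa [e1, e2] at h
        · obtain ⟨b, hb⟩ : ∃ b, s = 5 + 2 * b := ⟨(s - 5) / 2, by omega⟩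
          obtain ⟨a, ha⟩ : ∃ a, v = 5 + 6 * a := ⟨(v - 5) / 6, by omega⟩
          have h := fA_15_5 a b
          have e1 : 15 + 6 * a + 4 * b = 2 * t + 1 := by omega
          have e2 : 44 + 15 * a + 12 * b = 5 * t + 4 + s := by omega
          rwa [e1, e2] at h

theorem lower_even (t s : ℕ) (ht : 2 ≤ t) (hs : s + 1 ≤ t) : Has (2 * t) (5 * t + 2 + s) := by
  rcases Nat.lt_or_ge s 6 with h6 | h6
  · interval_cases s
    · -- s = 0
      rcases eq_or_ne t 2 with ht0 | ht0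
      · subst ht0
        exact sp_4_0
      rcases Nat.even_or_odd' t with ⟨u, hu | hu⟩
      · obtain ⟨a, ha⟩ : ∃ a, 2 * t = 8 + 4 * a := ⟨(2 * t - 8) / 4, by omega⟩
        have h := fP_8_0 a
        have e1 : 8 + 4 * a = 2 * t := ha.symm
        have e2 : 22 + 10 * a = 5 * t + 2 + 0 := by omega
        rwa [e1, e2] at h
      · obtain ⟨a, ha⟩ : ∃ a, 2 * t = 6 + 4 * a := ⟨(2 * t - 6) / 4, by omega⟩
        have h := fP_6_0 a
        have e1 : 6 + 4 * a = 2 * t := ha.symm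
        have e2 : 17 + 10 * a = 5 * t + 2 + 0 := by omega
        rwa [e1, e2] at h
    · -- s = 1
      rcases eq_or_ne t 2 with ht0 | ht0
      · subst ht0
        exact sp_4_1
      rcases eq_or_ne t 3 with ht0 | ht0
      · subst ht0
        exact sp_6_1
      rcases eq_or_ne t 5 with ht0 | ht0
      · subst ht0
        exact sp_10_1
      rcases Nat.even_or_odd' t with ⟨u, hu | hu⟩
      · obtain ⟨a, ha⟩ : ∃ a, 2 * t = 8 + 4 * a := ⟨(2 * t - 8) / 4, by omega⟩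
        have h := fP_8_1 a
        have e1 : 8 + 4 * a = 2 * t := ha.symm
        have e2 : 23 + 10 * a = 5 * t + 2 + 1 := by omega
        rwa [e1, e2] at h
      · obtain ⟨a, ha⟩ : ∃ a, 2 * t = 14 + 4 * a := ⟨(2 * t - 14) / 4, by omega⟩
        have h := fP_14_1 a
        have e1 : 14 + 4 * a = 2 * t := ha.symm
        have e2 : 38 + 10 * a = 5 * t + 2 + 1 := by omega
        rwa [e1, e2] at h
    · -- s = 2
      rcases eq_or_ne t 3 with ht0 | ht0
      · subst ht0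
        exact sp_6_2
      rcases Nat.even_or_odd' t with ⟨u, hu | hu⟩
      · obtain ⟨a, ha⟩ : ∃ a, 2 * t = 8 + 4 * a := ⟨(2 * t - 8) / 4, by omega⟩
        have h := fP_8_2 a
        have e1 : 8 + 4 * a = 2 * t := ha.symm
        have e2 : 24 + 10 * a = 5 * t + 2 + 2 := by omega
        rwa [e1, e2] at h
      · obtain ⟨a, ha⟩ : ∃ a, 2 * t = 10 + 4 * a := ⟨(2 * t - 10) / 4, by omega⟩
        have h := fP_10_2 a
        have e1 : 10 + 4 * a = 2 * t := ha.symm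
        have e2 : 29 + 10 * a = 5 * t + 2 + 2 := by omega
        rwa [e1, e2] at h
    · -- s = 3
      rcases Nat.even_or_odd' t with ⟨u, hu | hu⟩
      · obtain ⟨a, ha⟩ : ∃ a, 2 * t = 8 + 4 * a := ⟨(2 * t - 8) / 4, by omega⟩
        have h := fP_8_3 a
        have e1 : 8 + 4 * a = 2 * t := ha.symm
        have e2 : 25 + 10 * a = 5 * t + 2 + 3 := by omega
        rwa [e1, e2] at h
      · obtain ⟨a, ha⟩ : ∃ a, 2 * t = 10 + 4 * a := ⟨(2 * t - 10) / 4, by omega⟩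
        have h := fP_10_3 a
        have e1 : 10 + 4 * a = 2 * t := ha.symm
        have e2 : 30 + 10 * a = 5 * t + 2 + 3 := by omega
        rwa [e1, e2] at h
    · -- s = 4
      rcases Nat.even_or_odd' t with ⟨u, hu | hu⟩
      · obtain ⟨a, ha⟩ : ∃ a, 2 * t = 12 + 4 * a := ⟨(2 * t - 12) / 4, by omega⟩
        have h := fP_12_4 a
        have e1 : 12 + 4 * a = 2 * t := ha.symm
        have e2 : 36 + 10 * a = 5 * t + 2 + 4 := by omega
        rwa [e1, e2] at h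
      · obtain ⟨a, ha⟩ : ∃ a, 2 * t = 10 + 4 * a := ⟨(2 * t - 10) / 4, by omega⟩
        have h := fP_10_4 a
        have e1 : 10 + 4 * a = 2 * t := ha.symm
        have e2 : 31 + 10 * a = 5 * t + 2 + 4 := by omega
        rwa [e1, e2] at h
    · -- s = 5
      rcases Nat.even_or_odd' t with ⟨u, hu | hu⟩
      · obtain ⟨a, ha⟩ : ∃ a, 2 * t = 12 + 4 * a := ⟨(2 * t - 12) / 4, by omega⟩
        have h := fP_12_5 a
        have e1 : 12 + 4 * a = 2 * t := ha.symm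
        have e2 : 37 + 10 * a = 5 * t + 2 + 5 := by omega
        rwa [e1, e2] at h
      · obtain ⟨a, ha⟩ : ∃ a, 2 * t = 14 + 4 * a := ⟨(2 * t - 14) / 4, by omega⟩
        have h := fP_14_5 a
        have e1 : 14 + 4 * a = 2 * t := ha.symm
        have e2 : 42 + 10 * a = 5 * t + 2 + 5 := by omega
        rwa [e1, e2] at h
  · rcases Nat.lt_or_ge (2 * t) (2 * s + 5) with h5 | h5
    · have h7 : 2 * t = 2 * s + 2 ∨ 2 * t = 2 * s + 4 := by omega
      rcases h7 with h7 | h7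
      · rcases Nat.even_or_odd' s with ⟨u, hu | hu⟩
        · obtain ⟨a, ha⟩ : ∃ a, s = 4 + 2 * a := ⟨(s - 4) / 2, by omega⟩
          have h := fQ_10_4 a
          have e1 : 10 + 4 * a = 2 * t := by omega
          have e2 : 31 + 12 * a = 5 * t + 2 + s := by omega
          rwa [e1, e2] at h
        · obtain ⟨a, ha⟩ : ∃ a, s = 3 + 2 * a := ⟨(s - 3) / 2, by omega⟩
          have h := fQ_8_3 a
          have e1 : 8 + 4 * a = 2 * t := by omega
          have e2 : 25 + 12 * a = 5 * t + 2 + s := by omega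
          rwa [e1, e2] at h
      · rcases Nat.even_or_odd' s with ⟨u, hu | hu⟩
        · obtain ⟨a, ha⟩ : ∃ a, s = 2 + 2 * a := ⟨(s - 2) / 2, by omega⟩
          have h := fQ_8_2 a
          have e1 : 8 + 4 * a = 2 * t := by omega
          have e2 : 24 + 12 * a = 5 * t + 2 + s := by omega
          rwa [e1, e2] at h
        · obtain ⟨a, ha⟩ : ∃ a, s = 3 + 2 * a := ⟨(s - 3) / 2, by omega⟩
          have h := fQ_10_3 a
          have e1 : 10 + 4 * a = 2 * t := by omega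
          have e2 : 30 + 12 * a = 5 * t + 2 + s := by omega
          rwa [e1, e2] at h
    · obtain ⟨v, hv⟩ : ∃ v, 2 * t = 2 * s + v := ⟨2 * t - 2 * s, by omega⟩
      have h7 : v % 6 = 0 ∨ v % 6 = 2 ∨ v % 6 = 4 := by omega
      rcases h7 with h7 | h7 | h7
      · rcases Nat.even_or_odd' s with ⟨u, hu | hu⟩
        · obtain ⟨b, hb⟩ : ∃ b, s = 6 + 2 * b := ⟨(s - 6) / 2, by omega⟩
          obtain ⟨a, ha⟩ : ∃ a, v = 6 + 6 * a := ⟨(v - 6) / 6, by omega⟩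
          have h := fA_18_6 a b
          have e1 : 18 + 6 * a + 4 * b = 2 * t := by omega
          have e2 : 53 + 15 * a + 12 * b = 5 * t + 2 + s := by omega
          rwa [e1, e2] at h
        · obtain ⟨b, hb⟩ : ∃ b, s = 5 + 2 * b := ⟨(s - 5) / 2, by omega⟩
          obtain ⟨a, ha⟩ : ∃ a, v = 6 + 6 * a := ⟨(v - 6) / 6, by omega⟩
          have h := fA_16_5 a b
          have e1 : 16 + 6 * a + 4 * b = 2 * t := by omega
          have e2 : 47 + 15 * a + 12 * b = 5 * t + 2 + s := by omega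
          rwa [e1, e2] at h
      · rcases Nat.even_or_odd' s with ⟨u, hu | hu⟩
        · obtain ⟨b, hb⟩ : ∃ b, s = 2 + 2 * b := ⟨(s - 2) / 2, by omega⟩
          obtain ⟨a, ha⟩ : ∃ a, v = 8 + 6 * a := ⟨(v - 8) / 6, by omega⟩
          have h := fA_12_2 a b
          have e1 : 12 + 6 * a + 4 * b = 2 * t := by omega
          have e2 : 34 + 15 * a + 12 * b = 5 * t + 2 + s := by omega
          rwa [e1, e2] at h
        · obtain ⟨b, hb⟩ : ∃ b, s = 5 + 2 * b := ⟨(s - 5) / 2, by omega⟩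
          obtain ⟨a, ha⟩ : ∃ a, v = 8 + 6 * a := ⟨(v - 8) / 6, by omega⟩
          have h := fA_18_5 a b
          have e1 : 18 + 6 * a + 4 * b = 2 * t := by omega
          have e2 : 52 + 15 * a + 12 * b = 5 * t + 2 + s := by omega
          rwa [e1, e2] at h
      · rcases Nat.even_or_odd' s with ⟨u, hu | hu⟩
        · obtain ⟨b, hb⟩ : ∃ b, s = 4 + 2 * b := ⟨(s - 4) / 2, by omega⟩
          obtain ⟨a, ha⟩ : ∃ a, v = 10 + 6 * a := ⟨(v - 10) / 6, by omega⟩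
          have h := fA_18_4 a b
          have e1 : 18 + 6 * a + 4 * b = 2 * t := by omega
          have e2 : 51 + 15 * a + 12 * b = 5 * t + 2 + s := by omega
          rwa [e1, e2] at h
        · obtain ⟨b, hb⟩ : ∃ b, s = 7 + 2 * b := ⟨(s - 7) / 2, by omega⟩
          obtain ⟨a, ha⟩ : ∃ a, v = 4 + 6 * a := ⟨(v - 4) / 6, by omega⟩
          have h := fA_18_7 a b
          have e1 : 18 + 6 * a + 4 * b = 2 * t := by omega
          have e2 : 54 + 15 * a + 12 * b = 5 * t + 2 + s := by omega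
          rwa [e1, e2] at h

theorem has_odd (t j : ℕ) (ht : 3 ≤ t) (h1 : 5 * t + 4 ≤ j) (h2 : j ≤ 7 * t + 5) :
    Has (2 * t + 1) j := by
  rcases Nat.lt_or_ge j (6 * t + 5) with h | h
  · have := lower_odd t (j - (5 * t + 4)) ht (by omega)
    have e : 5 * t + 4 + (j - (5 * t + 4)) = j := by omega
    rwa [e] at this
  · have := lower_odd t (7 * t + 5 - j) ht (by omega)
    exact has_dual this (by omega)

theorem has_even (t j : ℕ) (ht : 2 ≤ t) (h1 : 5 * t + 2 ≤ j) (h2 : j ≤ 7 * t + 1) :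
    Has (2 * t) j := by
  rcases Nat.lt_or_ge j (6 * t + 2) with h | h
  · have := lower_even t (j - (5 * t + 2)) ht (by omega)
    have e : 5 * t + 2 + (j - (5 * t + 2)) = j := by omega
    rwa [e] at this
  · have := lower_even t (7 * t + 1 - j) ht (by omega)
    exact has_dual this (by omega)

end Pool.Agent.Helper1.CycleMagic
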