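import Mathlib

set_option autoImplicit false

namespace Pool.Agent.Helper1.Horton

/-- A strong starter, in covering form. -/
def HasSS (G : Type) [AddCommGroup G] : Prop :=
  ∃ (ι : Type) (_ : Finite ι) (x y : ι → G),
    (∀ g : G, g ≠ 0 → ∃ i, x i = g ∨ y i = g) ∧
    (∀ g : G, g ≠ 0 → ∃ i, x i - y i = g ∨ y i - x i = g) ∧
    Function.Injective (fun i => x i + y i) ∧
    (∀ i, x i + y i ≠ 0) ∧
    2 * Nat.card ι + 1 = Nat.card G

/-- A strong complete mapping. -/
def SCM (H : Type) [AddCommGroup H] : Prop :=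
  ∃ b : H → H, Function.Bijective b ∧ Function.Bijective (fun h => b h - h) ∧
    Function.Bijective (fun h => b h + h)

theorem HasSS.of_equiv {G H : Type} [AddCommGroup G] [AddCommGroup H] (e : G ≃+ H)
    (h : HasSS G) : HasSS H := by
  obtain ⟨ι, hι, x, y, h1, h2, h3, h4, h5⟩ := h
  refine ⟨ι, hι, fun i => e (x i), fun i => e (y i), ?_, ?_, ?_, ?_, ?_⟩
  · intro g hg
    obtain ⟨i, hi⟩ := h1 (e.symm g) (by simpa using hg)
    refine ⟨i, ?_⟩
    rcases hi with hi | hi
    · left
      change e (x i) = g
      rw [hi, e.apply_symm_apply]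
    · right
      change e (y i) = g
      rw [hi, e.apply_symm_apply]
  · intro g hg
    obtain ⟨i, hi⟩ := h2 (e.symm g) (by simpa using hg)
    refine ⟨i, ?_⟩
    rcases hi with hi | hi
    · left
      rw [← map_sub, hi, e.apply_symm_apply]
    · right
      rw [← map_sub, hi, e.apply_symm_apply]
  · intro i j hij
    simp only [← map_add] at hij
    exact h3 (e.injective hij)
  · intro i hi
    rw [← map_add] at hi
    exact h4 i (e.injective (by rw [hi, map_zero]))
  · rw [h5]
    exact Nat.card_congr e.toEquiv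

theorem SCM.of_equiv {G H : Type} [AddCommGroup G] [AddCommGroup H] (e : G ≃+ H)
    (h : SCM G) : SCM H := by
  obtain ⟨b, h1, h2, h3⟩ := h
  refine ⟨fun x => e (b (e.symm x)), ?_, ?_, ?_⟩
  · exact e.bijective.comp (h1.comp e.symm.bijective)
  · have : (fun x => e (b (e.symm x)) - x) = e ∘ (fun h => b h - h) ∘ e.symm := by
      funext x
      simp
    rw [this]
    exact e.bijective.comp (h2.comp e.symm.bijective)
  · have : (fun x => e (b (e.symm x)) + x) = e ∘ (fun h => b h + h) ∘ e.symm := by
      funext x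
      simp
    rw [this]
    exact e.bijective.comp (h3.comp e.symm.bijective)

theorem HasSS.ext {G H : Type} [AddCommGroup G] [AddCommGroup H] (f : H →+ G)
    (hf : Function.Injective f) (hH : HasSS H) (hS : SCM H) (hQ : HasSS (G ⧸ f.range)) :
    HasSS G := by
  obtain ⟨ι, hι, x, y, h1, h2, h3, h4, h5⟩ := hH
  obtain ⟨κ, hκ, p, q, k1, k2, k3, k4, k5⟩ := hQ
  obtain ⟨b, b1, b2, b3⟩ := hS
  have hfin : Finite H := Nat.finite_of_card_ne_zero (by omega)
  obtain ⟨r, hr⟩ : ∃ r : (G ⧸ f.range) → G, ∀ q, (QuotientAddGroup.mk (r q) : G ⧸ f.range) = q :=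
    ⟨fun q => q.out, fun q => QuotientAddGroup.out_eq' q⟩
  have hmk : ∀ a c : G, (QuotientAddGroup.mk a : G ⧸ f.range) = QuotientAddGroup.mk c →
      ∃ h, f h = c - a := by
    intro a c hac
    rw [QuotientAddGroup.eq] at hac
    obtain ⟨h, hh⟩ := hac
    exact ⟨h, by rw [hh]; abel⟩
  have hmf : ∀ h, (QuotientAddGroup.mk (f h) : G ⧸ f.range) = 0 := by
    intro h
    rw [QuotientAddGroup.eq_zero_iff]
    exact ⟨h, rfl⟩
  have hm0 : ∀ g : G, (QuotientAddGroup.mk g : G ⧸ f.range) = 0 → ∃ h, f h = g := by
    intro g hg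
    rw [QuotientAddGroup.eq_zero_iff] at hg
    exact hg
  refine ⟨ι ⊕ (κ × H), inferInstance,
    Sum.elim (fun i => f (x i)) (fun c => r (p c.1) + f c.2),
    Sum.elim (fun i => f (y i)) (fun c => r (q c.1) + f (b c.2)), ?_, ?_, ?_, ?_, ?_⟩
  · intro g hg
    by_cases h0 : (QuotientAddGroup.mk g : G ⧸ f.range) = 0
    · obtain ⟨h, rfl⟩ := hm0 g h0
      obtain ⟨i, hi⟩ := h1 h (fun h' => hg (by rw [h', map_zero]))
      refine ⟨Sum.inl i, ?_⟩
      rcases hi with hi | hi
      · left
        simp [hi]
      · right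
        simp [hi]
    · obtain ⟨i, hi⟩ := k1 _ h0
      rcases hi with hi | hi
      · rw [← hr (p i)] at hi
        obtain ⟨h, hh⟩ := hmk _ _ hi
        refine ⟨Sum.inr (i, h), Or.inl ?_⟩
        simp [hh]
      · rw [← hr (q i)] at hi
        obtain ⟨h, hh⟩ := hmk _ _ hi
        obtain ⟨h', rfl⟩ := b1.2 h
        refine ⟨Sum.inr (i, h'), Or.inr ?_⟩
        simp [hh]
  · intro g hg
    by_cases h0 : (QuotientAddGroup.mk g : G ⧸ f.range) = 0
    · obtain ⟨h, rfl⟩ := hm0 g h0
      obtain ⟨i, hi⟩ := h2 h (fun h' => hg (by rw [h', map_zero]))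
      refine ⟨Sum.inl i, ?_⟩
      rcases hi with hi | hi
      · left
        simp [← map_sub, hi]
      · right
        simp [← map_sub, hi]
    · obtain ⟨i, hi⟩ := k2 _ h0
      rcases hi with hi | hi
      · rw [← hr (p i), ← hr (q i), ← QuotientAddGroup.mk_sub] at hi
        obtain ⟨h, hh⟩ := hmk _ _ hi
        obtain ⟨h', hh'⟩ := b2.2 (-h)
        refine ⟨Sum.inr (i, h'), Or.inl ?_⟩
        have e1 : f (b h') - f h' = -f h := by
          rw [← map_sub, ← map_neg]
          exact congrArg f hh'
        simp only [Sum.elim_inr]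
        have e2 : r (p i) + f h' - (r (q i) + f (b h')) =
            (r (p i) - r (q i)) - (f (b h') - f h') := by abel
        rw [e2, e1, hh]
        abel
      · rw [← hr (p i), ← hr (q i), ← QuotientAddGroup.mk_sub] at hi
        obtain ⟨h, hh⟩ := hmk _ _ hi
        obtain ⟨h', hh'⟩ := b2.2 h
        refine ⟨Sum.inr (i, h'), Or.inr ?_⟩
        have e1 : f (b h') - f h' = f h := by
          rw [← map_sub]
          exact congrArg f hh'
        simp only [Sum.elim_inr]
        have e2 : r (q i) + f (b h') - (r (p i) + f h') =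
            (r (q i) - r (p i)) + (f (b h') - f h') := by abel
        rw [e2, e1, hh]
        abel
  · rintro (i | ⟨i, h⟩) (j | ⟨j, h'⟩) he
    · simp only [Sum.elim_inl, ← map_add] at he
      rw [h3 (hf he)]
    · exfalso
      simp only [Sum.elim_inl, Sum.elim_inr] at he
      have e1 := congrArg (fun g => (QuotientAddGroup.mk g : G ⧸ f.range)) he
      simp only [QuotientAddGroup.mk_add, hmf, hr] at e1
      apply k4 j
      rw [add_zero, add_zero, add_zero] at e1
      exact e1.symm
    · exfalso
      simp only [Sum.elim_inl, Sum.elim_inr] at he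
      have e1 := congrArg (fun g => (QuotientAddGroup.mk g : G ⧸ f.range)) he
      simp only [QuotientAddGroup.mk_add, hmf, hr] at e1
      apply k4 i
      rw [add_zero, add_zero, add_zero] at e1
      exact e1
    · simp only [Sum.elim_inr] at he
      have e1 := congrArg (fun g => (QuotientAddGroup.mk g : G ⧸ f.range)) he
      simp only [QuotientAddGroup.mk_add, hmf, hr, add_zero] at e1
      have e2 := k3 e1
      subst e2
      have e3 : f (b h + h) = f (b h' + h') := by
        rw [map_add, map_add]
        have e4 : f (b h) + f h = (r (p i) + f h + (r (q i) + f (b h))) - (r (p i) + r (q i)) := by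
          abel
        rw [e4, he]
        abel
      have e5 := b3.1 (hf e3)
      rw [e5]
  · rintro (i | ⟨i, h⟩) he
    · simp only [Sum.elim_inl, ← map_add] at he
      exact h4 i (hf (by rw [he, map_zero]))
    · simp only [Sum.elim_inr] at he
      have e1 := congrArg (fun g => (QuotientAddGroup.mk g : G ⧸ f.range)) he
      simp only [QuotientAddGroup.mk_add, hmf, hr, add_zero, QuotientAddGroup.mk_zero] at e1
      exact k4 i e1
  · have e1 : Nat.card f.range = Nat.card H :=
      (Nat.card_congr (AddMonoidHom.ofInjective hf).toEquiv).symm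
    have e2 := AddSubgroup.card_eq_card_quotient_mul_card_addSubgroup f.range
    rw [e1] at e2
    rw [Nat.card_sum, Nat.card_prod, e2, ← k5, ← h5]
    ring

theorem scm_of_coprime {H : Type} [AddCommGroup H] [Finite H] (h2 : (Nat.card H).Coprime 2)
    (h3 : (Nat.card H).Coprime 3) : SCM H := by
  have key : ∀ n : ℕ, (Nat.card H).Coprime n → Function.Bijective (fun h : H => n • h) := by
    intro n hn
    exact (nsmulCoprime hn).bijective
  refine ⟨fun h => 2 • h, key 2 h2, ?_, ?_⟩
  · have : (fun h : H => 2 • h - h) = fun h => h := by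
      funext h
      rw [two_nsmul]
      abel
    rw [this]
    exact Function.bijective_id
  · have : (fun h : H => 2 • h + h) = fun h => 3 • h := by
      funext h
      rw [two_nsmul, succ_nsmul, two_nsmul]
    rw [this]
    exact key 3 h3

end Pool.Agent.Helper1.Horton
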