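import Mathlib
import Pool.Agent.Helper1.CycleMagic

set_option autoImplicit false

namespace Pool.Agent.Helper1.CycleMagic.Starter

/-- A line of labels with sorted cuts `c 0 ≤ c 1 ≤ ...` and weights. At parameter `k` a block of
`k * w j` new labels is inserted right after `c j`. -/
structure Line where
  K : ℕ
  c : ℕ → ℕ
  w : ℕ → ℕ

/-- Sorted cuts. -/
def Srt (L : Line) : Prop := ∀ j < L.K, j + 1 < L.K → L.c j ≤ L.c (j + 1)

instance (L : Line) : Decidable (Srt L) := by
  unfold Srt
  infer_instance

/-- Shifted position of an old label. -/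
def sh (L : Line) (k x : ℕ) : ℕ := x + k * W L.w (lev L.c x L.K)

/-- Position of an inserted label. -/
def bp (L : Line) (k j r m : ℕ) : ℕ := L.c j + k * W L.w j + 1 + r + L.w j * m

theorem W_mul (w : ℕ → ℕ) (k j : ℕ) : W (fun i => k * w i) j = k * W w j := by
  induction j with
  | zero => simp [W]
  | succ j ih =>
    simp only [W, ih]
    ring

theorem lev_mono (c : ℕ → ℕ) {x y : ℕ} (h : x ≤ y) (K : ℕ) : lev c x K ≤ lev c y K := by
  induction K with
  | zero => simp [lev]
  | succ K ih =>
    simp only [lev]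
    split_ifs <;> omega

theorem lev_le (c : ℕ → ℕ) (x K : ℕ) : lev c x K ≤ K := by
  induction K with
  | zero => simp [lev]
  | succ K ih =>
    simp only [lev]
    split_ifs <;> omega

theorem Srt.mono {L : Line} (h : Srt L) : ∀ j, j + 1 < L.K → L.c j ≤ L.c (j + 1) :=
  fun j hj => h j (by omega) hj

theorem cov {L : Line} (h : Srt L) (k T y : ℕ) (hc : ∀ j < L.K, L.c j ≤ T) (hy : 1 ≤ y)
    (hyT : y ≤ T + k * W L.w L.K) :
    (∃ x, 1 ≤ x ∧ x ≤ T ∧ y = sh L k x) ∨
      ∃ j < L.K, ∃ r < L.w j, ∃ m < k, y = bp L k j r m := by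
  rcases cover (w := fun i => k * L.w i) h.mono y with ⟨x, l, hl, hx⟩ | ⟨j, hj, h1, h2⟩
  · left
    have e := lev_unique hl
    rw [W_mul] at hx
    refine ⟨x, ?_, ?_, ?_⟩
    · by_contra hc0
      have h0 : x = 0 := by omega
      subst h0
      have hl0 : l = 0 := by
        rcases Nat.eq_zero_or_pos l with h1 | h1
        · exact h1
        · have := hl.2.1 0 h1
          omega
      subst hl0
      simp [W] at hx
      omega
    · by_contra hT
      have hlK : l = L.K := by
        rcases Nat.lt_or_ge l L.K with h1 | h1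
        · have h2 := hl.2.2 l h1 le_rfl
          have h3 := hc l h1
          omega
        · have := hl.1
          omega
      subst hlK
      omega
    · simp only [sh, e]
      exact hx
  · right
    rw [W_mul] at h1 h2
    have hk : 0 < k * L.w j := by omega
    have hw : 0 < L.w j := Nat.pos_of_mul_pos_left hk
    obtain ⟨u, hu⟩ : ∃ u, y = L.c j + k * W L.w j + 1 + u := ⟨y - (L.c j + k * W L.w j + 1), by omega⟩
    have hu2 : u < k * L.w j := by omega
    refine ⟨j, hj, u % L.w j, Nat.mod_lt _ hw, u / L.w j, ?_, ?_⟩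
    · rw [Nat.div_lt_iff_lt_mul hw]
      exact hu2
    · rw [hu]
      simp only [bp]
      have := Nat.mod_add_div u (L.w j)
      omega

theorem sh_lt {L : Line} {k x y : ℕ} (h : x < y) : sh L k x < sh L k y := by
  simp only [sh]
  have h1 := W_mono L.w (lev_mono L.c h.le L.K)
  have h2 := Nat.mul_le_mul_left k h1
  omega

theorem sh_inj {L : Line} {k x y : ℕ} (h : sh L k x = sh L k y) : x = y := by
  rcases Nat.lt_trichotomy x y with h1 | h1 | h1
  · have := sh_lt (L := L) (k := k) h1
    omega
  · exact h1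
  · have := sh_lt (L := L) (k := k) h1
    omega

theorem bp_lt {L : Line} {k j r m : ℕ} (hr : r < L.w j) (hm : m < k) :
    bp L k j r m < L.c j + k * W L.w (j + 1) + 1 := by
  simp only [bp, W]
  have h1 : L.w j * (m + 1) ≤ L.w j * k := Nat.mul_le_mul_left _ hm
  have h2 : k * (W L.w j + L.w j) = k * W L.w j + L.w j * k := by ring
  have h3 : L.w j * (m + 1) = L.w j * m + L.w j := by ring
  omega

theorem sh_ne_bp {L : Line} (h : Srt L) {k x j r m : ℕ} (hj : j < L.K) (hr : r < L.w j)
    (hm : m < k) : sh L k x ≠ bp L k j r m := by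
  have hL := isLev_lev h.mono (K := L.K) x
  rcases Nat.lt_or_ge (L.c j) x with h1 | h1
  · have h2 : j + 1 ≤ lev L.c x L.K := by
      by_contra hc
      push Not at hc
      have := hL.2.2 j hj (by omega)
      omega
    have h3 := W_mono L.w h2
    have h4 := Nat.mul_le_mul_left k h3
    have h5 := bp_lt (k := k) hr hm
    simp only [sh]
    omega
  · have h2 : lev L.c x L.K ≤ j := by
      by_contra hc
      push Not at hc
      have := hL.2.1 j hc
      omega
    have h3 := W_mono L.w h2
    have h4 := Nat.mul_le_mul_left k h3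
    simp only [sh, bp]
    omega

theorem bp_inj {L : Line} (h : Srt L) {k j r m j' r' m' : ℕ} (hj : j < L.K) (hr : r < L.w j)
    (hm : m < k) (hj' : j' < L.K) (hr' : r' < L.w j') (hm' : m' < k)
    (he : bp L k j r m = bp L k j' r' m') : j = j' ∧ r = r' ∧ m = m' := by
  have key : ∀ {j r m j' r' m' : ℕ}, j < L.K → r < L.w j → m < k → j' < L.K → r' < L.w j' →
      m' < k → j < j' → bp L k j r m ≠ bp L k j' r' m' := by
    intro j r m j' r' m' hj hr hm hj' hr' hm' hlt
    have h1 := bp_lt (k := k) hr hm
    have h2 := mono_le h.mono (show j ≤ j' by omega) hj'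
    have h3 := W_mono L.w (show j + 1 ≤ j' by omega)
    have h4 := Nat.mul_le_mul_left k h3
    have h5 : L.c j' + k * W L.w j' + 1 ≤ bp L k j' r' m' := by
      simp only [bp]
      omega
    omega
  rcases Nat.lt_trichotomy j j' with h1 | h1 | h1
  · exact absurd he (key hj hr hm hj' hr' hm' h1)
  · subst h1
    simp only [bp] at he
    have h2 : r + L.w j * m = r' + L.w j * m' := by omega
    have h3 : (r + L.w j * m) % L.w j = r := by
      rw [Nat.add_mul_mod_self_left, Nat.mod_eq_of_lt hr]
    have h4 : (r' + L.w j * m') % L.w j = r' := by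
      rw [Nat.add_mul_mod_self_left, Nat.mod_eq_of_lt hr']
    have h5 : r = r' := by rw [← h3, ← h4, h2]
    subst h5
    refine ⟨rfl, rfl, ?_⟩
    have h6 : L.w j * m = L.w j * m' := by omega
    exact Nat.eq_of_mul_eq_mul_left (by omega) h6
  · exact absurd he.symm (key hj' hr' hm' hj hr hm h1)

/-! ### Affine triples -/

/-- `A.1 + A.2.1 t + A.2.2 u`. -/
def ev (A : ℕ × ℕ × ℕ) (t u : ℕ) : ℕ := A.1 + A.2.1 * t + A.2.2 * u

/-- The triple of an end of an inserted pair. -/
def af (L : Line) (j r : ℕ) (inc : Bool) : ℕ × ℕ × ℕ :=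
  (L.c j + W L.w j + 1 + r, W L.w j + (if inc then L.w j else 0),
    W L.w j + (if inc then 0 else L.w j))

theorem bp_af (L : Line) (j r : ℕ) (inc : Bool) (t u : ℕ) :
    bp L (t + u + 1) j r (if inc then t else u) = ev (af L j r inc) t u := by
  cases inc
  · simp only [bp, ev, af, Bool.false_eq_true, if_false]
    ring
  · simp only [bp, ev, af, if_true]
    ring

theorem ev_add (A B : ℕ × ℕ × ℕ) (t u : ℕ) : ev A t u + ev B t u = ev (A + B) t u := by
  simp only [ev, Prod.fst_add, Prod.snd_add]
  ring

end Pool.Agent.Helper1.CycleMagic.Starter
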