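import Mathlib
import Pool.Agent.Helper1.Starter1

set_option autoImplicit false

namespace Pool.Agent.Helper1.CycleMagic.Starter

/-- How a difference `d` comes from the ends `x`, `y`. -/
def DF {α : Type} [Add α] (f : ℕ) (N x y d : α) : Prop :=
  if f = 0 then x + d = y else if f = 1 then y + d = x
  else if f = 2 then x + d = y + N else y + d = x + N

/-- How a sum `s` comes from the ends `x`, `y`. -/
def SF {α : Type} [Add α] (f : ℕ) (N x y s : α) : Prop :=
  if f = 0 then x + y = s else x + y = s + N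

instance {α : Type} [Add α] [DecidableEq α] (f : ℕ) (N x y d : α) : Decidable (DF f N x y d) := by
  unfold DF
  infer_instance

instance {α : Type} [Add α] [DecidableEq α] (f : ℕ) (N x y s : α) : Decidable (SF f N x y s) := by
  unfold SF
  infer_instance

theorem DF.map {α β : Type} [Add α] [Add β] {f : ℕ} {N x y d : α} (e : α → β)
    (he : ∀ a b, e a + e b = e (a + b)) (h : DF f N x y d) : DF f (e N) (e x) (e y) (e d) := by
  unfold DF at h ⊢
  split_ifs at h ⊢ <;> simp only [he, h]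

theorem SF.map {α β : Type} [Add α] [Add β] {f : ℕ} {N x y s : α} (e : α → β)
    (he : ∀ a b, e a + e b = e (a + b)) (h : SF f N x y s) : SF f (e N) (e x) (e y) (e s) := by
  unfold SF at h ⊢
  split_ifs at h ⊢ <;> simp only [he, h]

theorem DF.cases {f N x y d : ℕ} (h : DF f N x y d) :
    x + d = y ∨ y + d = x ∨ x + d = y + N ∨ y + d = x + N := by
  unfold DF at h
  split_ifs at h <;> simp [h]

theorem SF.cases {f N x y s : ℕ} (h : SF f N x y s) : x + y = s ∨ x + y = s + N := by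
  unfold SF at h
  split_ifs at h <;> simp [h]

/-- The data `x, y, d, s` form a strong starter of order `2 m + 1`. -/
def IsSS (m : ℕ) {ι : Type} [Fintype ι] (x y d s : ι → ℕ) : Prop :=
    Fintype.card ι = m ∧
    (∀ v, 1 ≤ v → v ≤ 2 * m → ∃ i, x i = v ∨ y i = v) ∧
    (∀ e, 1 ≤ e → e ≤ m → ∃ i, d i = e) ∧
    (∀ i, x i + d i = y i ∨ y i + d i = x i ∨ x i + d i = y i + (2 * m + 1) ∨
      y i + d i = x i + (2 * m + 1)) ∧
    (∀ i, x i + y i = s i ∨ x i + y i = s i + (2 * m + 1)) ∧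
    (∀ i, 1 ≤ s i ∧ s i ≤ 2 * m) ∧
    Function.Injective s

/-- A strong starter of order `2 m + 1`, written with natural numbers. -/
def SS (m : ℕ) : Prop :=
  ∃ (ι : Type) (_ : Fintype ι) (_ : DecidableEq ι) (x y d s : ι → ℕ), IsSS m x y d s

/-- A base pair. -/
structure Bp where
  a : ℕ
  b : ℕ
  d : ℕ
  fd : ℕ
  s : ℕ
  fs : ℕ

/-- A type of inserted pairs. -/
structure Ty where
  jx : ℕ
  rx : ℕ
  ix : Bool
  jy : ℕ
  ry : ℕ
  iy : Bool
  jd : ℕ
  rd : ℕ
  bd : Bool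
  fd : ℕ
  js : ℕ
  rs : ℕ
  bs : Bool
  fs : ℕ

/-- Data of a growing family of strong starters. -/
structure Fam where
  n0 : ℕ
  g : ℕ
  P : Line
  D : Line
  S : Line
  prs : List Bp
  tys : List Ty

/-- An old label together with the slope of its shift. -/
def shp (L : Line) (x : ℕ) : ℕ × ℕ := (x, W L.w (lev L.c x L.K))

/-- Everything that has to be checked by a finite computation. -/
structure Fam.Ok (F : Fam) : Prop where
  sP : Srt F.P
  sD : Srt F.D
  sS : Srt F.S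
  cP : ∀ j < F.P.K, F.P.c j ≤ 2 * F.n0
  cD : ∀ j < F.D.K, F.D.c j ≤ F.n0
  cS : ∀ j < F.S.K, F.S.c j ≤ 2 * F.n0
  wP : W F.P.w F.P.K = 2 * F.g
  wD : W F.D.w F.D.K = F.g
  wS : W F.S.w F.S.K = 2 * F.g
  lp : F.prs.length = F.n0
  lt : F.tys.length = F.g
  p1 : ∀ v < 2 * F.n0, ∃ p ∈ F.prs, p.a = v + 1 ∨ p.b = v + 1
  p2 : ∀ j < F.P.K, ∀ r < F.P.w j, ∃ t ∈ F.tys, (t.jx = j ∧ t.rx = r) ∨ (t.jy = j ∧ t.ry = r)
  d1 : ∀ v < F.n0, ∃ p ∈ F.prs, p.d = v + 1
  d2 : ∀ j < F.D.K, ∀ r < F.D.w j, ∃ t ∈ F.tys, t.jd = j ∧ t.rd = r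
  bb : ∀ p ∈ F.prs,
    DF p.fd (2 * F.n0 + 1, 2 * F.g) (shp F.P p.a) (shp F.P p.b) (shp F.D p.d) ∧
    SF p.fs (2 * F.n0 + 1, 2 * F.g) (shp F.P p.a) (shp F.P p.b) (shp F.S p.s) ∧
    1 ≤ p.s ∧ p.s ≤ 2 * F.n0
  s1 : (F.prs.map (fun p => p.s)).Nodup
  tt : ∀ t ∈ F.tys,
    DF t.fd (2 * F.n0 + 1 + 2 * F.g, 2 * F.g, 2 * F.g) (af F.P t.jx t.rx t.ix)
      (af F.P t.jy t.ry t.iy) (af F.D t.jd t.rd t.bd) ∧
    SF t.fs (2 * F.n0 + 1 + 2 * F.g, 2 * F.g, 2 * F.g) (af F.P t.jx t.rx t.ix)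
      (af F.P t.jy t.ry t.iy) (af F.S t.js t.rs t.bs) ∧
    t.js < F.S.K ∧ t.rs < F.S.w t.js
  s2 : (F.tys.map (fun t => (t.js, t.rs))).Nodup

/-- The end of the `t`-th inserted pair of a type. -/
def en (L : Line) (k j r : ℕ) (inc : Bool) (t : ℕ) : ℕ := bp L k j r (if inc then t else k - 1 - t)

theorem en_ev (L : Line) {k t : ℕ} (h : t < k) (j r : ℕ) (inc : Bool) :
    en L k j r inc t = ev (af L j r inc) t (k - 1 - t) := by
  obtain ⟨u, rfl⟩ : ∃ u, k = t + u + 1 := ⟨k - 1 - t, by omega⟩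
  have h1 : t + u + 1 - 1 - t = u := by omega
  simp only [en, h1]
  exact bp_af L j r inc t u

theorem ev_N (n g t u : ℕ) :
    ev (2 * n + 1 + 2 * g, 2 * g, 2 * g) t u = 2 * (n + g * (t + u + 1)) + 1 := by
  simp only [ev]
  ring

/-- Value at the parameter `k`. -/
def e2 (k : ℕ) (A : ℕ × ℕ) : ℕ := A.1 + k * A.2

theorem e2_add (k : ℕ) (A B : ℕ × ℕ) : e2 k A + e2 k B = e2 k (A + B) := by
  simp only [e2, Prod.fst_add, Prod.snd_add]
  ring

theorem e2_shp (L : Line) (k x : ℕ) : e2 k (shp L x) = sh L k x := rfl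

theorem e2_N (n g k : ℕ) : e2 k (2 * n + 1, 2 * g) = 2 * (n + g * k) + 1 := by
  simp only [e2]
  ring

theorem Fam.Ok.isSS {F : Fam} (h : F.Ok) (k : ℕ) :
    IsSS (F.n0 + F.g * k) (ι := Fin F.prs.length ⊕ (Fin F.tys.length × Fin k))
    (Sum.elim (fun i => sh F.P k (F.prs[i]).a)
      (fun q => en F.P k (F.tys[q.1]).jx (F.tys[q.1]).rx (F.tys[q.1]).ix q.2))
    (Sum.elim (fun i => sh F.P k (F.prs[i]).b)
      (fun q => en F.P k (F.tys[q.1]).jy (F.tys[q.1]).ry (F.tys[q.1]).iy q.2))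
    (Sum.elim (fun i => sh F.D k (F.prs[i]).d)
      (fun q => en F.D k (F.tys[q.1]).jd (F.tys[q.1]).rd (F.tys[q.1]).bd q.2))
    (Sum.elim (fun i => sh F.S k (F.prs[i]).s)
      (fun q => en F.S k (F.tys[q.1]).js (F.tys[q.1]).rs (F.tys[q.1]).bs q.2)) := by
  classical
  refine ⟨?_, ?_, ?_, ?_, ?_, ?_, ?_⟩
  · simp [h.lp, h.lt]
  · intro v hv1 hv2
    have hT : v ≤ 2 * F.n0 + k * W F.P.w F.P.K := by
      rw [h.wP]
      calc v ≤ 2 * (F.n0 + F.g * k) := hv2
        _ = 2 * F.n0 + k * (2 * F.g) := by ring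
    rcases cov h.sP k (2 * F.n0) v h.cP hv1 hT with ⟨x, hx1, hx2, hx⟩ | ⟨j, hj, r, hr, m, hm, hv⟩
    · obtain ⟨p, hp, hpx⟩ := h.p1 (x - 1) (by omega)
      obtain ⟨i, hi, rfl⟩ := List.mem_iff_getElem.mp hp
      have hx' : x - 1 + 1 = x := by omega
      rw [hx'] at hpx
      refine ⟨Sum.inl ⟨i, hi⟩, ?_⟩
      rcases hpx with h1 | h1
      · left
        simp [h1, hx]
      · right
        simp [h1, hx]
    · obtain ⟨t, ht, htx⟩ := h.p2 j hj r hr
      obtain ⟨i, hi, rfl⟩ := List.mem_iff_getElem.mp ht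
      rcases htx with ⟨h1, h2⟩ | ⟨h1, h2⟩
      · refine ⟨Sum.inr (⟨i, hi⟩, ⟨if (F.tys[i]).ix then m else k - 1 - m, ?_⟩), Or.inl ?_⟩
        · split_ifs <;> omega
        · simp only [Sum.elim_inr, Fin.getElem_fin, en]
          rw [h1, h2, hv]
          congr 1
          split_ifs <;> omega
      · refine ⟨Sum.inr (⟨i, hi⟩, ⟨if (F.tys[i]).iy then m else k - 1 - m, ?_⟩), Or.inr ?_⟩
        · split_ifs <;> omega
        · simp only [Sum.elim_inr, Fin.getElem_fin, en]
          rw [h1, h2, hv]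
          congr 1
          split_ifs <;> omega
  · intro v hv1 hv2
    have hT : v ≤ F.n0 + k * W F.D.w F.D.K := by
      rw [h.wD]
      calc v ≤ F.n0 + F.g * k := hv2
        _ = F.n0 + k * F.g := by ring
    rcases cov h.sD k F.n0 v h.cD hv1 hT with ⟨x, hx1, hx2, hx⟩ | ⟨j, hj, r, hr, m, hm, hv⟩
    · obtain ⟨p, hp, hpx⟩ := h.d1 (x - 1) (by omega)
      obtain ⟨i, hi, rfl⟩ := List.mem_iff_getElem.mp hp
      have hx' : x - 1 + 1 = x := by omega
      rw [hx'] at hpx
      refine ⟨Sum.inl ⟨i, hi⟩, ?_⟩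
      simp [hpx, hx]
    · obtain ⟨t, ht, h1, h2⟩ := h.d2 j hj r hr
      obtain ⟨i, hi, rfl⟩ := List.mem_iff_getElem.mp ht
      refine ⟨Sum.inr (⟨i, hi⟩, ⟨if (F.tys[i]).bd then m else k - 1 - m, ?_⟩), ?_⟩
      · split_ifs <;> omega
      · simp only [Sum.elim_inr, Fin.getElem_fin, en]
        rw [h1, h2, hv]
        congr 1
        split_ifs <;> omega
  · rintro (i | ⟨i, t⟩)
    · have h1 := (h.bb _ (List.getElem_mem i.2)).1.map (e2 k) (e2_add k)
      rw [e2_N] at h1
      exact h1.cases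
    · have h1 := (h.tt _ (List.getElem_mem i.2)).1.map (fun A => ev A t (k - 1 - t))
        (fun A B => ev_add A B t (k - 1 - t))
      have h2 : (t : ℕ) + (k - 1 - t) + 1 = k := by
        have := t.2
        omega
      simp only [ev_N, h2, ← en_ev F.P t.2, ← en_ev F.D t.2] at h1
      exact h1.cases
  · rintro (i | ⟨i, t⟩)
    · have h1 := (h.bb _ (List.getElem_mem i.2)).2.1.map (e2 k) (e2_add k)
      rw [e2_N] at h1
      exact h1.cases
    · have h1 := (h.tt _ (List.getElem_mem i.2)).2.1.map (fun A => ev A t (k - 1 - t))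
        (fun A B => ev_add A B t (k - 1 - t))
      have h2 : (t : ℕ) + (k - 1 - t) + 1 = k := by
        have := t.2
        omega
      simp only [ev_N, h2, ← en_ev F.P t.2, ← en_ev F.S t.2] at h1
      exact h1.cases
  · rintro (i | ⟨i, t⟩)
    · have h1 := (h.bb _ (List.getElem_mem i.2)).2.2
      simp only [Sum.elim_inl, Fin.getElem_fin, sh]
      have h2 := W_mono F.S.w (lev_le F.S.c (F.prs[i]).s F.S.K)
      have h3 := Nat.mul_le_mul_left k h2
      rw [h.wS] at h3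
      have h4 : k * (2 * F.g) = 2 * (F.g * k) := by ring
      rw [h4] at h3
      simp only [Fin.getElem_fin] at h1 h3
      omega
    · have h1 := (h.tt _ (List.getElem_mem i.2)).2.2
      simp only [Sum.elim_inr, Fin.getElem_fin, en]
      have h5 : (if (F.tys[i]).bs then (t : ℕ) else k - 1 - t) < k := by
        have := t.2
        split_ifs <;> omega
      have h6 := bp_lt (L := F.S) (j := (F.tys[i]).js) h1.2 h5
      have h7 := h.cS _ h1.1
      have h2 := W_mono F.S.w (show (F.tys[i]).js + 1 ≤ F.S.K from h1.1)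
      have h3 := Nat.mul_le_mul_left k h2
      rw [h.wS] at h3
      have h4 : k * (2 * F.g) = 2 * (F.g * k) := by ring
      rw [h4] at h3
      have h8 : 1 ≤ bp F.S k (F.tys[i]).js (F.tys[i]).rs
          (if (F.tys[i]).bs then (t : ℕ) else k - 1 - t) := by
        simp only [bp]
        omega
      simp only [Fin.getElem_fin] at h1 h3 h5 h6 h7 h8
      omega
  · rintro (i | ⟨i, t⟩) (j | ⟨j, u⟩) he
    · simp only [Sum.elim_inl, Fin.getElem_fin] at he
      have h1 := sh_inj he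
      have h2 := (List.nodup_iff_injective_get.mp h.s1)
      congr 1
      have h3 := @h2 ⟨i, by simp⟩ ⟨j, by simp⟩ (by simpa using h1)
      simpa [Fin.ext_iff] using h3
    · exfalso
      have h1 := (h.tt _ (List.getElem_mem j.2)).2.2
      simp only [Sum.elim_inl, Sum.elim_inr, Fin.getElem_fin, en] at he
      have h5 : (if (F.tys[j]).bs then (u : ℕ) else k - 1 - u) < k := by
        have := u.2
        split_ifs <;> omega
      exact sh_ne_bp h.sS h1.1 h1.2 h5 he
    · exfalso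
      have h1 := (h.tt _ (List.getElem_mem i.2)).2.2
      simp only [Sum.elim_inl, Sum.elim_inr, Fin.getElem_fin, en] at he
      have h5 : (if (F.tys[i]).bs then (t : ℕ) else k - 1 - t) < k := by
        have := t.2
        split_ifs <;> omega
      exact sh_ne_bp h.sS h1.1 h1.2 h5 he.symm
    · have h1 := (h.tt _ (List.getElem_mem i.2)).2.2
      have h1' := (h.tt _ (List.getElem_mem j.2)).2.2
      simp only [Sum.elim_inr, Fin.getElem_fin, en] at he
      have h5 : (if (F.tys[i]).bs then (t : ℕ) else k - 1 - t) < k := by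
        have := t.2
        split_ifs <;> omega
      have h5' : (if (F.tys[j]).bs then (u : ℕ) else k - 1 - u) < k := by
        have := u.2
        split_ifs <;> omega
      obtain ⟨e1, e2, e3⟩ := bp_inj h.sS h1.1 h1.2 h5 h1'.1 h1'.2 h5' he
      have h2 := (List.nodup_iff_injective_get.mp h.s2)
      have h3 := @h2 ⟨i, by simp⟩ ⟨j, by simp⟩ (by
        simp only [List.get_eq_getElem, List.getElem_map]
        exact Prod.ext e1 e2)
      have h4 : i = j := by simpa [Fin.ext_iff] using h3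
      subst h4
      congr 2
      have := t.2
      have := u.2
      split_ifs at e3 <;> · apply Fin.ext; omega

theorem Fam.Ok.ss {F : Fam} (h : F.Ok) (k : ℕ) : SS (F.n0 + F.g * k) :=
  ⟨Fin F.prs.length ⊕ (Fin F.tys.length × Fin k), inferInstance, inferInstance,
    _, _, _, _, h.isSS k⟩

end Pool.Agent.Helper1.CycleMagic.Starter
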