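import Mathlib
import Pool.Agent.Helper1.Starter2

set_option autoImplicit false

namespace Pool.Agent.Helper1.CycleMagic.Starter

/-- The existence statement for the cycle of `N` vertices. -/
def Good (N : ℕ) : Prop :=
  ∃ (M : SimpleGraph (ZMod N)) (c : ZMod N),
    (∀ w, ¬ M.Adj c w) ∧
    (∀ v, v ≠ c → ∃! w, M.Adj v w) ∧
    (∀ a b x y, M.Adj a b → M.Adj x y →
      min (a - b).val (b - a).val = min (x - y).val (y - x).val →
      (a = x ∧ b = y) ∨ (a = y ∧ b = x)) ∧
    (∀ a b x y, M.Adj a b → M.Adj x y →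
      min (a - x).val (x - a).val = min (b - y).val (y - b).val →
      (a = x ∧ b = y) ∨ (a = y ∧ b = x)) ∧
    (∀ a b, M.Adj a b →
      min (a - c).val (c - a).val ≠ min (b - c).val (c - b).val)

theorem surj_count {κ : Type} [Fintype κ] (e : κ → ℕ) (T : ℕ) (hc : Fintype.card κ = T)
    (h : ∀ v, 1 ≤ v → v ≤ T → ∃ i, e i = v) :
    Function.Injective e ∧ ∀ i, 1 ≤ e i ∧ e i ≤ T := by
  classical
  have hsub : Finset.Icc 1 T ⊆ Finset.univ.image e := by
    intro v hv
    rw [Finset.mem_Icc] at hv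
    obtain ⟨i, hi⟩ := h v hv.1 hv.2
    exact Finset.mem_image.mpr ⟨i, Finset.mem_univ i, hi⟩
  have h1 : (Finset.univ.image e).card ≤ (Finset.Icc 1 T).card := by
    refine Finset.card_image_le.trans ?_
    rw [Nat.card_Icc, Finset.card_univ, hc]
    omega
  have h2 := Finset.eq_of_subset_of_card_le hsub h1
  constructor
  · have h3 : (Finset.univ.image e).card = (Finset.univ : Finset κ).card := by
      rw [← h2, Nat.card_Icc, Finset.card_univ, hc]
      omega
    have h4 := Finset.card_image_iff.mp h3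
    intro a b hab
    exact h4 (by simp) (by simp) hab
  · intro i
    have h3 : e i ∈ Finset.univ.image e := Finset.mem_image.mpr ⟨i, Finset.mem_univ i, rfl⟩
    rw [← h2, Finset.mem_Icc] at h3
    exact h3

theorem val_min {N : ℕ} [NeZero N] {u v : ZMod N}
    (h : min u.val (-u).val = min v.val (-v).val) : u = v ∨ u = -v := by
  rcases Nat.le_total u.val (-u).val with h1 | h1 <;>
    rcases Nat.le_total v.val (-v).val with h2 | h2
  · rw [min_eq_left h1, min_eq_left h2] at h
    exact Or.inl (ZMod.val_injective N h)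
  · rw [min_eq_left h1, min_eq_right h2] at h
    exact Or.inr (ZMod.val_injective N h)
  · rw [min_eq_right h1, min_eq_left h2] at h
    exact Or.inr (neg_eq_iff_eq_neg.mp (ZMod.val_injective N h))
  · rw [min_eq_right h1, min_eq_right h2] at h
    exact Or.inl (neg_injective (ZMod.val_injective N h))

theorem val_min' {N : ℕ} [NeZero N] {a b x y : ZMod N}
    (h : min (a - b).val (b - a).val = min (x - y).val (y - x).val) :
    a - b = x - y ∨ a - b = y - x := by
  rw [← neg_sub a b, ← neg_sub x y] at h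
  rcases val_min h with h | h
  · exact Or.inl h
  · right
    rw [h, neg_sub]

theorem cast_inj {N a b : ℕ} (ha : a < N) (hb : b < N) (h : (a : ZMod N) = (b : ZMod N)) :
    a = b := by
  rw [ZMod.natCast_eq_natCast_iff', Nat.mod_eq_of_lt ha, Nat.mod_eq_of_lt hb] at h
  exact h

/-- The index of an end. -/
def pr {ι : Type} : ι ⊕ ι → ι := Sum.elim id id

theorem pr_eq {ι : Type} {κ κ' : ι ⊕ ι} (h : pr κ = pr κ') : κ = κ' ∨ κ = κ'.swap := by
  rcases κ with i | i <;> rcases κ' with j | j <;> simp_all [pr]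

theorem good_of_SS {m : ℕ} (h : SS m) : Good (2 * m + 1) := by
  obtain ⟨ι, hF, hD, x, y, d, s, hcard, hcov, hdc, hd, hs, hsr, hsi⟩ := h
  obtain ⟨hinj, hr⟩ := surj_count (Sum.elim x y) (2 * m)
    (by rw [Fintype.card_sum, hcard]; omega) (by
      intro v h1 h2
      obtain ⟨i, hi | hi⟩ := hcov v h1 h2
      · exact ⟨Sum.inl i, hi⟩
      · exact ⟨Sum.inr i, hi⟩)
  obtain ⟨hdi, hdr⟩ := surj_count d m hcard hdc
  obtain ⟨E, hE⟩ : ∃ E : ι ⊕ ι → ZMod (2 * m + 1), ∀ κ, E κ = ((Sum.elim x y κ : ℕ) : ZMod (2 * m + 1)) :=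
    ⟨_, fun _ => rfl⟩
  have hEi : Function.Injective E := by
    intro a b hab
    rw [hE, hE] at hab
    exact hinj (cast_inj (by have := (hr a).2; omega) (by have := (hr b).2; omega) hab)
  have hE0 : ∀ κ, E κ ≠ 0 := by
    intro κ h0
    rw [hE] at h0
    have h1 : ((Sum.elim x y κ : ℕ) : ZMod (2 * m + 1)) = ((0 : ℕ) : ZMod (2 * m + 1)) := by
      rw [h0]
      simp
    have h2 := cast_inj (by have := (hr κ).2; omega) (by omega) h1
    have := (hr κ).1
    omega
  have hcv : ∀ v : ZMod (2 * m + 1), v ≠ 0 → ∃ κ, E κ = v := by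
    intro v hv
    have h1 : v.val ≠ 0 := by
      rw [Ne, ZMod.val_eq_zero]
      exact hv
    have h2 := ZMod.val_lt v
    obtain ⟨i, hi | hi⟩ := hcov v.val (by omega) (by omega)
    · refine ⟨Sum.inl i, ?_⟩
      rw [hE, Sum.elim_inl, hi, ZMod.natCast_val, ZMod.cast_id]
    · refine ⟨Sum.inr i, ?_⟩
      rw [hE, Sum.elim_inr, hi, ZMod.natCast_val, ZMod.cast_id]
  have hN : ((2 * m + 1 : ℕ) : ZMod (2 * m + 1)) = 0 := ZMod.natCast_self _
  have hdel : ∀ κ, E κ - E κ.swap = (d (pr κ) : ZMod (2 * m + 1)) ∨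
      E κ - E κ.swap = -(d (pr κ) : ZMod (2 * m + 1)) := by
    intro κ
    have key : ∀ i, (x i : ZMod (2 * m + 1)) + d i = y i ∨ (y i : ZMod (2 * m + 1)) + d i = x i := by
      intro i
      rcases hd i with h1 | h1 | h1 | h1
      · left
        rw [← h1]
        push_cast
        ring
      · right
        rw [← h1]
        push_cast
        ring
      · left
        have h2 : ((x i + d i : ℕ) : ZMod (2 * m + 1)) = ((y i + (2 * m + 1) : ℕ) : ZMod (2 * m + 1)) := by
          rw [h1]
        rw [Nat.cast_add, Nat.cast_add, hN, add_zero] at h2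
        exact h2
      · right
        have h2 : ((y i + d i : ℕ) : ZMod (2 * m + 1)) = ((x i + (2 * m + 1) : ℕ) : ZMod (2 * m + 1)) := by
          rw [h1]
        rw [Nat.cast_add, Nat.cast_add, hN, add_zero] at h2
        exact h2
    rcases κ with i | i
    · simp only [hE, Sum.swap_inl, Sum.elim_inl, Sum.elim_inr, pr, id]
      rcases key i with h1 | h1
      · right
        rw [← h1]
        ring
      · left
        rw [← h1]
        ring
    · simp only [hE, Sum.swap_inr, Sum.elim_inl, Sum.elim_inr, pr, id]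
      rcases key i with h1 | h1
      · left
        rw [← h1]
        ring
      · right
        rw [← h1]
        ring
  have hsum : ∀ κ, E κ + E κ.swap = (s (pr κ) : ZMod (2 * m + 1)) := by
    intro κ
    have key : ∀ i, (x i : ZMod (2 * m + 1)) + y i = s i := by
      intro i
      rcases hs i with h1 | h1
      · rw [← h1]
        push_cast
        ring
      · have h2 : ((x i + y i : ℕ) : ZMod (2 * m + 1)) = ((s i + (2 * m + 1) : ℕ) : ZMod (2 * m + 1)) := by
          rw [h1]
        rw [Nat.cast_add, Nat.cast_add, hN, add_zero] at h2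
        exact h2
    rcases κ with i | i
    · simp only [hE, Sum.swap_inl, Sum.elim_inl, Sum.elim_inr, pr, id]
      exact key i
    · simp only [hE, Sum.swap_inr, Sum.elim_inl, Sum.elim_inr, pr, id]
      exact (add_comm _ _).trans (key i)
  have hdd : ∀ i j, ((d i : ZMod (2 * m + 1)) = d j ∨ (d i : ZMod (2 * m + 1)) = -(d j)) → i = j := by
    intro i j hij
    have h1 := hdr i
    have h2 := hdr j
    rcases hij with h3 | h3
    · exact hdi (cast_inj (by omega) (by omega) h3)
    · exfalso
      have h4 : ((d i + d j : ℕ) : ZMod (2 * m + 1)) = ((0 : ℕ) : ZMod (2 * m + 1)) := by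
        push_cast
        rw [h3]
        ring
      have h5 := cast_inj (by omega) (by omega) h4
      omega
  have hdiff : ∀ κ κ', E κ - E κ.swap = E κ' - E κ'.swap → pr κ = pr κ' := by
    intro κ κ' h1
    apply hdd
    rcases hdel κ with h2 | h2 <;> rcases hdel κ' with h3 | h3 <;> rw [h2, h3] at h1
    · exact Or.inl h1
    · exact Or.inr h1
    · right
      rw [← h1, neg_neg]
    · left
      exact neg_injective h1
  have hconc : ∀ κ κ', pr κ = pr κ' →
      (E κ = E κ' ∧ E κ.swap = E κ'.swap) ∨ (E κ = E κ'.swap ∧ E κ.swap = E κ') := by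
    intro κ κ' h1
    rcases pr_eq h1 with h2 | h2
    · left
      rw [h2]
      exact ⟨rfl, rfl⟩
    · right
      rw [h2, Sum.swap_swap]
      exact ⟨rfl, rfl⟩
  refine ⟨{ Adj := fun a b => ∃ κ, a = E κ ∧ b = E κ.swap
            symm := ⟨?_⟩
            loopless := ⟨?_⟩ }, 0, ?_, ?_, ?_, ?_, ?_⟩
  · rintro a b ⟨κ, h1, h2⟩
    exact ⟨κ.swap, h2, by rw [Sum.swap_swap]; exact h1⟩
  · rintro a ⟨κ, h1, h2⟩
    rw [h1] at h2
    have h3 := hEi h2
    rcases κ with i | i <;> simp at h3
  · rintro w ⟨κ, h1, h2⟩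
    exact hE0 κ h1.symm
  · intro v hv
    obtain ⟨κ, hκ⟩ := hcv v hv
    refine ⟨E κ.swap, ⟨κ, hκ.symm, rfl⟩, ?_⟩
    rintro w ⟨κ', h1, h2⟩
    rw [← hκ] at h1
    rw [h2, hEi h1]
  · rintro a b p q ⟨κ, rfl, rfl⟩ ⟨κ', rfl, rfl⟩ h1
    apply hconc
    rcases val_min' h1 with h2 | h2
    · exact hdiff κ κ' h2
    · have h3 := hdiff κ κ'.swap (by rw [Sum.swap_swap]; exact h2)
      rw [h3]
      rcases κ' with i | i <;> rfl
  · rintro a b p q ⟨κ, rfl, rfl⟩ ⟨κ', rfl, rfl⟩ h1
    apply hconc
    rcases val_min' h1 with h2 | h2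
    · apply hdiff
      linear_combination h2
    · apply hsi
      apply cast_inj (N := 2 * m + 1) (by have := hsr (pr κ); omega)
        (by have := hsr (pr κ'); omega)
      rw [← hsum, ← hsum]
      linear_combination h2
  · rintro a b ⟨κ, rfl, rfl⟩ h1
    rcases val_min' h1 with h2 | h2
    · have h3 : E κ = E κ.swap := by linear_combination h2
      have h4 := hEi h3
      rcases κ with i | i <;> simp at h4
    · have h3 : (s (pr κ) : ZMod (2 * m + 1)) = ((0 : ℕ) : ZMod (2 * m + 1)) := by
        rw [← hsum]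
        push_cast
        linear_combination h2
      have h4 := cast_inj (by have := hsr (pr κ); omega) (by omega) h3
      have := hsr (pr κ)
      omega

end Pool.Agent.Helper1.CycleMagic.Starter
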