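import Mathlib
import Pool.Agent.Helper1.Horton1
import Pool.Agent.Helper1.Starter3

set_option autoImplicit false

namespace Pool.Agent.Helper1.Horton

open Pool.Agent.Helper1.CycleMagic Pool.Agent.Helper1.CycleMagic.Starter

/-- The elementary group of order 9. -/
abbrev K9 : Type := ZMod 3 × ZMod 3

theorem scm_K9 : SCM K9 := by
  refine ⟨fun x => (x.1 - x.2, x.1 + x.2), ?_, ?_, ?_⟩
  · rw [Fintype.bijective_iff_injective_and_card]
    exact ⟨by unfold Function.Injective; decide, rfl⟩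
  · rw [Fintype.bijective_iff_injective_and_card]
    exact ⟨by unfold Function.Injective; decide, rfl⟩
  · rw [Fintype.bijective_iff_injective_and_card]
    exact ⟨by unfold Function.Injective; decide, rfl⟩

/-- Strong starter of `ZMod N` with the pair `{1,2}` and without the sums `1` and `4`. -/
def PSS (N : ℕ) : Prop :=
  ∃ (ι : Type) (_ : Finite ι) (x y : ι → ZMod N) (i0 : ι),
    (∀ g : ZMod N, g ≠ 0 → ∃ i, x i = g ∨ y i = g) ∧
    (∀ g : ZMod N, g ≠ 0 → ∃ i, x i - y i = g ∨ y i - x i = g) ∧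
    Function.Injective (fun i => x i + y i) ∧
    (∀ i, x i + y i ≠ 0) ∧
    2 * Nat.card ι + 1 = N ∧ x i0 = 1 ∧ y i0 = 2 ∧
    (∀ i, x i + y i ≠ 1) ∧ (∀ i, x i + y i ≠ 4)

/-- The thirteen patch pairs on `K9 × {0, 1, 2}`. -/
def pt : List ((K9 × ℕ) × (K9 × ℕ)) :=
  [(((0, 1), 0), ((1, 0), 0)), (((0, 2), 0), ((1, 1), 1)), (((1, 1), 0), ((1, 0), 1)),
   (((1, 2), 0), ((0, 2), 1)), (((2, 0), 0), ((1, 2), 1)), (((2, 1), 0), ((0, 1), 1)),
   (((2, 2), 0), ((2, 0), 1)), (((0, 0), 1), ((0, 0), 2)), (((2, 1), 1), ((0, 2), 2)),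
   (((2, 2), 1), ((1, 0), 2)), (((0, 1), 2), ((1, 1), 2)), (((1, 2), 2), ((2, 0), 2)),
   (((2, 1), 2), ((2, 2), 2))]

theorem pt_cov : ∀ t < 3, ∀ κ : K9, (t ≠ 0 ∨ κ ≠ 0) → ∃ p ∈ pt, p.1 = (κ, t) ∨ p.2 = (κ, t) := by
  decide +kernel

theorem pt_d0 : ∀ κ : K9, κ ≠ 0 →
    ∃ p ∈ pt, p.1.2 = p.2.2 ∧ (p.1.1 - p.2.1 = κ ∨ p.2.1 - p.1.1 = κ) := by
  decide +kernel

theorem pt_d1 : ∀ κ : K9,
    ∃ p ∈ pt, (p.1.2 = p.2.2 + 1 ∧ p.1.1 - p.2.1 = κ) ∨ (p.2.2 = p.1.2 + 1 ∧ p.2.1 - p.1.1 = κ) := by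
  decide +kernel

theorem pt_s : (pt.map (fun p => (p.1.1 + p.2.1, p.1.2 + p.2.2))).Nodup := by
  decide +kernel

theorem pt_l : ∀ p ∈ pt, (p.1.2 + p.2.2 = 0 ∧ p.1.1 + p.2.1 ≠ 0) ∨ p.1.2 + p.2.2 = 1 ∨
    p.1.2 + p.2.2 = 3 ∨ p.1.2 + p.2.2 = 4 := by
  decide +kernel

theorem patch {N : ℕ} (hN : 5 ≤ N) (h : PSS N) : HasSS (K9 × ZMod N) := by
  classical
  obtain ⟨ι, hι, x, y, i0, h1, h2, h3, h4, h5, hx, hy, hs1, hs4⟩ := h
  obtain ⟨b, b1, b2, b3⟩ := scm_K9
  have hs3 : x i0 + y i0 = 3 := by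
    rw [hx, hy]
    norm_num
  let E : K9 × ℕ → K9 × ZMod N := fun e => (e.1, (e.2 : ZMod N))
  have hE : ∀ e, E e = (e.1, (e.2 : ZMod N)) := fun _ => rfl
  refine ⟨({i // i ≠ i0} × K9) ⊕ Fin pt.length, inferInstance,
    Sum.elim (fun c => (c.2, x c.1)) (fun j => E (pt[j]).1),
    Sum.elim (fun c => (b c.2, y c.1)) (fun j => E (pt[j]).2), ?_, ?_, ?_, ?_, ?_⟩
  · rintro ⟨κ, v⟩ hg
    have key : ∀ t : ℕ, t < 3 → (t ≠ 0 ∨ κ ≠ 0) → v = (t : ZMod N) →
        ∃ j : Fin pt.length, E (pt[j]).1 = (κ, v) ∨ E (pt[j]).2 = (κ, v) := by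
      intro t ht h0 hv
      obtain ⟨p, hp, hpt⟩ := pt_cov t ht κ h0
      obtain ⟨j, hj, rfl⟩ := List.mem_iff_getElem.mp hp
      refine ⟨⟨j, hj⟩, ?_⟩
      rcases hpt with h6 | h6
      · left
        simp only [Fin.getElem_fin, hE, h6, hv]
      · right
        simp only [Fin.getElem_fin, hE, h6, hv]
    by_cases hv : v = 0
    · have hκ : κ ≠ 0 := by
        rintro rfl
        exact hg (by rw [hv]; rfl)
      obtain ⟨j, hj⟩ := key 0 (by norm_num) (Or.inr hκ) (by simp [hv])
      exact ⟨Sum.inr j, hj⟩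
    · obtain ⟨i, hi⟩ := h1 v hv
      by_cases hi0 : i = i0
      · subst hi0
        rcases hi with hi | hi
        · obtain ⟨j, hj⟩ := key 1 (by norm_num) (Or.inl (by norm_num)) (by rw [← hi, hx]; simp)
          exact ⟨Sum.inr j, hj⟩
        · obtain ⟨j, hj⟩ := key 2 (by norm_num) (Or.inl (by norm_num)) (by rw [← hi, hy]; simp)
          exact ⟨Sum.inr j, hj⟩
      · rcases hi with hi | hi
        · exact ⟨Sum.inl (⟨i, hi0⟩, κ), Or.inl (by simp [hi])⟩
        · obtain ⟨κ', hκ'⟩ := b1.2 κ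
          exact ⟨Sum.inl (⟨i, hi0⟩, κ'), Or.inr (by simp [hi, hκ'])⟩
  · rintro ⟨κ, e⟩ hg
    by_cases he : e = 0
    · have hκ : κ ≠ 0 := by
        rintro rfl
        exact hg (by rw [he]; rfl)
      obtain ⟨p, hp, hp1, hp2⟩ := pt_d0 κ hκ
      obtain ⟨j, hj, rfl⟩ := List.mem_iff_getElem.mp hp
      refine ⟨Sum.inr ⟨j, hj⟩, ?_⟩
      rcases hp2 with h6 | h6
      · left
        simp only [Sum.elim_inr, Fin.getElem_fin, hE, Prod.mk_sub_mk, h6, hp1, sub_self, he]
      · right
        simp only [Sum.elim_inr, Fin.getElem_fin, hE, Prod.mk_sub_mk, h6, hp1, sub_self, he]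
    · have keyd : ∀ κ' : K9, ∃ j : Fin pt.length, E (pt[j]).1 - E (pt[j]).2 = (κ', 1) ∨
          E (pt[j]).2 - E (pt[j]).1 = (κ', 1) := by
        intro κ'
        obtain ⟨p, hp, hp1⟩ := pt_d1 κ'
        obtain ⟨j, hj, rfl⟩ := List.mem_iff_getElem.mp hp
        refine ⟨⟨j, hj⟩, ?_⟩
        rcases hp1 with ⟨h6, h7⟩ | ⟨h6, h7⟩
        · left
          simp only [Fin.getElem_fin, hE, Prod.mk_sub_mk, h6, h7, Nat.cast_add, Nat.cast_one,
            add_sub_cancel_left]
        · right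
          simp only [Fin.getElem_fin, hE, Prod.mk_sub_mk, h6, h7, Nat.cast_add, Nat.cast_one,
            add_sub_cancel_left]
      obtain ⟨i, hi⟩ := h2 e he
      by_cases hi0 : i = i0
      · subst hi0
        rcases hi with hi | hi
        · rw [hx, hy] at hi
          have he1 : e = -1 := by
            rw [← hi]
            ring
          obtain ⟨j, hj⟩ := keyd (-κ)
          refine ⟨Sum.inr j, ?_⟩
          rcases hj with h6 | h6
          · right
            simp only [Sum.elim_inr]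
            rw [← neg_sub, h6, he1]
            simp
          · left
            simp only [Sum.elim_inr]
            rw [← neg_sub, h6, he1]
            simp
        · rw [hx, hy] at hi
          have he1 : e = 1 := by
            rw [← hi]
            ring
          obtain ⟨j, hj⟩ := keyd κ
          refine ⟨Sum.inr j, ?_⟩
          rw [he1]
          exact hj
      · rcases hi with hi | hi
        · obtain ⟨κ', hκ'⟩ := b2.2 (-κ)
          refine ⟨Sum.inl (⟨i, hi0⟩, κ'), Or.inl ?_⟩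
          simp only [Sum.elim_inl, Prod.mk_sub_mk, hi]
          have : κ' - b κ' = κ := by
            rw [← neg_sub]
            change -((fun h => b h - h) κ') = κ
            rw [hκ', neg_neg]
          rw [this]
        · obtain ⟨κ', hκ'⟩ := b2.2 κ
          refine ⟨Sum.inl (⟨i, hi0⟩, κ'), Or.inr ?_⟩
          simp only [Sum.elim_inl, Prod.mk_sub_mk, hi]
          have : b κ' - κ' = κ := hκ'
          rw [this]
  · have hlev : ∀ (i : ι), i ≠ i0 → ∀ j : Fin pt.length,
        x i + y i ≠ (((pt[j]).1.2 + (pt[j]).2.2 : ℕ) : ZMod N) := by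
      intro i hi j he
      rcases pt_l _ (List.getElem_mem j.2) with ⟨h6, _⟩ | h6 | h6 | h6
      · simp only [Fin.getElem_fin, h6] at he
        exact h4 i (by rw [he]; simp)
      · simp only [Fin.getElem_fin, h6] at he
        exact hs1 i (by rw [he]; simp)
      · simp only [Fin.getElem_fin, h6] at he
        apply hi
        apply h3
        simp only [hs3]
        rw [he]
        norm_num
      · simp only [Fin.getElem_fin, h6] at he
        exact hs4 i (by rw [he]; norm_num)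
    rintro (⟨⟨i, hi⟩, κ⟩ | j) (⟨⟨i', hi'⟩, κ'⟩ | j') he
    · simp only [Sum.elim_inl, Prod.mk_add_mk, Prod.mk.injEq] at he
      have e1 := h3 he.2
      subst e1
      have e2 : κ = κ' := by
        apply b3.1
        simp only
        rw [add_comm (b κ), add_comm (b κ')]
        exact he.1
      subst e2
      rfl
    · exfalso
      simp only [Sum.elim_inl, Sum.elim_inr, hE, Prod.mk_add_mk, Prod.mk.injEq] at he
      exact hlev i hi j' (by rw [he.2]; push_cast; rfl)
    · exfalso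
      simp only [Sum.elim_inl, Sum.elim_inr, hE, Prod.mk_add_mk, Prod.mk.injEq] at he
      exact hlev i' hi' j (by rw [← he.2]; push_cast; rfl)
    · simp only [Sum.elim_inr, hE, Prod.mk_add_mk, Prod.mk.injEq] at he
      have hl : ∀ j : Fin pt.length, (pt[j]).1.2 + (pt[j]).2.2 < N := by
        intro j
        rcases pt_l _ (List.getElem_mem j.2) with ⟨h6, _⟩ | h6 | h6 | h6 <;>
          simp only [Fin.getElem_fin, h6] <;> omega
      have e1 : (pt[j]).1.2 + (pt[j]).2.2 = (pt[j']).1.2 + (pt[j']).2.2 := by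
        apply cast_inj (hl j) (hl j')
        push_cast
        exact he.2
      have h7 := (List.nodup_iff_injective_get.mp pt_s)
      have h8 := @h7 ⟨j, by simp⟩ ⟨j', by simp⟩ (by
        simp only [List.get_eq_getElem, List.getElem_map]
        exact Prod.ext he.1 e1)
      have h9 : j = j' := Fin.ext (congrArg (fun z => z.1) h8)
      rw [h9]
  · rintro (⟨⟨i, hi⟩, κ⟩ | j) he
    · simp only [Sum.elim_inl, Prod.mk_add_mk, Prod.mk_eq_zero] at he
      exact h4 i he.2
    · simp only [Sum.elim_inr, hE, Prod.mk_add_mk, Prod.mk_eq_zero] at he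
      have hl : (pt[j]).1.2 + (pt[j]).2.2 = 0 := by
        apply cast_inj (N := N) _ (by omega)
        · push_cast
          exact he.2
        · rcases pt_l _ (List.getElem_mem j.2) with ⟨h6, _⟩ | h6 | h6 | h6 <;>
            simp only [Fin.getElem_fin, h6] <;> omega
      rcases pt_l _ (List.getElem_mem j.2) with ⟨h6, h7⟩ | h6 | h6 | h6
      · exact h7 he.1
      · simp only [Fin.getElem_fin] at hl h6
        omega
      · simp only [Fin.getElem_fin] at hl h6
        omega
      · simp only [Fin.getElem_fin] at hl h6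
        omega
  · have e1 : Nat.card {i // i ≠ i0} + 1 = Nat.card ι := by
      have := Fintype.ofFinite ι
      rw [Nat.card_eq_fintype_card, Nat.card_eq_fintype_card, Fintype.card_subtype_compl,
        Fintype.card_subtype_eq]
      have : 0 < Fintype.card ι := Fintype.card_pos_iff.mpr ⟨i0⟩
      omega
    have e2 : Nat.card K9 = 9 := by
      rw [Nat.card_prod, Nat.card_zmod]
    have e3 : Nat.card (Fin pt.length) = 13 := by
      rw [Nat.card_fin]
      rfl
    rw [Nat.card_sum, Nat.card_prod, e2, e3, Nat.card_prod, e2, Nat.card_zmod]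
    omega

end Pool.Agent.Helper1.Horton
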