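import Mathlib
import Pool.Agent.Helper1.Starter2

set_option autoImplicit false
set_option maxRecDepth 100000

namespace Pool.Agent.Helper1.CycleMagic.Starter

/-- A growing family of strong starters with base order 7 and step 0. -/
def s3 : Fam where
  n0 := 3
  g := 0
  P := ⟨0, fun i => ([] : List ℕ).getD i 0, fun i => ([] : List ℕ).getD i 0⟩
  D := ⟨0, fun i => ([] : List ℕ).getD i 0, fun i => ([] : List ℕ).getD i 0⟩
  S := ⟨0, fun i => ([] : List ℕ).getD i 0, fun i => ([] : List ℕ).getD i 0⟩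
  prs := [⟨1, 3, 2, 0, 4, 0⟩,
    ⟨2, 6, 3, 3, 1, 1⟩,
    ⟨4, 5, 1, 0, 2, 1⟩]
  tys := []

theorem s3_ok : s3.Ok where
  sP := by decide +kernel
  sD := by decide +kernel
  sS := by decide +kernel
  cP := by decide +kernel
  cD := by decide +kernel
  cS := by decide +kernel
  wP := by decide +kernel
  wD := by decide +kernel
  wS := by decide +kernel
  lp := by decide +kernel
  lt := by decide +kernel
  p1 := by decide +kernel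
  p2 := by decide +kernel
  d1 := by decide +kernel
  d2 := by decide +kernel
  bb := by decide +kernel
  s1 := by decide +kernel
  tt := by decide +kernel
  s2 := by decide +kernel

/-- A growing family of strong starters with base order 11 and step 0. -/
def s5 : Fam where
  n0 := 5
  g := 0
  P := ⟨0, fun i => ([] : List ℕ).getD i 0, fun i => ([] : List ℕ).getD i 0⟩
  D := ⟨0, fun i => ([] : List ℕ).getD i 0, fun i => ([] : List ℕ).getD i 0⟩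
  S := ⟨0, fun i => ([] : List ℕ).getD i 0, fun i => ([] : List ℕ).getD i 0⟩
  prs := [⟨1, 2, 1, 0, 3, 0⟩,
    ⟨3, 6, 3, 0, 9, 0⟩,
    ⟨4, 8, 4, 0, 1, 1⟩,
    ⟨5, 10, 5, 0, 4, 1⟩,
    ⟨7, 9, 2, 0, 5, 1⟩]
  tys := []

theorem s5_ok : s5.Ok where
  sP := by decide +kernel
  sD := by decide +kernel
  sS := by decide +kernel
  cP := by decide +kernel
  cD := by decide +kernel
  cS := by decide +kernel
  wP := by decide +kernel
  wD := by decide +kernel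
  wS := by decide +kernel
  lp := by decide +kernel
  lt := by decide +kernel
  p1 := by decide +kernel
  p2 := by decide +kernel
  d1 := by decide +kernel
  d2 := by decide +kernel
  bb := by decide +kernel
  s1 := by decide +kernel
  tt := by decide +kernel
  s2 := by decide +kernel

/-- A growing family of strong starters with base order 13 and step 24. -/
def f6 : Fam where
  n0 := 6
  g := 12
  P := ⟨18, fun i => ([0, 1, 1, 1, 2, 3, 4, 4, 5, 6, 7, 8, 8, 8, 10, 10, 10, 12] : List ℕ).getD i 0, fun i => ([2, 1, 1, 1, 2, 1, 1, 1, 2, 2, 1, 1, 1, 1, 2, 1, 2, 1] : List ℕ).getD i 0⟩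
  D := ⟨10, fun i => ([0, 2, 2, 3, 3, 3, 4, 6, 6, 6] : List ℕ).getD i 0, fun i => ([3, 1, 1, 1, 1, 1, 1, 1, 1, 1] : List ℕ).getD i 0⟩
  S := ⟨14, fun i => ([0, 0, 1, 3, 4, 5, 5, 6, 7, 7, 7, 10, 11, 11] : List ℕ).getD i 0, fun i => ([3, 1, 3, 1, 1, 3, 1, 1, 3, 1, 1, 1, 3, 1] : List ℕ).getD i 0⟩
  prs := [⟨1, 2, 1, 0, 3, 0⟩,
    ⟨3, 6, 3, 0, 9, 0⟩,
    ⟨4, 11, 6, 3, 2, 1⟩,
    ⟨5, 9, 4, 0, 1, 1⟩,
    ⟨7, 12, 5, 0, 6, 1⟩,
    ⟨8, 10, 2, 0, 5, 1⟩]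
  tys := [⟨1, 0, true, 14, 1, true, 5, 0, false, 3, 12, 2, true, 0⟩,
    ⟨2, 0, true, 16, 1, true, 3, 0, false, 3, 0, 0, true, 1⟩,
    ⟨3, 0, true, 8, 0, true, 4, 0, true, 0, 8, 0, true, 0⟩,
    ⟨6, 0, true, 9, 1, true, 2, 0, true, 0, 12, 1, true, 0⟩,
    ⟨7, 0, true, 0, 0, true, 6, 0, false, 1, 5, 0, true, 0⟩,
    ⟨10, 0, true, 0, 1, true, 8, 0, true, 2, 8, 2, true, 0⟩,
    ⟨11, 0, true, 4, 0, true, 7, 0, false, 1, 12, 0, true, 0⟩,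
    ⟨12, 0, true, 9, 0, true, 1, 0, false, 1, 2, 1, true, 1⟩,
    ⟨17, 0, true, 8, 1, true, 9, 0, true, 2, 5, 1, true, 1⟩,
    ⟨5, 0, false, 4, 1, true, 0, 1, false, 1, 7, 0, true, 0⟩,
    ⟨13, 0, false, 14, 0, true, 0, 2, true, 0, 6, 0, true, 1⟩,
    ⟨15, 0, false, 16, 0, true, 0, 0, true, 0, 10, 0, true, 1⟩]

theorem f6_ok : f6.Ok where
  sP := by decide +kernel
  sD := by decide +kernel
  sS := by decide +kernel
  cP := by decide +kernel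
  cD := by decide +kernel
  cS := by decide +kernel
  wP := by decide +kernel
  wD := by decide +kernel
  wS := by decide +kernel
  lp := by decide +kernel
  lt := by decide +kernel
  p1 := by decide +kernel
  p2 := by decide +kernel
  d1 := by decide +kernel
  d2 := by decide +kernel
  bb := by decide +kernel
  s1 := by decide +kernel
  tt := by decide +kernel
  s2 := by decide +kernel

/-- A growing family of strong starters with base order 15 and step 24. -/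
def f7 : Fam where
  n0 := 7
  g := 12
  P := ⟨18, fun i => ([0, 1, 1, 2, 3, 5, 5, 6, 7, 8, 9, 9, 10, 11, 11, 13, 13, 14] : List ℕ).getD i 0, fun i => ([1, 1, 1, 2, 2, 1, 1, 2, 2, 1, 1, 1, 1, 1, 2, 2, 1, 1] : List ℕ).getD i 0⟩
  D := ⟨10, fun i => ([0, 1, 2, 2, 3, 4, 5, 6, 6, 7] : List ℕ).getD i 0, fun i => ([3, 1, 1, 1, 1, 1, 1, 1, 1, 1] : List ℕ).getD i 0⟩
  S := ⟨16, fun i => ([0, 1, 1, 2, 4, 5, 7, 9, 10, 10, 10, 11, 11, 12, 13, 14] : List ℕ).getD i 0, fun i => ([1, 1, 1, 3, 1, 3, 3, 1, 1, 1, 1, 1, 1, 1, 3, 1] : List ℕ).getD i 0⟩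
  prs := [⟨1, 3, 2, 0, 4, 0⟩,
    ⟨2, 9, 7, 0, 11, 0⟩,
    ⟨4, 14, 5, 3, 3, 1⟩,
    ⟨5, 8, 3, 0, 13, 0⟩,
    ⟨6, 10, 4, 0, 1, 1⟩,
    ⟨7, 13, 6, 0, 5, 1⟩,
    ⟨11, 12, 1, 0, 8, 1⟩]
  tys := [⟨9, 0, true, 14, 0, true, 3, 0, true, 0, 5, 0, true, 1⟩,
    ⟨10, 0, true, 15, 0, true, 4, 0, true, 0, 6, 1, true, 1⟩,
    ⟨11, 0, true, 4, 0, true, 7, 0, false, 1, 14, 0, true, 0⟩,
    ⟨12, 0, true, 8, 1, true, 2, 0, false, 1, 3, 2, true, 1⟩,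
    ⟨13, 0, true, 3, 1, true, 8, 0, true, 2, 14, 2, true, 0⟩,
    ⟨17, 0, true, 8, 0, true, 9, 0, false, 1, 6, 0, true, 1⟩,
    ⟨0, 0, true, 3, 0, true, 1, 0, true, 0, 3, 1, true, 0⟩,
    ⟨1, 0, true, 7, 1, true, 6, 0, true, 0, 6, 2, true, 0⟩,
    ⟨2, 0, true, 14, 1, true, 5, 0, false, 3, 14, 1, true, 0⟩,
    ⟨16, 0, false, 15, 1, true, 0, 0, false, 1, 13, 0, true, 1⟩,
    ⟨5, 0, false, 4, 1, true, 0, 2, false, 1, 7, 0, true, 0⟩,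
    ⟨6, 0, false, 7, 0, true, 0, 1, true, 0, 12, 0, true, 0⟩]

theorem f7_ok : f7.Ok where
  sP := by decide +kernel
  sD := by decide +kernel
  sS := by decide +kernel
  cP := by decide +kernel
  cD := by decide +kernel
  cS := by decide +kernel
  wP := by decide +kernel
  wD := by decide +kernel
  wS := by decide +kernel
  lp := by decide +kernel
  lt := by decide +kernel
  p1 := by decide +kernel
  p2 := by decide +kernel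
  d1 := by decide +kernel
  d2 := by decide +kernel
  bb := by decide +kernel
  s1 := by decide +kernel
  tt := by decide +kernel
  s2 := by decide +kernel

/-- A growing family of strong starters with base order 17 and step 24. -/
def f8 : Fam where
  n0 := 8
  g := 12
  P := ⟨18, fun i => ([0, 1, 1, 3, 4, 4, 5, 7, 7, 8, 9, 11, 11, 12, 13, 14, 15, 15] : List ℕ).getD i 0, fun i => ([2, 1, 2, 1, 1, 1, 2, 1, 1, 1, 2, 1, 2, 1, 2, 1, 1, 1] : List ℕ).getD i 0⟩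
  D := ⟨10, fun i => ([1, 2, 2, 3, 4, 4, 5, 5, 7, 8] : List ℕ).getD i 0, fun i => ([3, 1, 1, 1, 1, 1, 1, 1, 1, 1] : List ℕ).getD i 0⟩
  S := ⟨16, fun i => ([0, 0, 0, 1, 2, 2, 4, 5, 7, 7, 7, 10, 12, 12, 12, 14] : List ℕ).getD i 0, fun i => ([1, 1, 1, 1, 1, 1, 3, 1, 3, 1, 1, 3, 1, 1, 1, 3] : List ℕ).getD i 0⟩
  prs := [⟨1, 9, 8, 0, 10, 0⟩,
    ⟨2, 13, 6, 3, 15, 0⟩,
    ⟨3, 6, 3, 0, 9, 0⟩,
    ⟨4, 8, 4, 0, 12, 0⟩,
    ⟨5, 15, 7, 3, 3, 1⟩,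
    ⟨7, 12, 5, 0, 2, 1⟩,
    ⟨10, 11, 1, 0, 4, 1⟩,
    ⟨14, 16, 2, 0, 13, 1⟩]
  tys := [⟨11, 0, true, 14, 1, true, 2, 0, true, 0, 8, 2, true, 1⟩,
    ⟨13, 0, true, 2, 0, true, 7, 0, true, 2, 15, 0, true, 0⟩,
    ⟨15, 0, true, 10, 1, true, 5, 0, false, 1, 8, 1, true, 1⟩,
    ⟨16, 0, true, 6, 1, true, 8, 0, true, 2, 6, 1, true, 1⟩,
    ⟨17, 0, true, 12, 0, true, 4, 0, false, 1, 11, 0, true, 1⟩,
    ⟨3, 0, true, 12, 1, true, 9, 0, true, 0, 15, 2, true, 0⟩,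
    ⟨4, 0, true, 0, 1, true, 3, 0, false, 1, 6, 2, true, 0⟩,
    ⟨5, 0, true, 2, 1, true, 1, 0, false, 1, 8, 0, true, 0⟩,
    ⟨8, 0, true, 14, 0, true, 6, 0, true, 0, 6, 0, true, 1⟩,
    ⟨1, 0, false, 0, 0, true, 0, 1, false, 1, 3, 0, true, 0⟩,
    ⟨7, 0, false, 6, 0, true, 0, 2, false, 1, 13, 0, true, 0⟩,
    ⟨9, 0, false, 10, 0, true, 0, 0, true, 0, 2, 0, true, 1⟩]

theorem f8_ok : f8.Ok where
  sP := by decide +kernel
  sD := by decide +kernel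
  sS := by decide +kernel
  cP := by decide +kernel
  cD := by decide +kernel
  cS := by decide +kernel
  wP := by decide +kernel
  wD := by decide +kernel
  wS := by decide +kernel
  lp := by decide +kernel
  lt := by decide +kernel
  p1 := by decide +kernel
  p2 := by decide +kernel
  d1 := by decide +kernel
  d2 := by decide +kernel
  bb := by decide +kernel
  s1 := by decide +kernel
  tt := by decide +kernel
  s2 := by decide +kernel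

/-- A growing family of strong starters with base order 19 and step 24. -/
def f9 : Fam where
  n0 := 9
  g := 12
  P := ⟨18, fun i => ([0, 1, 2, 2, 3, 4, 5, 7, 7, 9, 10, 12, 13, 14, 14, 15, 16, 18] : List ℕ).getD i 0, fun i => ([2, 1, 1, 1, 1, 1, 2, 2, 1, 1, 2, 2, 1, 1, 1, 1, 1, 2] : List ℕ).getD i 0⟩
  D := ⟨10, fun i => ([0, 2, 3, 4, 4, 4, 6, 7, 8, 8] : List ℕ).getD i 0, fun i => ([3, 1, 1, 1, 1, 1, 1, 1, 1, 1] : List ℕ).getD i 0⟩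
  S := ⟨16, fun i => ([0, 0, 1, 2, 3, 4, 5, 7, 7, 8, 11, 12, 14, 15, 16, 17] : List ℕ).getD i 0, fun i => ([1, 1, 1, 1, 3, 1, 1, 1, 1, 3, 1, 3, 3, 1, 1, 1] : List ℕ).getD i 0⟩
  prs := [⟨1, 16, 4, 3, 17, 0⟩,
    ⟨2, 11, 9, 0, 13, 0⟩,
    ⟨3, 6, 3, 0, 9, 0⟩,
    ⟨4, 18, 5, 3, 3, 1⟩,
    ⟨5, 13, 8, 0, 18, 0⟩,
    ⟨7, 8, 1, 0, 15, 0⟩,
    ⟨9, 15, 6, 0, 5, 1⟩,
    ⟨10, 17, 7, 0, 8, 1⟩,
    ⟨12, 14, 2, 0, 7, 1⟩]
  tys := [⟨12, 0, true, 17, 0, true, 3, 0, true, 0, 11, 1, true, 1⟩,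
    ⟨13, 0, true, 0, 0, true, 4, 0, true, 2, 12, 1, true, 0⟩,
    ⟨14, 0, true, 7, 0, true, 7, 0, false, 1, 4, 0, true, 1⟩,
    ⟨15, 0, true, 11, 0, true, 2, 0, false, 1, 9, 1, true, 1⟩,
    ⟨16, 0, true, 6, 1, true, 8, 0, true, 2, 4, 1, true, 1⟩,
    ⟨2, 0, true, 11, 1, true, 9, 0, false, 3, 12, 2, true, 0⟩,
    ⟨3, 0, true, 6, 0, true, 1, 0, true, 0, 9, 0, true, 0⟩,
    ⟨4, 0, true, 10, 0, true, 6, 0, true, 0, 12, 0, true, 0⟩,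
    ⟨5, 0, true, 17, 1, true, 5, 0, false, 3, 4, 2, true, 1⟩,
    ⟨1, 0, false, 0, 1, true, 0, 1, false, 1, 3, 0, true, 0⟩,
    ⟨8, 0, false, 7, 1, true, 0, 0, false, 1, 13, 0, true, 0⟩,
    ⟨9, 0, false, 10, 1, true, 0, 2, true, 0, 2, 0, true, 1⟩]

theorem f9_ok : f9.Ok where
  sP := by decide +kernel
  sD := by decide +kernel
  sS := by decide +kernel
  cP := by decide +kernel
  cD := by decide +kernel
  cS := by decide +kernel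
  wP := by decide +kernel
  wD := by decide +kernel
  wS := by decide +kernel
  lp := by decide +kernel
  lt := by decide +kernel
  p1 := by decide +kernel
  p2 := by decide +kernel
  d1 := by decide +kernel
  d2 := by decide +kernel
  bb := by decide +kernel
  s1 := by decide +kernel
  tt := by decide +kernel
  s2 := by decide +kernel

/-- A growing family of strong starters with base order 21 and step 24. -/
def f10 : Fam where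
  n0 := 10
  g := 12
  P := ⟨18, fun i => ([0, 2, 3, 3, 5, 5, 6, 8, 10, 11, 12, 13, 14, 15, 16, 17, 17, 20] : List ℕ).getD i 0, fun i => ([2, 1, 1, 1, 1, 1, 2, 2, 1, 1, 2, 2, 1, 1, 1, 1, 1, 2] : List ℕ).getD i 0⟩
  D := ⟨10, fun i => ([1, 3, 4, 6, 6, 6, 7, 8, 9, 10] : List ℕ).getD i 0, fun i => ([3, 1, 1, 1, 1, 1, 1, 1, 1, 1] : List ℕ).getD i 0⟩
  S := ⟨16, fun i => ([0, 1, 2, 2, 3, 6, 6, 9, 10, 10, 11, 14, 17, 19, 19, 19] : List ℕ).getD i 0, fun i => ([1, 1, 1, 1, 3, 1, 1, 1, 1, 3, 1, 3, 3, 1, 1, 1] : List ℕ).getD i 0⟩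
  prs := [⟨1, 2, 1, 0, 3, 0⟩,
    ⟨3, 19, 5, 3, 1, 1⟩,
    ⟨4, 16, 9, 3, 20, 0⟩,
    ⟨5, 12, 7, 0, 17, 0⟩,
    ⟨6, 10, 4, 0, 16, 0⟩,
    ⟨7, 18, 10, 3, 4, 1⟩,
    ⟨8, 11, 3, 0, 19, 0⟩,
    ⟨9, 17, 8, 0, 5, 1⟩,
    ⟨13, 15, 2, 0, 7, 1⟩,
    ⟨14, 20, 6, 0, 13, 1⟩]
  tys := [⟨12, 0, true, 17, 1, true, 3, 0, true, 0, 11, 1, true, 1⟩,
    ⟨13, 0, true, 0, 1, true, 4, 0, true, 2, 12, 0, true, 0⟩,
    ⟨14, 0, true, 7, 0, true, 7, 0, false, 1, 4, 1, true, 1⟩,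
    ⟨15, 0, true, 11, 0, true, 2, 0, false, 1, 9, 0, true, 1⟩,
    ⟨16, 0, true, 6, 0, true, 8, 0, true, 2, 4, 0, true, 1⟩,
    ⟨2, 0, true, 11, 1, true, 9, 0, false, 3, 12, 1, true, 0⟩,
    ⟨3, 0, true, 6, 1, true, 1, 0, true, 0, 9, 1, true, 0⟩,
    ⟨4, 0, true, 10, 1, true, 6, 0, true, 0, 12, 2, true, 0⟩,
    ⟨5, 0, true, 17, 0, true, 5, 0, false, 3, 4, 2, true, 1⟩,
    ⟨1, 0, false, 0, 0, true, 0, 2, false, 1, 3, 0, true, 0⟩,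
    ⟨8, 0, false, 7, 1, true, 0, 1, false, 1, 13, 0, true, 0⟩,
    ⟨9, 0, false, 10, 0, true, 0, 0, true, 0, 2, 0, true, 1⟩]

theorem f10_ok : f10.Ok where
  sP := by decide +kernel
  sD := by decide +kernel
  sS := by decide +kernel
  cP := by decide +kernel
  cD := by decide +kernel
  cS := by decide +kernel
  wP := by decide +kernel
  wD := by decide +kernel
  wS := by decide +kernel
  lp := by decide +kernel
  lt := by decide +kernel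
  p1 := by decide +kernel
  p2 := by decide +kernel
  d1 := by decide +kernel
  d2 := by decide +kernel
  bb := by decide +kernel
  s1 := by decide +kernel
  tt := by decide +kernel
  s2 := by decide +kernel

/-- A growing family of strong starters with base order 23 and step 24. -/
def f11 : Fam where
  n0 := 11
  g := 12
  P := ⟨18, fun i => ([1, 3, 4, 5, 6, 6, 9, 9, 12, 12, 14, 16, 17, 18, 19, 20, 21, 22] : List ℕ).getD i 0, fun i => ([2, 1, 1, 1, 1, 1, 2, 2, 1, 1, 2, 2, 1, 1, 1, 1, 1, 2] : List ℕ).getD i 0⟩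
  D := ⟨10, fun i => ([2, 4, 4, 5, 5, 7, 7, 9, 10, 10] : List ℕ).getD i 0, fun i => ([3, 1, 1, 1, 1, 1, 1, 1, 1, 1] : List ℕ).getD i 0⟩
  S := ⟨16, fun i => ([1, 1, 4, 5, 6, 8, 9, 11, 12, 14, 14, 17, 20, 21, 22, 22] : List ℕ).getD i 0, fun i => ([1, 1, 1, 1, 3, 1, 1, 1, 1, 3, 1, 3, 3, 1, 1, 1] : List ℕ).getD i 0⟩
  prs := [⟨1, 16, 8, 3, 17, 0⟩,
    ⟨2, 19, 6, 3, 21, 0⟩,
    ⟨3, 8, 5, 0, 11, 0⟩,
    ⟨4, 15, 11, 0, 19, 0⟩,
    ⟨5, 9, 4, 0, 14, 0⟩,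
    ⟨6, 22, 7, 3, 5, 1⟩,
    ⟨7, 17, 10, 0, 1, 1⟩,
    ⟨10, 12, 2, 0, 22, 0⟩,
    ⟨11, 20, 9, 0, 8, 1⟩,
    ⟨13, 14, 1, 0, 4, 1⟩,
    ⟨18, 21, 3, 0, 16, 1⟩]
  tys := [⟨12, 0, true, 17, 1, true, 3, 0, true, 0, 11, 1, true, 1⟩,
    ⟨13, 0, true, 0, 0, true, 4, 0, true, 2, 12, 0, true, 0⟩,
    ⟨14, 0, true, 7, 1, true, 7, 0, false, 1, 4, 1, true, 1⟩,
    ⟨15, 0, true, 11, 0, true, 2, 0, false, 1, 9, 0, true, 1⟩,
    ⟨16, 0, true, 6, 0, true, 8, 0, true, 2, 4, 2, true, 1⟩,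
    ⟨2, 0, true, 11, 1, true, 9, 0, false, 3, 12, 2, true, 0⟩,
    ⟨3, 0, true, 6, 1, true, 1, 0, true, 0, 9, 2, true, 0⟩,
    ⟨4, 0, true, 10, 0, true, 6, 0, true, 0, 12, 1, true, 0⟩,
    ⟨5, 0, true, 17, 0, true, 5, 0, false, 3, 4, 0, true, 1⟩,
    ⟨1, 0, false, 0, 1, true, 0, 0, false, 1, 3, 0, true, 0⟩,
    ⟨8, 0, false, 7, 0, true, 0, 2, false, 1, 13, 0, true, 0⟩,
    ⟨9, 0, false, 10, 1, true, 0, 1, true, 0, 2, 0, true, 1⟩]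

theorem f11_ok : f11.Ok where
  sP := by decide +kernel
  sD := by decide +kernel
  sS := by decide +kernel
  cP := by decide +kernel
  cD := by decide +kernel
  cS := by decide +kernel
  wP := by decide +kernel
  wD := by decide +kernel
  wS := by decide +kernel
  lp := by decide +kernel
  lt := by decide +kernel
  p1 := by decide +kernel
  p2 := by decide +kernel
  d1 := by decide +kernel
  d2 := by decide +kernel
  bb := by decide +kernel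
  s1 := by decide +kernel
  tt := by decide +kernel
  s2 := by decide +kernel

/-- A growing family of strong starters with base order 25 and step 24. -/
def f12 : Fam where
  n0 := 12
  g := 12
  P := ⟨18, fun i => ([2, 2, 3, 4, 5, 8, 8, 11, 11, 11, 15, 15, 17, 18, 20, 22, 22, 23] : List ℕ).getD i 0, fun i => ([1, 2, 1, 1, 1, 2, 2, 1, 1, 1, 1, 2, 1, 2, 1, 2, 1, 1] : List ℕ).getD i 0⟩
  D := ⟨10, fun i => ([0, 2, 3, 4, 6, 6, 8, 8, 11, 12] : List ℕ).getD i 0, fun i => ([3, 1, 1, 1, 1, 1, 1, 1, 1, 1] : List ℕ).getD i 0⟩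
  S := ⟨14, fun i => ([1, 2, 5, 5, 10, 10, 10, 11, 13, 14, 18, 18, 21, 24] : List ℕ).getD i 0, fun i => ([1, 3, 1, 1, 3, 1, 1, 1, 3, 1, 3, 1, 3, 1] : List ℕ).getD i 0⟩
  prs := [⟨1, 6, 5, 0, 7, 0⟩,
    ⟨2, 8, 6, 0, 10, 0⟩,
    ⟨3, 13, 10, 0, 16, 0⟩,
    ⟨4, 22, 7, 3, 1, 1⟩,
    ⟨5, 9, 4, 0, 14, 0⟩,
    ⟨7, 20, 12, 3, 2, 1⟩,
    ⟨10, 21, 11, 0, 6, 1⟩,
    ⟨11, 12, 1, 0, 23, 0⟩,
    ⟨14, 23, 9, 0, 12, 1⟩,
    ⟨15, 18, 3, 0, 8, 1⟩,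
    ⟨16, 24, 8, 0, 15, 1⟩,
    ⟨17, 19, 2, 0, 11, 1⟩]
  tys := [⟨16, 0, true, 11, 1, true, 5, 0, false, 1, 8, 1, true, 1⟩,
    ⟨17, 0, true, 13, 1, true, 3, 0, false, 1, 10, 0, true, 1⟩,
    ⟨0, 0, true, 5, 1, true, 4, 0, true, 0, 4, 2, true, 0⟩,
    ⟨3, 0, true, 6, 0, true, 2, 0, true, 0, 8, 0, true, 0⟩,
    ⟨4, 0, true, 15, 0, true, 6, 0, false, 3, 1, 1, true, 1⟩,
    ⟨7, 0, true, 15, 1, true, 8, 0, true, 0, 4, 0, true, 1⟩,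
    ⟨8, 0, true, 1, 1, true, 7, 0, false, 1, 8, 2, true, 0⟩,
    ⟨9, 0, true, 6, 1, true, 1, 0, false, 1, 12, 0, true, 0⟩,
    ⟨14, 0, true, 5, 0, true, 9, 0, true, 2, 1, 2, true, 1⟩,
    ⟨2, 0, false, 1, 0, true, 0, 2, false, 1, 3, 0, true, 0⟩,
    ⟨10, 0, false, 11, 0, true, 0, 0, true, 0, 2, 0, true, 1⟩,
    ⟨12, 0, false, 13, 0, true, 0, 1, true, 0, 6, 0, true, 1⟩]

theorem f12_ok : f12.Ok where
  sP := by decide +kernel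
  sD := by decide +kernel
  sS := by decide +kernel
  cP := by decide +kernel
  cD := by decide +kernel
  cS := by decide +kernel
  wP := by decide +kernel
  wD := by decide +kernel
  wS := by decide +kernel
  lp := by decide +kernel
  lt := by decide +kernel
  p1 := by decide +kernel
  p2 := by decide +kernel
  d1 := by decide +kernel
  d2 := by decide +kernel
  bb := by decide +kernel
  s1 := by decide +kernel
  tt := by decide +kernel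
  s2 := by decide +kernel

/-- A growing family of strong starters with base order 27 and step 24. -/
def f13 : Fam where
  n0 := 13
  g := 12
  P := ⟨18, fun i => ([0, 2, 3, 4, 6, 8, 11, 11, 12, 13, 16, 18, 19, 20, 22, 23, 25, 25] : List ℕ).getD i 0, fun i => ([1, 2, 1, 2, 1, 2, 1, 1, 1, 2, 1, 2, 1, 1, 1, 2, 1, 1] : List ℕ).getD i 0⟩
  D := ⟨10, fun i => ([2, 4, 5, 6, 8, 8, 9, 12, 12, 12] : List ℕ).getD i 0, fun i => ([3, 1, 1, 1, 1, 1, 1, 1, 1, 1] : List ℕ).getD i 0⟩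
  S := ⟨16, fun i => ([0, 1, 2, 2, 4, 7, 7, 10, 13, 13, 13, 17, 19, 21, 22, 25] : List ℕ).getD i 0, fun i => ([1, 1, 1, 1, 1, 1, 3, 1, 3, 1, 1, 3, 1, 1, 1, 3] : List ℕ).getD i 0⟩
  prs := [⟨1, 4, 3, 0, 5, 0⟩,
    ⟨2, 11, 9, 0, 13, 0⟩,
    ⟨3, 20, 10, 3, 23, 0⟩,
    ⟨5, 9, 4, 0, 14, 0⟩,
    ⟨6, 18, 12, 0, 24, 0⟩,
    ⟨7, 13, 6, 0, 20, 0⟩,
    ⟨8, 21, 13, 0, 2, 1⟩,
    ⟨10, 26, 11, 3, 9, 1⟩,
    ⟨12, 19, 7, 0, 4, 1⟩,
    ⟨14, 16, 2, 0, 3, 1⟩,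
    ⟨15, 23, 8, 0, 11, 1⟩,
    ⟨17, 22, 5, 0, 12, 1⟩,
    ⟨24, 25, 1, 0, 22, 1⟩]
  tys := [⟨2, 0, true, 5, 1, true, 2, 0, true, 0, 8, 0, true, 0⟩,
    ⟨4, 0, true, 11, 1, true, 7, 0, true, 0, 15, 1, true, 0⟩,
    ⟨6, 0, true, 1, 1, true, 5, 0, false, 1, 8, 2, true, 0⟩,
    ⟨7, 0, true, 15, 1, true, 8, 0, true, 0, 6, 2, true, 1⟩,
    ⟨8, 0, true, 3, 0, true, 4, 0, false, 1, 11, 0, true, 0⟩,
    ⟨12, 0, true, 3, 1, true, 9, 0, true, 2, 15, 0, true, 0⟩,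
    ⟨13, 0, true, 9, 1, true, 3, 0, false, 1, 6, 1, true, 1⟩,
    ⟨14, 0, true, 11, 0, true, 1, 0, false, 1, 8, 1, true, 1⟩,
    ⟨17, 0, true, 5, 0, true, 6, 0, true, 2, 6, 0, true, 1⟩,
    ⟨10, 0, false, 9, 0, true, 0, 2, false, 1, 3, 0, true, 1⟩,
    ⟨16, 0, false, 15, 0, true, 0, 1, false, 1, 13, 0, true, 1⟩,
    ⟨0, 0, false, 1, 0, true, 0, 0, true, 0, 2, 0, true, 0⟩]

theorem f13_ok : f13.Ok where
  sP := by decide +kernel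
  sD := by decide +kernel
  sS := by decide +kernel
  cP := by decide +kernel
  cD := by decide +kernel
  cS := by decide +kernel
  wP := by decide +kernel
  wD := by decide +kernel
  wS := by decide +kernel
  lp := by decide +kernel
  lt := by decide +kernel
  p1 := by decide +kernel
  p2 := by decide +kernel
  d1 := by decide +kernel
  d2 := by decide +kernel
  bb := by decide +kernel
  s1 := by decide +kernel
  tt := by decide +kernel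
  s2 := by decide +kernel

/-- A growing family of strong starters with base order 29 and step 24. -/
def f14 : Fam where
  n0 := 14
  g := 12
  P := ⟨18, fun i => ([0, 2, 5, 5, 5, 8, 9, 10, 12, 13, 16, 19, 19, 21, 21, 24, 25, 28] : List ℕ).getD i 0, fun i => ([1, 2, 1, 1, 1, 1, 1, 2, 1, 2, 1, 1, 2, 1, 1, 2, 1, 2] : List ℕ).getD i 0⟩
  D := ⟨10, fun i => ([0, 4, 5, 6, 7, 9, 10, 11, 12, 14] : List ℕ).getD i 0, fun i => ([3, 1, 1, 1, 1, 1, 1, 1, 1, 1] : List ℕ).getD i 0⟩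
  S := ⟨16, fun i => ([1, 4, 5, 6, 9, 10, 11, 13, 13, 14, 18, 22, 22, 24, 25, 28] : List ℕ).getD i 0, fun i => ([1, 3, 1, 1, 1, 1, 3, 1, 1, 3, 1, 1, 1, 3, 1, 1] : List ℕ).getD i 0⟩
  prs := [⟨1, 27, 3, 3, 28, 0⟩,
    ⟨2, 9, 7, 0, 11, 0⟩,
    ⟨3, 15, 12, 0, 18, 0⟩,
    ⟨4, 18, 14, 0, 22, 0⟩,
    ⟨5, 28, 6, 3, 4, 1⟩,
    ⟨6, 11, 5, 0, 17, 0⟩,
    ⟨7, 16, 9, 0, 23, 0⟩,
    ⟨8, 24, 13, 3, 3, 1⟩,
    ⟨10, 21, 11, 0, 2, 1⟩,
    ⟨12, 14, 2, 0, 26, 0⟩,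
    ⟨13, 23, 10, 0, 7, 1⟩,
    ⟨17, 25, 8, 0, 13, 1⟩,
    ⟨19, 20, 1, 0, 10, 1⟩,
    ⟨22, 26, 4, 0, 19, 1⟩]
  tys := [⟨14, 0, true, 1, 0, true, 5, 0, true, 2, 13, 0, true, 0⟩,
    ⟨16, 0, true, 9, 1, true, 7, 0, false, 1, 6, 0, true, 1⟩,
    ⟨2, 0, true, 17, 1, true, 2, 0, false, 3, 1, 2, true, 1⟩,
    ⟨3, 0, true, 12, 1, true, 9, 0, true, 0, 13, 2, true, 0⟩,
    ⟨4, 0, true, 7, 0, true, 1, 0, true, 0, 9, 2, true, 0⟩,
    ⟨5, 0, true, 15, 1, true, 8, 0, false, 3, 1, 1, true, 1⟩,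
    ⟨6, 0, true, 1, 1, true, 3, 0, false, 1, 6, 2, true, 0⟩,
    ⟨10, 0, true, 15, 0, true, 4, 0, true, 0, 6, 1, true, 1⟩,
    ⟨13, 0, true, 7, 1, true, 6, 0, false, 1, 1, 0, true, 1⟩,
    ⟨0, 0, false, 17, 0, true, 0, 2, false, 3, 15, 0, true, 0⟩,
    ⟨8, 0, false, 9, 0, true, 0, 1, true, 0, 14, 0, true, 0⟩,
    ⟨11, 0, false, 12, 0, true, 0, 0, true, 0, 4, 0, true, 1⟩]

theorem f14_ok : f14.Ok where
  sP := by decide +kernel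
  sD := by decide +kernel
  sS := by decide +kernel
  cP := by decide +kernel
  cD := by decide +kernel
  cS := by decide +kernel
  wP := by decide +kernel
  wD := by decide +kernel
  wS := by decide +kernel
  lp := by decide +kernel
  lt := by decide +kernel
  p1 := by decide +kernel
  p2 := by decide +kernel
  d1 := by decide +kernel
  d2 := by decide +kernel
  bb := by decide +kernel
  s1 := by decide +kernel
  tt := by decide +kernel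
  s2 := by decide +kernel

/-- A growing family of strong starters with base order 31 and step 24. -/
def f15 : Fam where
  n0 := 15
  g := 12
  P := ⟨18, fun i => ([0, 2, 5, 7, 8, 9, 10, 12, 14, 17, 18, 20, 20, 22, 24, 25, 28, 30] : List ℕ).getD i 0, fun i => ([1, 2, 2, 1, 1, 1, 1, 1, 2, 2, 1, 1, 1, 1, 1, 2, 2, 1] : List ℕ).getD i 0⟩
  D := ⟨10, fun i => ([1, 4, 5, 6, 8, 9, 10, 12, 13, 14] : List ℕ).getD i 0, fun i => ([3, 1, 1, 1, 1, 1, 1, 1, 1, 1] : List ℕ).getD i 0⟩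
  S := ⟨16, fun i => ([2, 2, 3, 5, 7, 10, 11, 11, 12, 15, 17, 21, 25, 28, 28, 29] : List ℕ).getD i 0, fun i => ([1, 1, 1, 1, 3, 1, 1, 1, 1, 3, 1, 3, 3, 1, 1, 1] : List ℕ).getD i 0⟩
  prs := [⟨1, 13, 12, 0, 14, 0⟩,
    ⟨2, 8, 6, 0, 10, 0⟩,
    ⟨3, 27, 7, 3, 30, 0⟩,
    ⟨4, 20, 15, 3, 24, 0⟩,
    ⟨5, 28, 8, 3, 2, 1⟩,
    ⟨6, 11, 5, 0, 17, 0⟩,
    ⟨7, 25, 13, 3, 1, 1⟩,
    ⟨9, 18, 9, 0, 27, 0⟩,
    ⟨10, 30, 11, 3, 9, 1⟩,
    ⟨12, 16, 4, 0, 28, 0⟩,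
    ⟨14, 24, 10, 0, 7, 1⟩,
    ⟨15, 29, 14, 0, 13, 1⟩,
    ⟨17, 19, 2, 0, 5, 1⟩,
    ⟨21, 22, 1, 0, 12, 1⟩,
    ⟨23, 26, 3, 0, 18, 1⟩]
  tys := [⟨3, 0, true, 8, 0, true, 3, 0, true, 0, 11, 1, true, 0⟩,
    ⟨4, 0, true, 9, 0, true, 4, 0, true, 0, 12, 1, true, 0⟩,
    ⟨5, 0, true, 16, 0, true, 7, 0, false, 3, 4, 0, true, 1⟩,
    ⟨6, 0, true, 2, 0, true, 2, 0, false, 1, 9, 1, true, 0⟩,
    ⟨7, 0, true, 15, 1, true, 8, 0, true, 0, 4, 1, true, 1⟩,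
    ⟨11, 0, true, 2, 1, true, 9, 0, false, 1, 12, 2, true, 0⟩,
    ⟨12, 0, true, 15, 0, true, 1, 0, true, 0, 9, 0, true, 1⟩,
    ⟨13, 0, true, 1, 0, true, 6, 0, true, 2, 12, 0, true, 0⟩,
    ⟨14, 0, true, 8, 1, true, 5, 0, false, 1, 4, 2, true, 1⟩,
    ⟨10, 0, false, 9, 1, true, 0, 0, false, 1, 3, 0, true, 1⟩,
    ⟨17, 0, false, 16, 1, true, 0, 1, false, 1, 13, 0, true, 1⟩,
    ⟨0, 0, false, 1, 1, true, 0, 2, true, 0, 2, 0, true, 0⟩]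

theorem f15_ok : f15.Ok where
  sP := by decide +kernel
  sD := by decide +kernel
  sS := by decide +kernel
  cP := by decide +kernel
  cD := by decide +kernel
  cS := by decide +kernel
  wP := by decide +kernel
  wD := by decide +kernel
  wS := by decide +kernel
  lp := by decide +kernel
  lt := by decide +kernel
  p1 := by decide +kernel
  p2 := by decide +kernel
  d1 := by decide +kernel
  d2 := by decide +kernel
  bb := by decide +kernel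
  s1 := by decide +kernel
  tt := by decide +kernel
  s2 := by decide +kernel

/-- A growing family of strong starters with base order 33 and step 24. -/
def f16 : Fam where
  n0 := 16
  g := 12
  P := ⟨18, fun i => ([1, 3, 5, 7, 9, 10, 12, 15, 17, 18, 21, 22, 24, 26, 28, 30, 30, 31] : List ℕ).getD i 0, fun i => ([2, 1, 1, 2, 1, 1, 2, 2, 1, 2, 1, 1, 1, 1, 2, 1, 1, 1] : List ℕ).getD i 0⟩
  D := ⟨10, fun i => ([2, 5, 6, 7, 9, 10, 11, 13, 15, 16] : List ℕ).getD i 0, fun i => ([3, 1, 1, 1, 1, 1, 1, 1, 1, 1] : List ℕ).getD i 0⟩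
  S := ⟨16, fun i => ([0, 2, 5, 5, 5, 6, 8, 11, 15, 17, 22, 23, 24, 27, 27, 31] : List ℕ).getD i 0, fun i => ([1, 1, 1, 1, 1, 1, 1, 3, 1, 3, 1, 1, 3, 1, 1, 3] : List ℕ).getD i 0⟩
  prs := [⟨1, 29, 5, 3, 30, 0⟩,
    ⟨2, 17, 15, 0, 19, 0⟩,
    ⟨3, 12, 9, 0, 15, 0⟩,
    ⟨4, 25, 12, 3, 29, 0⟩,
    ⟨5, 22, 16, 3, 27, 0⟩,
    ⟨6, 14, 8, 0, 20, 0⟩,
    ⟨7, 10, 3, 0, 17, 0⟩,
    ⟨8, 18, 10, 0, 26, 0⟩,
    ⟨9, 15, 6, 0, 24, 0⟩,
    ⟨11, 24, 13, 0, 2, 1⟩,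
    ⟨13, 32, 14, 3, 12, 1⟩,
    ⟨16, 23, 7, 0, 6, 1⟩,
    ⟨19, 21, 2, 0, 7, 1⟩,
    ⟨20, 31, 11, 0, 18, 1⟩,
    ⟨26, 30, 4, 0, 23, 1⟩,
    ⟨27, 28, 1, 0, 22, 1⟩]
  tys := [⟨11, 0, true, 14, 0, true, 1, 0, true, 0, 9, 1, true, 1⟩,
    ⟨12, 0, true, 3, 1, true, 9, 0, true, 2, 15, 2, true, 0⟩,
    ⟨15, 0, true, 7, 0, true, 8, 0, false, 1, 7, 2, true, 1⟩,
    ⟨16, 0, true, 9, 1, true, 6, 0, false, 1, 9, 0, true, 1⟩,
    ⟨17, 0, true, 6, 0, true, 7, 0, true, 2, 7, 0, true, 1⟩,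
    ⟨2, 0, true, 6, 1, true, 3, 0, true, 0, 9, 2, true, 0⟩,
    ⟨4, 0, true, 7, 1, true, 2, 0, true, 0, 12, 2, true, 0⟩,
    ⟨5, 0, true, 0, 0, true, 4, 0, false, 1, 7, 1, true, 0⟩,
    ⟨8, 0, true, 3, 0, true, 5, 0, false, 1, 12, 1, true, 0⟩,
    ⟨13, 0, false, 14, 1, true, 0, 1, true, 0, 10, 0, true, 1⟩,
    ⟨1, 0, false, 0, 1, true, 0, 0, false, 1, 3, 0, true, 0⟩,
    ⟨10, 0, false, 9, 0, true, 0, 2, false, 1, 5, 0, true, 1⟩]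

theorem f16_ok : f16.Ok where
  sP := by decide +kernel
  sD := by decide +kernel
  sS := by decide +kernel
  cP := by decide +kernel
  cD := by decide +kernel
  cS := by decide +kernel
  wP := by decide +kernel
  wD := by decide +kernel
  wS := by decide +kernel
  lp := by decide +kernel
  lt := by decide +kernel
  p1 := by decide +kernel
  p2 := by decide +kernel
  d1 := by decide +kernel
  d2 := by decide +kernel
  bb := by decide +kernel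
  s1 := by decide +kernel
  tt := by decide +kernel
  s2 := by decide +kernel

/-- A growing family of strong starters with base order 35 and step 24. -/
def f17 : Fam where
  n0 := 17
  g := 12
  P := ⟨18, fun i => ([2, 3, 5, 7, 9, 11, 12, 14, 17, 20, 22, 22, 23, 27, 28, 31, 32, 34] : List ℕ).getD i 0, fun i => ([1, 1, 1, 2, 1, 1, 1, 2, 2, 1, 1, 1, 1, 2, 1, 2, 1, 2] : List ℕ).getD i 0⟩
  D := ⟨10, fun i => ([3, 4, 5, 7, 8, 10, 13, 14, 14, 17] : List ℕ).getD i 0, fun i => ([3, 1, 1, 1, 1, 1, 1, 1, 1, 1] : List ℕ).getD i 0⟩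
  S := ⟨14, fun i => ([5, 7, 10, 11, 16, 16, 19, 24, 25, 27, 29, 33, 34, 34] : List ℕ).getD i 0, fun i => ([3, 1, 1, 3, 1, 1, 3, 1, 1, 1, 3, 1, 3, 1] : List ℕ).getD i 0⟩
  prs := [⟨1, 14, 13, 0, 15, 0⟩,
    ⟨2, 22, 15, 3, 24, 0⟩,
    ⟨3, 20, 17, 0, 23, 0⟩,
    ⟨4, 34, 5, 3, 3, 1⟩,
    ⟨5, 13, 8, 0, 18, 0⟩,
    ⟨6, 15, 9, 0, 21, 0⟩,
    ⟨7, 26, 16, 3, 33, 0⟩,
    ⟨8, 9, 1, 0, 17, 0⟩,
    ⟨10, 33, 12, 3, 8, 1⟩,
    ⟨11, 21, 10, 0, 32, 0⟩,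
    ⟨12, 18, 6, 0, 30, 0⟩,
    ⟨16, 30, 14, 0, 11, 1⟩,
    ⟨17, 28, 11, 0, 10, 1⟩,
    ⟨19, 23, 4, 0, 7, 1⟩,
    ⟨24, 27, 3, 0, 16, 1⟩,
    ⟨25, 32, 7, 0, 22, 1⟩,
    ⟨29, 31, 2, 0, 25, 1⟩]
  tys := [⟨0, 0, true, 13, 0, true, 5, 0, false, 3, 10, 1, true, 0⟩,
    ⟨1, 0, true, 15, 0, true, 3, 0, false, 3, 12, 1, true, 0⟩,
    ⟨2, 0, true, 7, 0, true, 4, 0, true, 0, 6, 1, true, 0⟩,
    ⟨5, 0, true, 8, 0, true, 2, 0, true, 0, 10, 0, true, 0⟩,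
    ⟨6, 0, true, 17, 0, true, 6, 0, false, 3, 3, 1, true, 1⟩,
    ⟨9, 0, true, 17, 1, true, 8, 0, true, 0, 6, 2, true, 1⟩,
    ⟨10, 0, true, 3, 1, true, 7, 0, false, 1, 10, 2, true, 0⟩,
    ⟨11, 0, true, 8, 1, true, 1, 0, false, 1, 0, 1, true, 1⟩,
    ⟨16, 0, true, 7, 1, true, 9, 0, true, 2, 3, 2, true, 1⟩,
    ⟨4, 0, false, 3, 0, true, 0, 0, false, 1, 5, 0, true, 0⟩,
    ⟨12, 0, false, 13, 1, true, 0, 2, true, 0, 4, 0, true, 1⟩,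
    ⟨14, 0, false, 15, 1, true, 0, 1, true, 0, 8, 0, true, 1⟩]

theorem f17_ok : f17.Ok where
  sP := by decide +kernel
  sD := by decide +kernel
  sS := by decide +kernel
  cP := by decide +kernel
  cD := by decide +kernel
  cS := by decide +kernel
  wP := by decide +kernel
  wD := by decide +kernel
  wS := by decide +kernel
  lp := by decide +kernel
  lt := by decide +kernel
  p1 := by decide +kernel
  p2 := by decide +kernel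
  d1 := by decide +kernel
  d2 := by decide +kernel
  bb := by decide +kernel
  s1 := by decide +kernel
  tt := by decide +kernel
  s2 := by decide +kernel

end Pool.Agent.Helper1.CycleMagic.Starter
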