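import Mathlib
import Pool.Agent.Helper1.Starter3
import Pool.Agent.Helper1.Starter4

set_option autoImplicit false
set_option synthInstance.maxSize 100000
set_option synthInstance.maxHeartbeats 4000000

namespace Pool.Agent.Helper1.CycleMagic.Starter

/-- Condition on a partner `a` of `v`. -/
def R1 {N : ℕ} (v a : ZMod N) : Prop := a ≠ 0 ∧ a ≠ v ∧ v + a ≠ 0

/-- Condition on partners `a`, `b` of different `v`, `w`. -/
def R2 {N : ℕ} (v a w b : ZMod N) : Prop :=
  (a = w ↔ b = v) ∧ a ≠ b ∧ (a ≠ w → v - a ≠ w - b ∧ v - a ≠ b - w ∧ v + a ≠ w + b)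

instance {N : ℕ} (v a : ZMod N) : Decidable (R1 v a) := by
  unfold R1
  infer_instance

instance {N : ℕ} (v a w b : ZMod N) : Decidable (R2 v a w b) := by
  unfold R2
  infer_instance

theorem Good.partner {N : ℕ} (h : Good N) :
    ∃ q : ZMod N → ZMod N, (∀ v, v ≠ 0 → R1 v (q v)) ∧
      ∀ v w, v ≠ 0 → w ≠ 0 → v ≠ w → R2 v (q v) w (q w) := by
  classical
  obtain ⟨M, c, hc, hu, hl, hp, hv⟩ := h
  have ex : ∀ v : ZMod N, ∃ w, v ≠ 0 → M.Adj (c + v) (c + w) := by
    intro v
    by_cases hv0 : v = 0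
    · exact ⟨0, fun h => absurd hv0 h⟩
    · obtain ⟨w, hw, _⟩ := hu (c + v) (by simpa using hv0)
      refine ⟨w - c, fun _ => ?_⟩
      have : c + (w - c) = w := by ring
      rw [this]
      exact hw
  choose q hq using ex
  have q0 : ∀ v, v ≠ 0 → q v ≠ 0 := by
    intro v hv0 h0
    have h1 := hq v hv0
    rw [h0, add_zero] at h1
    exact hc _ h1.symm
  have uniq : ∀ v w, v ≠ 0 → M.Adj (c + v) (c + w) → w = q v := by
    intro v w hv0 h1
    have h2 := (hu (c + v) (by simpa using hv0)).unique h1 (hq v hv0)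
    exact add_left_cancel h2
  have qq : ∀ v, v ≠ 0 → q (q v) = v := by
    intro v hv0
    exact (uniq (q v) v (q0 v hv0) (hq v hv0).symm).symm
  refine ⟨q, ?_, ?_⟩
  · intro v hv0
    refine ⟨q0 v hv0, ?_, ?_⟩
    · intro h1
      have h2 := hq v hv0
      rw [h1] at h2
      exact M.loopless.irrefl _ h2
    · intro h1
      refine hv _ _ (hq v hv0) ?_
      have e1 : q v = -v := by linear_combination h1
      have e2 : c + v - c = v := by ring
      have e3 : c - (c + v) = -v := by ring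
      have e4 : c + q v - c = -v := by rw [e1]; ring
      have e5 : c - (c + q v) = v := by rw [e1]; ring
      rw [e2, e3, e4, e5, min_comm]
  · intro v w hv0 hw0 hvw
    refine ⟨⟨?_, ?_⟩, ?_, ?_⟩
    · intro h1
      rw [← h1]
      exact qq v hv0
    · intro h1
      rw [← h1]
      exact qq w hw0
    · intro h1
      apply hvw
      rw [← qq v hv0, ← qq w hw0, h1]
    · intro h1
      have key : ∀ {p : Prop}, (p → (c + v = c + w ∧ c + q v = c + q w) ∨
          (c + v = c + q w ∧ c + q v = c + w)) → ¬ p := by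
        intro p hpp hp'
        rcases hpp hp' with ⟨h2, _⟩ | ⟨_, h2⟩
        · exact hvw (add_left_cancel h2)
        · exact h1 (add_left_cancel h2)
      refine ⟨key fun h2 => ?_, key fun h2 => ?_, key fun h2 => ?_⟩
      · refine hl _ _ _ _ (hq v hv0) (hq w hw0) ?_
        have e1 : c + v - (c + q v) = c + w - (c + q w) := by linear_combination h2
        have e2 : c + q v - (c + v) = c + q w - (c + w) := by linear_combination -h2
        rw [e1, e2]
      · refine hl _ _ _ _ (hq v hv0) (hq w hw0) ?_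
        have e1 : c + v - (c + q v) = c + q w - (c + w) := by linear_combination h2
        have e2 : c + q v - (c + v) = c + w - (c + q w) := by linear_combination -h2
        rw [e1, e2, min_comm]
      · refine hp _ _ _ _ (hq v hv0) (hq w hw0) ?_
        have e1 : c + v - (c + w) = c + q w - (c + q v) := by linear_combination h2
        have e2 : c + w - (c + v) = c + q v - (c + q w) := by linear_combination -h2
        rw [e1, e2, min_comm]

theorem no3 :
    ∀ a1 : ZMod 3, R1 1 a1 → 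
    False := by
  decide +kernel

theorem not_good_3 : ¬ Good 3 := by
  intro h
  obtain ⟨q, h1, h2⟩ := h.partner
  exact no3 (q 1) (h1 1 (by decide))

theorem no5 :
    ∀ a1 : ZMod 5, R1 1 a1 → 
    ∀ a2 : ZMod 5, R1 2 a2 → R2 1 a1 2 a2 → 
    ∀ a3 : ZMod 5, R1 3 a3 → R2 1 a1 3 a3 → R2 2 a2 3 a3 → 
    False := by
  decide +kernel

theorem not_good_5 : ¬ Good 5 := by
  intro h
  obtain ⟨q, h1, h2⟩ := h.partner
  exact no5 (q 1) (h1 1 (by decide)) (q 2) (h1 2 (by decide))
    (h2 1 2 (by decide) (by decide) (by decide)) (q 3) (h1 3 (by decide))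
    (h2 1 3 (by decide) (by decide) (by decide))
    (h2 2 3 (by decide) (by decide) (by decide))

theorem no9 :
    ∀ a1 : ZMod 9, R1 1 a1 → 
    ∀ a2 : ZMod 9, R1 2 a2 → R2 1 a1 2 a2 → 
    ∀ a3 : ZMod 9, R1 3 a3 → R2 1 a1 3 a3 → R2 2 a2 3 a3 → 
    ∀ a4 : ZMod 9, R1 4 a4 → R2 1 a1 4 a4 → R2 2 a2 4 a4 → R2 3 a3 4 a4 → 
    ∀ a5 : ZMod 9, R1 5 a5 → R2 1 a1 5 a5 → R2 2 a2 5 a5 → R2 3 a3 5 a5 → R2 4 a4 5 a5 → 
    ∀ a6 : ZMod 9, R1 6 a6 → R2 1 a1 6 a6 → R2 2 a2 6 a6 → R2 3 a3 6 a6 → R2 4 a4 6 a6 → R2 5 a5 6 a6 → 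
    ∀ a7 : ZMod 9, R1 7 a7 → R2 1 a1 7 a7 → R2 2 a2 7 a7 → R2 3 a3 7 a7 → R2 4 a4 7 a7 → R2 5 a5 7 a7 → R2 6 a6 7 a7 → 
    False := by
  decide +kernel

theorem not_good_9 : ¬ Good 9 := by
  intro h
  obtain ⟨q, h1, h2⟩ := h.partner
  exact no9 (q 1) (h1 1 (by decide)) (q 2) (h1 2 (by decide))
    (h2 1 2 (by decide) (by decide) (by decide)) (q 3) (h1 3 (by decide))
    (h2 1 3 (by decide) (by decide) (by decide))
    (h2 2 3 (by decide) (by decide) (by decide)) (q 4) (h1 4 (by decide))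
    (h2 1 4 (by decide) (by decide) (by decide))
    (h2 2 4 (by decide) (by decide) (by decide))
    (h2 3 4 (by decide) (by decide) (by decide)) (q 5) (h1 5 (by decide))
    (h2 1 5 (by decide) (by decide) (by decide))
    (h2 2 5 (by decide) (by decide) (by decide))
    (h2 3 5 (by decide) (by decide) (by decide))
    (h2 4 5 (by decide) (by decide) (by decide)) (q 6) (h1 6 (by decide))
    (h2 1 6 (by decide) (by decide) (by decide))
    (h2 2 6 (by decide) (by decide) (by decide))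
    (h2 3 6 (by decide) (by decide) (by decide))
    (h2 4 6 (by decide) (by decide) (by decide))
    (h2 5 6 (by decide) (by decide) (by decide)) (q 7) (h1 7 (by decide))
    (h2 1 7 (by decide) (by decide) (by decide))
    (h2 2 7 (by decide) (by decide) (by decide))
    (h2 3 7 (by decide) (by decide) (by decide))
    (h2 4 7 (by decide) (by decide) (by decide))
    (h2 5 7 (by decide) (by decide) (by decide))
    (h2 6 7 (by decide) (by decide) (by decide))

theorem ss_all (m : ℕ) (h3 : 3 ≤ m) (h4 : m ≠ 4) : SS m := by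
  rcases Nat.lt_or_ge m 6 with h | h
  · have h5 : m = 3 ∨ m = 5 := by omega
    rcases h5 with rfl | rfl
    · exact s3_ok.ss 0
    · exact s5_ok.ss 0
  · obtain ⟨k, r, hr, rfl⟩ : ∃ k r, r < 12 ∧ m = r + 6 + 12 * k :=
      ⟨(m - 6) / 12, (m - 6) % 12, by omega, by omega⟩
    interval_cases r
    · exact f6_ok.ss k
    · exact f7_ok.ss k
    · exact f8_ok.ss k
    · exact f9_ok.ss k
    · exact f10_ok.ss k
    · exact f11_ok.ss k
    · exact f12_ok.ss k
    · exact f13_ok.ss k
    · exact f14_ok.ss k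
    · exact f15_ok.ss k
    · exact f16_ok.ss k
    · exact f17_ok.ss k

theorem good_iff (n : ℕ) (hn : 2 ≤ n) : Good (2 * n - 1) ↔ (4 ≤ n ∧ n ≠ 5) := by
  constructor
  · intro h
    by_contra hc
    have h5 : n = 2 ∨ n = 3 ∨ n = 5 := by omega
    rcases h5 with rfl | rfl | rfl
    · exact not_good_3 h
    · exact not_good_5 h
    · exact not_good_9 h
  · rintro ⟨h4, h5⟩
    have h6 : 2 * n - 1 = 2 * (n - 1) + 1 := by omega
    rw [h6]
    exact good_of_SS (ss_all (n - 1) (by omega) (by omega))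

end Pool.Agent.Helper1.CycleMagic.Starter
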