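import Mathlib
import Pool.Agent.Helper1.Horton2
import Pool.Agent.Helper1.Starter5

set_option autoImplicit false

namespace Pool.Agent.Helper1.Horton

open Pool.Agent.Helper1.CycleMagic Pool.Agent.Helper1.CycleMagic.Starter

theorem isSS_conv {m : ℕ} {ι : Type} [Fintype ι] {x y d s : ι → ℕ} (h : IsSS m x y d s) :
    (∀ g : ZMod (2 * m + 1), g ≠ 0 → ∃ i, (x i : ZMod (2 * m + 1)) = g ∨
      (y i : ZMod (2 * m + 1)) = g) ∧
    (∀ g : ZMod (2 * m + 1), g ≠ 0 → ∃ i, (x i : ZMod (2 * m + 1)) - (y i : ZMod (2 * m + 1)) = g ∨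
      (y i : ZMod (2 * m + 1)) - (x i : ZMod (2 * m + 1)) = g) ∧
    Function.Injective (fun i => (x i : ZMod (2 * m + 1)) + (y i : ZMod (2 * m + 1))) ∧
    (∀ i, (x i : ZMod (2 * m + 1)) + (y i : ZMod (2 * m + 1)) ≠ 0) ∧
    2 * Nat.card ι + 1 = 2 * m + 1 ∧
    ∀ i, (x i : ZMod (2 * m + 1)) + (y i : ZMod (2 * m + 1)) = (s i : ZMod (2 * m + 1)) := by
  obtain ⟨hcard, hcov, hdc, hd, hs, hsr, hsi⟩ := h
  have hN : ((2 * m + 1 : ℕ) : ZMod (2 * m + 1)) = 0 := ZMod.natCast_self _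
  have hsum : ∀ i, (x i : ZMod (2 * m + 1)) + (y i : ZMod (2 * m + 1)) = s i := by
    intro i
    rcases hs i with h1 | h1
    · rw [← h1]
      push_cast
      ring
    · have h2 : ((x i + y i : ℕ) : ZMod (2 * m + 1)) = ((s i + (2 * m + 1) : ℕ) : ZMod (2 * m + 1)) := by
        rw [h1]
      rw [Nat.cast_add, Nat.cast_add, hN, add_zero] at h2
      exact h2
  have hdif : ∀ i, (y i : ZMod (2 * m + 1)) - x i = d i ∨ (x i : ZMod (2 * m + 1)) - y i = d i := by
    intro i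
    rcases hd i with h1 | h1 | h1 | h1
    · left
      rw [← h1]
      push_cast
      ring
    · right
      rw [← h1]
      push_cast
      ring
    · left
      have h2 : ((x i + d i : ℕ) : ZMod (2 * m + 1)) = ((y i + (2 * m + 1) : ℕ) : ZMod (2 * m + 1)) := by
        rw [h1]
      rw [Nat.cast_add, Nat.cast_add, hN, add_zero] at h2
      rw [← h2]
      ring
    · right
      have h2 : ((y i + d i : ℕ) : ZMod (2 * m + 1)) = ((x i + (2 * m + 1) : ℕ) : ZMod (2 * m + 1)) := by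
        rw [h1]
      rw [Nat.cast_add, Nat.cast_add, hN, add_zero] at h2
      rw [← h2]
      ring
  refine ⟨?_, ?_, ?_, ?_, ?_, hsum⟩
  · intro v hv
    have h1 : v.val ≠ 0 := by
      rw [Ne, ZMod.val_eq_zero]
      exact hv
    have h2 := ZMod.val_lt v
    obtain ⟨i, hi | hi⟩ := hcov v.val (by omega) (by omega)
    · refine ⟨i, Or.inl ?_⟩
      rw [hi, ZMod.natCast_val, ZMod.cast_id]
    · refine ⟨i, Or.inr ?_⟩
      rw [hi, ZMod.natCast_val, ZMod.cast_id]
  · intro v hv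
    have h1 : v.val ≠ 0 := by
      rw [Ne, ZMod.val_eq_zero]
      exact hv
    have h2 := ZMod.val_lt v
    have h3 : ∃ i, (d i : ZMod (2 * m + 1)) = v ∨ (d i : ZMod (2 * m + 1)) = -v := by
      rcases Nat.lt_or_ge m v.val with h4 | h4
      · obtain ⟨i, hi⟩ := hdc (2 * m + 1 - v.val) (by omega) (by omega)
        refine ⟨i, Or.inr ?_⟩
        rw [hi, Nat.cast_sub (by omega), hN, ZMod.natCast_val, ZMod.cast_id, zero_sub]
      · obtain ⟨i, hi⟩ := hdc v.val (by omega) (by omega)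
        refine ⟨i, Or.inl ?_⟩
        rw [hi, ZMod.natCast_val, ZMod.cast_id]
    obtain ⟨i, hi⟩ := h3
    refine ⟨i, ?_⟩
    rcases hi with hi | hi <;> rcases hdif i with h4 | h4 <;> rw [hi] at h4
    · exact Or.inr h4
    · exact Or.inl h4
    · left
      rw [← neg_sub, h4, neg_neg]
    · right
      rw [← neg_sub, h4, neg_neg]
  · intro i j hij
    simp only [hsum] at hij
    exact hsi (cast_inj (by have := hsr i; omega) (by have := hsr j; omega) hij)
  · intro i hi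
    rw [hsum] at hi
    have h3 : (s i : ZMod (2 * m + 1)) = ((0 : ℕ) : ZMod (2 * m + 1)) := by
      rw [hi]
      simp
    have h4 := cast_inj (by have := hsr i; omega) (by omega) h3
    have := hsr i
    omega
  · rw [Nat.card_eq_fintype_card, hcard]

theorem hasSS_zmod {N : ℕ} (h1 : Odd N) (h3 : N ≠ 3) (h5 : N ≠ 5) (h9 : N ≠ 9) :
    HasSS (ZMod N) := by
  obtain ⟨m, rfl⟩ := h1
  rcases Nat.eq_zero_or_pos m with rfl | hm
  · refine ⟨Empty, inferInstance, fun e => e.elim, fun e => e.elim, ?_, ?_, ?_, ?_, ?_⟩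
    · intro g hg
      exact absurd (Subsingleton.elim (α := ZMod 1) g 0) hg
    · intro g hg
      exact absurd (Subsingleton.elim (α := ZMod 1) g 0) hg
    · intro e
      exact e.elim
    · intro e
      exact e.elim
    · simp
  · obtain ⟨ι, hF, hD, x, y, d, s, h⟩ := ss_all m (by omega) (by omega)
    obtain ⟨k1, k2, k3, k4, k5, k6⟩ := isSS_conv h
    refine ⟨ι, inferInstance, fun i => (x i : ZMod (2 * m + 1)), fun i => (y i : ZMod (2 * m + 1)),
      k1, k2, k3, k4, ?_⟩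
    rw [k5, Nat.card_zmod]

theorem lev_zero {c : ℕ → ℕ} {x K : ℕ} (h : ∀ j < K, x ≤ c j) : lev c x K = 0 := by
  induction K with
  | zero => rfl
  | succ K ih =>
    have h1 := h K (by omega)
    rw [lev, ih (fun j hj => h j (by omega)), if_neg (by omega)]

theorem sh_low {L : Line} {k x T : ℕ} (h : ∀ j < L.K, T ≤ L.c j) (hx : x ≤ T) :
    sh L k x = x := by
  rw [sh, lev_zero (fun j hj => hx.trans (h j hj))]
  simp [W]

theorem pss_of_fam {F : Fam} (h : F.Ok) (h0 : ∃ p ∈ F.prs, p.a = 1 ∧ p.b = 2)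
    (hP : ∀ j < F.P.K, 2 ≤ F.P.c j) (hS : ∀ j < F.S.K, 4 ≤ F.S.c j)
    (hs : ∀ p ∈ F.prs, p.s ≠ 1 ∧ p.s ≠ 4) (hn : 3 ≤ F.n0) (k : ℕ) :
    PSS (2 * (F.n0 + F.g * k) + 1) := by
  have H := h.isSS k
  obtain ⟨k1, k2, k3, k4, k5, k6⟩ := isSS_conv H
  obtain ⟨p, hp, hpa, hpb⟩ := h0
  obtain ⟨i0, hi0, rfl⟩ := List.mem_iff_getElem.mp hp
  have hsv : ∀ i, Sum.elim (fun i : Fin F.prs.length => sh F.S k (F.prs[i]).s)
      (fun q : Fin F.tys.length × Fin k =>
        en F.S k (F.tys[q.1]).js (F.tys[q.1]).rs (F.tys[q.1]).bs q.2) i ≠ 1 ∧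
      Sum.elim (fun i : Fin F.prs.length => sh F.S k (F.prs[i]).s)
      (fun q : Fin F.tys.length × Fin k =>
        en F.S k (F.tys[q.1]).js (F.tys[q.1]).rs (F.tys[q.1]).bs q.2) i ≠ 4 := by
    rintro (i | ⟨i, t⟩)
    · have h1 := hs _ (List.getElem_mem i.2)
      simp only [Sum.elim_inl, Fin.getElem_fin]
      refine ⟨fun h2 => h1.1 ?_, fun h2 => h1.2 ?_⟩
      · apply sh_inj (L := F.S) (k := k)
        rw [h2, sh_low hS (by norm_num)]
      · apply sh_inj (L := F.S) (k := k)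
        rw [h2, sh_low hS (by norm_num)]
    · have h1 := (h.tt _ (List.getElem_mem i.2)).2.2
      have h2 := hS _ h1.1
      simp only [Sum.elim_inr, Fin.getElem_fin, en, bp]
      constructor <;> omega
  refine ⟨_, inferInstance, _, _, Sum.inl ⟨i0, hi0⟩, k1, k2, k3, k4, k5, ?_, ?_, ?_, ?_⟩
  · simp only [Sum.elim_inl, Fin.getElem_fin, hpa]
    rw [sh_low hP (by norm_num)]
    simp
  · simp only [Sum.elim_inl, Fin.getElem_fin, hpb]
    rw [sh_low hP (by norm_num)]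
    simp
  · intro i hi
    rw [k6] at hi
    have h1 : ((1 : ℕ) : ZMod (2 * (F.n0 + F.g * k) + 1)) = 1 := by simp
    rw [← h1] at hi
    have h2 := H.2.2.2.2.2.1 i
    exact (hsv i).1 (cast_inj (by omega) (by omega) hi)
  · intro i hi
    rw [k6] at hi
    have h1 : ((4 : ℕ) : ZMod (2 * (F.n0 + F.g * k) + 1)) = 4 := by norm_num
    rw [← h1] at hi
    have h2 := H.2.2.2.2.2.1 i
    exact (hsv i).2 (cast_inj (by omega) (by omega) hi)

end Pool.Agent.Helper1.Horton
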