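import Mathlib
import Pool.Agent.Helper1.Horton3

set_option autoImplicit false

namespace Pool.Agent.Helper1.Horton

/-- Direct product of cyclic groups. -/
def CP : List ℕ → Type
  | [] => Unit
  | n :: l => ZMod n × CP l

instance instGrp : (l : List ℕ) → AddCommGroup (CP l)
  | [] => inferInstanceAs (AddCommGroup Unit)
  | n :: l => by
    have := instGrp l
    exact inferInstanceAs (AddCommGroup (ZMod n × CP l))

theorem card_CP : ∀ l : List ℕ, Nat.card (CP l) = l.prod
  | [] => by simp [CP]
  | n :: l => by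
    have h1 : Nat.card (CP (n :: l)) = Nat.card (ZMod n × CP l) := rfl
    rw [h1, Nat.card_prod, Nat.card_zmod, card_CP l, List.prod_cons]

/-- Isomorphism of groups, as a proposition. -/
def Iso (G H : Type) [AddCommGroup G] [AddCommGroup H] : Prop := Nonempty (G ≃+ H)

theorem Iso.refl (G : Type) [AddCommGroup G] : Iso G G := ⟨AddEquiv.refl G⟩

theorem Iso.symm {G H : Type} [AddCommGroup G] [AddCommGroup H] (h : Iso G H) : Iso H G :=
  h.elim fun e => ⟨e.symm⟩

theorem Iso.trans {G H K : Type} [AddCommGroup G] [AddCommGroup H] [AddCommGroup K]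
    (h : Iso G H) (h' : Iso H K) : Iso G K :=
  h.elim fun e => h'.elim fun e' => ⟨e.trans e'⟩

theorem Iso.prod {G H G' H' : Type} [AddCommGroup G] [AddCommGroup H] [AddCommGroup G']
    [AddCommGroup H'] (h : Iso G G') (h' : Iso H H') : Iso (G × H) (G' × H') :=
  h.elim fun e => h'.elim fun e' => ⟨AddEquiv.prodCongr e e'⟩

theorem Iso.hasSS {G H : Type} [AddCommGroup G] [AddCommGroup H] (h : Iso G H)
    (hG : HasSS H) : HasSS G :=
  h.elim fun e => hG.of_equiv e.symm

theorem Iso.card {G H : Type} [AddCommGroup G] [AddCommGroup H] (h : Iso G H) :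
    Nat.card G = Nat.card H :=
  h.elim fun e => Nat.card_congr e.toEquiv

theorem CP_cons (n : ℕ) {l l' : List ℕ} (h : Iso (CP l) (CP l')) :
    Iso (CP (n :: l)) (CP (n :: l')) :=
  (Iso.refl (ZMod n)).prod h

theorem CP_swap (a b : ℕ) (l : List ℕ) : Iso (CP (a :: b :: l)) (CP (b :: a :: l)) := by
  have e1 : Iso (ZMod a × (ZMod b × CP l)) ((ZMod a × ZMod b) × CP l) :=
    ⟨AddEquiv.prodAssoc.symm⟩
  have e2 : Iso ((ZMod a × ZMod b) × CP l) ((ZMod b × ZMod a) × CP l) :=
    Iso.prod ⟨AddEquiv.prodComm⟩ (Iso.refl _)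
  have e3 : Iso ((ZMod b × ZMod a) × CP l) (ZMod b × (ZMod a × CP l)) :=
    ⟨AddEquiv.prodAssoc⟩
  exact e1.trans (e2.trans e3)

theorem CP_perm {l l' : List ℕ} (h : l.Perm l') : Iso (CP l) (CP l') := by
  induction h with
  | nil => exact Iso.refl _
  | cons a _ ih => exact CP_cons a ih
  | swap a b l => exact CP_swap b a l
  | trans _ _ ih1 ih2 => exact ih1.trans ih2

theorem CP_one (l : List ℕ) : Iso (CP (1 :: l)) (CP l) := by
  have e : (ZMod 1 × CP l) ≃+ CP l :=
    { toFun := fun x => x.2
      invFun := fun x => (0, x)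
      left_inv := fun x => Prod.ext (Subsingleton.elim _ _) rfl
      right_inv := fun x => rfl
      map_add' := fun x y => rfl }
  exact ⟨e⟩

theorem CP_filter (l : List ℕ) : Iso (CP l) (CP (l.filter (fun n => n ≠ 1))) := by
  induction l with
  | nil => exact Iso.refl _
  | cons n l ih =>
    by_cases h : n = 1
    · subst h
      simp only [ne_eq, not_true_eq_false, decide_false, Bool.false_eq_true, not_false_eq_true,
        List.filter_cons_of_neg]
      exact (CP_one l).trans ih
    · rw [List.filter_cons_of_pos (by simpa using h)]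
      exact CP_cons n ih

theorem pi_fin : ∀ (k : ℕ) (n : Fin k → ℕ), Iso ((i : Fin k) → ZMod (n i)) (CP (List.ofFn n))
  | 0, n => by
    have e : ((i : Fin 0) → ZMod (n i)) ≃+ Unit :=
      { toFun := fun _ => ()
        invFun := fun _ i => i.elim0
        left_inv := fun x => funext fun i => i.elim0
        right_inv := fun x => rfl
        map_add' := fun x y => rfl }
    have h : List.ofFn n = [] := by simp
    rw [h]
    exact ⟨e⟩
  | k + 1, n => by
    have e : ((i : Fin (k + 1)) → ZMod (n i)) ≃+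
        ZMod (n 0) × ((i : Fin k) → ZMod (n i.succ)) :=
      { toFun := fun f => (f 0, fun i => f i.succ)
        invFun := fun f => Fin.cons f.1 f.2
        left_inv := fun f => by
          funext i
          refine Fin.cases ?_ (fun j => ?_) i
          · rfl
          · rfl
        right_inv := fun f => by
          refine Prod.ext rfl ?_
          funext i
          rfl
        map_add' := fun x y => rfl }
    rw [List.ofFn_succ]
    exact Iso.trans ⟨e⟩ ((Iso.refl (ZMod (n 0))).prod (pi_fin k (fun i => n i.succ)))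

theorem structure_list (G : Type) [AddCommGroup G] [Finite G] :
    ∃ L : List ℕ, (∀ n ∈ L, IsPrimePow n) ∧ Iso G (CP L) := by
  obtain ⟨ι, hι, p, hp, e, ⟨E⟩⟩ := AddCommGroup.equiv_directSum_zmod_of_finite G
  let σ := Fintype.equivFin ι
  let n : Fin (Fintype.card ι) → ℕ := fun j => p (σ.symm j) ^ e (σ.symm j)
  have h1 : Iso (DirectSum ι fun i => ZMod (p i ^ e i)) ((i : ι) → ZMod (p i ^ e i)) :=
    ⟨DirectSum.addEquivProd _⟩
  have h2 : Iso ((i : ι) → ZMod (p i ^ e i)) ((j : Fin (Fintype.card ι)) → ZMod (n j)) :=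
    ⟨{ Equiv.piCongrLeft' (fun i => ZMod (p i ^ e i)) σ with map_add' := fun x y => rfl }⟩
  have h3 := pi_fin _ n
  have h4 := CP_filter (List.ofFn n)
  refine ⟨_, ?_, Iso.trans ⟨E⟩ (h1.trans (h2.trans (h3.trans h4)))⟩
  intro m hm
  rw [List.mem_filter] at hm
  obtain ⟨hm1, hm2⟩ := hm
  rw [List.mem_ofFn] at hm1
  obtain ⟨j, rfl⟩ := hm1
  have h5 : e (σ.symm j) ≠ 0 := by
    intro h0
    simp [n, h0] at hm2
  exact (hp (σ.symm j)).isPrimePow.pow h5

theorem CP_coprime {l : List ℕ} (h : l.Pairwise Nat.Coprime) : Iso (CP l) (ZMod l.prod) := by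
  induction l with
  | nil =>
    have e : Unit ≃+ ZMod 1 :=
      { toFun := fun _ => 0
        invFun := fun _ => ()
        left_inv := fun x => rfl
        right_inv := fun x => Subsingleton.elim _ _
        map_add' := fun x y => rfl }
    exact ⟨e⟩
  | cons n l ih =>
    rw [List.pairwise_cons] at h
    have h1 := ih h.2
    have h2 : n.Coprime l.prod := Nat.Coprime.symm (by
      have := h.1
      clear ih h1 h
      induction l with
      | nil => simp
      | cons m l ih =>
        rw [List.prod_cons]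
        exact Nat.Coprime.mul_left (this m (by simp)).symm
          (ih (fun a ha => this a (by simp [ha]))))
    rw [List.prod_cons]
    exact ((Iso.refl (ZMod n)).prod h1).trans ⟨(ZMod.chineseRemainder h2).toAddEquiv.symm⟩

theorem dichotomy {l : List ℕ} (h : ∀ n ∈ l, IsPrimePow n) :
    l.Pairwise Nat.Coprime ∨ ∃ q a b l', q.Prime ∧ 0 < a ∧ 0 < b ∧
      (∀ n ∈ l', IsPrimePow n) ∧ l.Perm (q ^ a :: q ^ b :: l') := by
  induction l with
  | nil => left; simp
  | cons n l ih =>
    by_cases h1 : ∀ m ∈ l, n.Coprime m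
    · rcases ih (fun m hm => h m (by simp [hm])) with h2 | ⟨q, a, b, l', h3, h4, h5, h6, h7⟩
      · left
        rw [List.pairwise_cons]
        exact ⟨h1, h2⟩
      · right
        refine ⟨q, a, b, n :: l', h3, h4, h5, ?_, ?_⟩
        · intro m hm
          rw [List.mem_cons] at hm
          rcases hm with rfl | hm
          · exact h m (by simp)
          · exact h6 m hm
        · refine (h7.cons n).trans ?_
          refine (List.Perm.swap _ _ _).trans ?_
          exact (List.Perm.swap _ _ _).cons _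
    · right
      push Not at h1
      obtain ⟨m, hm, hnm⟩ := h1
      have hn := h n (by simp)
      have hm' := h m (by simp [hm])
      rw [isPrimePow_nat_iff] at hn hm'
      obtain ⟨p, a, hp, ha, rfl⟩ := hn
      obtain ⟨q, b, hq, hb, rfl⟩ := hm'
      have hpq : p = q := by
        by_contra hne
        exact hnm (Nat.Coprime.pow _ _ ((Nat.coprime_primes hp hq).mpr hne))
      subst hpq
      refine ⟨p, a, b, l.erase (p ^ b), hp, ha, hb, ?_, ?_⟩
      · intro x hx
        exact h x (by simp [List.mem_of_mem_erase hx])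
      · exact (List.perm_cons_erase hm).cons _

/-- All lists over `S` whose partial products divide `N`. -/
def enumL (S : List ℕ) : ℕ → ℕ → List (List ℕ)
  | 0, _ => [[]]
  | f + 1, N => [] :: (S.filter (fun d => N % d = 0)).flatMap
      (fun d => (enumL S f (N / d)).map (fun l => d :: l))

theorem mem_enumL (S : List ℕ) : ∀ (f N : ℕ) (l : List ℕ), l.length ≤ f → (∀ n ∈ l, n ∈ S) →
    l.prod ∣ N → 0 < N → l ∈ enumL S f N
  | 0, N, l => by
    intro h1 _ _ _
    have : l = [] := List.length_eq_zero_iff.mp (by omega)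
    subst this
    simp [enumL]
  | f + 1, N, [] => by
    intros
    simp [enumL]
  | f + 1, N, n :: l => by
    intro h1 h2 h3 h4
    rw [List.prod_cons] at h3
    have hn : n ∣ N := (Dvd.intro _ rfl).trans h3
    have hn0 : 0 < n := Nat.pos_of_dvd_of_pos hn h4
    have h5 : l.prod ∣ N / n := by
      obtain ⟨c, hc⟩ := h3
      refine ⟨c, ?_⟩
      rw [hc, mul_assoc, Nat.mul_div_cancel_left _ hn0]
    have h6 := mem_enumL S f (N / n) l (by simpa using h1) (fun m hm => h2 m (by simp [hm])) h5
      (Nat.div_pos (Nat.le_of_dvd h4 hn) hn0)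
    simp only [enumL, List.mem_cons, List.mem_flatMap, List.mem_filter, List.mem_map]
    right
    refine ⟨n, ⟨h2 n (by simp), by simpa using Nat.mod_eq_zero_of_dvd hn⟩, l, h6, rfl⟩

theorem pp15 {n : ℕ} (h : IsPrimePow n) : ¬ 15 ∣ n := by
  intro h15
  rw [isPrimePow_nat_iff] at h
  obtain ⟨p, k, hp, hk, rfl⟩ := h
  have h3 : 3 ∣ p ^ k := (show (3 : ℕ) ∣ 15 by norm_num).trans h15
  have h5 : 5 ∣ p ^ k := (show (5 : ℕ) ∣ 15 by norm_num).trans h15
  have e3 := (Nat.prime_dvd_prime_iff_eq Nat.prime_three hp).mp (Nat.prime_three.dvd_of_dvd_pow h3)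
  have e5 := (Nat.prime_dvd_prime_iff_eq Nat.prime_five hp).mp (Nat.prime_five.dvd_of_dvd_pow h5)
  omega

theorem two_pow_le {l : List ℕ} (h : ∀ n ∈ l, 2 ≤ n) : 2 ^ l.length ≤ l.prod := by
  induction l with
  | nil => simp
  | cons n l ih =>
    rw [List.length_cons, List.prod_cons, pow_succ, mul_comm]
    exact Nat.mul_le_mul (h n (by simp)) (ih (fun m hm => h m (by simp [hm])))

theorem classify {N : ℕ} (S : List ℕ) (out : List (List ℕ)) (hN : 0 < N) (hN2 : N < 256)
    (hS : ∀ n ∈ Nat.divisors N, n ≠ 1 → ¬ 15 ∣ n → n ∈ S)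
    (hout : ∀ l ∈ enumL S 7 N, l.prod = N → l.Pairwise (fun a b => a ≤ b) → l ∈ out)
    (G : Type) [AddCommGroup G] [Finite G] (hG : Nat.card G = N) :
    ∃ l ∈ out, Iso G (CP l) := by
  obtain ⟨L, h1, h2⟩ := structure_list G
  let l := L.mergeSort (fun a b => decide (a ≤ b))
  have hp : l.Perm L := List.mergeSort_perm _ _
  have hl : ∀ n ∈ l, IsPrimePow n := fun n hn => h1 n (hp.mem_iff.mp hn)
  have hprod : l.prod = N := by
    rw [hp.prod_eq, ← card_CP, ← h2.card, hG]
  have hd : ∀ n ∈ l, n ∣ N := fun n hn => by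
    rw [← hprod]
    exact List.dvd_prod hn
  refine ⟨l, ?_, h2.trans (CP_perm hp.symm)⟩
  apply hout
  · apply mem_enumL
    · have h3 := two_pow_le (l := l) (fun n hn => (hl n hn).two_le)
      rw [hprod] at h3
      by_contra hc
      push Not at hc
      have h4 : 2 ^ 8 ≤ 2 ^ l.length := Nat.pow_le_pow_right (by norm_num) hc
      omega
    · intro n hn
      exact hS n (Nat.mem_divisors.mpr ⟨hd n hn, by omega⟩) (hl n hn).ne_one (pp15 (hl n hn))
    · rw [hprod]
    · exact hN
  · exact hprod
  · have h3 := List.pairwise_mergeSort (le := fun a b : ℕ => decide (a ≤ b))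
      (fun a b c hab hbc => by simp only [decide_eq_true_eq] at *; omega)
      (fun a b => by simp only [Bool.or_eq_true, decide_eq_true_eq]; omega) L
    exact h3.imp (fun h => by simpa using h)

end Pool.Agent.Helper1.Horton
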