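import Mathlib
import Pool.Agent.Helper1.Horton4

set_option autoImplicit false
set_option maxRecDepth 100000
set_option synthInstance.maxSize 100000
set_option synthInstance.maxHeartbeats 4000000

namespace Pool.Agent.Helper1.Horton

theorem hasSS_of_list {G : Type} [AddCommGroup G] (l : List (G × G))
    (h1 : ∀ g : G, g ≠ 0 → ∃ p ∈ l, p.1 = g ∨ p.2 = g)
    (h2 : ∀ g : G, g ≠ 0 → ∃ p ∈ l, p.1 - p.2 = g ∨ p.2 - p.1 = g)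
    (h3 : (l.map (fun p => p.1 + p.2)).Nodup) (h4 : (0 : G) ∉ l.map (fun p => p.1 + p.2))
    (h5 : 2 * l.length + 1 = Nat.card G) : HasSS G := by
  refine ⟨Fin l.length, inferInstance, fun i => (l[i]).1, fun i => (l[i]).2, ?_, ?_, ?_, ?_, ?_⟩
  · intro g hg
    obtain ⟨p, hp, hpg⟩ := h1 g hg
    obtain ⟨i, hi, rfl⟩ := List.mem_iff_getElem.mp hp
    exact ⟨⟨i, hi⟩, hpg⟩
  · intro g hg
    obtain ⟨p, hp, hpg⟩ := h2 g hg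
    obtain ⟨i, hi, rfl⟩ := List.mem_iff_getElem.mp hp
    exact ⟨⟨i, hi⟩, hpg⟩
  · intro i j hij
    have h7 := (List.nodup_iff_injective_get.mp h3)
    have h8 := @h7 ⟨i, by simp⟩ ⟨j, by simp⟩ (by
      simp only [List.get_eq_getElem, List.getElem_map]
      exact hij)
    exact Fin.ext (congrArg (fun z => z.1) h8)
  · intro i hi
    apply h4
    rw [← hi]
    exact List.mem_map.mpr ⟨l[i], List.getElem_mem i.2, rfl⟩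
  · rw [Nat.card_fin]
    exact h5

def bl_5_5 : List ((ZMod 5 × ZMod 5 × Unit) × (ZMod 5 × ZMod 5 × Unit)) :=
  [((0, 1, ()), (4, 4, ())),
   ((0, 2, ()), (3, 2, ())),
   ((0, 3, ()), (1, 4, ())),
   ((0, 4, ()), (3, 1, ())),
   ((1, 0, ()), (3, 4, ())),
   ((1, 1, ()), (2, 0, ())),
   ((1, 2, ()), (1, 3, ())),
   ((2, 1, ()), (4, 2, ())),
   ((2, 2, ()), (3, 0, ())),
   ((2, 3, ()), (3, 3, ())),
   ((2, 4, ()), (4, 1, ())),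
   ((4, 0, ()), (4, 3, ()))]

theorem base_5_5 : HasSS (CP [5, 5]) :=
  hasSS_of_list (G := ZMod 5 × ZMod 5 × Unit) bl_5_5
    (by decide +kernel) (by decide +kernel) (by decide +kernel) (by decide +kernel)
    ((show 2 * bl_5_5.length + 1 = [5, 5].prod from by decide +kernel).trans (card_CP [5, 5]).symm)

def bl_3_9 : List ((ZMod 3 × ZMod 9 × Unit) × (ZMod 3 × ZMod 9 × Unit)) :=
  [((0, 1, ()), (1, 0, ())),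
   ((0, 2, ()), (2, 1, ())),
   ((0, 3, ()), (1, 6, ())),
   ((0, 4, ()), (2, 2, ())),
   ((0, 5, ()), (0, 8, ())),
   ((0, 6, ()), (1, 2, ())),
   ((0, 7, ()), (1, 4, ())),
   ((1, 1, ()), (1, 8, ())),
   ((1, 3, ()), (2, 3, ())),
   ((1, 5, ()), (2, 0, ())),
   ((1, 7, ()), (2, 5, ())),
   ((2, 4, ()), (2, 8, ())),
   ((2, 6, ()), (2, 7, ()))]

theorem base_3_9 : HasSS (CP [3, 9]) :=
  hasSS_of_list (G := ZMod 3 × ZMod 9 × Unit) bl_3_9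
    (by decide +kernel) (by decide +kernel) (by decide +kernel) (by decide +kernel)
    ((show 2 * bl_3_9.length + 1 = [3, 9].prod from by decide +kernel).trans (card_CP [3, 9]).symm)

def bl_3_3_3 : List ((ZMod 3 × ZMod 3 × ZMod 3 × Unit) × (ZMod 3 × ZMod 3 × ZMod 3 × Unit)) :=
  [((0, 0, 1, ()), (2, 0, 0, ())),
   ((0, 0, 2, ()), (1, 1, 0, ())),
   ((0, 1, 0, ()), (1, 0, 0, ())),
   ((0, 1, 1, ()), (0, 2, 1, ())),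
   ((0, 1, 2, ()), (2, 2, 0, ())),
   ((0, 2, 0, ()), (2, 0, 2, ())),
   ((0, 2, 2, ()), (2, 2, 2, ())),
   ((1, 0, 1, ()), (1, 1, 2, ())),
   ((1, 0, 2, ()), (2, 1, 1, ())),
   ((1, 1, 1, ()), (2, 1, 0, ())),
   ((1, 2, 0, ()), (1, 2, 2, ())),
   ((1, 2, 1, ()), (2, 0, 1, ())),
   ((2, 1, 2, ()), (2, 2, 1, ()))]

theorem base_3_3_3 : HasSS (CP [3, 3, 3]) :=
  hasSS_of_list (G := ZMod 3 × ZMod 3 × ZMod 3 × Unit) bl_3_3_3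
    (by decide +kernel) (by decide +kernel) (by decide +kernel) (by decide +kernel)
    ((show 2 * bl_3_3_3.length + 1 = [3, 3, 3].prod from by decide +kernel).trans (card_CP [3, 3, 3]).symm)

def bl_3_5_5 : List ((ZMod 3 × ZMod 5 × ZMod 5 × Unit) × (ZMod 3 × ZMod 5 × ZMod 5 × Unit)) :=
  [((0, 0, 1, ()), (1, 4, 0, ())),
   ((0, 0, 2, ()), (0, 4, 0, ())),
   ((0, 0, 3, ()), (2, 4, 4, ())),
   ((0, 0, 4, ()), (0, 3, 1, ())),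
   ((0, 1, 0, ()), (0, 1, 3, ())),
   ((0, 1, 1, ()), (1, 3, 2, ())),
   ((0, 1, 2, ()), (2, 0, 2, ())),
   ((0, 1, 4, ()), (1, 0, 1, ())),
   ((0, 2, 0, ()), (2, 1, 4, ())),
   ((0, 2, 1, ()), (2, 4, 2, ())),
   ((0, 2, 2, ()), (1, 4, 4, ())),
   ((0, 2, 3, ()), (1, 1, 4, ())),
   ((0, 2, 4, ()), (2, 0, 1, ())),
   ((0, 3, 0, ()), (2, 1, 0, ())),
   ((0, 3, 2, ()), (1, 1, 2, ())),
   ((0, 3, 3, ()), (1, 2, 1, ())),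
   ((0, 3, 4, ()), (0, 4, 3, ())),
   ((0, 4, 1, ()), (1, 4, 2, ())),
   ((0, 4, 2, ()), (2, 3, 4, ())),
   ((0, 4, 4, ()), (2, 1, 1, ())),
   ((1, 0, 0, ()), (2, 0, 4, ())),
   ((1, 0, 2, ()), (1, 1, 0, ())),
   ((1, 0, 3, ()), (1, 1, 3, ())),
   ((1, 0, 4, ()), (1, 2, 0, ())),
   ((1, 1, 1, ()), (1, 3, 0, ())),
   ((1, 2, 2, ()), (2, 1, 2, ())),
   ((1, 2, 3, ()), (2, 3, 0, ())),
   ((1, 2, 4, ()), (2, 2, 2, ())),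
   ((1, 3, 1, ()), (2, 0, 0, ())),
   ((1, 3, 3, ()), (2, 3, 3, ())),
   ((1, 3, 4, ()), (2, 3, 1, ())),
   ((1, 4, 1, ()), (2, 2, 3, ())),
   ((1, 4, 3, ()), (2, 2, 4, ())),
   ((2, 0, 3, ()), (2, 2, 0, ())),
   ((2, 1, 3, ()), (2, 4, 3, ())),
   ((2, 2, 1, ()), (2, 3, 2, ())),
   ((2, 4, 0, ()), (2, 4, 1, ()))]

theorem base_3_5_5 : HasSS (CP [3, 5, 5]) :=
  hasSS_of_list (G := ZMod 3 × ZMod 5 × ZMod 5 × Unit) bl_3_5_5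
    (by decide +kernel) (by decide +kernel) (by decide +kernel) (by decide +kernel)
    ((show 2 * bl_3_5_5.length + 1 = [3, 5, 5].prod from by decide +kernel).trans (card_CP [3, 5, 5]).symm)

def bl_3_27 : List ((ZMod 3 × ZMod 27 × Unit) × (ZMod 3 × ZMod 27 × Unit)) :=
  [((0, 1, ()), (2, 26, ())),
   ((0, 2, ()), (2, 15, ())),
   ((0, 3, ()), (1, 19, ())),
   ((0, 4, ()), (0, 18, ())),
   ((0, 5, ()), (1, 23, ())),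
   ((0, 6, ()), (1, 12, ())),
   ((0, 7, ()), (1, 8, ())),
   ((0, 8, ()), (2, 1, ())),
   ((0, 9, ()), (1, 5, ())),
   ((0, 10, ()), (2, 5, ())),
   ((0, 11, ()), (2, 0, ())),
   ((0, 12, ()), (1, 7, ())),
   ((0, 13, ()), (0, 17, ())),
   ((0, 14, ()), (2, 6, ())),
   ((0, 15, ()), (1, 25, ())),
   ((0, 16, ()), (1, 13, ())),
   ((0, 19, ()), (2, 10, ())),
   ((0, 20, ()), (0, 26, ())),
   ((0, 21, ()), (1, 6, ())),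
   ((0, 22, ()), (2, 23, ())),
   ((0, 23, ()), (2, 2, ())),
   ((0, 24, ()), (2, 4, ())),
   ((0, 25, ()), (1, 1, ())),
   ((1, 0, ()), (2, 13, ())),
   ((1, 2, ()), (1, 4, ())),
   ((1, 3, ()), (1, 18, ())),
   ((1, 9, ()), (2, 24, ())),
   ((1, 10, ()), (1, 21, ())),
   ((1, 11, ()), (2, 9, ())),
   ((1, 14, ()), (2, 14, ())),
   ((1, 15, ()), (1, 22, ())),
   ((1, 16, ()), (1, 24, ())),
   ((1, 17, ()), (2, 21, ())),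
   ((1, 20, ()), (2, 12, ())),
   ((1, 26, ()), (2, 16, ())),
   ((2, 3, ()), (2, 8, ())),
   ((2, 7, ()), (2, 17, ())),
   ((2, 11, ()), (2, 20, ())),
   ((2, 18, ()), (2, 19, ())),
   ((2, 22, ()), (2, 25, ()))]

theorem base_3_27 : HasSS (CP [3, 27]) :=
  hasSS_of_list (G := ZMod 3 × ZMod 27 × Unit) bl_3_27
    (by decide +kernel) (by decide +kernel) (by decide +kernel) (by decide +kernel)
    ((show 2 * bl_3_27.length + 1 = [3, 27].prod from by decide +kernel).trans (card_CP [3, 27]).symm)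

def bl_9_9 : List ((ZMod 9 × ZMod 9 × Unit) × (ZMod 9 × ZMod 9 × Unit)) :=
  [((0, 1, ()), (0, 7, ())),
   ((0, 2, ()), (8, 7, ())),
   ((0, 3, ()), (5, 4, ())),
   ((0, 4, ()), (1, 6, ())),
   ((0, 5, ()), (6, 1, ())),
   ((0, 6, ()), (4, 1, ())),
   ((0, 8, ()), (2, 8, ())),
   ((1, 0, ()), (2, 7, ())),
   ((1, 1, ()), (4, 2, ())),
   ((1, 2, ()), (3, 7, ())),
   ((1, 3, ()), (5, 6, ())),
   ((1, 4, ()), (8, 2, ())),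
   ((1, 5, ()), (3, 8, ())),
   ((1, 7, ()), (2, 6, ())),
   ((1, 8, ()), (4, 6, ())),
   ((2, 0, ()), (5, 0, ())),
   ((2, 1, ()), (7, 3, ())),
   ((2, 2, ()), (4, 8, ())),
   ((2, 3, ()), (5, 8, ())),
   ((2, 4, ()), (6, 0, ())),
   ((2, 5, ()), (6, 6, ())),
   ((3, 0, ()), (6, 3, ())),
   ((3, 1, ()), (3, 2, ())),
   ((3, 3, ()), (8, 3, ())),
   ((3, 4, ()), (5, 2, ())),
   ((3, 5, ()), (6, 2, ())),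
   ((3, 6, ()), (6, 5, ())),
   ((4, 0, ()), (6, 4, ())),
   ((4, 3, ()), (8, 5, ())),
   ((4, 4, ()), (7, 6, ())),
   ((4, 5, ()), (5, 5, ())),
   ((4, 7, ()), (8, 4, ())),
   ((5, 1, ()), (6, 7, ())),
   ((5, 3, ()), (7, 2, ())),
   ((5, 7, ()), (7, 8, ())),
   ((6, 8, ()), (7, 0, ())),
   ((7, 1, ()), (7, 5, ())),
   ((7, 4, ()), (8, 0, ())),
   ((7, 7, ()), (8, 1, ())),
   ((8, 6, ()), (8, 8, ()))]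

theorem base_9_9 : HasSS (CP [9, 9]) :=
  hasSS_of_list (G := ZMod 9 × ZMod 9 × Unit) bl_9_9
    (by decide +kernel) (by decide +kernel) (by decide +kernel) (by decide +kernel)
    ((show 2 * bl_9_9.length + 1 = [9, 9].prod from by decide +kernel).trans (card_CP [9, 9]).symm)

def bl_3_3_9 : List ((ZMod 3 × ZMod 3 × ZMod 9 × Unit) × (ZMod 3 × ZMod 3 × ZMod 9 × Unit)) :=
  [((0, 0, 1, ()), (0, 2, 6, ())),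
   ((0, 0, 2, ()), (1, 0, 5, ())),
   ((0, 0, 3, ()), (2, 0, 6, ())),
   ((0, 0, 4, ()), (2, 0, 4, ())),
   ((0, 0, 5, ()), (1, 1, 4, ())),
   ((0, 0, 6, ()), (1, 2, 0, ())),
   ((0, 0, 7, ()), (2, 1, 3, ())),
   ((0, 0, 8, ()), (1, 0, 6, ())),
   ((0, 1, 0, ()), (2, 1, 1, ())),
   ((0, 1, 1, ()), (1, 0, 3, ())),
   ((0, 1, 2, ()), (2, 2, 1, ())),
   ((0, 1, 3, ()), (2, 0, 5, ())),
   ((0, 1, 4, ()), (2, 0, 7, ())),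
   ((0, 1, 5, ()), (1, 0, 2, ())),
   ((0, 1, 6, ()), (1, 1, 8, ())),
   ((0, 1, 7, ()), (0, 2, 3, ())),
   ((0, 1, 8, ()), (2, 1, 7, ())),
   ((0, 2, 0, ()), (1, 0, 4, ())),
   ((0, 2, 1, ()), (2, 1, 5, ())),
   ((0, 2, 2, ()), (2, 0, 3, ())),
   ((0, 2, 4, ()), (0, 2, 8, ())),
   ((0, 2, 5, ()), (2, 1, 2, ())),
   ((0, 2, 7, ()), (2, 2, 2, ())),
   ((1, 0, 0, ()), (2, 1, 0, ())),
   ((1, 0, 1, ()), (1, 2, 8, ())),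
   ((1, 0, 7, ()), (2, 2, 3, ())),
   ((1, 0, 8, ()), (1, 2, 5, ())),
   ((1, 1, 0, ()), (2, 1, 4, ())),
   ((1, 1, 1, ()), (1, 2, 1, ())),
   ((1, 1, 2, ()), (1, 1, 5, ())),
   ((1, 1, 3, ()), (2, 0, 1, ())),
   ((1, 1, 6, ()), (1, 2, 4, ())),
   ((1, 1, 7, ()), (2, 2, 0, ())),
   ((1, 2, 2, ()), (1, 2, 3, ())),
   ((1, 2, 6, ()), (2, 1, 6, ())),
   ((1, 2, 7, ()), (2, 0, 8, ())),
   ((2, 0, 0, ()), (2, 2, 8, ())),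
   ((2, 0, 2, ()), (2, 2, 5, ())),
   ((2, 1, 8, ()), (2, 2, 7, ())),
   ((2, 2, 4, ()), (2, 2, 6, ()))]

theorem base_3_3_9 : HasSS (CP [3, 3, 9]) :=
  hasSS_of_list (G := ZMod 3 × ZMod 3 × ZMod 9 × Unit) bl_3_3_9
    (by decide +kernel) (by decide +kernel) (by decide +kernel) (by decide +kernel)
    ((show 2 * bl_3_3_9.length + 1 = [3, 3, 9].prod from by decide +kernel).trans (card_CP [3, 3, 9]).symm)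

def bl_3_3_3_3 : List ((ZMod 3 × ZMod 3 × ZMod 3 × ZMod 3 × Unit) × (ZMod 3 × ZMod 3 × ZMod 3 × ZMod 3 × Unit)) :=
  [((0, 0, 0, 1, ()), (1, 2, 0, 2, ())),
   ((0, 0, 0, 2, ()), (1, 1, 1, 0, ())),
   ((0, 0, 1, 0, ()), (1, 0, 2, 2, ())),
   ((0, 0, 1, 1, ()), (2, 0, 1, 1, ())),
   ((0, 0, 1, 2, ()), (1, 2, 1, 1, ())),
   ((0, 0, 2, 0, ()), (1, 2, 2, 0, ())),
   ((0, 0, 2, 1, ()), (2, 1, 0, 0, ())),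
   ((0, 0, 2, 2, ()), (2, 1, 1, 1, ())),
   ((0, 1, 0, 0, ()), (2, 2, 1, 1, ())),
   ((0, 1, 0, 1, ()), (0, 1, 2, 0, ())),
   ((0, 1, 0, 2, ()), (1, 2, 2, 2, ())),
   ((0, 1, 1, 0, ()), (1, 0, 2, 0, ())),
   ((0, 1, 1, 1, ()), (0, 2, 2, 1, ())),
   ((0, 1, 1, 2, ()), (1, 1, 2, 2, ())),
   ((0, 1, 2, 1, ()), (2, 0, 0, 2, ())),
   ((0, 1, 2, 2, ()), (2, 1, 0, 1, ())),
   ((0, 2, 0, 0, ()), (2, 2, 0, 1, ())),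
   ((0, 2, 0, 1, ()), (1, 0, 1, 0, ())),
   ((0, 2, 0, 2, ()), (1, 2, 0, 0, ())),
   ((0, 2, 1, 0, ()), (0, 2, 1, 2, ())),
   ((0, 2, 1, 1, ()), (2, 1, 2, 0, ())),
   ((0, 2, 2, 0, ()), (2, 1, 1, 0, ())),
   ((0, 2, 2, 2, ()), (2, 2, 0, 0, ())),
   ((1, 0, 0, 0, ()), (1, 0, 2, 1, ())),
   ((1, 0, 0, 1, ()), (1, 2, 0, 1, ())),
   ((1, 0, 0, 2, ()), (2, 1, 0, 2, ())),
   ((1, 0, 1, 1, ()), (2, 0, 0, 1, ())),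
   ((1, 0, 1, 2, ()), (1, 1, 2, 0, ())),
   ((1, 1, 0, 0, ()), (2, 0, 2, 0, ())),
   ((1, 1, 0, 1, ()), (1, 1, 1, 1, ())),
   ((1, 1, 0, 2, ()), (1, 2, 2, 1, ())),
   ((1, 1, 1, 2, ()), (2, 0, 2, 1, ())),
   ((1, 1, 2, 1, ()), (2, 2, 2, 2, ())),
   ((1, 2, 1, 0, ()), (2, 0, 1, 2, ())),
   ((1, 2, 1, 2, ()), (2, 2, 2, 0, ())),
   ((2, 0, 0, 0, ()), (2, 1, 2, 1, ())),
   ((2, 0, 1, 0, ()), (2, 2, 1, 2, ())),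
   ((2, 0, 2, 2, ()), (2, 2, 1, 0, ())),
   ((2, 1, 1, 2, ()), (2, 2, 0, 2, ())),
   ((2, 1, 2, 2, ()), (2, 2, 2, 1, ()))]

theorem base_3_3_3_3 : HasSS (CP [3, 3, 3, 3]) :=
  hasSS_of_list (G := ZMod 3 × ZMod 3 × ZMod 3 × ZMod 3 × Unit) bl_3_3_3_3
    (by decide +kernel) (by decide +kernel) (by decide +kernel) (by decide +kernel)
    ((show 2 * bl_3_3_3_3.length + 1 = [3, 3, 3, 3].prod from by decide +kernel).trans (card_CP [3, 3, 3, 3]).symm)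

def bl_5_25 : List ((ZMod 5 × ZMod 25 × Unit) × (ZMod 5 × ZMod 25 × Unit)) :=
  [((0, 1, ()), (1, 14, ())),
   ((0, 2, ()), (4, 3, ())),
   ((0, 3, ()), (2, 16, ())),
   ((0, 4, ()), (1, 0, ())),
   ((0, 5, ()), (1, 8, ())),
   ((0, 6, ()), (4, 8, ())),
   ((0, 7, ()), (3, 9, ())),
   ((0, 8, ()), (2, 2, ())),
   ((0, 9, ()), (3, 12, ())),
   ((0, 10, ()), (4, 10, ())),
   ((0, 11, ()), (2, 1, ())),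
   ((0, 12, ()), (2, 5, ())),
   ((0, 13, ()), (1, 23, ())),
   ((0, 14, ()), (0, 17, ())),
   ((0, 15, ()), (4, 13, ())),
   ((0, 16, ()), (3, 11, ())),
   ((0, 18, ()), (2, 10, ())),
   ((0, 19, ()), (4, 7, ())),
   ((0, 20, ()), (0, 24, ())),
   ((0, 21, ()), (3, 5, ())),
   ((0, 22, ()), (4, 21, ())),
   ((0, 23, ()), (1, 20, ())),
   ((1, 1, ()), (1, 12, ())),
   ((1, 2, ()), (3, 4, ())),
   ((1, 3, ()), (2, 22, ())),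
   ((1, 4, ()), (4, 1, ())),
   ((1, 5, ()), (3, 17, ())),
   ((1, 6, ()), (2, 13, ())),
   ((1, 7, ()), (4, 22, ())),
   ((1, 9, ()), (4, 9, ())),
   ((1, 10, ()), (2, 3, ())),
   ((1, 11, ()), (1, 19, ())),
   ((1, 13, ()), (3, 2, ())),
   ((1, 15, ()), (3, 10, ())),
   ((1, 16, ()), (1, 17, ())),
   ((1, 18, ()), (4, 14, ())),
   ((1, 21, ()), (2, 7, ())),
   ((1, 22, ()), (4, 23, ())),
   ((1, 24, ()), (3, 8, ())),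
   ((2, 0, ()), (3, 16, ())),
   ((2, 4, ()), (2, 19, ())),
   ((2, 6, ()), (4, 2, ())),
   ((2, 8, ()), (4, 16, ())),
   ((2, 9, ()), (3, 24, ())),
   ((2, 11, ()), (3, 3, ())),
   ((2, 12, ()), (4, 19, ())),
   ((2, 14, ()), (4, 0, ())),
   ((2, 15, ()), (3, 20, ())),
   ((2, 17, ()), (4, 18, ())),
   ((2, 18, ()), (2, 20, ())),
   ((2, 21, ()), (3, 0, ())),
   ((2, 23, ()), (4, 4, ())),
   ((2, 24, ()), (3, 13, ())),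
   ((3, 1, ()), (3, 19, ())),
   ((3, 6, ()), (3, 15, ())),
   ((3, 7, ()), (4, 15, ())),
   ((3, 14, ()), (4, 20, ())),
   ((3, 18, ()), (3, 23, ())),
   ((3, 21, ()), (4, 5, ())),
   ((3, 22, ()), (4, 17, ())),
   ((4, 6, ()), (4, 12, ())),
   ((4, 11, ()), (4, 24, ()))]

theorem base_5_25 : HasSS (CP [5, 25]) :=
  hasSS_of_list (G := ZMod 5 × ZMod 25 × Unit) bl_5_25
    (by decide +kernel) (by decide +kernel) (by decide +kernel) (by decide +kernel)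
    ((show 2 * bl_5_25.length + 1 = [5, 25].prod from by decide +kernel).trans (card_CP [5, 25]).symm)

def bl_5_5_5 : List ((ZMod 5 × ZMod 5 × ZMod 5 × Unit) × (ZMod 5 × ZMod 5 × ZMod 5 × Unit)) :=
  [((0, 0, 1, ()), (2, 3, 0, ())),
   ((0, 0, 2, ()), (4, 2, 3, ())),
   ((0, 0, 3, ()), (4, 0, 1, ())),
   ((0, 0, 4, ()), (2, 1, 2, ())),
   ((0, 1, 0, ()), (1, 3, 3, ())),
   ((0, 1, 1, ()), (3, 3, 3, ())),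
   ((0, 1, 2, ()), (3, 1, 2, ())),
   ((0, 1, 3, ()), (3, 2, 4, ())),
   ((0, 1, 4, ()), (1, 3, 1, ())),
   ((0, 2, 0, ()), (1, 3, 0, ())),
   ((0, 2, 1, ()), (0, 3, 3, ())),
   ((0, 2, 2, ()), (1, 0, 0, ())),
   ((0, 2, 3, ()), (2, 4, 1, ())),
   ((0, 2, 4, ()), (2, 1, 1, ())),
   ((0, 3, 0, ()), (3, 2, 1, ())),
   ((0, 3, 1, ()), (2, 4, 3, ())),
   ((0, 3, 2, ()), (3, 3, 0, ())),
   ((0, 3, 4, ()), (4, 1, 0, ())),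
   ((0, 4, 0, ()), (4, 2, 0, ())),
   ((0, 4, 1, ()), (1, 4, 4, ())),
   ((0, 4, 2, ()), (2, 2, 3, ())),
   ((0, 4, 3, ()), (1, 1, 4, ())),
   ((0, 4, 4, ()), (2, 3, 2, ())),
   ((1, 0, 1, ()), (4, 2, 1, ())),
   ((1, 0, 2, ()), (1, 0, 4, ())),
   ((1, 0, 3, ()), (3, 1, 3, ())),
   ((1, 1, 0, ()), (4, 1, 1, ())),
   ((1, 1, 1, ()), (3, 2, 2, ())),
   ((1, 1, 2, ()), (1, 2, 1, ())),
   ((1, 1, 3, ()), (1, 2, 4, ())),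
   ((1, 2, 0, ()), (3, 4, 2, ())),
   ((1, 2, 2, ()), (3, 2, 0, ())),
   ((1, 2, 3, ()), (3, 1, 4, ())),
   ((1, 3, 2, ()), (4, 1, 2, ())),
   ((1, 3, 4, ()), (2, 3, 4, ())),
   ((1, 4, 0, ()), (2, 2, 0, ())),
   ((1, 4, 1, ()), (4, 2, 2, ())),
   ((1, 4, 2, ()), (2, 0, 1, ())),
   ((1, 4, 3, ()), (2, 4, 2, ())),
   ((2, 0, 0, ()), (2, 1, 3, ())),
   ((2, 0, 2, ()), (4, 4, 2, ())),
   ((2, 0, 3, ()), (3, 4, 3, ())),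
   ((2, 0, 4, ()), (3, 3, 1, ())),
   ((2, 1, 0, ()), (3, 0, 4, ())),
   ((2, 1, 4, ()), (2, 4, 4, ())),
   ((2, 2, 1, ()), (4, 0, 3, ())),
   ((2, 2, 2, ()), (4, 4, 3, ())),
   ((2, 2, 4, ()), (3, 1, 0, ())),
   ((2, 3, 1, ()), (3, 4, 4, ())),
   ((2, 3, 3, ()), (3, 3, 4, ())),
   ((2, 4, 0, ()), (4, 4, 1, ())),
   ((3, 0, 0, ()), (3, 3, 2, ())),
   ((3, 0, 1, ()), (3, 1, 1, ())),
   ((3, 0, 2, ()), (4, 4, 4, ())),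
   ((3, 0, 3, ()), (4, 1, 4, ())),
   ((3, 2, 3, ()), (4, 0, 4, ())),
   ((3, 4, 0, ()), (4, 0, 2, ())),
   ((3, 4, 1, ()), (4, 3, 4, ())),
   ((4, 0, 0, ()), (4, 3, 3, ())),
   ((4, 1, 3, ()), (4, 3, 2, ())),
   ((4, 2, 4, ()), (4, 4, 0, ())),
   ((4, 3, 0, ()), (4, 3, 1, ()))]

theorem base_5_5_5 : HasSS (CP [5, 5, 5]) :=
  hasSS_of_list (G := ZMod 5 × ZMod 5 × ZMod 5 × Unit) bl_5_5_5
    (by decide +kernel) (by decide +kernel) (by decide +kernel) (by decide +kernel)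
    ((show 2 * bl_5_5_5.length + 1 = [5, 5, 5].prod from by decide +kernel).trans (card_CP [5, 5, 5]).symm)

def bl_3_5_9 : List ((ZMod 3 × ZMod 5 × ZMod 9 × Unit) × (ZMod 3 × ZMod 5 × ZMod 9 × Unit)) :=
  [((0, 0, 1, ()), (1, 2, 8, ())),
   ((0, 0, 2, ()), (0, 2, 7, ())),
   ((0, 0, 3, ()), (0, 4, 5, ())),
   ((0, 0, 4, ()), (2, 1, 7, ())),
   ((0, 0, 5, ()), (1, 3, 5, ())),
   ((0, 0, 6, ()), (2, 0, 5, ())),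
   ((0, 0, 7, ()), (1, 1, 4, ())),
   ((0, 0, 8, ()), (0, 2, 8, ())),
   ((0, 1, 0, ()), (0, 3, 4, ())),
   ((0, 1, 1, ()), (1, 4, 8, ())),
   ((0, 1, 2, ()), (2, 4, 8, ())),
   ((0, 1, 3, ()), (0, 2, 4, ())),
   ((0, 1, 4, ()), (1, 3, 4, ())),
   ((0, 1, 5, ()), (1, 2, 1, ())),
   ((0, 1, 6, ()), (2, 3, 0, ())),
   ((0, 1, 7, ()), (0, 3, 8, ())),
   ((0, 1, 8, ()), (2, 0, 6, ())),
   ((0, 2, 0, ()), (1, 1, 3, ())),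
   ((0, 2, 1, ()), (2, 1, 1, ())),
   ((0, 2, 2, ()), (1, 3, 1, ())),
   ((0, 2, 3, ()), (2, 2, 5, ())),
   ((0, 2, 5, ()), (2, 2, 2, ())),
   ((0, 2, 6, ()), (2, 3, 7, ())),
   ((0, 3, 0, ()), (0, 4, 4, ())),
   ((0, 3, 1, ()), (1, 3, 0, ())),
   ((0, 3, 2, ()), (1, 2, 3, ())),
   ((0, 3, 3, ()), (1, 2, 5, ())),
   ((0, 3, 5, ()), (2, 0, 2, ())),
   ((0, 3, 6, ()), (2, 4, 2, ())),
   ((0, 3, 7, ()), (1, 0, 2, ())),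
   ((0, 4, 0, ()), (0, 4, 8, ())),
   ((0, 4, 1, ()), (2, 1, 8, ())),
   ((0, 4, 2, ()), (1, 0, 3, ())),
   ((0, 4, 3, ()), (1, 0, 7, ())),
   ((0, 4, 6, ()), (2, 3, 3, ())),
   ((0, 4, 7, ()), (2, 4, 7, ())),
   ((1, 0, 0, ()), (2, 4, 5, ())),
   ((1, 0, 1, ()), (2, 4, 1, ())),
   ((1, 0, 4, ()), (2, 3, 5, ())),
   ((1, 0, 5, ()), (1, 2, 2, ())),
   ((1, 0, 6, ()), (2, 2, 8, ())),
   ((1, 0, 8, ()), (1, 1, 1, ())),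
   ((1, 1, 0, ()), (1, 2, 0, ())),
   ((1, 1, 2, ()), (2, 1, 6, ())),
   ((1, 1, 5, ()), (2, 0, 3, ())),
   ((1, 1, 6, ()), (1, 1, 8, ())),
   ((1, 1, 7, ()), (2, 4, 6, ())),
   ((1, 2, 4, ()), (1, 3, 3, ())),
   ((1, 2, 6, ()), (2, 2, 3, ())),
   ((1, 2, 7, ()), (2, 4, 3, ())),
   ((1, 3, 2, ()), (2, 0, 1, ())),
   ((1, 3, 6, ()), (2, 0, 7, ())),
   ((1, 3, 7, ()), (1, 4, 4, ())),
   ((1, 3, 8, ()), (2, 3, 4, ())),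
   ((1, 4, 0, ()), (2, 2, 4, ())),
   ((1, 4, 1, ()), (1, 4, 7, ())),
   ((1, 4, 2, ()), (2, 4, 4, ())),
   ((1, 4, 3, ()), (2, 1, 0, ())),
   ((1, 4, 5, ()), (2, 2, 1, ())),
   ((1, 4, 6, ()), (2, 0, 4, ())),
   ((2, 0, 0, ()), (2, 1, 3, ())),
   ((2, 0, 8, ()), (2, 2, 6, ())),
   ((2, 1, 2, ()), (2, 3, 1, ())),
   ((2, 1, 4, ()), (2, 2, 0, ())),
   ((2, 1, 5, ()), (2, 3, 8, ())),
   ((2, 2, 7, ()), (2, 4, 0, ())),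
   ((2, 3, 2, ()), (2, 3, 6, ()))]

theorem base_3_5_9 : HasSS (CP [3, 5, 9]) :=
  hasSS_of_list (G := ZMod 3 × ZMod 5 × ZMod 9 × Unit) bl_3_5_9
    (by decide +kernel) (by decide +kernel) (by decide +kernel) (by decide +kernel)
    ((show 2 * bl_3_5_9.length + 1 = [3, 5, 9].prod from by decide +kernel).trans (card_CP [3, 5, 9]).symm)

def bl_3_3_3_5 : List ((ZMod 3 × ZMod 3 × ZMod 3 × ZMod 5 × Unit) × (ZMod 3 × ZMod 3 × ZMod 3 × ZMod 5 × Unit)) :=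
  [((0, 0, 0, 1, ()), (0, 0, 0, 3, ())),
   ((0, 0, 0, 2, ()), (2, 1, 0, 3, ())),
   ((0, 0, 0, 4, ()), (2, 1, 2, 3, ())),
   ((0, 0, 1, 0, ()), (2, 1, 2, 1, ())),
   ((0, 0, 1, 1, ()), (0, 2, 0, 0, ())),
   ((0, 0, 1, 2, ()), (1, 0, 1, 1, ())),
   ((0, 0, 1, 3, ()), (0, 2, 2, 1, ())),
   ((0, 0, 1, 4, ()), (0, 1, 2, 1, ())),
   ((0, 0, 2, 0, ()), (2, 2, 2, 4, ())),
   ((0, 0, 2, 1, ()), (2, 0, 2, 0, ())),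
   ((0, 0, 2, 2, ()), (1, 0, 1, 3, ())),
   ((0, 0, 2, 3, ()), (1, 0, 0, 3, ())),
   ((0, 0, 2, 4, ()), (0, 1, 2, 2, ())),
   ((0, 1, 0, 0, ()), (1, 0, 2, 3, ())),
   ((0, 1, 0, 1, ()), (2, 0, 0, 2, ())),
   ((0, 1, 0, 2, ()), (0, 1, 0, 3, ())),
   ((0, 1, 0, 4, ()), (2, 0, 1, 3, ())),
   ((0, 1, 1, 0, ()), (1, 0, 2, 2, ())),
   ((0, 1, 1, 1, ()), (2, 0, 2, 3, ())),
   ((0, 1, 1, 2, ()), (1, 1, 2, 0, ())),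
   ((0, 1, 1, 3, ()), (2, 0, 1, 0, ())),
   ((0, 1, 1, 4, ()), (1, 2, 2, 4, ())),
   ((0, 1, 2, 0, ()), (1, 1, 1, 0, ())),
   ((0, 1, 2, 3, ()), (2, 2, 1, 0, ())),
   ((0, 1, 2, 4, ()), (0, 2, 2, 0, ())),
   ((0, 2, 0, 1, ()), (2, 0, 0, 0, ())),
   ((0, 2, 0, 2, ()), (2, 2, 1, 3, ())),
   ((0, 2, 0, 3, ()), (1, 0, 1, 2, ())),
   ((0, 2, 0, 4, ()), (1, 2, 0, 2, ())),
   ((0, 2, 1, 0, ()), (2, 0, 1, 2, ())),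
   ((0, 2, 1, 1, ()), (2, 0, 2, 1, ())),
   ((0, 2, 1, 2, ()), (1, 2, 2, 1, ())),
   ((0, 2, 1, 3, ()), (2, 1, 0, 2, ())),
   ((0, 2, 1, 4, ()), (0, 2, 2, 3, ())),
   ((0, 2, 2, 2, ()), (2, 1, 2, 0, ())),
   ((0, 2, 2, 4, ()), (1, 2, 0, 0, ())),
   ((1, 0, 0, 0, ()), (2, 1, 1, 2, ())),
   ((1, 0, 0, 1, ()), (2, 2, 2, 3, ())),
   ((1, 0, 0, 2, ()), (1, 0, 2, 0, ())),
   ((1, 0, 0, 4, ()), (2, 0, 0, 4, ())),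
   ((1, 0, 1, 0, ()), (2, 0, 2, 2, ())),
   ((1, 0, 1, 4, ()), (2, 1, 0, 4, ())),
   ((1, 0, 2, 1, ()), (1, 1, 2, 3, ())),
   ((1, 0, 2, 4, ()), (2, 2, 0, 3, ())),
   ((1, 1, 0, 0, ()), (1, 2, 1, 4, ())),
   ((1, 1, 0, 1, ()), (1, 1, 1, 1, ())),
   ((1, 1, 0, 2, ()), (1, 2, 2, 3, ())),
   ((1, 1, 0, 3, ()), (2, 0, 2, 4, ())),
   ((1, 1, 0, 4, ()), (1, 2, 0, 3, ())),
   ((1, 1, 1, 2, ()), (1, 2, 1, 2, ())),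
   ((1, 1, 1, 3, ()), (2, 1, 1, 0, ())),
   ((1, 1, 1, 4, ()), (2, 0, 1, 4, ())),
   ((1, 1, 2, 1, ()), (1, 2, 1, 0, ())),
   ((1, 1, 2, 2, ()), (2, 2, 1, 4, ())),
   ((1, 1, 2, 4, ()), (2, 2, 0, 2, ())),
   ((1, 2, 0, 1, ()), (2, 0, 0, 1, ())),
   ((1, 2, 0, 4, ()), (2, 2, 2, 1, ())),
   ((1, 2, 1, 1, ()), (2, 1, 1, 3, ())),
   ((1, 2, 1, 3, ()), (2, 2, 0, 1, ())),
   ((1, 2, 2, 0, ()), (2, 1, 0, 0, ())),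
   ((1, 2, 2, 2, ()), (2, 0, 1, 1, ())),
   ((2, 0, 0, 3, ()), (2, 2, 2, 0, ())),
   ((2, 1, 0, 1, ()), (2, 2, 1, 1, ())),
   ((2, 1, 1, 1, ()), (2, 1, 2, 2, ())),
   ((2, 1, 1, 4, ()), (2, 2, 0, 4, ())),
   ((2, 1, 2, 4, ()), (2, 2, 1, 2, ())),
   ((2, 2, 0, 0, ()), (2, 2, 2, 2, ()))]

theorem base_3_3_3_5 : HasSS (CP [3, 3, 3, 5]) :=
  hasSS_of_list (G := ZMod 3 × ZMod 3 × ZMod 3 × ZMod 5 × Unit) bl_3_3_3_5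
    (by decide +kernel) (by decide +kernel) (by decide +kernel) (by decide +kernel)
    ((show 2 * bl_3_3_3_5.length + 1 = [3, 3, 3, 5].prod from by decide +kernel).trans (card_CP [3, 3, 3, 5]).symm)

def bl_5_5_9 : List ((ZMod 5 × ZMod 5 × ZMod 9 × Unit) × (ZMod 5 × ZMod 5 × ZMod 9 × Unit)) :=
  [((0, 0, 1, ()), (2, 1, 7, ())),
   ((0, 0, 2, ()), (2, 0, 8, ())),
   ((0, 0, 3, ()), (4, 1, 5, ())),
   ((0, 0, 4, ()), (2, 1, 3, ())),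
   ((0, 0, 5, ()), (2, 3, 1, ())),
   ((0, 0, 6, ()), (4, 0, 8, ())),
   ((0, 0, 7, ()), (4, 0, 6, ())),
   ((0, 0, 8, ()), (3, 3, 2, ())),
   ((0, 1, 0, ()), (4, 3, 8, ())),
   ((0, 1, 1, ()), (0, 1, 2, ())),
   ((0, 1, 3, ()), (3, 0, 2, ())),
   ((0, 1, 4, ()), (4, 3, 2, ())),
   ((0, 1, 5, ()), (2, 0, 4, ())),
   ((0, 1, 6, ()), (0, 3, 4, ())),
   ((0, 1, 7, ()), (2, 4, 6, ())),
   ((0, 1, 8, ()), (1, 0, 8, ())),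
   ((0, 2, 0, ()), (3, 2, 1, ())),
   ((0, 2, 1, ()), (4, 4, 2, ())),
   ((0, 2, 2, ()), (3, 4, 0, ())),
   ((0, 2, 3, ()), (1, 2, 3, ())),
   ((0, 2, 4, ()), (4, 4, 7, ())),
   ((0, 2, 5, ()), (3, 2, 2, ())),
   ((0, 2, 6, ()), (3, 1, 3, ())),
   ((0, 2, 7, ()), (2, 0, 5, ())),
   ((0, 2, 8, ()), (3, 0, 7, ())),
   ((0, 3, 0, ()), (1, 3, 8, ())),
   ((0, 3, 1, ()), (4, 4, 5, ())),
   ((0, 3, 2, ()), (3, 4, 5, ())),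
   ((0, 3, 3, ()), (2, 2, 6, ())),
   ((0, 3, 5, ()), (4, 0, 1, ())),
   ((0, 3, 6, ()), (1, 1, 4, ())),
   ((0, 3, 7, ()), (4, 1, 4, ())),
   ((0, 3, 8, ()), (1, 1, 8, ())),
   ((0, 4, 0, ()), (4, 0, 5, ())),
   ((0, 4, 1, ()), (1, 4, 6, ())),
   ((0, 4, 2, ()), (4, 2, 5, ())),
   ((0, 4, 3, ()), (2, 0, 3, ())),
   ((0, 4, 4, ()), (2, 1, 2, ())),
   ((0, 4, 5, ()), (3, 3, 7, ())),
   ((0, 4, 6, ()), (2, 4, 4, ())),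
   ((0, 4, 7, ()), (3, 2, 5, ())),
   ((0, 4, 8, ()), (1, 0, 3, ())),
   ((1, 0, 0, ()), (3, 3, 1, ())),
   ((1, 0, 1, ()), (1, 4, 3, ())),
   ((1, 0, 2, ()), (1, 0, 6, ())),
   ((1, 0, 4, ()), (3, 2, 4, ())),
   ((1, 0, 5, ()), (2, 3, 8, ())),
   ((1, 0, 7, ()), (4, 1, 7, ())),
   ((1, 1, 0, ()), (2, 2, 3, ())),
   ((1, 1, 1, ()), (3, 4, 1, ())),
   ((1, 1, 2, ()), (1, 3, 7, ())),
   ((1, 1, 3, ()), (2, 3, 5, ())),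
   ((1, 1, 5, ()), (3, 2, 7, ())),
   ((1, 1, 6, ()), (4, 3, 0, ())),
   ((1, 1, 7, ()), (2, 3, 6, ())),
   ((1, 2, 0, ()), (1, 2, 2, ())),
   ((1, 2, 1, ()), (4, 2, 8, ())),
   ((1, 2, 4, ()), (4, 3, 6, ())),
   ((1, 2, 5, ()), (4, 0, 2, ())),
   ((1, 2, 6, ()), (2, 3, 4, ())),
   ((1, 2, 7, ()), (4, 0, 3, ())),
   ((1, 2, 8, ()), (2, 3, 7, ())),
   ((1, 3, 0, ()), (2, 1, 5, ())),
   ((1, 3, 1, ()), (2, 2, 7, ())),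
   ((1, 3, 2, ()), (4, 3, 1, ())),
   ((1, 3, 3, ()), (4, 3, 3, ())),
   ((1, 3, 4, ()), (3, 2, 8, ())),
   ((1, 3, 5, ()), (3, 1, 8, ())),
   ((1, 3, 6, ()), (4, 2, 2, ())),
   ((1, 4, 0, ()), (2, 4, 2, ())),
   ((1, 4, 1, ()), (4, 1, 6, ())),
   ((1, 4, 2, ()), (3, 4, 7, ())),
   ((1, 4, 4, ()), (1, 4, 7, ())),
   ((1, 4, 5, ()), (2, 1, 6, ())),
   ((1, 4, 8, ()), (4, 4, 4, ())),
   ((2, 0, 0, ()), (2, 1, 4, ())),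
   ((2, 0, 1, ()), (3, 1, 6, ())),
   ((2, 0, 2, ()), (3, 2, 0, ())),
   ((2, 0, 6, ()), (4, 4, 8, ())),
   ((2, 0, 7, ()), (4, 2, 3, ())),
   ((2, 1, 0, ()), (2, 2, 2, ())),
   ((2, 1, 1, ()), (2, 4, 8, ())),
   ((2, 1, 8, ()), (3, 3, 4, ())),
   ((2, 2, 0, ()), (2, 4, 1, ())),
   ((2, 2, 1, ()), (2, 3, 0, ())),
   ((2, 2, 4, ()), (4, 1, 0, ())),
   ((2, 2, 5, ()), (2, 4, 0, ())),
   ((2, 2, 8, ()), (4, 3, 4, ())),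
   ((2, 3, 2, ()), (3, 0, 6, ())),
   ((2, 3, 3, ()), (4, 2, 4, ())),
   ((2, 4, 3, ()), (4, 1, 2, ())),
   ((2, 4, 5, ()), (3, 4, 8, ())),
   ((2, 4, 7, ()), (3, 3, 6, ())),
   ((3, 0, 0, ()), (3, 1, 0, ())),
   ((3, 0, 1, ()), (4, 1, 3, ())),
   ((3, 0, 3, ()), (3, 4, 6, ())),
   ((3, 0, 4, ()), (3, 2, 3, ())),
   ((3, 0, 5, ()), (4, 0, 0, ())),
   ((3, 0, 8, ()), (4, 4, 0, ())),
   ((3, 1, 1, ()), (4, 2, 7, ())),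
   ((3, 1, 2, ()), (3, 4, 2, ())),
   ((3, 1, 4, ()), (4, 0, 7, ())),
   ((3, 1, 5, ()), (3, 3, 8, ())),
   ((3, 1, 7, ()), (4, 3, 7, ())),
   ((3, 2, 6, ()), (3, 3, 0, ())),
   ((3, 3, 3, ()), (4, 4, 3, ())),
   ((3, 3, 5, ()), (4, 4, 6, ())),
   ((3, 4, 3, ()), (4, 3, 5, ())),
   ((3, 4, 4, ()), (4, 4, 1, ())),
   ((4, 0, 4, ()), (4, 2, 1, ())),
   ((4, 1, 1, ()), (4, 2, 6, ())),
   ((4, 1, 8, ()), (4, 2, 0, ()))]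

theorem base_5_5_9 : HasSS (CP [5, 5, 9]) :=
  hasSS_of_list (G := ZMod 5 × ZMod 5 × ZMod 9 × Unit) bl_5_5_9
    (by decide +kernel) (by decide +kernel) (by decide +kernel) (by decide +kernel)
    ((show 2 * bl_5_5_9.length + 1 = [5, 5, 9].prod from by decide +kernel).trans (card_CP [5, 5, 9]).symm)

def bl_3_3_25 : List ((ZMod 3 × ZMod 3 × ZMod 25 × Unit) × (ZMod 3 × ZMod 3 × ZMod 25 × Unit)) :=
  [((0, 0, 1, ()), (1, 1, 22, ())),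
   ((0, 0, 2, ()), (0, 2, 2, ())),
   ((0, 0, 3, ()), (2, 0, 2, ())),
   ((0, 0, 4, ()), (0, 1, 10, ())),
   ((0, 0, 5, ()), (2, 1, 12, ())),
   ((0, 0, 6, ()), (2, 1, 8, ())),
   ((0, 0, 7, ()), (0, 2, 0, ())),
   ((0, 0, 8, ()), (1, 2, 4, ())),
   ((0, 0, 9, ()), (2, 2, 8, ())),
   ((0, 0, 10, ()), (1, 1, 7, ())),
   ((0, 0, 11, ()), (1, 0, 18, ())),
   ((0, 0, 12, ()), (1, 2, 20, ())),
   ((0, 0, 13, ()), (0, 1, 14, ())),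
   ((0, 0, 14, ()), (2, 0, 9, ())),
   ((0, 0, 15, ()), (1, 0, 6, ())),
   ((0, 0, 16, ()), (0, 2, 7, ())),
   ((0, 0, 17, ()), (0, 2, 19, ())),
   ((0, 0, 18, ()), (0, 2, 22, ())),
   ((0, 0, 19, ()), (1, 2, 0, ())),
   ((0, 0, 20, ()), (2, 0, 8, ())),
   ((0, 0, 21, ()), (2, 2, 11, ())),
   ((0, 0, 22, ()), (2, 0, 7, ())),
   ((0, 0, 23, ()), (2, 2, 4, ())),
   ((0, 0, 24, ()), (1, 1, 6, ())),
   ((0, 1, 0, ()), (2, 0, 16, ())),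
   ((0, 1, 1, ()), (1, 1, 15, ())),
   ((0, 1, 2, ()), (2, 0, 0, ())),
   ((0, 1, 3, ()), (2, 2, 23, ())),
   ((0, 1, 4, ()), (2, 2, 3, ())),
   ((0, 1, 5, ()), (2, 0, 24, ())),
   ((0, 1, 6, ()), (1, 0, 9, ())),
   ((0, 1, 7, ()), (0, 2, 21, ())),
   ((0, 1, 8, ()), (2, 0, 20, ())),
   ((0, 1, 9, ()), (2, 1, 10, ())),
   ((0, 1, 11, ()), (2, 1, 2, ())),
   ((0, 1, 12, ()), (1, 0, 21, ())),
   ((0, 1, 13, ()), (0, 2, 18, ())),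
   ((0, 1, 15, ()), (1, 2, 2, ())),
   ((0, 1, 16, ()), (1, 0, 16, ())),
   ((0, 1, 17, ()), (1, 1, 21, ())),
   ((0, 1, 18, ()), (1, 2, 7, ())),
   ((0, 1, 19, ()), (2, 0, 11, ())),
   ((0, 1, 20, ()), (0, 1, 22, ())),
   ((0, 1, 21, ()), (2, 1, 1, ())),
   ((0, 1, 23, ()), (2, 2, 12, ())),
   ((0, 1, 24, ()), (2, 1, 16, ())),
   ((0, 2, 1, ()), (1, 2, 23, ())),
   ((0, 2, 3, ()), (2, 0, 13, ())),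
   ((0, 2, 4, ()), (2, 0, 19, ())),
   ((0, 2, 5, ()), (1, 1, 2, ())),
   ((0, 2, 6, ()), (1, 2, 12, ())),
   ((0, 2, 8, ()), (1, 0, 19, ())),
   ((0, 2, 9, ()), (2, 1, 5, ())),
   ((0, 2, 10, ()), (1, 1, 5, ())),
   ((0, 2, 11, ()), (1, 2, 11, ())),
   ((0, 2, 12, ()), (2, 0, 21, ())),
   ((0, 2, 13, ()), (1, 1, 1, ())),
   ((0, 2, 14, ()), (1, 0, 12, ())),
   ((0, 2, 15, ()), (1, 2, 13, ())),
   ((0, 2, 16, ()), (2, 0, 14, ())),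
   ((0, 2, 17, ()), (2, 0, 18, ())),
   ((0, 2, 20, ()), (1, 2, 5, ())),
   ((0, 2, 23, ()), (1, 1, 10, ())),
   ((0, 2, 24, ()), (2, 1, 7, ())),
   ((1, 0, 0, ()), (2, 1, 15, ())),
   ((1, 0, 1, ()), (1, 1, 20, ())),
   ((1, 0, 2, ()), (1, 1, 24, ())),
   ((1, 0, 3, ()), (1, 0, 24, ())),
   ((1, 0, 4, ()), (1, 0, 11, ())),
   ((1, 0, 5, ()), (1, 2, 15, ())),
   ((1, 0, 7, ()), (2, 0, 3, ())),
   ((1, 0, 8, ()), (2, 0, 10, ())),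
   ((1, 0, 10, ()), (2, 2, 24, ())),
   ((1, 0, 13, ()), (2, 2, 20, ())),
   ((1, 0, 14, ()), (1, 0, 20, ())),
   ((1, 0, 15, ()), (2, 2, 7, ())),
   ((1, 0, 17, ()), (1, 1, 16, ())),
   ((1, 0, 22, ()), (2, 1, 21, ())),
   ((1, 0, 23, ()), (1, 1, 14, ())),
   ((1, 1, 0, ()), (1, 2, 18, ())),
   ((1, 1, 3, ()), (1, 1, 18, ())),
   ((1, 1, 4, ()), (1, 2, 16, ())),
   ((1, 1, 8, ()), (2, 1, 19, ())),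
   ((1, 1, 9, ()), (1, 1, 17, ())),
   ((1, 1, 11, ()), (2, 0, 15, ())),
   ((1, 1, 12, ()), (2, 2, 17, ())),
   ((1, 1, 13, ()), (1, 2, 8, ())),
   ((1, 1, 19, ()), (2, 2, 19, ())),
   ((1, 1, 23, ()), (2, 2, 16, ())),
   ((1, 2, 1, ()), (2, 2, 18, ())),
   ((1, 2, 3, ()), (2, 2, 6, ())),
   ((1, 2, 6, ()), (2, 2, 0, ())),
   ((1, 2, 9, ()), (1, 2, 10, ())),
   ((1, 2, 14, ()), (2, 0, 5, ())),
   ((1, 2, 17, ()), (2, 2, 5, ())),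
   ((1, 2, 19, ()), (2, 0, 22, ())),
   ((1, 2, 21, ()), (2, 2, 14, ())),
   ((1, 2, 22, ()), (2, 0, 17, ())),
   ((1, 2, 24, ()), (2, 1, 18, ())),
   ((2, 0, 1, ()), (2, 2, 22, ())),
   ((2, 0, 4, ()), (2, 1, 6, ())),
   ((2, 0, 6, ()), (2, 1, 23, ())),
   ((2, 0, 12, ()), (2, 2, 9, ())),
   ((2, 0, 23, ()), (2, 2, 13, ())),
   ((2, 1, 0, ()), (2, 1, 3, ())),
   ((2, 1, 4, ()), (2, 2, 15, ())),
   ((2, 1, 9, ()), (2, 1, 20, ())),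
   ((2, 1, 11, ()), (2, 1, 24, ())),
   ((2, 1, 13, ()), (2, 2, 21, ())),
   ((2, 1, 14, ()), (2, 2, 2, ())),
   ((2, 1, 17, ()), (2, 1, 22, ())),
   ((2, 2, 1, ()), (2, 2, 10, ()))]

theorem base_3_3_25 : HasSS (CP [3, 3, 25]) :=
  hasSS_of_list (G := ZMod 3 × ZMod 3 × ZMod 25 × Unit) bl_3_3_25
    (by decide +kernel) (by decide +kernel) (by decide +kernel) (by decide +kernel)
    ((show 2 * bl_3_3_25.length + 1 = [3, 3, 25].prod from by decide +kernel).trans (card_CP [3, 3, 25]).symm)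

def bl_3_3_5_5 : List ((ZMod 3 × ZMod 3 × ZMod 5 × ZMod 5 × Unit) × (ZMod 3 × ZMod 3 × ZMod 5 × ZMod 5 × Unit)) :=
  [((0, 0, 0, 1, ()), (0, 2, 2, 3, ())),
   ((0, 0, 0, 2, ()), (1, 1, 1, 1, ())),
   ((0, 0, 0, 3, ()), (1, 2, 2, 4, ())),
   ((0, 0, 0, 4, ()), (2, 1, 4, 3, ())),
   ((0, 0, 1, 0, ()), (1, 1, 2, 3, ())),
   ((0, 0, 1, 1, ()), (0, 0, 1, 4, ())),
   ((0, 0, 1, 2, ()), (1, 2, 0, 1, ())),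
   ((0, 0, 1, 3, ()), (2, 2, 1, 0, ())),
   ((0, 0, 2, 0, ()), (0, 1, 3, 4, ())),
   ((0, 0, 2, 1, ()), (1, 1, 0, 4, ())),
   ((0, 0, 2, 2, ()), (2, 1, 2, 2, ())),
   ((0, 0, 2, 3, ()), (1, 0, 4, 4, ())),
   ((0, 0, 2, 4, ()), (2, 1, 3, 2, ())),
   ((0, 0, 3, 0, ()), (2, 2, 4, 1, ())),
   ((0, 0, 3, 1, ()), (2, 2, 2, 0, ())),
   ((0, 0, 3, 2, ()), (0, 2, 1, 4, ())),
   ((0, 0, 3, 3, ()), (0, 2, 2, 0, ())),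
   ((0, 0, 3, 4, ()), (1, 0, 3, 4, ())),
   ((0, 0, 4, 0, ()), (1, 1, 1, 2, ())),
   ((0, 0, 4, 1, ()), (2, 0, 3, 2, ())),
   ((0, 0, 4, 2, ()), (2, 2, 0, 4, ())),
   ((0, 0, 4, 3, ()), (2, 1, 3, 3, ())),
   ((0, 0, 4, 4, ()), (0, 1, 0, 1, ())),
   ((0, 1, 0, 0, ()), (0, 1, 0, 4, ())),
   ((0, 1, 0, 2, ()), (0, 2, 2, 4, ())),
   ((0, 1, 0, 3, ()), (2, 1, 1, 1, ())),
   ((0, 1, 1, 0, ()), (2, 2, 1, 1, ())),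
   ((0, 1, 1, 1, ()), (1, 1, 2, 1, ())),
   ((0, 1, 1, 2, ()), (2, 2, 4, 2, ())),
   ((0, 1, 1, 3, ()), (1, 0, 1, 0, ())),
   ((0, 1, 1, 4, ()), (2, 1, 2, 4, ())),
   ((0, 1, 2, 0, ()), (1, 2, 4, 1, ())),
   ((0, 1, 2, 1, ()), (1, 1, 4, 0, ())),
   ((0, 1, 2, 2, ()), (2, 1, 1, 0, ())),
   ((0, 1, 2, 3, ()), (2, 1, 4, 4, ())),
   ((0, 1, 2, 4, ()), (2, 0, 0, 1, ())),
   ((0, 1, 3, 0, ()), (1, 0, 2, 1, ())),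
   ((0, 1, 3, 1, ()), (2, 1, 0, 0, ())),
   ((0, 1, 3, 2, ()), (1, 0, 1, 3, ())),
   ((0, 1, 3, 3, ()), (2, 0, 3, 4, ())),
   ((0, 1, 4, 0, ()), (2, 0, 1, 0, ())),
   ((0, 1, 4, 1, ()), (1, 1, 1, 3, ())),
   ((0, 1, 4, 2, ()), (1, 0, 4, 0, ())),
   ((0, 1, 4, 3, ()), (2, 2, 3, 1, ())),
   ((0, 1, 4, 4, ()), (2, 0, 4, 4, ())),
   ((0, 2, 0, 0, ()), (1, 0, 2, 0, ())),
   ((0, 2, 0, 1, ()), (1, 1, 4, 4, ())),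
   ((0, 2, 0, 2, ()), (0, 2, 4, 2, ())),
   ((0, 2, 0, 3, ()), (1, 0, 4, 3, ())),
   ((0, 2, 0, 4, ()), (2, 0, 4, 1, ())),
   ((0, 2, 1, 0, ()), (1, 0, 4, 1, ())),
   ((0, 2, 1, 1, ()), (1, 1, 4, 1, ())),
   ((0, 2, 1, 2, ()), (1, 1, 3, 4, ())),
   ((0, 2, 1, 3, ()), (2, 0, 4, 0, ())),
   ((0, 2, 2, 1, ()), (2, 2, 1, 3, ())),
   ((0, 2, 2, 2, ()), (2, 1, 3, 0, ())),
   ((0, 2, 3, 0, ()), (1, 2, 3, 2, ())),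
   ((0, 2, 3, 1, ()), (1, 2, 0, 4, ())),
   ((0, 2, 3, 2, ()), (1, 1, 2, 2, ())),
   ((0, 2, 3, 3, ()), (1, 2, 1, 0, ())),
   ((0, 2, 3, 4, ()), (2, 2, 4, 3, ())),
   ((0, 2, 4, 0, ()), (1, 0, 0, 0, ())),
   ((0, 2, 4, 1, ()), (1, 0, 0, 3, ())),
   ((0, 2, 4, 3, ()), (2, 1, 4, 1, ())),
   ((0, 2, 4, 4, ()), (2, 1, 1, 2, ())),
   ((1, 0, 0, 1, ()), (2, 0, 3, 1, ())),
   ((1, 0, 0, 2, ()), (1, 1, 4, 3, ())),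
   ((1, 0, 0, 4, ()), (2, 0, 4, 2, ())),
   ((1, 0, 1, 1, ()), (2, 0, 1, 2, ())),
   ((1, 0, 1, 2, ()), (2, 0, 2, 3, ())),
   ((1, 0, 1, 4, ()), (2, 2, 2, 3, ())),
   ((1, 0, 2, 2, ()), (1, 1, 2, 4, ())),
   ((1, 0, 2, 3, ()), (2, 2, 0, 0, ())),
   ((1, 0, 2, 4, ()), (1, 0, 3, 1, ())),
   ((1, 0, 3, 0, ()), (1, 2, 1, 4, ())),
   ((1, 0, 3, 2, ()), (2, 2, 0, 1, ())),
   ((1, 0, 3, 3, ()), (1, 2, 3, 0, ())),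
   ((1, 0, 4, 2, ()), (1, 2, 1, 2, ())),
   ((1, 1, 0, 0, ()), (1, 2, 4, 4, ())),
   ((1, 1, 0, 1, ()), (1, 2, 0, 2, ())),
   ((1, 1, 0, 2, ()), (2, 0, 0, 3, ())),
   ((1, 1, 0, 3, ()), (2, 1, 0, 2, ())),
   ((1, 1, 1, 0, ()), (2, 2, 3, 4, ())),
   ((1, 1, 1, 4, ()), (1, 2, 1, 3, ())),
   ((1, 1, 2, 0, ()), (2, 1, 1, 4, ())),
   ((1, 1, 3, 0, ()), (1, 2, 0, 0, ())),
   ((1, 1, 3, 1, ()), (2, 2, 2, 2, ())),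
   ((1, 1, 3, 2, ()), (2, 0, 1, 1, ())),
   ((1, 1, 3, 3, ()), (2, 2, 1, 2, ())),
   ((1, 1, 4, 2, ()), (2, 1, 2, 0, ())),
   ((1, 2, 0, 3, ()), (1, 2, 3, 3, ())),
   ((1, 2, 1, 1, ()), (2, 2, 1, 4, ())),
   ((1, 2, 2, 0, ()), (2, 2, 4, 0, ())),
   ((1, 2, 2, 1, ()), (1, 2, 4, 3, ())),
   ((1, 2, 2, 2, ()), (1, 2, 3, 1, ())),
   ((1, 2, 2, 3, ()), (1, 2, 3, 4, ())),
   ((1, 2, 4, 0, ()), (2, 1, 2, 3, ())),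
   ((1, 2, 4, 2, ()), (2, 0, 4, 3, ())),
   ((2, 0, 0, 0, ()), (2, 0, 2, 4, ())),
   ((2, 0, 0, 2, ()), (2, 1, 4, 2, ())),
   ((2, 0, 0, 4, ()), (2, 2, 4, 4, ())),
   ((2, 0, 1, 3, ()), (2, 2, 0, 2, ())),
   ((2, 0, 1, 4, ()), (2, 1, 4, 0, ())),
   ((2, 0, 2, 0, ()), (2, 0, 3, 3, ())),
   ((2, 0, 2, 1, ()), (2, 1, 2, 1, ())),
   ((2, 0, 2, 2, ()), (2, 2, 3, 0, ())),
   ((2, 0, 3, 0, ()), (2, 1, 0, 4, ())),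
   ((2, 1, 0, 1, ()), (2, 2, 3, 3, ())),
   ((2, 1, 0, 3, ()), (2, 2, 3, 2, ())),
   ((2, 1, 1, 3, ()), (2, 1, 3, 4, ())),
   ((2, 1, 3, 1, ()), (2, 2, 2, 4, ())),
   ((2, 2, 0, 3, ()), (2, 2, 2, 1, ()))]

theorem base_3_3_5_5 : HasSS (CP [3, 3, 5, 5]) :=
  hasSS_of_list (G := ZMod 3 × ZMod 3 × ZMod 5 × ZMod 5 × Unit) bl_3_3_5_5
    (by decide +kernel) (by decide +kernel) (by decide +kernel) (by decide +kernel)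
    ((show 2 * bl_3_3_5_5.length + 1 = [3, 3, 5, 5].prod from by decide +kernel).trans (card_CP [3, 3, 5, 5]).symm)

def bl_3_81 : List ((ZMod 3 × ZMod 81 × Unit) × (ZMod 3 × ZMod 81 × Unit)) :=
  [((0, 1, ()), (2, 73, ())),
   ((0, 2, ()), (1, 34, ())),
   ((0, 3, ()), (1, 72, ())),
   ((0, 4, ()), (1, 58, ())),
   ((0, 5, ()), (0, 71, ())),
   ((0, 6, ()), (0, 77, ())),
   ((0, 7, ()), (2, 71, ())),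
   ((0, 8, ()), (2, 6, ())),
   ((0, 9, ()), (2, 13, ())),
   ((0, 10, ()), (0, 61, ())),
   ((0, 11, ()), (2, 14, ())),
   ((0, 12, ()), (1, 62, ())),
   ((0, 13, ()), (1, 71, ())),
   ((0, 14, ()), (0, 41, ())),
   ((0, 15, ()), (1, 79, ())),
   ((0, 16, ()), (0, 69, ())),
   ((0, 17, ()), (0, 39, ())),
   ((0, 18, ()), (2, 43, ())),
   ((0, 19, ()), (1, 39, ())),
   ((0, 20, ()), (2, 8, ())),
   ((0, 21, ()), (2, 2, ())),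
   ((0, 22, ()), (1, 69, ())),
   ((0, 23, ()), (1, 15, ())),
   ((0, 24, ()), (2, 33, ())),
   ((0, 25, ()), (1, 80, ())),
   ((0, 26, ()), (2, 63, ())),
   ((0, 27, ()), (1, 26, ())),
   ((0, 28, ()), (2, 52, ())),
   ((0, 29, ()), (0, 66, ())),
   ((0, 30, ()), (0, 36, ())),
   ((0, 31, ()), (2, 4, ())),
   ((0, 32, ()), (2, 24, ())),
   ((0, 33, ()), (2, 10, ())),
   ((0, 34, ()), (1, 23, ())),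
   ((0, 35, ()), (1, 35, ())),
   ((0, 37, ()), (2, 59, ())),
   ((0, 38, ()), (2, 16, ())),
   ((0, 40, ()), (0, 78, ())),
   ((0, 42, ()), (1, 37, ())),
   ((0, 43, ()), (1, 49, ())),
   ((0, 44, ()), (2, 23, ())),
   ((0, 45, ()), (1, 5, ())),
   ((0, 46, ()), (1, 30, ())),
   ((0, 47, ()), (1, 18, ())),
   ((0, 48, ()), (2, 69, ())),
   ((0, 49, ()), (1, 17, ())),
   ((0, 50, ()), (2, 15, ())),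
   ((0, 51, ()), (1, 21, ())),
   ((0, 52, ()), (2, 67, ())),
   ((0, 53, ()), (1, 1, ())),
   ((0, 54, ()), (1, 64, ())),
   ((0, 55, ()), (1, 0, ())),
   ((0, 56, ()), (0, 72, ())),
   ((0, 57, ()), (2, 12, ())),
   ((0, 58, ()), (0, 65, ())),
   ((0, 59, ()), (1, 66, ())),
   ((0, 60, ()), (0, 73, ())),
   ((0, 62, ()), (0, 64, ())),
   ((0, 63, ()), (2, 35, ())),
   ((0, 67, ()), (2, 56, ())),
   ((0, 68, ()), (2, 20, ())),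
   ((0, 70, ()), (1, 60, ())),
   ((0, 74, ()), (2, 36, ())),
   ((0, 75, ()), (2, 77, ())),
   ((0, 76, ()), (1, 28, ())),
   ((0, 79, ()), (1, 22, ())),
   ((0, 80, ()), (1, 33, ())),
   ((1, 2, ()), (1, 31, ())),
   ((1, 3, ()), (2, 46, ())),
   ((1, 4, ()), (2, 29, ())),
   ((1, 6, ()), (1, 7, ())),
   ((1, 8, ()), (2, 11, ())),
   ((1, 9, ()), (1, 32, ())),
   ((1, 10, ()), (2, 26, ())),
   ((1, 11, ()), (1, 36, ())),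
   ((1, 12, ()), (2, 80, ())),
   ((1, 13, ()), (1, 24, ())),
   ((1, 14, ()), (2, 54, ())),
   ((1, 16, ()), (1, 61, ())),
   ((1, 19, ()), (2, 50, ())),
   ((1, 20, ()), (1, 67, ())),
   ((1, 25, ()), (2, 19, ())),
   ((1, 27, ()), (1, 45, ())),
   ((1, 29, ()), (2, 1, ())),
   ((1, 38, ()), (2, 51, ())),
   ((1, 40, ()), (1, 43, ())),
   ((1, 41, ()), (2, 45, ())),
   ((1, 42, ()), (2, 22, ())),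
   ((1, 44, ()), (2, 9, ())),
   ((1, 46, ()), (2, 64, ())),
   ((1, 47, ()), (2, 62, ())),
   ((1, 48, ()), (2, 53, ())),
   ((1, 50, ()), (2, 32, ())),
   ((1, 51, ()), (2, 37, ())),
   ((1, 52, ()), (2, 7, ())),
   ((1, 53, ()), (1, 73, ())),
   ((1, 54, ()), (2, 68, ())),
   ((1, 55, ()), (1, 76, ())),
   ((1, 56, ()), (2, 57, ())),
   ((1, 57, ()), (2, 18, ())),
   ((1, 59, ()), (2, 40, ())),
   ((1, 63, ()), (1, 77, ())),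
   ((1, 65, ()), (1, 74, ())),
   ((1, 68, ()), (2, 61, ())),
   ((1, 70, ()), (2, 28, ())),
   ((1, 75, ()), (2, 31, ())),
   ((1, 78, ()), (2, 27, ())),
   ((2, 0, ()), (2, 42, ())),
   ((2, 3, ()), (2, 49, ())),
   ((2, 5, ()), (2, 17, ())),
   ((2, 21, ()), (2, 76, ())),
   ((2, 25, ()), (2, 44, ())),
   ((2, 30, ()), (2, 47, ())),
   ((2, 34, ()), (2, 75, ())),
   ((2, 38, ()), (2, 70, ())),
   ((2, 39, ()), (2, 72, ())),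
   ((2, 41, ()), (2, 65, ())),
   ((2, 48, ()), (2, 79, ())),
   ((2, 55, ()), (2, 60, ())),
   ((2, 58, ()), (2, 66, ())),
   ((2, 74, ()), (2, 78, ()))]

theorem base_3_81 : HasSS (CP [3, 81]) :=
  hasSS_of_list (G := ZMod 3 × ZMod 81 × Unit) bl_3_81
    (by decide +kernel) (by decide +kernel) (by decide +kernel) (by decide +kernel)
    ((show 2 * bl_3_81.length + 1 = [3, 81].prod from by decide +kernel).trans (card_CP [3, 81]).symm)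

def bl_9_27 : List ((ZMod 9 × ZMod 27 × Unit) × (ZMod 9 × ZMod 27 × Unit)) :=
  [((0, 1, ()), (0, 16, ())),
   ((0, 2, ()), (4, 7, ())),
   ((0, 3, ()), (2, 19, ())),
   ((0, 4, ()), (2, 8, ())),
   ((0, 5, ()), (2, 22, ())),
   ((0, 6, ()), (7, 26, ())),
   ((0, 7, ()), (8, 11, ())),
   ((0, 8, ()), (4, 15, ())),
   ((0, 9, ()), (8, 26, ())),
   ((0, 10, ()), (2, 7, ())),
   ((0, 11, ()), (7, 1, ())),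
   ((0, 12, ()), (5, 14, ())),
   ((0, 13, ()), (1, 13, ())),
   ((0, 14, ()), (2, 14, ())),
   ((0, 15, ()), (4, 25, ())),
   ((0, 17, ()), (0, 21, ())),
   ((0, 18, ()), (6, 13, ())),
   ((0, 19, ()), (8, 4, ())),
   ((0, 20, ()), (1, 0, ())),
   ((0, 22, ()), (4, 10, ())),
   ((0, 23, ()), (1, 5, ())),
   ((0, 24, ()), (5, 3, ())),
   ((0, 25, ()), (7, 24, ())),
   ((0, 26, ()), (1, 16, ())),
   ((1, 1, ()), (8, 9, ())),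
   ((1, 2, ()), (4, 5, ())),
   ((1, 3, ()), (8, 16, ())),
   ((1, 4, ()), (7, 5, ())),
   ((1, 6, ()), (6, 15, ())),
   ((1, 7, ()), (4, 26, ())),
   ((1, 8, ()), (2, 5, ())),
   ((1, 9, ()), (7, 21, ())),
   ((1, 10, ()), (8, 2, ())),
   ((1, 11, ()), (6, 0, ())),
   ((1, 12, ()), (2, 17, ())),
   ((1, 14, ()), (2, 9, ())),
   ((1, 15, ()), (2, 21, ())),
   ((1, 17, ()), (5, 19, ())),
   ((1, 18, ()), (4, 20, ())),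
   ((1, 19, ()), (7, 25, ())),
   ((1, 20, ()), (8, 22, ())),
   ((1, 21, ()), (6, 24, ())),
   ((1, 22, ()), (3, 7, ())),
   ((1, 23, ()), (7, 3, ())),
   ((1, 24, ()), (5, 10, ())),
   ((1, 25, ()), (7, 0, ())),
   ((1, 26, ()), (6, 26, ())),
   ((2, 0, ()), (5, 23, ())),
   ((2, 1, ()), (8, 15, ())),
   ((2, 2, ()), (3, 22, ())),
   ((2, 3, ()), (4, 12, ())),
   ((2, 4, ()), (3, 16, ())),
   ((2, 6, ()), (3, 17, ())),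
   ((2, 10, ()), (5, 5, ())),
   ((2, 11, ()), (2, 20, ())),
   ((2, 12, ()), (2, 26, ())),
   ((2, 13, ()), (6, 2, ())),
   ((2, 15, ()), (4, 8, ())),
   ((2, 16, ()), (5, 17, ())),
   ((2, 18, ()), (5, 8, ())),
   ((2, 23, ()), (4, 9, ())),
   ((2, 24, ()), (7, 4, ())),
   ((2, 25, ()), (3, 19, ())),
   ((3, 0, ()), (8, 18, ())),
   ((3, 1, ()), (8, 14, ())),
   ((3, 2, ()), (8, 17, ())),
   ((3, 3, ()), (5, 2, ())),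
   ((3, 4, ()), (6, 20, ())),
   ((3, 5, ()), (3, 11, ())),
   ((3, 6, ()), (7, 7, ())),
   ((3, 8, ()), (6, 12, ())),
   ((3, 9, ()), (3, 12, ())),
   ((3, 10, ()), (5, 21, ())),
   ((3, 13, ()), (7, 19, ())),
   ((3, 14, ()), (8, 19, ())),
   ((3, 15, ()), (7, 18, ())),
   ((3, 18, ()), (6, 5, ())),
   ((3, 20, ()), (4, 21, ())),
   ((3, 21, ()), (6, 4, ())),
   ((3, 23, ()), (5, 18, ())),
   ((3, 24, ()), (7, 20, ())),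
   ((3, 25, ()), (8, 6, ())),
   ((3, 26, ()), (8, 0, ())),
   ((4, 0, ()), (6, 21, ())),
   ((4, 1, ()), (5, 20, ())),
   ((4, 2, ()), (7, 8, ())),
   ((4, 3, ()), (6, 9, ())),
   ((4, 4, ()), (8, 12, ())),
   ((4, 6, ()), (7, 17, ())),
   ((4, 11, ()), (7, 23, ())),
   ((4, 13, ()), (6, 18, ())),
   ((4, 14, ()), (7, 22, ())),
   ((4, 16, ()), (4, 24, ())),
   ((4, 17, ()), (8, 21, ())),
   ((4, 18, ()), (8, 8, ())),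
   ((4, 19, ()), (6, 22, ())),
   ((4, 22, ()), (5, 11, ())),
   ((4, 23, ()), (5, 22, ())),
   ((5, 0, ()), (8, 7, ())),
   ((5, 1, ()), (8, 25, ())),
   ((5, 4, ()), (8, 13, ())),
   ((5, 6, ()), (7, 2, ())),
   ((5, 7, ()), (6, 25, ())),
   ((5, 9, ()), (5, 26, ())),
   ((5, 12, ()), (8, 3, ())),
   ((5, 13, ()), (7, 15, ())),
   ((5, 15, ()), (6, 1, ())),
   ((5, 16, ()), (6, 19, ())),
   ((5, 24, ()), (8, 24, ())),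
   ((5, 25, ()), (7, 16, ())),
   ((6, 3, ()), (6, 14, ())),
   ((6, 6, ()), (7, 14, ())),
   ((6, 7, ()), (7, 11, ())),
   ((6, 8, ()), (6, 10, ())),
   ((6, 11, ()), (7, 13, ())),
   ((6, 16, ()), (6, 23, ())),
   ((6, 17, ()), (8, 5, ())),
   ((7, 6, ()), (8, 20, ())),
   ((7, 9, ()), (7, 10, ())),
   ((7, 12, ()), (8, 10, ())),
   ((8, 1, ()), (8, 23, ()))]

theorem base_9_27 : HasSS (CP [9, 27]) :=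
  hasSS_of_list (G := ZMod 9 × ZMod 27 × Unit) bl_9_27
    (by decide +kernel) (by decide +kernel) (by decide +kernel) (by decide +kernel)
    ((show 2 * bl_9_27.length + 1 = [9, 27].prod from by decide +kernel).trans (card_CP [9, 27]).symm)

def bl_3_3_27 : List ((ZMod 3 × ZMod 3 × ZMod 27 × Unit) × (ZMod 3 × ZMod 3 × ZMod 27 × Unit)) :=
  [((0, 0, 1, ()), (1, 0, 7, ())),
   ((0, 0, 2, ()), (1, 0, 20, ())),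
   ((0, 0, 3, ()), (1, 2, 3, ())),
   ((0, 0, 4, ()), (1, 1, 13, ())),
   ((0, 0, 5, ()), (1, 2, 18, ())),
   ((0, 0, 6, ()), (0, 2, 14, ())),
   ((0, 0, 7, ()), (1, 0, 19, ())),
   ((0, 0, 8, ()), (0, 0, 16, ())),
   ((0, 0, 9, ()), (2, 1, 14, ())),
   ((0, 0, 10, ()), (2, 1, 2, ())),
   ((0, 0, 11, ()), (1, 1, 18, ())),
   ((0, 0, 12, ()), (0, 1, 0, ())),
   ((0, 0, 13, ()), (2, 0, 2, ())),
   ((0, 0, 14, ()), (0, 0, 21, ())),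
   ((0, 0, 15, ()), (0, 1, 22, ())),
   ((0, 0, 17, ()), (1, 0, 21, ())),
   ((0, 0, 18, ()), (1, 1, 8, ())),
   ((0, 0, 19, ()), (0, 2, 8, ())),
   ((0, 0, 20, ()), (2, 2, 26, ())),
   ((0, 0, 22, ()), (1, 2, 20, ())),
   ((0, 0, 23, ()), (1, 2, 2, ())),
   ((0, 0, 24, ()), (0, 2, 4, ())),
   ((0, 0, 25, ()), (0, 1, 15, ())),
   ((0, 0, 26, ()), (2, 0, 11, ())),
   ((0, 1, 1, ()), (2, 1, 7, ())),
   ((0, 1, 2, ()), (1, 2, 22, ())),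
   ((0, 1, 3, ()), (2, 0, 15, ())),
   ((0, 1, 4, ()), (1, 2, 6, ())),
   ((0, 1, 5, ()), (2, 0, 9, ())),
   ((0, 1, 6, ()), (1, 2, 11, ())),
   ((0, 1, 7, ()), (0, 2, 16, ())),
   ((0, 1, 8, ()), (2, 2, 18, ())),
   ((0, 1, 9, ()), (2, 0, 10, ())),
   ((0, 1, 10, ()), (2, 0, 21, ())),
   ((0, 1, 11, ()), (2, 1, 6, ())),
   ((0, 1, 12, ()), (2, 0, 4, ())),
   ((0, 1, 13, ()), (1, 2, 8, ())),
   ((0, 1, 14, ()), (0, 2, 18, ())),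
   ((0, 1, 16, ()), (2, 2, 25, ())),
   ((0, 1, 17, ()), (1, 0, 4, ())),
   ((0, 1, 18, ()), (2, 1, 4, ())),
   ((0, 1, 19, ()), (2, 2, 12, ())),
   ((0, 1, 20, ()), (1, 1, 23, ())),
   ((0, 1, 21, ()), (2, 0, 8, ())),
   ((0, 1, 23, ()), (2, 1, 22, ())),
   ((0, 1, 24, ()), (1, 0, 26, ())),
   ((0, 1, 25, ()), (1, 0, 2, ())),
   ((0, 1, 26, ()), (2, 1, 10, ())),
   ((0, 2, 0, ()), (1, 2, 7, ())),
   ((0, 2, 1, ()), (0, 2, 10, ())),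
   ((0, 2, 2, ()), (1, 0, 6, ())),
   ((0, 2, 3, ()), (2, 1, 5, ())),
   ((0, 2, 5, ()), (2, 0, 22, ())),
   ((0, 2, 6, ()), (2, 0, 5, ())),
   ((0, 2, 7, ()), (1, 0, 17, ())),
   ((0, 2, 9, ()), (1, 1, 14, ())),
   ((0, 2, 11, ()), (0, 2, 21, ())),
   ((0, 2, 12, ()), (1, 0, 15, ())),
   ((0, 2, 13, ()), (1, 1, 7, ())),
   ((0, 2, 15, ()), (2, 1, 18, ())),
   ((0, 2, 17, ()), (1, 1, 16, ())),
   ((0, 2, 19, ()), (1, 0, 11, ())),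
   ((0, 2, 20, ()), (2, 2, 24, ())),
   ((0, 2, 22, ()), (2, 0, 6, ())),
   ((0, 2, 23, ()), (2, 2, 14, ())),
   ((0, 2, 24, ()), (2, 2, 16, ())),
   ((0, 2, 25, ()), (2, 1, 13, ())),
   ((0, 2, 26, ()), (1, 2, 26, ())),
   ((1, 0, 0, ()), (2, 2, 3, ())),
   ((1, 0, 1, ()), (2, 1, 15, ())),
   ((1, 0, 3, ()), (2, 1, 3, ())),
   ((1, 0, 5, ()), (2, 1, 16, ())),
   ((1, 0, 8, ()), (1, 2, 25, ())),
   ((1, 0, 9, ()), (1, 0, 12, ())),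
   ((1, 0, 10, ()), (2, 0, 23, ())),
   ((1, 0, 13, ()), (1, 2, 0, ())),
   ((1, 0, 14, ()), (1, 1, 11, ())),
   ((1, 0, 16, ()), (1, 2, 21, ())),
   ((1, 0, 18, ()), (1, 1, 9, ())),
   ((1, 0, 22, ()), (2, 1, 1, ())),
   ((1, 0, 23, ()), (2, 2, 11, ())),
   ((1, 0, 24, ()), (1, 2, 10, ())),
   ((1, 0, 25, ()), (1, 1, 24, ())),
   ((1, 1, 0, ()), (2, 0, 19, ())),
   ((1, 1, 1, ()), (2, 0, 24, ())),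
   ((1, 1, 2, ()), (2, 1, 24, ())),
   ((1, 1, 3, ()), (1, 1, 17, ())),
   ((1, 1, 4, ()), (2, 2, 5, ())),
   ((1, 1, 5, ()), (2, 0, 17, ())),
   ((1, 1, 6, ()), (2, 1, 25, ())),
   ((1, 1, 10, ()), (2, 2, 1, ())),
   ((1, 1, 12, ()), (1, 2, 13, ())),
   ((1, 1, 15, ()), (1, 2, 15, ())),
   ((1, 1, 19, ()), (2, 0, 1, ())),
   ((1, 1, 20, ()), (1, 2, 23, ())),
   ((1, 1, 21, ()), (2, 1, 23, ())),
   ((1, 1, 22, ()), (2, 1, 20, ())),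
   ((1, 1, 25, ()), (1, 2, 19, ())),
   ((1, 1, 26, ()), (2, 1, 19, ())),
   ((1, 2, 1, ()), (2, 1, 21, ())),
   ((1, 2, 4, ()), (1, 2, 5, ())),
   ((1, 2, 9, ()), (2, 2, 19, ())),
   ((1, 2, 12, ()), (2, 1, 9, ())),
   ((1, 2, 14, ()), (2, 2, 13, ())),
   ((1, 2, 16, ()), (2, 1, 0, ())),
   ((1, 2, 17, ()), (2, 2, 7, ())),
   ((1, 2, 24, ()), (2, 2, 21, ())),
   ((2, 0, 0, ()), (2, 2, 2, ())),
   ((2, 0, 3, ()), (2, 1, 11, ())),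
   ((2, 0, 7, ()), (2, 0, 18, ())),
   ((2, 0, 12, ()), (2, 2, 10, ())),
   ((2, 0, 13, ()), (2, 2, 8, ())),
   ((2, 0, 14, ()), (2, 1, 26, ())),
   ((2, 0, 16, ()), (2, 2, 20, ())),
   ((2, 0, 20, ()), (2, 0, 26, ())),
   ((2, 0, 25, ()), (2, 2, 9, ())),
   ((2, 1, 8, ()), (2, 1, 12, ())),
   ((2, 1, 17, ()), (2, 2, 23, ())),
   ((2, 2, 0, ()), (2, 2, 15, ())),
   ((2, 2, 4, ()), (2, 2, 6, ())),
   ((2, 2, 17, ()), (2, 2, 22, ()))]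

theorem base_3_3_27 : HasSS (CP [3, 3, 27]) :=
  hasSS_of_list (G := ZMod 3 × ZMod 3 × ZMod 27 × Unit) bl_3_3_27
    (by decide +kernel) (by decide +kernel) (by decide +kernel) (by decide +kernel)
    ((show 2 * bl_3_3_27.length + 1 = [3, 3, 27].prod from by decide +kernel).trans (card_CP [3, 3, 27]).symm)

def bl_3_9_9 : List ((ZMod 3 × ZMod 9 × ZMod 9 × Unit) × (ZMod 3 × ZMod 9 × ZMod 9 × Unit)) :=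
  [((0, 0, 1, ()), (2, 0, 8, ())),
   ((0, 0, 2, ()), (0, 2, 1, ())),
   ((0, 0, 3, ()), (2, 6, 2, ())),
   ((0, 0, 4, ()), (2, 3, 3, ())),
   ((0, 0, 5, ()), (1, 8, 0, ())),
   ((0, 0, 6, ()), (1, 0, 5, ())),
   ((0, 0, 7, ()), (0, 3, 1, ())),
   ((0, 0, 8, ()), (0, 1, 2, ())),
   ((0, 1, 0, ()), (1, 7, 0, ())),
   ((0, 1, 1, ()), (1, 3, 0, ())),
   ((0, 1, 3, ()), (0, 6, 2, ())),
   ((0, 1, 4, ()), (0, 4, 2, ())),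
   ((0, 1, 5, ()), (2, 0, 5, ())),
   ((0, 1, 6, ()), (2, 1, 5, ())),
   ((0, 1, 7, ()), (0, 8, 0, ())),
   ((0, 1, 8, ()), (0, 8, 4, ())),
   ((0, 2, 0, ()), (2, 1, 6, ())),
   ((0, 2, 2, ()), (1, 0, 4, ())),
   ((0, 2, 3, ()), (0, 8, 3, ())),
   ((0, 2, 4, ()), (2, 8, 0, ())),
   ((0, 2, 5, ()), (1, 0, 3, ())),
   ((0, 2, 6, ()), (2, 0, 2, ())),
   ((0, 2, 7, ()), (1, 7, 2, ())),
   ((0, 2, 8, ()), (1, 4, 1, ())),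
   ((0, 3, 0, ()), (1, 1, 3, ())),
   ((0, 3, 2, ()), (1, 4, 7, ())),
   ((0, 3, 3, ()), (0, 5, 6, ())),
   ((0, 3, 4, ()), (2, 4, 4, ())),
   ((0, 3, 5, ()), (1, 7, 8, ())),
   ((0, 3, 6, ()), (1, 2, 3, ())),
   ((0, 3, 7, ()), (2, 1, 4, ())),
   ((0, 3, 8, ()), (1, 3, 6, ())),
   ((0, 4, 0, ()), (0, 4, 8, ())),
   ((0, 4, 1, ()), (1, 6, 1, ())),
   ((0, 4, 3, ()), (0, 7, 7, ())),
   ((0, 4, 4, ()), (2, 8, 8, ())),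
   ((0, 4, 5, ()), (1, 5, 3, ())),
   ((0, 4, 6, ()), (0, 5, 7, ())),
   ((0, 4, 7, ()), (2, 7, 0, ())),
   ((0, 5, 0, ()), (1, 3, 8, ())),
   ((0, 5, 1, ()), (2, 6, 5, ())),
   ((0, 5, 2, ()), (2, 0, 0, ())),
   ((0, 5, 3, ()), (1, 2, 0, ())),
   ((0, 5, 4, ()), (1, 0, 0, ())),
   ((0, 5, 5, ()), (1, 3, 2, ())),
   ((0, 5, 8, ()), (2, 2, 8, ())),
   ((0, 6, 0, ()), (2, 2, 7, ())),
   ((0, 6, 1, ()), (1, 4, 2, ())),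
   ((0, 6, 3, ()), (2, 8, 3, ())),
   ((0, 6, 4, ()), (2, 1, 1, ())),
   ((0, 6, 5, ()), (1, 7, 4, ())),
   ((0, 6, 6, ()), (1, 5, 4, ())),
   ((0, 6, 7, ()), (1, 8, 5, ())),
   ((0, 6, 8, ()), (1, 2, 5, ())),
   ((0, 7, 0, ()), (1, 8, 6, ())),
   ((0, 7, 1, ()), (2, 7, 4, ())),
   ((0, 7, 2, ()), (1, 5, 7, ())),
   ((0, 7, 3, ()), (1, 8, 7, ())),
   ((0, 7, 4, ()), (1, 2, 8, ())),
   ((0, 7, 5, ()), (1, 3, 4, ())),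
   ((0, 7, 6, ()), (1, 6, 7, ())),
   ((0, 7, 8, ()), (2, 3, 8, ())),
   ((0, 8, 1, ()), (1, 5, 6, ())),
   ((0, 8, 2, ()), (2, 5, 3, ())),
   ((0, 8, 5, ()), (1, 8, 1, ())),
   ((0, 8, 6, ()), (1, 1, 7, ())),
   ((0, 8, 7, ()), (2, 2, 4, ())),
   ((0, 8, 8, ()), (1, 8, 3, ())),
   ((1, 0, 1, ()), (2, 8, 4, ())),
   ((1, 0, 2, ()), (2, 3, 7, ())),
   ((1, 0, 6, ()), (1, 3, 3, ())),
   ((1, 0, 7, ()), (2, 3, 5, ())),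
   ((1, 0, 8, ()), (2, 5, 8, ())),
   ((1, 1, 0, ()), (1, 8, 8, ())),
   ((1, 1, 1, ()), (1, 6, 3, ())),
   ((1, 1, 2, ()), (2, 8, 6, ())),
   ((1, 1, 4, ()), (2, 2, 6, ())),
   ((1, 1, 5, ()), (2, 0, 7, ())),
   ((1, 1, 6, ()), (2, 4, 8, ())),
   ((1, 1, 8, ()), (1, 3, 1, ())),
   ((1, 2, 1, ()), (1, 8, 2, ())),
   ((1, 2, 2, ()), (2, 2, 5, ())),
   ((1, 2, 4, ()), (1, 7, 1, ())),
   ((1, 2, 6, ()), (1, 6, 8, ())),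
   ((1, 2, 7, ()), (2, 4, 3, ())),
   ((1, 3, 5, ()), (2, 7, 6, ())),
   ((1, 3, 7, ()), (1, 6, 0, ())),
   ((1, 4, 0, ()), (2, 5, 1, ())),
   ((1, 4, 3, ()), (2, 1, 7, ())),
   ((1, 4, 4, ()), (2, 7, 7, ())),
   ((1, 4, 5, ()), (2, 3, 4, ())),
   ((1, 4, 6, ()), (2, 6, 3, ())),
   ((1, 4, 8, ()), (2, 0, 6, ())),
   ((1, 5, 0, ()), (1, 6, 5, ())),
   ((1, 5, 1, ()), (2, 2, 3, ())),
   ((1, 5, 2, ()), (2, 5, 2, ())),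
   ((1, 5, 5, ()), (2, 0, 4, ())),
   ((1, 5, 8, ()), (2, 1, 0, ())),
   ((1, 6, 2, ()), (2, 1, 8, ())),
   ((1, 6, 4, ()), (1, 7, 6, ())),
   ((1, 6, 6, ()), (2, 0, 3, ())),
   ((1, 7, 3, ()), (2, 4, 2, ())),
   ((1, 7, 5, ()), (1, 7, 7, ())),
   ((1, 8, 4, ()), (2, 3, 2, ())),
   ((2, 0, 1, ()), (2, 8, 1, ())),
   ((2, 1, 2, ()), (2, 5, 6, ())),
   ((2, 1, 3, ()), (2, 5, 0, ())),
   ((2, 2, 0, ()), (2, 5, 5, ())),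
   ((2, 2, 1, ()), (2, 7, 5, ())),
   ((2, 2, 2, ()), (2, 6, 1, ())),
   ((2, 3, 0, ()), (2, 4, 7, ())),
   ((2, 3, 1, ()), (2, 3, 6, ())),
   ((2, 4, 0, ()), (2, 4, 6, ())),
   ((2, 4, 1, ()), (2, 7, 2, ())),
   ((2, 4, 5, ()), (2, 8, 5, ())),
   ((2, 5, 4, ()), (2, 7, 1, ())),
   ((2, 5, 7, ()), (2, 6, 4, ())),
   ((2, 6, 0, ()), (2, 7, 8, ())),
   ((2, 6, 6, ()), (2, 8, 2, ())),
   ((2, 6, 7, ()), (2, 8, 7, ())),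
   ((2, 6, 8, ()), (2, 7, 3, ()))]

theorem base_3_9_9 : HasSS (CP [3, 9, 9]) :=
  hasSS_of_list (G := ZMod 3 × ZMod 9 × ZMod 9 × Unit) bl_3_9_9
    (by decide +kernel) (by decide +kernel) (by decide +kernel) (by decide +kernel)
    ((show 2 * bl_3_9_9.length + 1 = [3, 9, 9].prod from by decide +kernel).trans (card_CP [3, 9, 9]).symm)

def bl_3_3_3_9 : List ((ZMod 3 × ZMod 3 × ZMod 3 × ZMod 9 × Unit) × (ZMod 3 × ZMod 3 × ZMod 3 × ZMod 9 × Unit)) :=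
  [((0, 0, 0, 1, ()), (0, 1, 1, 5, ())),
   ((0, 0, 0, 2, ()), (1, 2, 2, 1, ())),
   ((0, 0, 0, 3, ()), (2, 2, 2, 0, ())),
   ((0, 0, 0, 4, ()), (0, 1, 0, 5, ())),
   ((0, 0, 0, 5, ()), (1, 0, 1, 1, ())),
   ((0, 0, 0, 6, ()), (0, 1, 2, 8, ())),
   ((0, 0, 0, 7, ()), (1, 2, 1, 5, ())),
   ((0, 0, 0, 8, ()), (0, 0, 1, 6, ())),
   ((0, 0, 1, 0, ()), (0, 1, 1, 4, ())),
   ((0, 0, 1, 1, ()), (1, 1, 2, 3, ())),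
   ((0, 0, 1, 2, ()), (1, 0, 0, 2, ())),
   ((0, 0, 1, 3, ()), (2, 0, 1, 5, ())),
   ((0, 0, 1, 4, ()), (2, 2, 0, 0, ())),
   ((0, 0, 1, 5, ()), (1, 1, 2, 1, ())),
   ((0, 0, 1, 7, ()), (0, 1, 2, 3, ())),
   ((0, 0, 1, 8, ()), (2, 0, 2, 5, ())),
   ((0, 0, 2, 0, ()), (1, 1, 0, 8, ())),
   ((0, 0, 2, 1, ()), (2, 2, 2, 4, ())),
   ((0, 0, 2, 2, ()), (2, 2, 2, 8, ())),
   ((0, 0, 2, 3, ()), (2, 1, 2, 1, ())),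
   ((0, 0, 2, 4, ()), (2, 0, 1, 3, ())),
   ((0, 0, 2, 5, ()), (0, 2, 1, 2, ())),
   ((0, 0, 2, 6, ()), (2, 2, 1, 8, ())),
   ((0, 0, 2, 7, ()), (2, 1, 0, 3, ())),
   ((0, 0, 2, 8, ()), (1, 2, 0, 1, ())),
   ((0, 1, 0, 0, ()), (2, 0, 0, 1, ())),
   ((0, 1, 0, 1, ()), (0, 2, 0, 4, ())),
   ((0, 1, 0, 2, ()), (0, 2, 1, 8, ())),
   ((0, 1, 0, 3, ()), (2, 1, 1, 4, ())),
   ((0, 1, 0, 4, ()), (1, 0, 0, 8, ())),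
   ((0, 1, 0, 6, ()), (2, 2, 2, 3, ())),
   ((0, 1, 0, 7, ()), (1, 1, 0, 4, ())),
   ((0, 1, 0, 8, ()), (1, 0, 2, 6, ())),
   ((0, 1, 1, 0, ()), (1, 1, 0, 6, ())),
   ((0, 1, 1, 1, ()), (1, 1, 1, 6, ())),
   ((0, 1, 1, 2, ()), (1, 2, 2, 8, ())),
   ((0, 1, 1, 3, ()), (2, 2, 1, 7, ())),
   ((0, 1, 1, 6, ()), (2, 1, 2, 5, ())),
   ((0, 1, 1, 7, ()), (1, 2, 0, 3, ())),
   ((0, 1, 1, 8, ()), (1, 0, 0, 5, ())),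
   ((0, 1, 2, 0, ()), (1, 0, 0, 1, ())),
   ((0, 1, 2, 1, ()), (2, 0, 0, 4, ())),
   ((0, 1, 2, 2, ()), (1, 0, 2, 1, ())),
   ((0, 1, 2, 4, ()), (1, 1, 0, 1, ())),
   ((0, 1, 2, 5, ()), (2, 2, 1, 1, ())),
   ((0, 1, 2, 6, ()), (2, 2, 0, 6, ())),
   ((0, 1, 2, 7, ()), (2, 0, 2, 2, ())),
   ((0, 2, 0, 0, ()), (0, 2, 2, 7, ())),
   ((0, 2, 0, 1, ()), (0, 2, 0, 6, ())),
   ((0, 2, 0, 2, ()), (1, 1, 0, 5, ())),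
   ((0, 2, 0, 3, ()), (1, 1, 0, 0, ())),
   ((0, 2, 0, 5, ()), (2, 1, 0, 5, ())),
   ((0, 2, 0, 7, ()), (2, 0, 0, 0, ())),
   ((0, 2, 0, 8, ()), (0, 2, 1, 4, ())),
   ((0, 2, 1, 0, ()), (0, 2, 1, 6, ())),
   ((0, 2, 1, 1, ()), (2, 0, 0, 2, ())),
   ((0, 2, 1, 3, ()), (2, 2, 2, 5, ())),
   ((0, 2, 1, 5, ()), (2, 1, 0, 4, ())),
   ((0, 2, 1, 7, ()), (2, 2, 1, 5, ())),
   ((0, 2, 2, 0, ()), (1, 0, 2, 4, ())),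
   ((0, 2, 2, 1, ()), (2, 1, 1, 1, ())),
   ((0, 2, 2, 2, ()), (2, 2, 1, 0, ())),
   ((0, 2, 2, 3, ()), (1, 2, 2, 2, ())),
   ((0, 2, 2, 4, ()), (1, 0, 1, 5, ())),
   ((0, 2, 2, 5, ()), (2, 2, 2, 1, ())),
   ((0, 2, 2, 6, ()), (1, 2, 0, 6, ())),
   ((0, 2, 2, 8, ()), (1, 1, 1, 1, ())),
   ((1, 0, 0, 0, ()), (2, 1, 2, 0, ())),
   ((1, 0, 0, 3, ()), (1, 1, 1, 2, ())),
   ((1, 0, 0, 4, ()), (1, 1, 2, 5, ())),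
   ((1, 0, 0, 6, ()), (2, 0, 2, 8, ())),
   ((1, 0, 0, 7, ()), (1, 2, 0, 5, ())),
   ((1, 0, 1, 0, ()), (2, 2, 0, 1, ())),
   ((1, 0, 1, 2, ()), (2, 2, 0, 7, ())),
   ((1, 0, 1, 3, ()), (2, 0, 2, 7, ())),
   ((1, 0, 1, 4, ()), (1, 1, 1, 0, ())),
   ((1, 0, 1, 6, ()), (2, 0, 1, 6, ())),
   ((1, 0, 1, 7, ()), (1, 0, 2, 7, ())),
   ((1, 0, 1, 8, ()), (2, 1, 0, 2, ())),
   ((1, 0, 2, 0, ()), (2, 1, 1, 2, ())),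
   ((1, 0, 2, 2, ()), (1, 2, 0, 7, ())),
   ((1, 0, 2, 3, ()), (2, 0, 0, 6, ())),
   ((1, 0, 2, 5, ()), (1, 2, 0, 2, ())),
   ((1, 0, 2, 8, ()), (2, 0, 1, 4, ())),
   ((1, 1, 0, 2, ()), (2, 2, 0, 4, ())),
   ((1, 1, 0, 3, ()), (2, 0, 0, 3, ())),
   ((1, 1, 0, 7, ()), (1, 2, 2, 7, ())),
   ((1, 1, 1, 3, ()), (2, 1, 1, 6, ())),
   ((1, 1, 1, 4, ()), (2, 0, 2, 0, ())),
   ((1, 1, 1, 5, ()), (1, 2, 1, 2, ())),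
   ((1, 1, 1, 7, ()), (2, 1, 1, 8, ())),
   ((1, 1, 1, 8, ()), (1, 1, 2, 7, ())),
   ((1, 1, 2, 0, ()), (2, 2, 1, 4, ())),
   ((1, 1, 2, 2, ()), (2, 1, 0, 0, ())),
   ((1, 1, 2, 4, ()), (1, 2, 2, 3, ())),
   ((1, 1, 2, 6, ()), (2, 2, 2, 7, ())),
   ((1, 1, 2, 8, ()), (2, 1, 1, 3, ())),
   ((1, 2, 0, 0, ()), (2, 1, 1, 0, ())),
   ((1, 2, 0, 4, ()), (2, 2, 1, 3, ())),
   ((1, 2, 0, 8, ()), (2, 0, 2, 6, ())),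
   ((1, 2, 1, 0, ()), (2, 0, 1, 7, ())),
   ((1, 2, 1, 1, ()), (2, 1, 2, 7, ())),
   ((1, 2, 1, 3, ()), (1, 2, 1, 4, ())),
   ((1, 2, 1, 6, ()), (2, 1, 1, 7, ())),
   ((1, 2, 1, 7, ()), (2, 1, 0, 1, ())),
   ((1, 2, 1, 8, ()), (1, 2, 2, 5, ())),
   ((1, 2, 2, 0, ()), (2, 0, 1, 8, ())),
   ((1, 2, 2, 4, ()), (1, 2, 2, 6, ())),
   ((2, 0, 0, 5, ()), (2, 1, 2, 4, ())),
   ((2, 0, 0, 7, ()), (2, 2, 2, 6, ())),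
   ((2, 0, 0, 8, ()), (2, 1, 0, 8, ())),
   ((2, 0, 1, 0, ()), (2, 1, 0, 7, ())),
   ((2, 0, 1, 1, ()), (2, 2, 0, 8, ())),
   ((2, 0, 1, 2, ()), (2, 0, 2, 3, ())),
   ((2, 0, 2, 1, ()), (2, 1, 2, 8, ())),
   ((2, 0, 2, 4, ()), (2, 2, 1, 6, ())),
   ((2, 1, 0, 6, ()), (2, 1, 2, 2, ())),
   ((2, 1, 1, 5, ()), (2, 2, 0, 2, ())),
   ((2, 1, 2, 3, ()), (2, 2, 0, 3, ())),
   ((2, 1, 2, 6, ()), (2, 2, 1, 2, ())),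
   ((2, 2, 0, 5, ()), (2, 2, 2, 2, ()))]

theorem base_3_3_3_9 : HasSS (CP [3, 3, 3, 9]) :=
  hasSS_of_list (G := ZMod 3 × ZMod 3 × ZMod 3 × ZMod 9 × Unit) bl_3_3_3_9
    (by decide +kernel) (by decide +kernel) (by decide +kernel) (by decide +kernel)
    ((show 2 * bl_3_3_3_9.length + 1 = [3, 3, 3, 9].prod from by decide +kernel).trans (card_CP [3, 3, 3, 9]).symm)

def bl_3_3_3_3_3 : List ((ZMod 3 × ZMod 3 × ZMod 3 × ZMod 3 × ZMod 3 × Unit) × (ZMod 3 × ZMod 3 × ZMod 3 × ZMod 3 × ZMod 3 × Unit)) :=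
  [((0, 0, 0, 0, 1, ()), (2, 2, 2, 1, 1, ())),
   ((0, 0, 0, 0, 2, ()), (2, 2, 0, 2, 2, ())),
   ((0, 0, 0, 1, 0, ()), (1, 0, 1, 1, 1, ())),
   ((0, 0, 0, 1, 1, ()), (0, 2, 2, 1, 1, ())),
   ((0, 0, 0, 1, 2, ()), (2, 1, 2, 0, 2, ())),
   ((0, 0, 0, 2, 0, ()), (2, 2, 1, 1, 0, ())),
   ((0, 0, 0, 2, 1, ()), (1, 2, 1, 0, 2, ())),
   ((0, 0, 0, 2, 2, ()), (0, 2, 2, 1, 2, ())),
   ((0, 0, 1, 0, 0, ()), (1, 2, 0, 0, 0, ())),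
   ((0, 0, 1, 0, 1, ()), (0, 2, 2, 1, 0, ())),
   ((0, 0, 1, 0, 2, ()), (2, 1, 0, 0, 0, ())),
   ((0, 0, 1, 1, 0, ()), (1, 2, 0, 2, 2, ())),
   ((0, 0, 1, 1, 1, ()), (2, 0, 2, 2, 1, ())),
   ((0, 0, 1, 1, 2, ()), (2, 0, 2, 0, 1, ())),
   ((0, 0, 1, 2, 0, ()), (1, 1, 1, 2, 2, ())),
   ((0, 0, 1, 2, 1, ()), (1, 1, 0, 2, 0, ())),
   ((0, 0, 1, 2, 2, ()), (2, 1, 0, 2, 2, ())),
   ((0, 0, 2, 0, 0, ()), (1, 1, 2, 0, 1, ())),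
   ((0, 0, 2, 0, 1, ()), (0, 0, 2, 1, 0, ())),
   ((0, 0, 2, 0, 2, ()), (1, 0, 2, 2, 1, ())),
   ((0, 0, 2, 1, 1, ()), (1, 2, 2, 0, 1, ())),
   ((0, 0, 2, 1, 2, ()), (1, 0, 0, 2, 1, ())),
   ((0, 0, 2, 2, 0, ()), (0, 2, 2, 2, 1, ())),
   ((0, 0, 2, 2, 1, ()), (1, 2, 1, 1, 0, ())),
   ((0, 0, 2, 2, 2, ()), (0, 1, 0, 2, 1, ())),
   ((0, 1, 0, 0, 0, ()), (0, 2, 2, 0, 2, ())),
   ((0, 1, 0, 0, 1, ()), (1, 0, 1, 2, 1, ())),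
   ((0, 1, 0, 0, 2, ()), (1, 0, 2, 2, 0, ())),
   ((0, 1, 0, 1, 0, ()), (1, 2, 1, 2, 1, ())),
   ((0, 1, 0, 1, 1, ()), (0, 2, 1, 2, 0, ())),
   ((0, 1, 0, 1, 2, ()), (0, 1, 1, 1, 0, ())),
   ((0, 1, 0, 2, 0, ()), (2, 1, 2, 2, 1, ())),
   ((0, 1, 0, 2, 2, ()), (2, 0, 0, 1, 1, ())),
   ((0, 1, 1, 0, 0, ()), (0, 2, 0, 2, 2, ())),
   ((0, 1, 1, 0, 1, ()), (2, 1, 1, 2, 2, ())),
   ((0, 1, 1, 0, 2, ()), (1, 0, 0, 1, 0, ())),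
   ((0, 1, 1, 1, 1, ()), (1, 1, 0, 0, 2, ())),
   ((0, 1, 1, 1, 2, ()), (2, 2, 1, 0, 0, ())),
   ((0, 1, 1, 2, 0, ()), (2, 0, 1, 2, 0, ())),
   ((0, 1, 1, 2, 1, ()), (0, 1, 2, 1, 0, ())),
   ((0, 1, 1, 2, 2, ()), (1, 0, 1, 0, 2, ())),
   ((0, 1, 2, 0, 0, ()), (2, 0, 1, 0, 2, ())),
   ((0, 1, 2, 0, 1, ()), (1, 2, 0, 0, 1, ())),
   ((0, 1, 2, 0, 2, ()), (1, 2, 1, 2, 2, ())),
   ((0, 1, 2, 1, 1, ()), (2, 0, 2, 0, 2, ())),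
   ((0, 1, 2, 1, 2, ()), (2, 1, 0, 1, 0, ())),
   ((0, 1, 2, 2, 0, ()), (2, 0, 0, 0, 1, ())),
   ((0, 1, 2, 2, 1, ()), (1, 0, 0, 1, 2, ())),
   ((0, 1, 2, 2, 2, ()), (2, 2, 2, 0, 0, ())),
   ((0, 2, 0, 0, 0, ()), (0, 2, 1, 1, 0, ())),
   ((0, 2, 0, 0, 1, ()), (0, 2, 2, 2, 0, ())),
   ((0, 2, 0, 0, 2, ()), (2, 1, 0, 1, 2, ())),
   ((0, 2, 0, 1, 0, ()), (2, 0, 1, 1, 2, ())),
   ((0, 2, 0, 1, 1, ()), (2, 2, 1, 2, 2, ())),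
   ((0, 2, 0, 1, 2, ()), (2, 1, 0, 2, 1, ())),
   ((0, 2, 0, 2, 0, ()), (1, 2, 0, 1, 0, ())),
   ((0, 2, 0, 2, 1, ()), (1, 0, 1, 0, 1, ())),
   ((0, 2, 1, 0, 0, ()), (1, 2, 1, 0, 1, ())),
   ((0, 2, 1, 0, 1, ()), (1, 2, 0, 0, 2, ())),
   ((0, 2, 1, 0, 2, ()), (1, 1, 1, 1, 0, ())),
   ((0, 2, 1, 1, 1, ()), (1, 0, 2, 0, 0, ())),
   ((0, 2, 1, 1, 2, ()), (1, 2, 1, 2, 0, ())),
   ((0, 2, 1, 2, 1, ()), (2, 2, 0, 2, 1, ())),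
   ((0, 2, 1, 2, 2, ()), (2, 2, 2, 1, 2, ())),
   ((0, 2, 2, 0, 0, ()), (2, 1, 1, 2, 1, ())),
   ((0, 2, 2, 0, 1, ()), (1, 0, 1, 2, 2, ())),
   ((0, 2, 2, 2, 2, ()), (2, 0, 1, 0, 0, ())),
   ((1, 0, 0, 0, 0, ()), (2, 1, 1, 0, 2, ())),
   ((1, 0, 0, 0, 1, ()), (1, 0, 2, 1, 0, ())),
   ((1, 0, 0, 0, 2, ()), (1, 1, 1, 2, 0, ())),
   ((1, 0, 0, 1, 1, ()), (1, 2, 0, 2, 1, ())),
   ((1, 0, 0, 2, 0, ()), (2, 1, 1, 1, 1, ())),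
   ((1, 0, 0, 2, 2, ()), (2, 1, 2, 0, 1, ())),
   ((1, 0, 1, 0, 0, ()), (1, 1, 0, 0, 1, ())),
   ((1, 0, 1, 1, 0, ()), (2, 2, 0, 0, 0, ())),
   ((1, 0, 1, 1, 2, ()), (1, 1, 0, 1, 2, ())),
   ((1, 0, 1, 2, 0, ()), (2, 0, 1, 1, 1, ())),
   ((1, 0, 2, 0, 1, ()), (1, 1, 1, 1, 1, ())),
   ((1, 0, 2, 0, 2, ()), (2, 2, 1, 0, 1, ())),
   ((1, 0, 2, 1, 1, ()), (1, 2, 2, 2, 0, ())),
   ((1, 0, 2, 1, 2, ()), (2, 0, 0, 0, 0, ())),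
   ((1, 0, 2, 2, 2, ()), (2, 2, 0, 2, 0, ())),
   ((1, 1, 0, 0, 0, ()), (2, 1, 2, 0, 0, ())),
   ((1, 1, 0, 1, 0, ()), (1, 1, 2, 1, 1, ())),
   ((1, 1, 0, 1, 1, ()), (1, 2, 2, 2, 2, ())),
   ((1, 1, 0, 2, 1, ()), (2, 2, 2, 2, 2, ())),
   ((1, 1, 0, 2, 2, ()), (2, 0, 0, 2, 2, ())),
   ((1, 1, 1, 0, 0, ()), (2, 1, 2, 2, 2, ())),
   ((1, 1, 1, 0, 1, ()), (2, 2, 0, 0, 1, ())),
   ((1, 1, 1, 0, 2, ()), (2, 2, 0, 1, 0, ())),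
   ((1, 1, 1, 1, 2, ()), (1, 2, 2, 1, 0, ())),
   ((1, 1, 1, 2, 1, ()), (2, 0, 2, 0, 0, ())),
   ((1, 1, 2, 0, 0, ()), (2, 1, 0, 1, 1, ())),
   ((1, 1, 2, 0, 2, ()), (1, 1, 2, 2, 2, ())),
   ((1, 1, 2, 1, 0, ()), (2, 0, 2, 1, 1, ())),
   ((1, 1, 2, 1, 2, ()), (1, 2, 0, 2, 0, ())),
   ((1, 1, 2, 2, 0, ()), (1, 2, 2, 0, 0, ())),
   ((1, 1, 2, 2, 1, ()), (2, 0, 2, 2, 0, ())),
   ((1, 2, 0, 1, 1, ()), (2, 1, 0, 0, 2, ())),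
   ((1, 2, 0, 1, 2, ()), (2, 2, 0, 1, 1, ())),
   ((1, 2, 1, 0, 0, ()), (2, 2, 2, 1, 0, ())),
   ((1, 2, 1, 1, 1, ()), (2, 2, 1, 2, 1, ())),
   ((1, 2, 1, 1, 2, ()), (2, 0, 1, 0, 1, ())),
   ((1, 2, 2, 0, 2, ()), (2, 1, 1, 1, 2, ())),
   ((1, 2, 2, 1, 1, ()), (2, 2, 1, 2, 0, ())),
   ((1, 2, 2, 1, 2, ()), (2, 2, 0, 0, 2, ())),
   ((1, 2, 2, 2, 1, ()), (2, 2, 2, 2, 1, ())),
   ((2, 0, 0, 0, 2, ()), (2, 2, 1, 1, 2, ())),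
   ((2, 0, 0, 1, 0, ()), (2, 0, 0, 1, 2, ())),
   ((2, 0, 0, 2, 0, ()), (2, 0, 1, 1, 0, ())),
   ((2, 0, 0, 2, 1, ()), (2, 2, 2, 0, 1, ())),
   ((2, 0, 1, 2, 1, ()), (2, 2, 1, 0, 2, ())),
   ((2, 0, 1, 2, 2, ()), (2, 0, 2, 2, 2, ())),
   ((2, 0, 2, 1, 0, ()), (2, 1, 2, 1, 0, ())),
   ((2, 0, 2, 1, 2, ()), (2, 1, 0, 0, 1, ())),
   ((2, 1, 0, 2, 0, ()), (2, 1, 2, 1, 1, ())),
   ((2, 1, 1, 0, 0, ()), (2, 2, 0, 1, 2, ())),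
   ((2, 1, 1, 0, 1, ()), (2, 1, 1, 2, 0, ())),
   ((2, 1, 1, 1, 0, ()), (2, 2, 1, 1, 1, ())),
   ((2, 1, 2, 1, 2, ()), (2, 2, 2, 2, 0, ())),
   ((2, 1, 2, 2, 0, ()), (2, 2, 2, 0, 2, ()))]

theorem base_3_3_3_3_3 : HasSS (CP [3, 3, 3, 3, 3]) :=
  hasSS_of_list (G := ZMod 3 × ZMod 3 × ZMod 3 × ZMod 3 × ZMod 3 × Unit) bl_3_3_3_3_3
    (by decide +kernel) (by decide +kernel) (by decide +kernel) (by decide +kernel)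
    ((show 2 * bl_3_3_3_3_3.length + 1 = [3, 3, 3, 3, 3].prod from by decide +kernel).trans (card_CP [3, 3, 3, 3, 3]).symm)

end Pool.Agent.Helper1.Horton
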