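import Mathlib
import Pool.Agent.Helper1.Horton5

set_option autoImplicit false
set_option maxRecDepth 100000
set_option synthInstance.maxSize 100000
set_option synthInstance.maxHeartbeats 4000000

namespace Pool.Agent.Helper1.Horton

def kl_5 : List ((K9 × ZMod 5) × (K9 × ZMod 5)) :=
  [(((0, 0), 1), ((2, 1), 1)),
   (((0, 0), 2), ((1, 1), 0)),
   (((0, 0), 3), ((0, 2), 1)),
   (((0, 0), 4), ((0, 1), 0)),
   (((0, 1), 1), ((2, 1), 2)),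
   (((0, 1), 2), ((1, 1), 3)),
   (((0, 1), 3), ((1, 0), 1)),
   (((0, 1), 4), ((2, 0), 2)),
   (((0, 2), 0), ((1, 2), 3)),
   (((0, 2), 2), ((2, 2), 2)),
   (((0, 2), 3), ((1, 1), 4)),
   (((0, 2), 4), ((1, 2), 1)),
   (((1, 0), 0), ((1, 0), 2)),
   (((1, 0), 3), ((2, 2), 0)),
   (((1, 0), 4), ((2, 1), 4)),
   (((1, 1), 1), ((1, 2), 0)),
   (((1, 1), 2), ((2, 2), 1)),
   (((1, 2), 2), ((2, 0), 3)),
   (((1, 2), 4), ((2, 1), 3)),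
   (((2, 0), 0), ((2, 0), 1)),
   (((2, 0), 4), ((2, 2), 4)),
   (((2, 1), 0), ((2, 2), 3))]

theorem k9_5 : HasSS (K9 × ZMod 5) :=
  hasSS_of_list kl_5
    (by decide +kernel) (by decide +kernel) (by decide +kernel) (by decide +kernel)
    (by rw [Nat.card_prod, Nat.card_prod, Nat.card_zmod, Nat.card_zmod]; decide +kernel)

def kl_7 : List ((K9 × ZMod 7) × (K9 × ZMod 7)) :=
  [(((0, 0), 1), ((1, 2), 4)),
   (((0, 0), 2), ((2, 0), 0)),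
   (((0, 0), 3), ((1, 2), 5)),
   (((0, 0), 4), ((0, 1), 3)),
   (((0, 0), 5), ((0, 2), 0)),
   (((0, 0), 6), ((1, 0), 3)),
   (((0, 1), 0), ((1, 0), 0)),
   (((0, 1), 1), ((2, 1), 5)),
   (((0, 1), 2), ((0, 2), 4)),
   (((0, 1), 4), ((2, 0), 3)),
   (((0, 1), 5), ((2, 1), 4)),
   (((0, 1), 6), ((2, 0), 6)),
   (((0, 2), 1), ((2, 2), 2)),
   (((0, 2), 2), ((2, 0), 1)),
   (((0, 2), 3), ((1, 0), 1)),
   (((0, 2), 5), ((2, 1), 6)),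
   (((0, 2), 6), ((1, 1), 5)),
   (((1, 0), 2), ((2, 2), 6)),
   (((1, 0), 4), ((2, 1), 0)),
   (((1, 0), 5), ((1, 2), 2)),
   (((1, 0), 6), ((1, 2), 6)),
   (((1, 1), 0), ((2, 0), 5)),
   (((1, 1), 1), ((2, 1), 1)),
   (((1, 1), 2), ((1, 2), 3)),
   (((1, 1), 3), ((2, 2), 5)),
   (((1, 1), 4), ((2, 1), 2)),
   (((1, 1), 6), ((2, 2), 3)),
   (((1, 2), 0), ((1, 2), 1)),
   (((2, 0), 2), ((2, 0), 4)),
   (((2, 1), 3), ((2, 2), 0)),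
   (((2, 2), 1), ((2, 2), 4))]

theorem k9_7 : HasSS (K9 × ZMod 7) :=
  hasSS_of_list kl_7
    (by decide +kernel) (by decide +kernel) (by decide +kernel) (by decide +kernel)
    (by rw [Nat.card_prod, Nat.card_prod, Nat.card_zmod, Nat.card_zmod]; decide +kernel)

def kl_11 : List ((K9 × ZMod 11) × (K9 × ZMod 11)) :=
  [(((0, 0), 1), ((1, 2), 1)),
   (((0, 0), 2), ((1, 0), 2)),
   (((0, 0), 3), ((1, 2), 4)),
   (((0, 0), 4), ((0, 1), 8)),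
   (((0, 0), 5), ((0, 0), 10)),
   (((0, 0), 6), ((1, 1), 10)),
   (((0, 0), 7), ((1, 1), 5)),
   (((0, 0), 8), ((0, 1), 0)),
   (((0, 0), 9), ((2, 1), 6)),
   (((0, 1), 1), ((0, 1), 2)),
   (((0, 1), 3), ((1, 1), 1)),
   (((0, 1), 4), ((2, 1), 3)),
   (((0, 1), 5), ((2, 2), 1)),
   (((0, 1), 6), ((2, 2), 7)),
   (((0, 1), 7), ((2, 0), 5)),
   (((0, 1), 9), ((1, 0), 0)),
   (((0, 1), 10), ((1, 2), 6)),
   (((0, 2), 0), ((2, 1), 5)),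
   (((0, 2), 1), ((1, 1), 7)),
   (((0, 2), 2), ((0, 2), 5)),
   (((0, 2), 3), ((1, 0), 3)),
   (((0, 2), 4), ((2, 0), 8)),
   (((0, 2), 6), ((2, 2), 10)),
   (((0, 2), 7), ((2, 2), 3)),
   (((0, 2), 8), ((1, 2), 10)),
   (((0, 2), 9), ((2, 1), 1)),
   (((0, 2), 10), ((1, 2), 9)),
   (((1, 0), 1), ((1, 0), 8)),
   (((1, 0), 4), ((1, 2), 7)),
   (((1, 0), 5), ((2, 0), 0)),
   (((1, 0), 6), ((1, 2), 8)),
   (((1, 0), 7), ((1, 1), 6)),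
   (((1, 0), 9), ((2, 0), 1)),
   (((1, 0), 10), ((2, 1), 4)),
   (((1, 1), 0), ((2, 1), 8)),
   (((1, 1), 2), ((2, 2), 5)),
   (((1, 1), 3), ((1, 2), 5)),
   (((1, 1), 4), ((2, 1), 9)),
   (((1, 1), 8), ((2, 0), 2)),
   (((1, 1), 9), ((2, 0), 7)),
   (((1, 2), 0), ((2, 0), 10)),
   (((1, 2), 2), ((2, 1), 10)),
   (((1, 2), 3), ((2, 0), 4)),
   (((2, 0), 3), ((2, 2), 9)),
   (((2, 0), 6), ((2, 1), 7)),
   (((2, 0), 9), ((2, 2), 2)),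
   (((2, 1), 0), ((2, 2), 0)),
   (((2, 1), 2), ((2, 2), 8)),
   (((2, 2), 4), ((2, 2), 6))]

theorem k9_11 : HasSS (K9 × ZMod 11) :=
  hasSS_of_list kl_11
    (by decide +kernel) (by decide +kernel) (by decide +kernel) (by decide +kernel)
    (by rw [Nat.card_prod, Nat.card_prod, Nat.card_zmod, Nat.card_zmod]; decide +kernel)

def kl_13 : List ((K9 × ZMod 13) × (K9 × ZMod 13)) :=
  [(((0, 0), 1), ((2, 2), 10)),
   (((0, 0), 2), ((1, 0), 5)),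
   (((0, 0), 3), ((2, 0), 6)),
   (((0, 0), 4), ((0, 1), 9)),
   (((0, 0), 5), ((2, 1), 4)),
   (((0, 0), 6), ((0, 2), 7)),
   (((0, 0), 7), ((1, 2), 12)),
   (((0, 0), 8), ((1, 1), 10)),
   (((0, 0), 9), ((1, 0), 1)),
   (((0, 0), 10), ((0, 1), 11)),
   (((0, 0), 11), ((2, 2), 8)),
   (((0, 0), 12), ((1, 2), 6)),
   (((0, 1), 0), ((1, 2), 11)),
   (((0, 1), 1), ((1, 1), 8)),
   (((0, 1), 2), ((2, 2), 9)),
   (((0, 1), 3), ((1, 1), 5)),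
   (((0, 1), 4), ((1, 0), 0)),
   (((0, 1), 5), ((1, 0), 2)),
   (((0, 1), 6), ((0, 2), 2)),
   (((0, 1), 7), ((1, 0), 6)),
   (((0, 1), 8), ((2, 0), 8)),
   (((0, 1), 10), ((1, 1), 1)),
   (((0, 1), 12), ((2, 0), 3)),
   (((0, 2), 0), ((2, 1), 7)),
   (((0, 2), 1), ((1, 2), 2)),
   (((0, 2), 3), ((2, 1), 2)),
   (((0, 2), 4), ((2, 0), 9)),
   (((0, 2), 5), ((2, 1), 11)),
   (((0, 2), 6), ((2, 0), 2)),
   (((0, 2), 8), ((0, 2), 12)),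
   (((0, 2), 9), ((1, 1), 7)),
   (((0, 2), 10), ((2, 1), 5)),
   (((0, 2), 11), ((2, 2), 0)),
   (((1, 0), 3), ((1, 2), 9)),
   (((1, 0), 4), ((2, 1), 1)),
   (((1, 0), 7), ((1, 0), 10)),
   (((1, 0), 8), ((2, 0), 4)),
   (((1, 0), 9), ((1, 1), 9)),
   (((1, 0), 11), ((1, 2), 3)),
   (((1, 0), 12), ((1, 1), 2)),
   (((1, 1), 0), ((2, 1), 6)),
   (((1, 1), 3), ((2, 2), 11)),
   (((1, 1), 4), ((2, 1), 12)),
   (((1, 1), 6), ((1, 2), 4)),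
   (((1, 1), 11), ((2, 1), 10)),
   (((1, 1), 12), ((2, 0), 12)),
   (((1, 2), 0), ((1, 2), 7)),
   (((1, 2), 1), ((2, 1), 3)),
   (((1, 2), 5), ((2, 2), 5)),
   (((1, 2), 8), ((2, 0), 7)),
   (((1, 2), 10), ((2, 1), 0)),
   (((2, 0), 0), ((2, 2), 3)),
   (((2, 0), 1), ((2, 2), 12)),
   (((2, 0), 5), ((2, 1), 9)),
   (((2, 0), 10), ((2, 0), 11)),
   (((2, 1), 8), ((2, 2), 1)),
   (((2, 2), 2), ((2, 2), 7)),
   (((2, 2), 4), ((2, 2), 6))]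

theorem k9_13 : HasSS (K9 × ZMod 13) :=
  hasSS_of_list kl_13
    (by decide +kernel) (by decide +kernel) (by decide +kernel) (by decide +kernel)
    (by rw [Nat.card_prod, Nat.card_prod, Nat.card_zmod, Nat.card_zmod]; decide +kernel)

def kl_17 : List ((K9 × ZMod 17) × (K9 × ZMod 17)) :=
  [(((0, 0), 1), ((1, 0), 10)),
   (((0, 0), 2), ((2, 2), 12)),
   (((0, 0), 3), ((0, 0), 9)),
   (((0, 0), 4), ((2, 1), 12)),
   (((0, 0), 5), ((2, 1), 15)),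
   (((0, 0), 6), ((0, 2), 10)),
   (((0, 0), 7), ((0, 1), 7)),
   (((0, 0), 8), ((2, 1), 4)),
   (((0, 0), 10), ((2, 2), 2)),
   (((0, 0), 11), ((1, 2), 5)),
   (((0, 0), 12), ((1, 0), 0)),
   (((0, 0), 13), ((2, 0), 16)),
   (((0, 0), 14), ((1, 2), 12)),
   (((0, 0), 15), ((2, 1), 2)),
   (((0, 0), 16), ((2, 0), 12)),
   (((0, 1), 0), ((2, 2), 1)),
   (((0, 1), 1), ((2, 0), 6)),
   (((0, 1), 2), ((1, 0), 7)),
   (((0, 1), 3), ((0, 2), 15)),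
   (((0, 1), 4), ((0, 1), 16)),
   (((0, 1), 5), ((2, 1), 10)),
   (((0, 1), 6), ((1, 2), 0)),
   (((0, 1), 8), ((2, 0), 5)),
   (((0, 1), 9), ((1, 1), 11)),
   (((0, 1), 10), ((2, 2), 0)),
   (((0, 1), 11), ((2, 2), 10)),
   (((0, 1), 12), ((0, 2), 9)),
   (((0, 1), 13), ((1, 0), 8)),
   (((0, 1), 14), ((0, 2), 13)),
   (((0, 1), 15), ((1, 2), 4)),
   (((0, 2), 0), ((0, 2), 7)),
   (((0, 2), 1), ((2, 1), 5)),
   (((0, 2), 2), ((1, 0), 2)),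
   (((0, 2), 3), ((2, 2), 7)),
   (((0, 2), 4), ((2, 2), 14)),
   (((0, 2), 5), ((1, 2), 15)),
   (((0, 2), 6), ((2, 1), 7)),
   (((0, 2), 8), ((1, 0), 6)),
   (((0, 2), 11), ((2, 1), 6)),
   (((0, 2), 12), ((2, 2), 13)),
   (((0, 2), 14), ((1, 1), 0)),
   (((0, 2), 16), ((1, 2), 16)),
   (((1, 0), 1), ((2, 1), 11)),
   (((1, 0), 3), ((2, 2), 3)),
   (((1, 0), 4), ((1, 2), 14)),
   (((1, 0), 5), ((1, 0), 14)),
   (((1, 0), 9), ((2, 2), 15)),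
   (((1, 0), 11), ((1, 1), 15)),
   (((1, 0), 12), ((2, 0), 13)),
   (((1, 0), 13), ((2, 1), 0)),
   (((1, 0), 15), ((1, 2), 13)),
   (((1, 0), 16), ((1, 1), 5)),
   (((1, 1), 1), ((1, 1), 4)),
   (((1, 1), 2), ((1, 2), 3)),
   (((1, 1), 3), ((2, 1), 14)),
   (((1, 1), 6), ((2, 1), 9)),
   (((1, 1), 7), ((2, 2), 9)),
   (((1, 1), 8), ((2, 2), 5)),
   (((1, 1), 9), ((1, 2), 7)),
   (((1, 1), 10), ((2, 1), 1)),
   (((1, 1), 12), ((1, 1), 14)),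
   (((1, 1), 13), ((2, 0), 10)),
   (((1, 1), 16), ((1, 2), 9)),
   (((1, 2), 1), ((2, 2), 16)),
   (((1, 2), 2), ((2, 2), 8)),
   (((1, 2), 6), ((2, 1), 8)),
   (((1, 2), 8), ((2, 1), 16)),
   (((1, 2), 10), ((2, 0), 11)),
   (((1, 2), 11), ((2, 0), 3)),
   (((2, 0), 0), ((2, 2), 6)),
   (((2, 0), 1), ((2, 0), 14)),
   (((2, 0), 2), ((2, 2), 11)),
   (((2, 0), 4), ((2, 1), 13)),
   (((2, 0), 7), ((2, 2), 4)),
   (((2, 0), 8), ((2, 0), 9)),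
   (((2, 0), 15), ((2, 1), 3))]

theorem k9_17 : HasSS (K9 × ZMod 17) :=
  hasSS_of_list kl_17
    (by decide +kernel) (by decide +kernel) (by decide +kernel) (by decide +kernel)
    (by rw [Nat.card_prod, Nat.card_prod, Nat.card_zmod, Nat.card_zmod]; decide +kernel)

def kl_19 : List ((K9 × ZMod 19) × (K9 × ZMod 19)) :=
  [(((0, 0), 1), ((2, 2), 1)),
   (((0, 0), 2), ((2, 0), 16)),
   (((0, 0), 3), ((0, 2), 5)),
   (((0, 0), 4), ((1, 0), 15)),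
   (((0, 0), 5), ((2, 0), 18)),
   (((0, 0), 6), ((0, 2), 6)),
   (((0, 0), 7), ((0, 2), 13)),
   (((0, 0), 8), ((2, 2), 9)),
   (((0, 0), 9), ((0, 2), 1)),
   (((0, 0), 10), ((1, 2), 12)),
   (((0, 0), 11), ((1, 1), 0)),
   (((0, 0), 12), ((1, 2), 18)),
   (((0, 0), 13), ((1, 0), 14)),
   (((0, 0), 14), ((2, 0), 15)),
   (((0, 0), 15), ((0, 2), 3)),
   (((0, 0), 16), ((2, 1), 9)),
   (((0, 0), 17), ((0, 1), 14)),
   (((0, 0), 18), ((0, 2), 12)),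
   (((0, 1), 0), ((2, 0), 8)),
   (((0, 1), 1), ((1, 1), 15)),
   (((0, 1), 2), ((2, 2), 10)),
   (((0, 1), 3), ((1, 0), 2)),
   (((0, 1), 4), ((1, 0), 0)),
   (((0, 1), 5), ((2, 2), 8)),
   (((0, 1), 6), ((1, 1), 18)),
   (((0, 1), 7), ((2, 0), 12)),
   (((0, 1), 8), ((2, 0), 3)),
   (((0, 1), 9), ((2, 2), 11)),
   (((0, 1), 10), ((2, 2), 5)),
   (((0, 1), 11), ((1, 1), 14)),
   (((0, 1), 12), ((1, 1), 16)),
   (((0, 1), 13), ((1, 2), 4)),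
   (((0, 1), 15), ((1, 1), 5)),
   (((0, 1), 16), ((0, 2), 17)),
   (((0, 1), 17), ((1, 2), 1)),
   (((0, 1), 18), ((1, 1), 9)),
   (((0, 2), 0), ((1, 1), 13)),
   (((0, 2), 2), ((0, 2), 14)),
   (((0, 2), 4), ((2, 1), 3)),
   (((0, 2), 7), ((1, 1), 17)),
   (((0, 2), 8), ((2, 0), 7)),
   (((0, 2), 9), ((1, 2), 5)),
   (((0, 2), 10), ((1, 0), 3)),
   (((0, 2), 11), ((2, 1), 14)),
   (((0, 2), 15), ((2, 2), 13)),
   (((0, 2), 16), ((2, 1), 1)),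
   (((0, 2), 18), ((1, 0), 16)),
   (((1, 0), 1), ((1, 2), 17)),
   (((1, 0), 4), ((2, 1), 11)),
   (((1, 0), 5), ((1, 2), 9)),
   (((1, 0), 6), ((2, 2), 15)),
   (((1, 0), 7), ((1, 2), 3)),
   (((1, 0), 8), ((2, 1), 2)),
   (((1, 0), 9), ((1, 2), 2)),
   (((1, 0), 10), ((2, 2), 18)),
   (((1, 0), 11), ((1, 1), 2)),
   (((1, 0), 12), ((1, 1), 11)),
   (((1, 0), 13), ((2, 0), 11)),
   (((1, 0), 17), ((1, 1), 12)),
   (((1, 0), 18), ((2, 1), 8)),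
   (((1, 1), 1), ((1, 1), 7)),
   (((1, 1), 3), ((2, 1), 0)),
   (((1, 1), 4), ((2, 0), 4)),
   (((1, 1), 6), ((2, 1), 13)),
   (((1, 1), 8), ((2, 2), 12)),
   (((1, 1), 10), ((2, 0), 13)),
   (((1, 2), 0), ((2, 1), 12)),
   (((1, 2), 6), ((2, 2), 14)),
   (((1, 2), 7), ((2, 0), 9)),
   (((1, 2), 8), ((1, 2), 13)),
   (((1, 2), 10), ((2, 2), 4)),
   (((1, 2), 11), ((2, 1), 6)),
   (((1, 2), 14), ((2, 1), 18)),
   (((1, 2), 15), ((2, 0), 2)),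
   (((1, 2), 16), ((2, 2), 16)),
   (((2, 0), 0), ((2, 2), 17)),
   (((2, 0), 1), ((2, 0), 10)),
   (((2, 0), 5), ((2, 1), 10)),
   (((2, 0), 6), ((2, 0), 17)),
   (((2, 0), 14), ((2, 1), 4)),
   (((2, 1), 5), ((2, 1), 7)),
   (((2, 1), 15), ((2, 2), 7)),
   (((2, 1), 16), ((2, 1), 17)),
   (((2, 2), 0), ((2, 2), 3)),
   (((2, 2), 2), ((2, 2), 6))]

theorem k9_19 : HasSS (K9 × ZMod 19) :=
  hasSS_of_list kl_19
    (by decide +kernel) (by decide +kernel) (by decide +kernel) (by decide +kernel)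
    (by rw [Nat.card_prod, Nat.card_prod, Nat.card_zmod, Nat.card_zmod]; decide +kernel)

def kl_23 : List ((K9 × ZMod 23) × (K9 × ZMod 23)) :=
  [(((0, 0), 1), ((0, 0), 12)),
   (((0, 0), 2), ((1, 0), 1)),
   (((0, 0), 3), ((1, 1), 1)),
   (((0, 0), 4), ((0, 1), 8)),
   (((0, 0), 5), ((2, 0), 4)),
   (((0, 0), 6), ((2, 2), 0)),
   (((0, 0), 7), ((2, 0), 22)),
   (((0, 0), 8), ((0, 2), 14)),
   (((0, 0), 9), ((2, 1), 4)),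
   (((0, 0), 10), ((1, 2), 22)),
   (((0, 0), 11), ((0, 1), 18)),
   (((0, 0), 13), ((1, 1), 17)),
   (((0, 0), 14), ((1, 0), 6)),
   (((0, 0), 15), ((0, 1), 17)),
   (((0, 0), 16), ((2, 0), 9)),
   (((0, 0), 17), ((0, 2), 3)),
   (((0, 0), 18), ((0, 0), 19)),
   (((0, 0), 20), ((2, 2), 18)),
   (((0, 0), 21), ((2, 1), 12)),
   (((0, 0), 22), ((0, 2), 11)),
   (((0, 1), 0), ((0, 1), 16)),
   (((0, 1), 1), ((1, 2), 8)),
   (((0, 1), 2), ((2, 2), 21)),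
   (((0, 1), 3), ((2, 0), 8)),
   (((0, 1), 4), ((2, 2), 1)),
   (((0, 1), 5), ((1, 1), 0)),
   (((0, 1), 6), ((1, 1), 6)),
   (((0, 1), 7), ((2, 2), 12)),
   (((0, 1), 9), ((1, 2), 19)),
   (((0, 1), 10), ((2, 1), 17)),
   (((0, 1), 11), ((2, 1), 6)),
   (((0, 1), 12), ((1, 1), 10)),
   (((0, 1), 13), ((1, 0), 11)),
   (((0, 1), 14), ((1, 0), 22)),
   (((0, 1), 15), ((2, 1), 18)),
   (((0, 1), 19), ((0, 1), 21)),
   (((0, 1), 20), ((2, 2), 10)),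
   (((0, 1), 22), ((2, 2), 11)),
   (((0, 2), 0), ((1, 0), 13)),
   (((0, 2), 1), ((2, 2), 5)),
   (((0, 2), 2), ((1, 2), 12)),
   (((0, 2), 4), ((1, 0), 12)),
   (((0, 2), 5), ((2, 1), 16)),
   (((0, 2), 6), ((2, 0), 16)),
   (((0, 2), 7), ((2, 0), 11)),
   (((0, 2), 8), ((1, 0), 0)),
   (((0, 2), 9), ((1, 2), 3)),
   (((0, 2), 10), ((1, 1), 9)),
   (((0, 2), 12), ((1, 0), 5)),
   (((0, 2), 13), ((2, 1), 13)),
   (((0, 2), 15), ((2, 0), 13)),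
   (((0, 2), 16), ((1, 2), 7)),
   (((0, 2), 17), ((2, 1), 20)),
   (((0, 2), 18), ((1, 1), 15)),
   (((0, 2), 19), ((2, 2), 16)),
   (((0, 2), 20), ((1, 1), 11)),
   (((0, 2), 21), ((2, 2), 9)),
   (((0, 2), 22), ((2, 1), 0)),
   (((1, 0), 2), ((1, 1), 20)),
   (((1, 0), 3), ((1, 2), 11)),
   (((1, 0), 4), ((2, 1), 7)),
   (((1, 0), 7), ((1, 1), 13)),
   (((1, 0), 8), ((2, 0), 17)),
   (((1, 0), 9), ((1, 0), 15)),
   (((1, 0), 10), ((2, 2), 17)),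
   (((1, 0), 14), ((1, 2), 6)),
   (((1, 0), 16), ((1, 1), 3)),
   (((1, 0), 17), ((1, 1), 7)),
   (((1, 0), 18), ((2, 1), 9)),
   (((1, 0), 19), ((2, 0), 0)),
   (((1, 0), 20), ((1, 2), 4)),
   (((1, 0), 21), ((1, 2), 2)),
   (((1, 1), 2), ((2, 2), 13)),
   (((1, 1), 4), ((2, 0), 10)),
   (((1, 1), 5), ((2, 0), 20)),
   (((1, 1), 8), ((1, 2), 5)),
   (((1, 1), 12), ((1, 1), 22)),
   (((1, 1), 14), ((2, 0), 14)),
   (((1, 1), 16), ((1, 2), 15)),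
   (((1, 1), 18), ((2, 2), 14)),
   (((1, 1), 19), ((2, 0), 12)),
   (((1, 1), 21), ((2, 1), 11)),
   (((1, 2), 0), ((2, 1), 1)),
   (((1, 2), 1), ((2, 0), 6)),
   (((1, 2), 9), ((2, 0), 3)),
   (((1, 2), 10), ((1, 2), 13)),
   (((1, 2), 14), ((2, 1), 8)),
   (((1, 2), 16), ((2, 2), 4)),
   (((1, 2), 17), ((2, 2), 19)),
   (((1, 2), 18), ((2, 0), 19)),
   (((1, 2), 20), ((2, 2), 3)),
   (((1, 2), 21), ((2, 0), 7)),
   (((2, 0), 1), ((2, 1), 2)),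
   (((2, 0), 2), ((2, 0), 21)),
   (((2, 0), 5), ((2, 1), 10)),
   (((2, 0), 15), ((2, 2), 6)),
   (((2, 0), 18), ((2, 2), 20)),
   (((2, 1), 3), ((2, 1), 21)),
   (((2, 1), 5), ((2, 1), 14)),
   (((2, 1), 15), ((2, 2), 15)),
   (((2, 1), 19), ((2, 2), 8)),
   (((2, 1), 22), ((2, 2), 2)),
   (((2, 2), 7), ((2, 2), 22))]

theorem k9_23 : HasSS (K9 × ZMod 23) :=
  hasSS_of_list kl_23
    (by decide +kernel) (by decide +kernel) (by decide +kernel) (by decide +kernel)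
    (by rw [Nat.card_prod, Nat.card_prod, Nat.card_zmod, Nat.card_zmod]; decide +kernel)

end Pool.Agent.Helper1.Horton
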