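import Mathlib
import Pool.Agent.Helper1.Horton3

set_option autoImplicit false
set_option maxRecDepth 100000

namespace Pool.Agent.Helper1.Horton

open Pool.Agent.Helper1.CycleMagic Pool.Agent.Helper1.CycleMagic.Starter

/-- A growing family of strong starters with base order 25 and step 24. -/
def p12 : Fam where
  n0 := 12
  g := 12
  P := ⟨18, fun i => ([2, 3, 5, 7, 8, 9, 11, 12, 13, 15, 17, 18, 20, 21, 22, 23, 24, 24] : List ℕ).getD i 0, fun i => ([2, 1, 2, 1, 1, 2, 1, 1, 2, 1, 2, 1, 2, 1, 1, 1, 1, 1] : List ℕ).getD i 0⟩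
  D := ⟨10, fun i => ([1, 3, 4, 4, 6, 8, 8, 10, 11, 11] : List ℕ).getD i 0, fun i => ([3, 1, 1, 1, 1, 1, 1, 1, 1, 1] : List ℕ).getD i 0⟩
  S := ⟨16, fun i => ([4, 4, 5, 7, 9, 11, 12, 13, 15, 16, 18, 18, 20, 22, 23, 24] : List ℕ).getD i 0, fun i => ([1, 1, 1, 3, 1, 1, 1, 3, 1, 1, 1, 1, 3, 1, 1, 3] : List ℕ).getD i 0⟩
  prs := [⟨1, 2, 1, 0, 3, 0⟩,
    ⟨3, 21, 7, 3, 24, 0⟩,
    ⟨4, 15, 11, 0, 19, 0⟩,
    ⟨5, 8, 3, 0, 13, 0⟩,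
    ⟨6, 16, 10, 0, 22, 0⟩,
    ⟨7, 11, 4, 0, 18, 0⟩,
    ⟨9, 14, 5, 0, 23, 0⟩,
    ⟨10, 23, 12, 3, 8, 1⟩,
    ⟨12, 20, 8, 0, 7, 1⟩,
    ⟨13, 22, 9, 0, 10, 1⟩,
    ⟨17, 19, 2, 0, 11, 1⟩,
    ⟨18, 24, 6, 0, 17, 1⟩]
  tys := [⟨7, 0, true, 12, 1, true, 5, 0, true, 0, 3, 2, true, 1⟩,
    ⟨9, 0, true, 2, 0, true, 7, 0, false, 1, 12, 1, true, 0⟩,
    ⟨13, 0, true, 10, 0, true, 2, 0, false, 1, 7, 1, true, 1⟩,
    ⟨14, 0, true, 5, 0, true, 9, 0, true, 2, 3, 0, true, 1⟩,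
    ⟨15, 0, true, 0, 0, true, 1, 0, true, 2, 15, 2, true, 0⟩,
    ⟨16, 0, true, 8, 0, true, 8, 0, false, 1, 7, 0, true, 1⟩,
    ⟨17, 0, true, 12, 0, true, 3, 0, false, 1, 12, 0, true, 1⟩,
    ⟨3, 0, true, 8, 1, true, 4, 0, true, 0, 12, 2, true, 0⟩,
    ⟨6, 0, true, 0, 1, true, 6, 0, false, 1, 7, 2, true, 0⟩,
    ⟨11, 0, false, 10, 1, true, 0, 0, false, 1, 5, 0, true, 1⟩,
    ⟨1, 0, false, 2, 1, true, 0, 2, true, 0, 4, 0, true, 0⟩,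
    ⟨4, 0, false, 5, 1, true, 0, 1, true, 0, 10, 0, true, 0⟩]

theorem p12_ok : p12.Ok where
  sP := by decide +kernel
  sD := by decide +kernel
  sS := by decide +kernel
  cP := by decide +kernel
  cD := by decide +kernel
  cS := by decide +kernel
  wP := by decide +kernel
  wD := by decide +kernel
  wS := by decide +kernel
  lp := by decide +kernel
  lt := by decide +kernel
  p1 := by decide +kernel
  p2 := by decide +kernel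
  d1 := by decide +kernel
  d2 := by decide +kernel
  bb := by decide +kernel
  s1 := by decide +kernel
  tt := by decide +kernel
  s2 := by decide +kernel

theorem p12_pss (k : ℕ) : PSS (2 * (12 + 12 * k) + 1) :=
  pss_of_fam p12_ok (by decide +kernel) (by decide +kernel) (by decide +kernel) (by decide +kernel)
    (by decide +kernel) k

/-- A growing family of strong starters with base order 29 and step 24. -/
def p14 : Fam where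
  n0 := 14
  g := 12
  P := ⟨18, fun i => ([2, 3, 4, 4, 6, 8, 10, 12, 14, 15, 17, 18, 19, 22, 22, 23, 26, 28] : List ℕ).getD i 0, fun i => ([1, 1, 1, 1, 2, 1, 2, 1, 2, 1, 1, 1, 2, 1, 1, 1, 2, 2] : List ℕ).getD i 0⟩
  D := ⟨10, fun i => ([2, 5, 6, 6, 8, 9, 9, 12, 12, 13] : List ℕ).getD i 0, fun i => ([3, 1, 1, 1, 1, 1, 1, 1, 1, 1] : List ℕ).getD i 0⟩
  S := ⟨14, fun i => ([4, 5, 5, 9, 11, 12, 16, 17, 18, 19, 22, 25, 27, 28] : List ℕ).getD i 0, fun i => ([3, 1, 1, 3, 1, 1, 3, 1, 1, 1, 3, 1, 3, 1] : List ℕ).getD i 0⟩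
  prs := [⟨1, 2, 1, 0, 3, 0⟩,
    ⟨3, 6, 3, 0, 9, 0⟩,
    ⟨4, 21, 12, 3, 25, 0⟩,
    ⟨5, 23, 11, 3, 28, 0⟩,
    ⟨7, 12, 5, 0, 19, 0⟩,
    ⟨8, 14, 6, 0, 22, 0⟩,
    ⟨9, 28, 10, 3, 8, 1⟩,
    ⟨10, 17, 7, 0, 27, 0⟩,
    ⟨11, 24, 13, 0, 6, 1⟩,
    ⟨13, 27, 14, 0, 11, 1⟩,
    ⟨15, 19, 4, 0, 5, 1⟩,
    ⟨16, 25, 9, 0, 12, 1⟩,
    ⟨18, 26, 8, 0, 15, 1⟩,
    ⟨20, 22, 2, 0, 13, 1⟩]
  tys := [⟨9, 0, true, 4, 0, true, 5, 0, false, 1, 10, 0, true, 0⟩,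
    ⟨10, 0, true, 6, 1, true, 3, 0, false, 1, 12, 2, true, 0⟩,
    ⟨11, 0, true, 16, 1, true, 4, 0, true, 0, 6, 1, true, 1⟩,
    ⟨14, 0, true, 17, 1, true, 2, 0, true, 0, 10, 1, true, 1⟩,
    ⟨15, 0, true, 8, 0, true, 6, 0, false, 1, 3, 0, true, 1⟩,
    ⟨0, 0, true, 8, 1, true, 8, 0, true, 0, 6, 2, true, 0⟩,
    ⟨1, 0, true, 12, 1, true, 7, 0, false, 3, 10, 2, true, 0⟩,
    ⟨2, 0, true, 17, 0, true, 1, 0, false, 3, 0, 0, true, 1⟩,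
    ⟨7, 0, true, 16, 0, true, 9, 0, true, 0, 3, 1, true, 1⟩,
    ⟨13, 0, false, 12, 0, true, 0, 2, false, 1, 5, 0, true, 1⟩,
    ⟨3, 0, false, 4, 1, true, 0, 1, true, 0, 4, 0, true, 0⟩,
    ⟨5, 0, false, 6, 0, true, 0, 0, true, 0, 8, 0, true, 0⟩]

theorem p14_ok : p14.Ok where
  sP := by decide +kernel
  sD := by decide +kernel
  sS := by decide +kernel
  cP := by decide +kernel
  cD := by decide +kernel
  cS := by decide +kernel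
  wP := by decide +kernel
  wD := by decide +kernel
  wS := by decide +kernel
  lp := by decide +kernel
  lt := by decide +kernel
  p1 := by decide +kernel
  p2 := by decide +kernel
  d1 := by decide +kernel
  d2 := by decide +kernel
  bb := by decide +kernel
  s1 := by decide +kernel
  tt := by decide +kernel
  s2 := by decide +kernel

theorem p14_pss (k : ℕ) : PSS (2 * (14 + 12 * k) + 1) :=
  pss_of_fam p14_ok (by decide +kernel) (by decide +kernel) (by decide +kernel) (by decide +kernel)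
    (by decide +kernel) k

/-- A growing family of strong starters with base order 31 and step 24. -/
def p15 : Fam where
  n0 := 15
  g := 12
  P := ⟨18, fun i => ([3, 4, 6, 8, 9, 10, 10, 14, 16, 17, 18, 20, 23, 23, 25, 27, 29, 30] : List ℕ).getD i 0, fun i => ([2, 1, 2, 1, 1, 1, 1, 2, 1, 1, 1, 2, 1, 1, 2, 1, 1, 2] : List ℕ).getD i 0⟩
  D := ⟨10, fun i => ([3, 4, 6, 6, 8, 10, 10, 12, 12, 15] : List ℕ).getD i 0, fun i => ([3, 1, 1, 1, 1, 1, 1, 1, 1, 1] : List ℕ).getD i 0⟩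
  S := ⟨16, fun i => ([4, 6, 6, 9, 10, 12, 14, 14, 16, 19, 20, 23, 25, 28, 30, 30] : List ℕ).getD i 0, fun i => ([1, 3, 1, 1, 1, 1, 1, 1, 1, 3, 1, 3, 1, 1, 3, 1] : List ℕ).getD i 0⟩
  prs := [⟨1, 2, 1, 0, 3, 0⟩,
    ⟨3, 16, 13, 0, 19, 0⟩,
    ⟨4, 8, 4, 0, 12, 0⟩,
    ⟨5, 28, 8, 3, 2, 1⟩,
    ⟨6, 22, 15, 3, 28, 0⟩,
    ⟨7, 13, 6, 0, 20, 0⟩,
    ⟨9, 18, 9, 0, 27, 0⟩,
    ⟨10, 30, 11, 3, 9, 1⟩,
    ⟨11, 14, 3, 0, 25, 0⟩,
    ⟨12, 26, 14, 0, 7, 1⟩,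
    ⟨15, 27, 12, 0, 11, 1⟩,
    ⟨17, 24, 7, 0, 10, 1⟩,
    ⟨19, 29, 10, 0, 17, 1⟩,
    ⟨20, 25, 5, 0, 14, 1⟩,
    ⟨21, 23, 2, 0, 13, 1⟩]
  tys := [⟨4, 0, true, 7, 0, true, 1, 0, true, 0, 11, 1, true, 0⟩,
    ⟨5, 0, true, 14, 1, true, 9, 0, true, 0, 1, 0, true, 1⟩,
    ⟨8, 0, true, 0, 1, true, 8, 0, false, 1, 9, 2, true, 0⟩,
    ⟨9, 0, true, 2, 1, true, 6, 0, false, 1, 11, 2, true, 0⟩,
    ⟨10, 0, true, 17, 1, true, 7, 0, true, 0, 9, 0, true, 1⟩,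
    ⟨13, 0, true, 17, 0, true, 3, 0, true, 0, 11, 0, true, 1⟩,
    ⟨15, 0, true, 0, 0, true, 2, 0, true, 2, 14, 1, true, 0⟩,
    ⟨16, 0, true, 11, 1, true, 4, 0, false, 1, 9, 1, true, 1⟩,
    ⟨1, 0, true, 14, 0, true, 5, 0, false, 3, 14, 0, true, 0⟩,
    ⟨6, 0, false, 7, 1, true, 0, 2, true, 0, 12, 0, true, 0⟩,
    ⟨12, 0, false, 11, 0, true, 0, 1, false, 1, 5, 0, true, 1⟩,
    ⟨3, 0, false, 2, 0, true, 0, 0, false, 1, 7, 0, true, 0⟩]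

theorem p15_ok : p15.Ok where
  sP := by decide +kernel
  sD := by decide +kernel
  sS := by decide +kernel
  cP := by decide +kernel
  cD := by decide +kernel
  cS := by decide +kernel
  wP := by decide +kernel
  wD := by decide +kernel
  wS := by decide +kernel
  lp := by decide +kernel
  lt := by decide +kernel
  p1 := by decide +kernel
  p2 := by decide +kernel
  d1 := by decide +kernel
  d2 := by decide +kernel
  bb := by decide +kernel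
  s1 := by decide +kernel
  tt := by decide +kernel
  s2 := by decide +kernel

theorem p15_pss (k : ℕ) : PSS (2 * (15 + 12 * k) + 1) :=
  pss_of_fam p15_ok (by decide +kernel) (by decide +kernel) (by decide +kernel) (by decide +kernel)
    (by decide +kernel) k

/-- A growing family of strong starters with base order 35 and step 24. -/
def p17 : Fam where
  n0 := 17
  g := 12
  P := ⟨18, fun i => ([2, 3, 6, 7, 8, 10, 11, 12, 15, 17, 20, 21, 25, 26, 28, 30, 32, 34] : List ℕ).getD i 0, fun i => ([2, 1, 1, 1, 1, 1, 1, 2, 1, 2, 1, 1, 2, 1, 2, 1, 2, 1] : List ℕ).getD i 0⟩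
  D := ⟨8, fun i => ([1, 5, 8, 9, 11, 12, 16, 17] : List ℕ).getD i 0, fun i => ([3, 1, 3, 1, 1, 1, 1, 1] : List ℕ).getD i 0⟩
  S := ⟨18, fun i => ([4, 4, 6, 6, 8, 10, 12, 17, 17, 19, 22, 23, 24, 26, 28, 29, 32, 33] : List ℕ).getD i 0, fun i => ([1, 1, 1, 1, 3, 1, 1, 1, 3, 1, 1, 1, 1, 1, 1, 1, 3, 1] : List ℕ).getD i 0⟩
  prs := [⟨1, 2, 1, 0, 3, 0⟩,
    ⟨3, 9, 6, 0, 12, 0⟩,
    ⟨4, 26, 13, 3, 30, 0⟩,
    ⟨5, 10, 5, 0, 15, 0⟩,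
    ⟨6, 16, 10, 0, 22, 0⟩,
    ⟨7, 19, 12, 0, 26, 0⟩,
    ⟨8, 23, 15, 0, 31, 0⟩,
    ⟨11, 32, 14, 3, 8, 1⟩,
    ⟨12, 28, 16, 0, 5, 1⟩,
    ⟨13, 21, 8, 0, 34, 0⟩,
    ⟨14, 31, 17, 0, 10, 1⟩,
    ⟨15, 18, 3, 0, 33, 0⟩,
    ⟨17, 24, 7, 0, 6, 1⟩,
    ⟨20, 29, 9, 0, 14, 1⟩,
    ⟨22, 33, 11, 0, 20, 1⟩,
    ⟨25, 27, 2, 0, 17, 1⟩,
    ⟨30, 34, 4, 0, 29, 1⟩]
  tys := [⟨10, 0, true, 16, 0, true, 4, 0, true, 0, 8, 1, true, 1⟩,
    ⟨17, 0, true, 9, 0, true, 7, 0, false, 1, 8, 0, true, 1⟩,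
    ⟨1, 0, true, 14, 1, true, 3, 0, false, 3, 16, 1, true, 0⟩,
    ⟨3, 0, true, 0, 0, true, 1, 0, false, 1, 4, 2, true, 0⟩,
    ⟨4, 0, true, 12, 0, true, 6, 0, true, 0, 16, 2, true, 0⟩,
    ⟨8, 0, true, 0, 1, true, 5, 0, false, 1, 8, 2, true, 0⟩,
    ⟨11, 0, false, 7, 0, true, 2, 2, false, 1, 17, 0, true, 0⟩,
    ⟨13, 0, false, 12, 1, true, 0, 0, false, 1, 7, 0, true, 1⟩,
    ⟨15, 0, false, 14, 0, true, 0, 2, false, 1, 11, 0, true, 1⟩,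
    ⟨2, 0, false, 16, 1, true, 2, 1, false, 3, 1, 0, true, 1⟩,
    ⟨5, 0, false, 9, 1, true, 2, 0, true, 0, 14, 0, true, 0⟩,
    ⟨6, 0, false, 7, 1, true, 0, 1, true, 0, 12, 0, true, 0⟩]

theorem p17_ok : p17.Ok where
  sP := by decide +kernel
  sD := by decide +kernel
  sS := by decide +kernel
  cP := by decide +kernel
  cD := by decide +kernel
  cS := by decide +kernel
  wP := by decide +kernel
  wD := by decide +kernel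
  wS := by decide +kernel
  lp := by decide +kernel
  lt := by decide +kernel
  p1 := by decide +kernel
  p2 := by decide +kernel
  d1 := by decide +kernel
  d2 := by decide +kernel
  bb := by decide +kernel
  s1 := by decide +kernel
  tt := by decide +kernel
  s2 := by decide +kernel

theorem p17_pss (k : ℕ) : PSS (2 * (17 + 12 * k) + 1) :=
  pss_of_fam p17_ok (by decide +kernel) (by decide +kernel) (by decide +kernel) (by decide +kernel)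
    (by decide +kernel) k

/-- A growing family of strong starters with base order 37 and step 24. -/
def p18 : Fam where
  n0 := 18
  g := 12
  P := ⟨18, fun i => ([2, 2, 6, 7, 9, 12, 14, 17, 19, 23, 25, 27, 29, 29, 32, 34, 36, 36] : List ℕ).getD i 0, fun i => ([1, 1, 2, 1, 1, 2, 1, 2, 2, 2, 1, 1, 1, 1, 2, 1, 1, 1] : List ℕ).getD i 0⟩
  D := ⟨4, fun i => ([2, 6, 12, 16] : List ℕ).getD i 0, fun i => ([3, 3, 3, 3] : List ℕ).getD i 0⟩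
  S := ⟨24, fun i => ([5, 6, 7, 9, 11, 11, 12, 14, 16, 16, 19, 20, 21, 22, 25, 26, 26, 30, 32, 33, 34, 35, 36, 36] : List ℕ).getD i 0, fun i => ([1, 1, 1, 1, 1, 1, 1, 1, 1, 1, 1, 1, 1, 1, 1, 1, 1, 1, 1, 1, 1, 1, 1, 1] : List ℕ).getD i 0⟩
  prs := [⟨1, 2, 1, 0, 3, 0⟩,
    ⟨3, 14, 11, 0, 17, 0⟩,
    ⟨4, 18, 14, 0, 22, 0⟩,
    ⟨5, 9, 4, 0, 14, 0⟩,
    ⟨6, 13, 7, 0, 19, 0⟩,
    ⟨7, 22, 15, 0, 29, 0⟩,
    ⟨8, 28, 17, 3, 36, 0⟩,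
    ⟨10, 16, 6, 0, 26, 0⟩,
    ⟨11, 24, 13, 0, 35, 0⟩,
    ⟨12, 33, 16, 3, 8, 1⟩,
    ⟨15, 34, 18, 3, 12, 1⟩,
    ⟨17, 25, 8, 0, 5, 1⟩,
    ⟨19, 29, 10, 0, 11, 1⟩,
    ⟨20, 32, 12, 0, 15, 1⟩,
    ⟨21, 23, 2, 0, 7, 1⟩,
    ⟨26, 35, 9, 0, 24, 1⟩,
    ⟨27, 30, 3, 0, 20, 1⟩,
    ⟨31, 36, 5, 0, 30, 1⟩]
  tys := [⟨10, 0, false, 14, 0, true, 1, 1, true, 0, 11, 0, true, 1⟩,
    ⟨11, 0, false, 2, 0, true, 3, 0, true, 2, 19, 0, true, 0⟩,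
    ⟨12, 0, false, 7, 0, true, 2, 1, false, 1, 3, 0, true, 1⟩,
    ⟨13, 0, false, 9, 1, true, 1, 0, false, 1, 8, 0, true, 1⟩,
    ⟨15, 0, false, 14, 1, true, 0, 0, false, 1, 17, 0, true, 1⟩,
    ⟨16, 0, false, 2, 1, true, 1, 2, true, 2, 1, 0, true, 1⟩,
    ⟨17, 0, false, 5, 1, true, 2, 2, true, 2, 6, 0, true, 1⟩,
    ⟨0, 0, false, 9, 0, true, 3, 1, false, 3, 14, 0, true, 0⟩,
    ⟨1, 0, false, 8, 1, true, 3, 2, true, 0, 13, 0, true, 0⟩,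
    ⟨3, 0, false, 8, 0, true, 2, 0, true, 0, 16, 0, true, 0⟩,
    ⟨4, 0, false, 5, 0, true, 0, 1, true, 0, 12, 0, true, 0⟩,
    ⟨6, 0, false, 7, 1, true, 0, 2, true, 0, 18, 0, true, 0⟩]

theorem p18_ok : p18.Ok where
  sP := by decide +kernel
  sD := by decide +kernel
  sS := by decide +kernel
  cP := by decide +kernel
  cD := by decide +kernel
  cS := by decide +kernel
  wP := by decide +kernel
  wD := by decide +kernel
  wS := by decide +kernel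
  lp := by decide +kernel
  lt := by decide +kernel
  p1 := by decide +kernel
  p2 := by decide +kernel
  d1 := by decide +kernel
  d2 := by decide +kernel
  bb := by decide +kernel
  s1 := by decide +kernel
  tt := by decide +kernel
  s2 := by decide +kernel

theorem p18_pss (k : ℕ) : PSS (2 * (18 + 12 * k) + 1) :=
  pss_of_fam p18_ok (by decide +kernel) (by decide +kernel) (by decide +kernel) (by decide +kernel)
    (by decide +kernel) k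

/-- A growing family of strong starters with base order 41 and step 24. -/
def p20 : Fam where
  n0 := 20
  g := 12
  P := ⟨18, fun i => ([2, 2, 4, 7, 9, 11, 12, 15, 16, 19, 21, 24, 27, 29, 31, 34, 37, 39] : List ℕ).getD i 0, fun i => ([1, 1, 1, 2, 1, 1, 1, 1, 1, 2, 2, 1, 1, 2, 1, 2, 1, 2] : List ℕ).getD i 0⟩
  D := ⟨6, fun i => ([2, 4, 9, 12, 14, 17] : List ℕ).getD i 0, fun i => ([3, 1, 3, 1, 1, 3] : List ℕ).getD i 0⟩
  S := ⟨20, fun i => ([4, 7, 8, 8, 11, 11, 14, 17, 19, 21, 23, 25, 29, 30, 32, 33, 34, 37, 39, 40] : List ℕ).getD i 0, fun i => ([3, 1, 1, 1, 1, 1, 1, 1, 1, 1, 1, 3, 1, 1, 1, 1, 1, 1, 1, 1] : List ℕ).getD i 0⟩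
  prs := [⟨1, 2, 1, 0, 3, 0⟩,
    ⟨3, 23, 20, 0, 26, 0⟩,
    ⟨4, 18, 14, 0, 22, 0⟩,
    ⟨5, 33, 13, 3, 38, 0⟩,
    ⟨6, 30, 17, 3, 36, 0⟩,
    ⟨7, 25, 18, 0, 32, 0⟩,
    ⟨8, 39, 10, 3, 6, 1⟩,
    ⟨9, 21, 12, 0, 30, 0⟩,
    ⟨10, 17, 7, 0, 27, 0⟩,
    ⟨11, 37, 15, 3, 7, 1⟩,
    ⟨12, 28, 16, 0, 40, 0⟩,
    ⟨13, 15, 2, 0, 28, 0⟩,
    ⟨14, 20, 6, 0, 34, 0⟩,
    ⟨16, 35, 19, 0, 10, 1⟩,
    ⟨19, 24, 5, 0, 2, 1⟩,
    ⟨22, 31, 9, 0, 12, 1⟩,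
    ⟨26, 34, 8, 0, 19, 1⟩,
    ⟨27, 38, 11, 0, 24, 1⟩,
    ⟨29, 32, 3, 0, 20, 1⟩,
    ⟨36, 40, 4, 0, 35, 1⟩]
  tys := [⟨11, 0, true, 9, 1, true, 1, 0, false, 1, 0, 0, true, 1⟩,
    ⟨12, 0, true, 17, 1, true, 3, 0, true, 0, 11, 2, true, 1⟩,
    ⟨7, 0, true, 13, 1, true, 4, 0, true, 0, 0, 1, true, 1⟩,
    ⟨14, 0, false, 10, 0, true, 2, 2, false, 1, 5, 0, true, 1⟩,
    ⟨16, 0, false, 15, 0, true, 0, 2, false, 1, 13, 0, true, 1⟩,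
    ⟨0, 0, false, 9, 0, true, 5, 0, true, 0, 9, 0, true, 0⟩,
    ⟨1, 0, false, 15, 1, true, 2, 0, false, 3, 17, 0, true, 0⟩,
    ⟨2, 0, false, 3, 0, true, 0, 1, true, 0, 4, 0, true, 0⟩,
    ⟨4, 0, false, 3, 1, true, 0, 0, false, 1, 7, 0, true, 0⟩,
    ⟨5, 0, false, 13, 0, true, 5, 1, true, 0, 19, 0, true, 0⟩,
    ⟨6, 0, false, 10, 1, true, 2, 1, true, 0, 16, 0, true, 0⟩,
    ⟨8, 0, false, 17, 0, true, 5, 2, false, 3, 6, 0, true, 1⟩]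

theorem p20_ok : p20.Ok where
  sP := by decide +kernel
  sD := by decide +kernel
  sS := by decide +kernel
  cP := by decide +kernel
  cD := by decide +kernel
  cS := by decide +kernel
  wP := by decide +kernel
  wD := by decide +kernel
  wS := by decide +kernel
  lp := by decide +kernel
  lt := by decide +kernel
  p1 := by decide +kernel
  p2 := by decide +kernel
  d1 := by decide +kernel
  d2 := by decide +kernel
  bb := by decide +kernel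
  s1 := by decide +kernel
  tt := by decide +kernel
  s2 := by decide +kernel

theorem p20_pss (k : ℕ) : PSS (2 * (20 + 12 * k) + 1) :=
  pss_of_fam p20_ok (by decide +kernel) (by decide +kernel) (by decide +kernel) (by decide +kernel)
    (by decide +kernel) k

/-- A growing family of strong starters with base order 43 and step 24. -/
def p21 : Fam where
  n0 := 21
  g := 12
  P := ⟨18, fun i => ([2, 3, 6, 8, 9, 12, 14, 16, 19, 22, 26, 29, 30, 32, 33, 38, 41, 42] : List ℕ).getD i 0, fun i => ([1, 1, 1, 2, 1, 1, 1, 2, 2, 1, 2, 1, 1, 1, 2, 2, 1, 1] : List ℕ).getD i 0⟩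
  D := ⟨4, fun i => ([1, 9, 14, 18] : List ℕ).getD i 0, fun i => ([3, 3, 3, 3] : List ℕ).getD i 0⟩
  S := ⟨24, fun i => ([4, 4, 5, 8, 10, 11, 12, 14, 15, 17, 19, 22, 22, 26, 28, 30, 30, 31, 35, 36, 39, 40, 41, 42] : List ℕ).getD i 0, fun i => ([1, 1, 1, 1, 1, 1, 1, 1, 1, 1, 1, 1, 1, 1, 1, 1, 1, 1, 1, 1, 1, 1, 1, 1] : List ℕ).getD i 0⟩
  prs := [⟨1, 2, 1, 0, 3, 0⟩,
    ⟨3, 19, 16, 0, 22, 0⟩,
    ⟨4, 15, 11, 0, 19, 0⟩,
    ⟨5, 9, 4, 0, 14, 0⟩,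
    ⟨6, 35, 14, 3, 41, 0⟩,
    ⟨7, 10, 3, 0, 17, 0⟩,
    ⟨8, 27, 19, 0, 35, 0⟩,
    ⟨11, 21, 10, 0, 32, 0⟩,
    ⟨12, 33, 21, 0, 2, 1⟩,
    ⟨13, 26, 13, 0, 39, 0⟩,
    ⟨14, 40, 17, 3, 11, 1⟩,
    ⟨16, 36, 20, 0, 9, 1⟩,
    ⟨17, 25, 8, 0, 42, 0⟩,
    ⟨18, 30, 12, 0, 5, 1⟩,
    ⟨20, 29, 9, 0, 6, 1⟩,
    ⟨22, 28, 6, 0, 7, 1⟩,
    ⟨23, 41, 18, 0, 21, 1⟩,
    ⟨24, 39, 15, 0, 20, 1⟩,
    ⟨31, 38, 7, 0, 26, 1⟩,
    ⟨32, 34, 2, 0, 23, 1⟩,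
    ⟨37, 42, 5, 0, 36, 1⟩]
  tys := [⟨17, 0, false, 3, 1, true, 1, 1, true, 2, 3, 0, true, 1⟩,
    ⟨0, 0, false, 10, 0, true, 3, 2, false, 3, 14, 0, true, 0⟩,
    ⟨1, 0, false, 15, 0, true, 1, 0, false, 3, 22, 0, true, 0⟩,
    ⟨2, 0, false, 14, 1, true, 2, 2, false, 3, 21, 0, true, 0⟩,
    ⟨4, 0, false, 3, 0, true, 0, 1, false, 1, 9, 0, true, 0⟩,
    ⟨5, 0, false, 10, 1, true, 2, 1, true, 0, 20, 0, true, 0⟩,
    ⟨6, 0, false, 15, 1, true, 3, 1, false, 3, 4, 0, true, 1⟩,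
    ⟨9, 0, false, 8, 1, true, 0, 2, false, 1, 23, 0, true, 0⟩,
    ⟨11, 0, false, 8, 0, true, 1, 2, false, 1, 2, 0, true, 1⟩,
    ⟨12, 0, false, 7, 1, true, 2, 0, false, 1, 1, 0, true, 1⟩,
    ⟨13, 0, false, 14, 0, true, 0, 0, true, 0, 12, 0, true, 1⟩,
    ⟨16, 0, false, 7, 0, true, 3, 0, true, 2, 7, 0, true, 1⟩]

theorem p21_ok : p21.Ok where
  sP := by decide +kernel
  sD := by decide +kernel
  sS := by decide +kernel
  cP := by decide +kernel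
  cD := by decide +kernel
  cS := by decide +kernel
  wP := by decide +kernel
  wD := by decide +kernel
  wS := by decide +kernel
  lp := by decide +kernel
  lt := by decide +kernel
  p1 := by decide +kernel
  p2 := by decide +kernel
  d1 := by decide +kernel
  d2 := by decide +kernel
  bb := by decide +kernel
  s1 := by decide +kernel
  tt := by decide +kernel
  s2 := by decide +kernel

theorem p21_pss (k : ℕ) : PSS (2 * (21 + 12 * k) + 1) :=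
  pss_of_fam p21_ok (by decide +kernel) (by decide +kernel) (by decide +kernel) (by decide +kernel)
    (by decide +kernel) k

/-- A growing family of strong starters with base order 47 and step 24. -/
def p23 : Fam where
  n0 := 23
  g := 12
  P := ⟨18, fun i => ([2, 2, 6, 7, 8, 11, 15, 18, 22, 24, 27, 29, 34, 35, 36, 39, 40, 44] : List ℕ).getD i 0, fun i => ([1, 2, 1, 1, 1, 2, 1, 2, 1, 2, 1, 2, 1, 1, 1, 1, 1, 2] : List ℕ).getD i 0⟩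
  D := ⟨6, fun i => ([4, 9, 12, 16, 20, 22] : List ℕ).getD i 0, fun i => ([3, 3, 1, 3, 1, 1] : List ℕ).getD i 0⟩
  S := ⟨20, fun i => ([4, 4, 4, 4, 7, 7, 12, 16, 19, 19, 22, 25, 25, 26, 29, 32, 34, 37, 37, 46] : List ℕ).getD i 0, fun i => ([1, 1, 1, 1, 1, 1, 3, 1, 1, 1, 1, 1, 1, 1, 1, 1, 1, 1, 3, 1] : List ℕ).getD i 0⟩
  prs := [⟨1, 2, 1, 0, 3, 0⟩,
    ⟨3, 6, 3, 0, 9, 0⟩,
    ⟨4, 11, 7, 0, 15, 0⟩,
    ⟨5, 37, 15, 3, 42, 0⟩,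
    ⟨7, 26, 19, 0, 33, 0⟩,
    ⟨8, 20, 12, 0, 28, 0⟩,
    ⟨9, 46, 10, 3, 8, 1⟩,
    ⟨10, 16, 6, 0, 26, 0⟩,
    ⟨12, 28, 16, 0, 40, 0⟩,
    ⟨13, 22, 9, 0, 35, 0⟩,
    ⟨14, 44, 17, 3, 11, 1⟩,
    ⟨15, 29, 14, 0, 44, 0⟩,
    ⟨17, 40, 23, 0, 10, 1⟩,
    ⟨18, 36, 18, 0, 7, 1⟩,
    ⟨19, 41, 22, 0, 13, 1⟩,
    ⟨21, 42, 21, 0, 16, 1⟩,
    ⟨23, 43, 20, 0, 19, 1⟩,
    ⟨24, 35, 11, 0, 12, 1⟩,
    ⟨25, 27, 2, 0, 5, 1⟩,
    ⟨30, 34, 4, 0, 17, 1⟩,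
    ⟨31, 39, 8, 0, 23, 1⟩,
    ⟨32, 45, 13, 0, 30, 1⟩,
    ⟨33, 38, 5, 0, 24, 1⟩]
  tys := [⟨4, 0, true, 11, 0, true, 4, 0, true, 0, 18, 1, true, 0⟩,
    ⟨14, 0, true, 1, 0, true, 2, 0, true, 2, 18, 2, true, 0⟩,
    ⟨16, 0, true, 7, 0, true, 5, 0, false, 1, 6, 0, true, 1⟩,
    ⟨2, 0, false, 17, 1, true, 1, 0, false, 3, 2, 0, true, 1⟩,
    ⟨3, 0, false, 9, 1, true, 3, 2, true, 0, 15, 0, true, 0⟩,
    ⟨6, 0, false, 5, 0, true, 0, 1, false, 1, 13, 0, true, 0⟩,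
    ⟨8, 0, false, 5, 1, true, 1, 2, false, 1, 16, 0, true, 0⟩,
    ⟨10, 0, false, 9, 0, true, 0, 0, false, 1, 3, 0, true, 1⟩,
    ⟨12, 0, false, 1, 1, true, 3, 0, true, 2, 17, 0, true, 0⟩,
    ⟨13, 0, false, 7, 1, true, 3, 1, false, 1, 4, 0, true, 1⟩,
    ⟨15, 0, false, 11, 1, true, 1, 1, false, 1, 10, 0, true, 1⟩,
    ⟨0, 0, false, 17, 0, true, 0, 2, false, 3, 19, 0, true, 0⟩]

theorem p23_ok : p23.Ok where
  sP := by decide +kernel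
  sD := by decide +kernel
  sS := by decide +kernel
  cP := by decide +kernel
  cD := by decide +kernel
  cS := by decide +kernel
  wP := by decide +kernel
  wD := by decide +kernel
  wS := by decide +kernel
  lp := by decide +kernel
  lt := by decide +kernel
  p1 := by decide +kernel
  p2 := by decide +kernel
  d1 := by decide +kernel
  d2 := by decide +kernel
  bb := by decide +kernel
  s1 := by decide +kernel
  tt := by decide +kernel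
  s2 := by decide +kernel

theorem p23_pss (k : ℕ) : PSS (2 * (23 + 12 * k) + 1) :=
  pss_of_fam p23_ok (by decide +kernel) (by decide +kernel) (by decide +kernel) (by decide +kernel)
    (by decide +kernel) k

theorem pss_all {N : ℕ} (hN : 25 ≤ N) (h2 : N % 2 = 1) (h3 : N % 3 ≠ 0) : PSS N := by
  obtain ⟨k, r, hr, e⟩ : ∃ k r, r < 24 ∧ N = 25 + r + 24 * k :=
    ⟨(N - 25) / 24, (N - 25) % 24, by omega, by omega⟩
  have h : r = 0 ∨ r = 4 ∨ r = 6 ∨ r = 10 ∨ r = 12 ∨ r = 16 ∨ r = 18 ∨ r = 22 := by omega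
  rcases h with rfl | rfl | rfl | rfl | rfl | rfl | rfl | rfl
  · rw [show N = 2 * (12 + 12 * k) + 1 by omega]
    exact p12_pss k
  · rw [show N = 2 * (14 + 12 * k) + 1 by omega]
    exact p14_pss k
  · rw [show N = 2 * (15 + 12 * k) + 1 by omega]
    exact p15_pss k
  · rw [show N = 2 * (17 + 12 * k) + 1 by omega]
    exact p17_pss k
  · rw [show N = 2 * (18 + 12 * k) + 1 by omega]
    exact p18_pss k
  · rw [show N = 2 * (20 + 12 * k) + 1 by omega]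
    exact p20_pss k
  · rw [show N = 2 * (21 + 12 * k) + 1 by omega]
    exact p21_pss k
  · rw [show N = 2 * (23 + 12 * k) + 1 by omega]
    exact p23_pss k

end Pool.Agent.Helper1.Horton
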