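import Mathlib
import Pool.Agent.Helper1.Horton5
import Pool.Agent.Helper1.Horton6
import Pool.Agent.Helper1.Horton7

set_option autoImplicit false

namespace Pool.Agent.Helper1.Horton

theorem k9_prime {p : ℕ} (hp : p.Prime) (h5 : 5 ≤ p) : HasSS (K9 × ZMod p) := by
  have h2 : p % 2 = 1 := by
    rcases hp.eq_two_or_odd with h | h
    · omega
    · exact h
  have h3 : p % 3 ≠ 0 := by
    intro h
    have h1 : 3 ∣ p := Nat.dvd_of_mod_eq_zero h
    rw [Nat.prime_dvd_prime_iff_eq Nat.prime_three hp] at h1
    omega
  rcases Nat.lt_or_ge p 25 with h | h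
  · have h6 : p = 5 ∨ p = 7 ∨ p = 11 ∨ p = 13 ∨ p = 17 ∨ p = 19 ∨ p = 23 := by omega
    rcases h6 with rfl | rfl | rfl | rfl | rfl | rfl | rfl
    · exact k9_5
    · exact k9_7
    · exact k9_11
    · exact k9_13
    · exact k9_17
    · exact k9_19
    · exact k9_23
  · exact patch (by omega) (pss_all h h2 h3)

theorem inj_of_order {G : Type} [AddCommGroup G] {d : ℕ} (g : G) (h : addOrderOf g = d) :
    ∃ f : ZMod d →+ G, Function.Injective f := by
  have h0 : (zmultiplesHom G g) (d : ℤ) = 0 := by
    rw [zmultiplesHom_apply, natCast_zsmul, ← h, addOrderOf_nsmul_eq_zero]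
  refine ⟨ZMod.lift d ⟨zmultiplesHom G g, h0⟩, ?_⟩
  rw [ZMod.lift_injective]
  intro m hm
  have hm' : m • g = 0 := hm
  rw [ZMod.intCast_zmod_eq_zero_iff_dvd] 
  rw [← h]
  exact addOrderOf_dvd_iff_zsmul_eq_zero.mpr hm'

theorem inj_zmod {d n : ℕ} (h : d ∣ n) (hn : 0 < n) :
    ∃ f : ZMod d →+ ZMod n, Function.Injective f := by
  apply inj_of_order ((n / d : ℕ) : ZMod n)
  rw [ZMod.addOrderOf_coe _ (by omega), Nat.gcd_eq_right (Nat.div_dvd_of_dvd h)]
  exact Nat.div_div_self h (by omega)

/-- A strong complete mapping of `ZMod 3 × ZMod 9`. -/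
def scmL : List (ZMod 3 × ZMod 9) :=
  [(0, 4), (0, 2), (1, 4), (1, 2), (2, 5), (0, 1), (2, 8), (1, 1), (2, 2), (2, 1), (2, 6),
   (0, 0), (1, 3), (1, 7), (2, 0), (0, 3), (0, 6), (1, 5), (1, 0), (0, 7), (1, 6), (1, 8),
   (2, 3), (2, 7), (2, 4), (0, 5), (0, 8)]

theorem scm39 : SCM (ZMod 3 × ZMod 9) := by
  refine ⟨fun x => scmL.getD (9 * x.1.val + x.2.val) (0, 0), ?_, ?_, ?_⟩
  · rw [Fintype.bijective_iff_injective_and_card]
    exact ⟨by unfold Function.Injective; decide +kernel, rfl⟩
  · rw [Fintype.bijective_iff_injective_and_card]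
    exact ⟨by unfold Function.Injective; decide +kernel, rfl⟩
  · rw [Fintype.bijective_iff_injective_and_card]
    exact ⟨by unfold Function.Injective; decide +kernel, rfl⟩

theorem scm333 : SCM (ZMod 3 × ZMod 3 × ZMod 3) := by
  refine ⟨fun x => (-x.2.2, x.1 + x.2.2, x.2.1), ?_, ?_, ?_⟩
  · rw [Fintype.bijective_iff_injective_and_card]
    exact ⟨by unfold Function.Injective; decide +kernel, rfl⟩
  · rw [Fintype.bijective_iff_injective_and_card]
    exact ⟨by unfold Function.Injective; decide +kernel, rfl⟩
  · rw [Fintype.bijective_iff_injective_and_card]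
    exact ⟨by unfold Function.Injective; decide +kernel, rfl⟩

theorem inj_prod {A B A' B' : Type} [AddCommGroup A] [AddCommGroup B] [AddCommGroup A']
    [AddCommGroup B'] {f : A →+ A'} {g : B →+ B'} (hf : Function.Injective f)
    (hg : Function.Injective g) : Function.Injective (f.prodMap g) := by
  intro x y h
  rw [AddMonoidHom.prodMap_def] at h
  have h1 := congrArg Prod.fst h
  have h2 := congrArg Prod.snd h
  exact Prod.ext (hf h1) (hg h2)

theorem emb39 {a b : ℕ} (ha : 1 ≤ a) (hb : 2 ≤ b) (l : List ℕ) :
    ∃ f : (ZMod 3 × ZMod 9) →+ CP (3 ^ a :: 3 ^ b :: l), Function.Injective f := by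
  obtain ⟨f, hf⟩ := inj_zmod (d := 3) (n := 3 ^ a) (dvd_pow_self 3 (by omega)) (by positivity)
  obtain ⟨g, hg⟩ := inj_zmod (d := 9) (n := 3 ^ b)
    ((show (9 : ℕ) = 3 ^ 2 by norm_num) ▸ pow_dvd_pow 3 hb) (by positivity)
  have h1 : Function.Injective ((AddMonoidHom.inl (ZMod (3 ^ b)) (CP l)).comp g) := by
    intro x y h
    exact hg (congrArg Prod.fst h)
  exact ⟨f.prodMap ((AddMonoidHom.inl (ZMod (3 ^ b)) (CP l)).comp g), inj_prod hf h1⟩

theorem emb333 {a b : ℕ} (ha : 1 ≤ a) (hb : 1 ≤ b) (l : List ℕ) (hl : 3 ∣ Nat.card (CP l))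
    (hfin : Finite (CP l)) :
    ∃ f : (ZMod 3 × ZMod 3 × ZMod 3) →+ CP (3 ^ a :: 3 ^ b :: l), Function.Injective f := by
  obtain ⟨f, hf⟩ := inj_zmod (d := 3) (n := 3 ^ a) (dvd_pow_self 3 (by omega)) (by positivity)
  obtain ⟨g, hg⟩ := inj_zmod (d := 3) (n := 3 ^ b) (dvd_pow_self 3 (by omega)) (by positivity)
  have := Fact.mk Nat.prime_three
  obtain ⟨x, hx⟩ := exists_prime_addOrderOf_dvd_card' 3 hl
  obtain ⟨h, hh⟩ := inj_of_order x hx
  exact ⟨f.prodMap (g.prodMap h), inj_prod hf (inj_prod hg hh)⟩

theorem nine_p {p a b : ℕ} {l : List ℕ} {G : Type} [AddCommGroup G] (hp : p.Prime) (h5 : 5 ≤ p)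
    (ha : 0 < a) (hb : 0 < b) (h : 3 ^ a * (3 ^ b * l.prod) = 9 * p)
    (e : Iso G (CP (3 ^ a :: 3 ^ b :: l))) : HasSS G := by
  have h3p : ¬ 3 ∣ p := by
    intro h1
    rw [Nat.prime_dvd_prime_iff_eq Nat.prime_three hp] at h1
    omega
  have hab : a + b ≤ 2 := by
    by_contra hc
    push Not at hc
    have h1 : 3 ^ 3 ∣ 9 * p := by
      rw [← h, ← mul_assoc, ← pow_add]
      exact (pow_dvd_pow 3 hc).mul_right _
    have h2 : 3 ∣ p := by omega
    exact h3p h2
  have ha1 : a = 1 := by omega
  have hb1 : b = 1 := by omega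
  subst ha1
  subst hb1
  have hl : l.prod = p := by omega
  have hcard : Nat.card (CP l) = p := by rw [card_CP, hl]
  have := Fact.mk hp
  have hcyc : IsAddCyclic (CP l) := isAddCyclic_of_prime_card hcard
  have e1 : Iso (CP l) (ZMod p) := by
    have := (zmodAddCyclicAddEquiv hcyc).symm
    rw [hcard] at this
    exact ⟨this⟩
  have e2 : Iso (CP (3 ^ 1 :: 3 ^ 1 :: l)) (ZMod 3 × (ZMod 3 × ZMod p)) :=
    (Iso.refl (ZMod 3)).prod ((Iso.refl (ZMod 3)).prod e1)
  have e3 : Iso (ZMod 3 × (ZMod 3 × ZMod p)) (K9 × ZMod p) := ⟨AddEquiv.prodAssoc.symm⟩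
  exact (e.trans (e2.trans e3)).hasSS (k9_prime hp h5)

theorem hasSS_coprime {l : List ℕ} (h : l.Pairwise Nat.Coprime) (h1 : Odd l.prod)
    (h3 : l.prod ≠ 3) (h5 : l.prod ≠ 5) (h9 : l.prod ≠ 9) : HasSS (CP l) :=
  (CP_coprime h).hasSS (hasSS_zmod h1 h3 h5 h9)

theorem ord25 (G : Type) [AddCommGroup G] [Finite G] (h : Nat.card G = 25) : HasSS G := by
  obtain ⟨l, hl, e⟩ := classify [5, 25] [[5, 5], [25]] (by norm_num) (by norm_num)
    (by decide +kernel) (by decide +kernel) G h
  simp only [List.mem_cons, List.not_mem_nil, or_false] at hl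
  rcases hl with rfl | rfl
  · exact e.hasSS base_5_5
  · exact e.hasSS (hasSS_coprime (by decide) (by decide) (by decide) (by decide) (by decide))

theorem ord27 (G : Type) [AddCommGroup G] [Finite G] (h : Nat.card G = 27) : HasSS G := by
  obtain ⟨l, hl, e⟩ := classify [3, 9, 27] [[3, 3, 3], [3, 9], [27]] (by norm_num) (by norm_num)
    (by decide +kernel) (by decide +kernel) G h
  simp only [List.mem_cons, List.not_mem_nil, or_false] at hl
  rcases hl with rfl | rfl | rfl
  · exact e.hasSS base_3_3_3
  · exact e.hasSS base_3_9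
  · exact e.hasSS (hasSS_coprime (by decide) (by decide) (by decide) (by decide) (by decide))

theorem ord75 (G : Type) [AddCommGroup G] [Finite G] (h : Nat.card G = 75) : HasSS G := by
  obtain ⟨l, hl, e⟩ := classify [3, 5, 25] [[3, 5, 5], [3, 25]] (by norm_num) (by norm_num)
    (by decide +kernel) (by decide +kernel) G h
  simp only [List.mem_cons, List.not_mem_nil, or_false] at hl
  rcases hl with rfl | rfl
  · exact e.hasSS base_3_5_5
  · exact e.hasSS (hasSS_coprime (by decide) (by decide) (by decide) (by decide) (by decide))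

theorem ord81 (G : Type) [AddCommGroup G] [Finite G] (h : Nat.card G = 81) : HasSS G := by
  obtain ⟨l, hl, e⟩ := classify [3, 9, 27, 81]
    [[3, 3, 3, 3], [3, 3, 9], [9, 9], [3, 27], [81]] (by norm_num) (by norm_num)
    (by decide +kernel) (by decide +kernel) G h
  simp only [List.mem_cons, List.not_mem_nil, or_false] at hl
  rcases hl with rfl | rfl | rfl | rfl | rfl
  · exact e.hasSS base_3_3_3_3
  · exact e.hasSS base_3_3_9
  · exact e.hasSS base_9_9
  · exact e.hasSS base_3_27
  · exact e.hasSS (hasSS_coprime (by decide) (by decide) (by decide) (by decide) (by decide))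

theorem ord125 (G : Type) [AddCommGroup G] [Finite G] (h : Nat.card G = 125) : HasSS G := by
  obtain ⟨l, hl, e⟩ := classify [5, 25, 125] [[5, 5, 5], [5, 25], [125]] (by norm_num)
    (by norm_num) (by decide +kernel) (by decide +kernel) G h
  simp only [List.mem_cons, List.not_mem_nil, or_false] at hl
  rcases hl with rfl | rfl | rfl
  · exact e.hasSS base_5_5_5
  · exact e.hasSS base_5_25
  · exact e.hasSS (hasSS_coprime (by decide) (by decide) (by decide) (by decide) (by decide))

theorem ord135 (G : Type) [AddCommGroup G] [Finite G] (h : Nat.card G = 135) : HasSS G := by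
  obtain ⟨l, hl, e⟩ := classify [3, 5, 9, 27] [[3, 3, 3, 5], [3, 5, 9], [5, 27]] (by norm_num)
    (by norm_num) (by decide +kernel) (by decide +kernel) G h
  simp only [List.mem_cons, List.not_mem_nil, or_false] at hl
  rcases hl with rfl | rfl | rfl
  · exact e.hasSS base_3_3_3_5
  · exact e.hasSS base_3_5_9
  · exact e.hasSS (hasSS_coprime (by decide) (by decide) (by decide) (by decide) (by decide))

theorem ord225 (G : Type) [AddCommGroup G] [Finite G] (h : Nat.card G = 225) : HasSS G := by
  obtain ⟨l, hl, e⟩ := classify [3, 5, 9, 25] [[3, 3, 5, 5], [3, 3, 25], [5, 5, 9], [9, 25]]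
    (by norm_num) (by norm_num) (by decide +kernel) (by decide +kernel) G h
  simp only [List.mem_cons, List.not_mem_nil, or_false] at hl
  rcases hl with rfl | rfl | rfl | rfl
  · exact e.hasSS base_3_3_5_5
  · exact e.hasSS base_3_3_25
  · exact e.hasSS base_5_5_9
  · exact e.hasSS (hasSS_coprime (by decide) (by decide) (by decide) (by decide) (by decide))

theorem ord243 (G : Type) [AddCommGroup G] [Finite G] (h : Nat.card G = 243) : HasSS G := by
  obtain ⟨l, hl, e⟩ := classify [3, 9, 27, 81, 243]
    [[3, 3, 3, 3, 3], [3, 3, 3, 9], [3, 9, 9], [3, 3, 27], [9, 27], [3, 81], [243]]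
    (by norm_num) (by norm_num) (by decide +kernel) (by decide +kernel) G h
  simp only [List.mem_cons, List.not_mem_nil, or_false] at hl
  rcases hl with rfl | rfl | rfl | rfl | rfl | rfl | rfl
  · exact e.hasSS base_3_3_3_3_3
  · exact e.hasSS base_3_3_3_9
  · exact e.hasSS base_3_9_9
  · exact e.hasSS base_3_3_27
  · exact e.hasSS base_9_27
  · exact e.hasSS base_3_81
  · exact e.hasSS (hasSS_coprime (by decide) (by decide) (by decide) (by decide) (by decide))

theorem quot_card {G H : Type} [AddCommGroup G] [AddCommGroup H] (f : H →+ G)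
    (hf : Function.Injective f) (hH : 0 < Nat.card H) :
    Nat.card (G ⧸ f.range) = Nat.card G / Nat.card H := by
  have e1 : Nat.card f.range = Nat.card H :=
    (Nat.card_congr (AddMonoidHom.ofInjective hf).toEquiv).symm
  have e2 := AddSubgroup.card_eq_card_quotient_mul_card_addSubgroup f.range
  rw [e1] at e2
  rw [e2, Nat.mul_div_cancel _ hH]

/-- Every finite abelian group of odd order other than 3, 5, 9 has a strong starter. -/
theorem horton : ∀ N : ℕ, N % 2 = 1 → N ≠ 3 → N ≠ 5 → N ≠ 9 →
    ∀ (G : Type) [AddCommGroup G] [Finite G], Nat.card G = N → HasSS G := by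
  intro N
  induction N using Nat.strong_induction_on with
  | _ N ih =>
  intro hodd h3 h5 h9 G _ _ hG
  have hN0 : 0 < N := by omega
  obtain ⟨L, hL, e⟩ := structure_list G
  have hprod : L.prod = N := by rw [← card_CP, ← e.card, hG]
  rcases dichotomy hL with hc | ⟨q, a, b, l, hq, ha, hb, hl, hperm⟩
  · refine e.hasSS (hasSS_coprime hc ?_ ?_ ?_ ?_)
    · rw [hprod, Nat.odd_iff]
      exact hodd
    · rw [hprod]
      exact h3
    · rw [hprod]
      exact h5
    · rw [hprod]
      exact h9
  have e' : Iso G (CP (q ^ a :: q ^ b :: l)) := e.trans (CP_perm hperm)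
  have hNq : q ^ a * (q ^ b * l.prod) = N := by
    rw [← hprod, hperm.prod_eq, List.prod_cons, List.prod_cons]
  have hqq : q * q ∣ N := by
    rw [← hNq, ← mul_assoc]
    exact (mul_dvd_mul (dvd_pow_self q (by omega)) (dvd_pow_self q (by omega))).mul_right _
  have hqN : q ∣ N := (Dvd.intro _ rfl).trans hqq
  have step : ∀ (H : Type) [AddCommGroup H] [Finite H] (f : H →+ G), Function.Injective f →
      HasSS H → SCM H → 1 < Nat.card H → Nat.card H ∣ N → N / Nat.card H ≠ 3 →
      N / Nat.card H ≠ 5 → N / Nat.card H ≠ 9 → HasSS G := by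
    intro H _ _ f hf hH hS h1 hd k3 k5 k9
    have hlt : N / Nat.card H < N := Nat.div_lt_self hN0 h1
    have hod : (N / Nat.card H) % 2 = 1 := by
      rw [← Nat.odd_iff] at hodd ⊢
      exact hodd.of_dvd_nat (Nat.div_dvd_of_dvd hd)
    refine HasSS.ext f hf hH hS (ih _ hlt hod k3 k5 k9 _ ?_)
    rw [quot_card f hf (by omega), hG]
  by_cases hp : ∃ p, p.Prime ∧ 7 ≤ p ∧ p ∣ N
  · obtain ⟨p, hp, hp7, hpN⟩ := hp
    have hpo : p % 2 = 1 := by
      rcases hp.eq_two_or_odd with h | h
      · omega
      · exact h
    have hpf := Fact.mk hp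
    by_cases hex : N / p = 3 ∨ N / p = 5 ∨ N / p = 9
    · have hNp : N = N / p * p := (Nat.div_mul_cancel hpN).symm
      have hqp : q ≠ p := by
        rintro rfl
        have h1 : q ∣ N / q := by
          apply Nat.dvd_of_mul_dvd_mul_right hp.pos
          rw [← hNp]
          exact hqq
        have h2 : q ≤ N / q := Nat.le_of_dvd (Nat.div_pos (Nat.le_of_dvd hN0 hpN) hp.pos) h1
        have h3' : q = 9 ∨ q = 7 ∨ q = 8 := by omega
        rcases h3' with rfl | rfl | rfl
        · norm_num at hp
        · rcases hex with h | h | h <;> rw [h] at h1 <;> omega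
        · norm_num at hp
      have hqc : (q * q).Coprime p :=
        Nat.Coprime.mul_left ((Nat.coprime_primes hq hp).mpr hqp)
          ((Nat.coprime_primes hq hp).mpr hqp)
      have hqd : q * q ∣ N / p := by
        apply hqc.dvd_of_dvd_mul_right
        rw [← hNp]
        exact hqq
      have hq2 := hq.two_le
      have hq3 : q = 3 ∧ N / p = 9 := by
        rcases hex with h | h | h
        · rw [h] at hqd
          have := Nat.le_of_dvd (by norm_num) hqd
          nlinarith
        · rw [h] at hqd
          have h6 := Nat.le_of_dvd (by norm_num) hqd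
          have h7 : q = 2 := by nlinarith
          subst h7
          omega
        · rw [h] at hqd
          have h6 := Nat.le_of_dvd (by norm_num) hqd
          have h7 : q ≤ 3 := by nlinarith
          have h8 : q = 2 ∨ q = 3 := by omega
          rcases h8 with rfl | rfl
          · omega
          · exact ⟨rfl, h⟩
      obtain ⟨rfl, h9'⟩ := hq3
      rw [h9'] at hNp
      exact nine_p hp (by omega) ha hb (by rw [hNq, ← hNp]) e'
    · push Not at hex
      obtain ⟨g, hg⟩ := exists_prime_addOrderOf_dvd_card' (G := G) p (by rw [hG]; exact hpN)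
      obtain ⟨f, hf⟩ := inj_of_order g hg
      have hcz : Nat.card (ZMod p) = p := Nat.card_zmod p
      have hne : NeZero p := ⟨by omega⟩
      refine step (ZMod p) f hf (hasSS_zmod (Nat.odd_iff.mpr hpo) (by omega) (by omega) ?_) ?_
        ?_ ?_ ?_ ?_ ?_
      · rintro rfl
        norm_num at hp
      · apply scm_of_coprime
        · rw [hcz]
          exact (Nat.coprime_primes hp Nat.prime_two).mpr (by omega)
        · rw [hcz]
          exact (Nat.coprime_primes hp Nat.prime_three).mpr (by omega)
      · rw [hcz]
        omega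
      · rw [hcz]
        exact hpN
      · rw [hcz]
        exact hex.1
      · rw [hcz]
        exact hex.2.1
      · rw [hcz]
        exact hex.2.2
  · push Not at hp
    have hprimes : ∀ r, r.Prime → r ∣ N → r = 3 ∨ r = 5 := by
      intro r hr hrN
      have h1 : r < 7 := by
        by_contra hc
        exact hp r hr (by omega) hrN
      have h2 := hr.two_le
      have h6 : r ≠ 2 := by
        rintro rfl
        omega
      have h7 : r ≠ 4 := by
        rintro rfl
        norm_num at hr
      have h8 : r ≠ 6 := by
        rintro rfl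
        norm_num at hr
      omega
    by_cases h25 : 25 ∣ N
    · by_cases hs : N = 25 ∨ N = 75 ∨ N = 125 ∨ N = 225
      · rcases hs with h | h | h | h
        · exact ord25 G (hG.trans h)
        · exact ord75 G (hG.trans h)
        · exact ord125 G (hG.trans h)
        · exact ord225 G (hG.trans h)
      · have h25' : 25 < N := by
          have := Nat.le_of_dvd hN0 h25
          omega
        have := Fact.mk Nat.prime_five
        have hf : Finite (Multiplicative G) := inferInstance
        obtain ⟨K, hK⟩ := Sylow.exists_subgroup_card_pow_prime (G := Multiplicative G) 5 (n := 2)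
          (by
            have : Nat.card (Multiplicative G) = N := hG
            rw [this]
            exact h25)
        let H : AddSubgroup G := Subgroup.toAddSubgroup' K
        have hH : Nat.card H = 25 := hK
        refine step H H.subtype H.subtype_injective
          (ih 25 h25' (by norm_num) (by norm_num) (by norm_num) (by norm_num) H hH)
          (scm_of_coprime (by rw [hH]; norm_num) (by rw [hH]; norm_num)) ?_ ?_ ?_ ?_ ?_
        · rw [hH]
          norm_num
        · rw [hH]
          exact h25
        · rw [hH]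
          omega
        · rw [hH]
          omega
        · rw [hH]
          omega
    · have hq3 : q = 3 := by
        rcases hprimes q hq hqN with h | h
        · exact h
        · subst h
          exact absurd hqq h25
      subst hq3
      by_cases h27 : 27 ∣ N
      · by_cases hs : N = 27 ∨ N = 81 ∨ N = 135 ∨ N = 243
        · rcases hs with h | h | h | h
          · exact ord27 G (hG.trans h)
          · exact ord81 G (hG.trans h)
          · exact ord135 G (hG.trans h)
          · exact ord243 G (hG.trans h)
        · have h27' : 27 < N := by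
            have := Nat.le_of_dvd hN0 h27
            omega
          have fin : ∀ (H : Type) [AddCommGroup H] [Finite H] (f : H →+ G),
              Function.Injective f → SCM H → Nat.card H = 27 → HasSS G := by
            intro H _ _ f hf hS hH
            refine step H f hf
              (ih 27 h27' (by norm_num) (by norm_num) (by norm_num) (by norm_num) H hH) hS
              ?_ ?_ ?_ ?_ ?_
            · rw [hH]
              norm_num
            · rw [hH]
              exact h27
            · rw [hH]
              omega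
            · rw [hH]
              omega
            · rw [hH]
              omega
          obtain ⟨E⟩ := e'
          by_cases hb2 : 2 ≤ b
          · obtain ⟨f, hf⟩ := emb39 ha hb2 l
            exact fin _ (E.symm.toAddMonoidHom.comp f) (E.symm.injective.comp hf) scm39
              (by rw [Nat.card_prod, Nat.card_zmod, Nat.card_zmod])
          · by_cases ha2 : 2 ≤ a
            · obtain ⟨f, hf⟩ := emb39 hb ha2 l
              obtain ⟨E2⟩ := CP_swap (3 ^ b) (3 ^ a) l
              exact fin _ (E.symm.toAddMonoidHom.comp (E2.toAddMonoidHom.comp f))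
                (E.symm.injective.comp (E2.injective.comp hf)) scm39
                (by rw [Nat.card_prod, Nat.card_zmod, Nat.card_zmod])
            · have ha1 : a = 1 := by omega
              have hb1 : b = 1 := by omega
              subst ha1
              subst hb1
              have hl3 : 3 ∣ l.prod := by omega
              have hlp : 0 < l.prod := by omega
              have hfin : Finite (CP l) := Nat.finite_of_card_ne_zero (by rw [card_CP]; omega)
              obtain ⟨f, hf⟩ := emb333 (a := 1) (b := 1) le_rfl le_rfl l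
                (by rw [card_CP]; exact hl3) hfin
              exact fin _ (E.symm.toAddMonoidHom.comp f) (E.symm.injective.comp hf) scm333
                (by rw [Nat.card_prod, Nat.card_prod, Nat.card_zmod])
      · have h45 : N = 9 * 5 := by
          obtain ⟨M, hM⟩ := hqq
          have hM1 : M ≠ 1 := by
            rintro rfl
            omega
          have hM3 : ¬ 3 ∣ M := by
            rintro ⟨c, rfl⟩
            exact h27 ⟨c, by rw [hM]; ring⟩
          obtain ⟨r, hr, hrM⟩ := Nat.exists_prime_and_dvd hM1
          have hrN : r ∣ N := hrM.trans ⟨3 * 3, by rw [hM]; ring⟩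
          rcases hprimes r hr hrN with h | h
          · subst h
            exact absurd hrM hM3
          · subst h
            obtain ⟨c, rfl⟩ := hrM
            have hc1 : c = 1 := by
              by_contra hc
              obtain ⟨s, hs, hsc⟩ := Nat.exists_prime_and_dvd hc
              have hsN : s ∣ N := hsc.trans ⟨3 * 3 * 5, by rw [hM]; ring⟩
              rcases hprimes s hs hsN with h | h
              · subst h
                exact hM3 (hsc.trans ⟨5, by ring⟩)
              · subst h
                obtain ⟨c', rfl⟩ := hsc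
                exact h25 ⟨9 * c', by rw [hM]; ring⟩
            subst hc1
            omega
        exact nine_p Nat.prime_five le_rfl ha hb (by rw [hNq, h45]) e'

end Pool.Agent.Helper1.Horton
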