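import Mathlib
import Pool.Agent.Helper1.Horton8

set_option autoImplicit false

namespace Pool.Agent.Helper1.Horton

theorem surj_sum {κ G : Type} [Finite κ] [AddCommGroup G] [Finite G] (e : κ → G)
    (hc : Nat.card κ + 1 = Nat.card G) (h : ∀ g : G, g ≠ 0 → ∃ i, e i = g) :
    Function.Injective e ∧ ∀ i, e i ≠ 0 := by
  classical
  have h0 : ∀ i, e i ≠ 0 := by
    intro i0 hi0
    have hs : Function.Surjective e := by
      intro g
      by_cases hg : g = 0
      · exact ⟨i0, by rw [hi0, hg]⟩
      · exact h g hg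
    have h1 := Nat.card_le_card_of_surjective e hs
    omega
  refine ⟨?_, h0⟩
  let e' : κ → {g : G // g ≠ 0} := fun i => ⟨e i, h0 i⟩
  have hs : Function.Surjective e' := by
    rintro ⟨g, hg⟩
    obtain ⟨i, hi⟩ := h g hg
    exact ⟨i, Subtype.ext hi⟩
  have hcard : Nat.card κ = Nat.card {g : G // g ≠ 0} := by
    have := Fintype.ofFinite G
    rw [Nat.card_eq_fintype_card (α := {g : G // g ≠ 0}), Fintype.card_subtype_compl,
      Fintype.card_subtype_eq, ← Nat.card_eq_fintype_card (α := G)]
    omega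
  have hb : Function.Bijective e' :=
    (Nat.bijective_iff_surjective_and_card e').mpr ⟨hs, hcard⟩
  intro i j hij
  exact hb.1 (Subtype.ext hij)

theorem starter_adder (G : Type) [AddCommGroup G] [Fintype G] (hodd : Odd (Fintype.card G))
    (h3 : Fintype.card G ≠ 3) (h5 : Fintype.card G ≠ 5) (h9 : Fintype.card G ≠ 9) :
    ∃ (x y a : Fin ((Fintype.card G - 1) / 2) → G),
        Function.Injective (Sum.elim x y) ∧
        (∀ i, x i ≠ 0 ∧ y i ≠ 0) ∧
        Function.Injective (Sum.elim (fun i => x i - y i) (fun i => y i - x i)) ∧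
        Function.Injective a ∧
        (∀ i, a i ≠ 0) ∧
        Function.Injective (Sum.elim (fun i => x i + a i) (fun i => y i + a i)) ∧
        (∀ i, x i + a i ≠ 0 ∧ y i + a i ≠ 0) := by
  obtain ⟨ι, hι, p, q, h1, h2, h3', h4, h5'⟩ := horton (Fintype.card G) (Nat.odd_iff.mp hodd)
    h3 h5 h9 G Nat.card_eq_fintype_card
  have hcard : Nat.card ι = (Fintype.card G - 1) / 2 := by
    rw [← Nat.card_eq_fintype_card, ← h5']
    omega
  obtain ⟨E⟩ : Nonempty (Fin ((Fintype.card G - 1) / 2) ≃ ι) := by
    rw [← hcard]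
    exact ⟨(Finite.equivFin ι).symm⟩
  have hc : Nat.card (Fin ((Fintype.card G - 1) / 2) ⊕ Fin ((Fintype.card G - 1) / 2)) + 1 =
      Nat.card G := by
    rw [Nat.card_sum, Nat.card_fin, ← hcard, ← h5']
    omega
  obtain ⟨k1, k2⟩ := surj_sum (Sum.elim (fun i => p (E i)) (fun i => q (E i))) hc (by
    intro g hg
    obtain ⟨i, hi | hi⟩ := h1 g hg
    · exact ⟨Sum.inl (E.symm i), by simpa using hi⟩
    · exact ⟨Sum.inr (E.symm i), by simpa using hi⟩)
  obtain ⟨k3, k4⟩ := surj_sum
    (Sum.elim (fun i => p (E i) - q (E i)) (fun i => q (E i) - p (E i))) hc (by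
    intro g hg
    obtain ⟨i, hi | hi⟩ := h2 g hg
    · exact ⟨Sum.inl (E.symm i), by simpa using hi⟩
    · exact ⟨Sum.inr (E.symm i), by simpa using hi⟩)
  refine ⟨fun i => p (E i), fun i => q (E i), fun i => -(p (E i) + q (E i)), k1, ?_, k3, ?_, ?_,
    ?_, ?_⟩
  · intro i
    exact ⟨k2 (Sum.inl i), k2 (Sum.inr i)⟩
  · intro i j hij
    simp only [neg_inj] at hij
    exact E.injective (h3' hij)
  · intro i hi
    rw [neg_eq_zero] at hi
    exact h4 _ hi
  · have e1 : Sum.elim (fun i => p (E i) + -(p (E i) + q (E i)))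
        (fun i => q (E i) + -(p (E i) + q (E i))) =
        fun s => -(Sum.elim (fun i => p (E i)) (fun i => q (E i)) s.swap) := by
      funext s
      rcases s with i | i
      · simp
      · simp
    rw [e1]
    intro s t hst
    simp only [neg_inj] at hst
    have := k1 hst
    rw [← Sum.swap_swap s, this, Sum.swap_swap]
  · intro i
    constructor
    · intro hi
      apply k2 (Sum.inr i)
      rw [Sum.elim_inr]
      have : p (E i) + -(p (E i) + q (E i)) = -q (E i) := by abel
      rw [this, neg_eq_zero] at hi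
      exact hi
    · intro hi
      apply k2 (Sum.inl i)
      rw [Sum.elim_inl]
      have : q (E i) + -(p (E i) + q (E i)) = -p (E i) := by abel
      rw [this, neg_eq_zero] at hi
      exact hi

end Pool.Agent.Helper1.Horton
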