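import Mathlib
import Pool.Agent.Helper1.Starter3

set_option autoImplicit false

namespace Pool.Agent.Helper1.PDF

open Pool.Agent.Helper1.CycleMagic Pool.Agent.Helper1.CycleMagic.Starter

/-- `x, y, z` are the gaps of the base blocks of a perfect difference family with `m` blocks of
size four: the `6 m` numbers `x, y, z, x + y, y + z, x + y + z` are exactly `1, ..., 6 m`. -/
def IsPDF (m : ℕ) {ι : Type} [Fintype ι] (x y z a b c : ι → ℕ) : Prop :=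
  Fintype.card ι = m ∧
  (∀ i, x i + y i = a i) ∧ (∀ i, y i + z i = b i) ∧ (∀ i, x i + b i = c i) ∧
  (∀ v, 1 ≤ v → v ≤ 6 * m → ∃ i, x i = v ∨ y i = v ∨ z i = v ∨ a i = v ∨ b i = v ∨ c i = v)

/-- Existence of a perfect difference family with `m` blocks of size four. -/
def HasPDF (m : ℕ) : Prop :=
  ∃ (ι : Type) (_ : Fintype ι) (x y z a b c : ι → ℕ), IsPDF m x y z a b c

/-- A base block. -/
structure Blk where
  x : ℕ
  y : ℕ
  z : ℕ
  a : ℕ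
  b : ℕ
  c : ℕ

/-- A piece of an inserted block: tile, residue, direction. -/
structure Pc where
  j : ℕ
  r : ℕ
  s : Bool

/-- A type of inserted blocks. -/
structure Tb where
  x : Pc
  y : Pc
  z : Pc
  a : Pc
  b : Pc
  c : Pc

/-- Data of a growing family. -/
structure Fam4 where
  n0 : ℕ
  g : ℕ
  L : Line
  bs : List Blk
  ts : List Tb

/-- The affine triple of a piece. -/
def pa (L : Line) (p : Pc) : ℕ × ℕ × ℕ := af L p.j p.r p.s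

/-- Value of a piece. -/
def pe (L : Line) (k : ℕ) (p : Pc) (t : ℕ) : ℕ := en L k p.j p.r p.s t

/-- Everything that has to be checked by a finite computation. -/
structure Fam4.Ok (F : Fam4) : Prop where
  sL : Srt F.L
  cL : ∀ j < F.L.K, F.L.c j ≤ 6 * F.n0
  wL : W F.L.w F.L.K = 6 * F.g
  lb : F.bs.length = F.n0
  lt : F.ts.length = F.g
  p1 : ∀ v < 6 * F.n0, ∃ p ∈ F.bs, p.x = v + 1 ∨ p.y = v + 1 ∨ p.z = v + 1 ∨ p.a = v + 1 ∨
    p.b = v + 1 ∨ p.c = v + 1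
  p2 : ∀ j < F.L.K, ∀ r < F.L.w j, ∃ t ∈ F.ts, (t.x.j = j ∧ t.x.r = r) ∨ (t.y.j = j ∧ t.y.r = r) ∨
    (t.z.j = j ∧ t.z.r = r) ∨ (t.a.j = j ∧ t.a.r = r) ∨ (t.b.j = j ∧ t.b.r = r) ∨
    (t.c.j = j ∧ t.c.r = r)
  bb : ∀ p ∈ F.bs, shp F.L p.x + shp F.L p.y = shp F.L p.a ∧ shp F.L p.y + shp F.L p.z = shp F.L p.b ∧
    shp F.L p.x + shp F.L p.b = shp F.L p.c
  tt : ∀ t ∈ F.ts, pa F.L t.x + pa F.L t.y = pa F.L t.a ∧ pa F.L t.y + pa F.L t.z = pa F.L t.b ∧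
    pa F.L t.x + pa F.L t.b = pa F.L t.c

theorem sh_add {L : Line} {x y a : ℕ} (k : ℕ) (h : shp L x + shp L y = shp L a) :
    sh L k x + sh L k y = sh L k a := by
  have h1 := congrArg (e2 k) h
  rw [← e2_add] at h1
  exact h1

theorem pe_add {L : Line} {k t : ℕ} (ht : t < k) {p q r : Pc}
    (h : pa L p + pa L q = pa L r) : pe L k p t + pe L k q t = pe L k r t := by
  simp only [pe, en_ev L ht]
  rw [ev_add]
  exact congrArg (fun A => ev A t (k - 1 - t)) h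

theorem pe_hit {L : Line} {k m : ℕ} (hm : m < k) (p : Pc) :
    ∃ t, t < k ∧ pe L k p t = bp L k p.j p.r m := by
  refine ⟨if p.s then m else k - 1 - m, ?_, ?_⟩
  · split_ifs <;> omega
  · simp only [pe, en]
    congr 1
    split_ifs <;> omega

theorem Fam4.Ok.isPDF {F : Fam4} (h : F.Ok) (k : ℕ) :
    IsPDF (F.n0 + F.g * k) (ι := Fin F.bs.length ⊕ (Fin F.ts.length × Fin k))
    (Sum.elim (fun i => sh F.L k (F.bs[i]).x) (fun q => pe F.L k (F.ts[q.1]).x q.2))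
    (Sum.elim (fun i => sh F.L k (F.bs[i]).y) (fun q => pe F.L k (F.ts[q.1]).y q.2))
    (Sum.elim (fun i => sh F.L k (F.bs[i]).z) (fun q => pe F.L k (F.ts[q.1]).z q.2))
    (Sum.elim (fun i => sh F.L k (F.bs[i]).a) (fun q => pe F.L k (F.ts[q.1]).a q.2))
    (Sum.elim (fun i => sh F.L k (F.bs[i]).b) (fun q => pe F.L k (F.ts[q.1]).b q.2))
    (Sum.elim (fun i => sh F.L k (F.bs[i]).c) (fun q => pe F.L k (F.ts[q.1]).c q.2)) := by
  classical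
  refine ⟨?_, ?_, ?_, ?_, ?_⟩
  · simp [h.lb, h.lt]
  · rintro (i | ⟨i, t⟩)
    · exact sh_add k (h.bb _ (List.getElem_mem i.2)).1
    · exact pe_add t.2 (h.tt _ (List.getElem_mem i.2)).1
  · rintro (i | ⟨i, t⟩)
    · exact sh_add k (h.bb _ (List.getElem_mem i.2)).2.1
    · exact pe_add t.2 (h.tt _ (List.getElem_mem i.2)).2.1
  · rintro (i | ⟨i, t⟩)
    · exact sh_add k (h.bb _ (List.getElem_mem i.2)).2.2
    · exact pe_add t.2 (h.tt _ (List.getElem_mem i.2)).2.2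
  · intro v hv1 hv2
    have hT : v ≤ 6 * F.n0 + k * W F.L.w F.L.K := by
      rw [h.wL]
      calc v ≤ 6 * (F.n0 + F.g * k) := hv2
        _ = 6 * F.n0 + k * (6 * F.g) := by ring
    rcases cov h.sL k (6 * F.n0) v h.cL hv1 hT with ⟨x, hx1, hx2, hx⟩ | ⟨j, hj, r, hr, m, hm, hv⟩
    · obtain ⟨p, hp, hpx⟩ := h.p1 (x - 1) (by omega)
      obtain ⟨i, hi, rfl⟩ := List.mem_iff_getElem.mp hp
      have hx' : x - 1 + 1 = x := by omega
      rw [hx'] at hpx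
      refine ⟨Sum.inl ⟨i, hi⟩, ?_⟩
      simp only [Sum.elim_inl, Fin.getElem_fin]
      rcases hpx with h1 | h1 | h1 | h1 | h1 | h1 <;> simp [h1, hx]
    · obtain ⟨t, ht, htx⟩ := h.p2 j hj r hr
      obtain ⟨i, hi, rfl⟩ := List.mem_iff_getElem.mp ht
      rcases htx with ⟨h1, h2⟩ | ⟨h1, h2⟩ | ⟨h1, h2⟩ | ⟨h1, h2⟩ | ⟨h1, h2⟩ | ⟨h1, h2⟩
      · obtain ⟨u, hu, he⟩ := pe_hit (L := F.L) hm (F.ts[i]).x
        refine ⟨Sum.inr (⟨i, hi⟩, ⟨u, hu⟩), Or.inl ?_⟩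
        rw [hv, ← h1, ← h2]
        exact he
      · obtain ⟨u, hu, he⟩ := pe_hit (L := F.L) hm (F.ts[i]).y
        refine ⟨Sum.inr (⟨i, hi⟩, ⟨u, hu⟩), Or.inr (Or.inl ?_)⟩
        rw [hv, ← h1, ← h2]
        exact he
      · obtain ⟨u, hu, he⟩ := pe_hit (L := F.L) hm (F.ts[i]).z
        refine ⟨Sum.inr (⟨i, hi⟩, ⟨u, hu⟩), Or.inr (Or.inr (Or.inl ?_))⟩
        rw [hv, ← h1, ← h2]
        exact he
      · obtain ⟨u, hu, he⟩ := pe_hit (L := F.L) hm (F.ts[i]).a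
        refine ⟨Sum.inr (⟨i, hi⟩, ⟨u, hu⟩), Or.inr (Or.inr (Or.inr (Or.inl ?_)))⟩
        rw [hv, ← h1, ← h2]
        exact he
      · obtain ⟨u, hu, he⟩ := pe_hit (L := F.L) hm (F.ts[i]).b
        refine ⟨Sum.inr (⟨i, hi⟩, ⟨u, hu⟩), Or.inr (Or.inr (Or.inr (Or.inr (Or.inl ?_))))⟩
        rw [hv, ← h1, ← h2]
        exact he
      · obtain ⟨u, hu, he⟩ := pe_hit (L := F.L) hm (F.ts[i]).c
        refine ⟨Sum.inr (⟨i, hi⟩, ⟨u, hu⟩), Or.inr (Or.inr (Or.inr (Or.inr (Or.inr ?_))))⟩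
        rw [hv, ← h1, ← h2]
        exact he

theorem Fam4.Ok.pdf {F : Fam4} (h : F.Ok) (k : ℕ) : HasPDF (F.n0 + F.g * k) :=
  ⟨_, _, _, _, _, _, _, _, h.isPDF k⟩

end Pool.Agent.Helper1.PDF
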