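import Mathlib
import Pool.Agent.Helper1.PDF1

set_option autoImplicit false
set_option maxRecDepth 100000
set_option synthInstance.maxSize 100000
set_option synthInstance.maxHeartbeats 4000000

namespace Pool.Agent.Helper1.PDF

open Pool.Agent.Helper1.CycleMagic Pool.Agent.Helper1.CycleMagic.Starter

/-- A growing family of perfect difference families with 1 blocks and step 0. -/
def f1 : Fam4 where
  n0 := 1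
  g := 0
  L := ⟨0, fun i => ([] : List ℕ).getD i 0, fun i => ([] : List ℕ).getD i 0⟩
  bs := [⟨1, 3, 2, 4, 5, 6⟩]
  ts := []

theorem f1_ok : f1.Ok where
  sL := by decide +kernel
  cL := by decide +kernel
  wL := by decide +kernel
  lb := by decide +kernel
  lt := by decide +kernel
  p1 := by decide +kernel
  p2 := by decide +kernel
  bb := by decide +kernel
  tt := by decide +kernel

/-- A growing family of perfect difference families with 4 blocks and step 0. -/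
def f4 : Fam4 where
  n0 := 4
  g := 0
  L := ⟨0, fun i => ([] : List ℕ).getD i 0, fun i => ([] : List ℕ).getD i 0⟩
  bs := [⟨1, 8, 12, 9, 20, 21⟩,
    ⟨2, 17, 5, 19, 22, 24⟩,
    ⟨3, 11, 4, 14, 15, 18⟩,
    ⟨7, 6, 10, 13, 16, 23⟩]
  ts := []

theorem f4_ok : f4.Ok where
  sL := by decide +kernel
  cL := by decide +kernel
  wL := by decide +kernel
  lb := by decide +kernel
  lt := by decide +kernel
  p1 := by decide +kernel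
  p2 := by decide +kernel
  bb := by decide +kernel
  tt := by decide +kernel

/-- A growing family of perfect difference families with 5 blocks and step 0. -/
def f5 : Fam4 where
  n0 := 5
  g := 0
  L := ⟨0, fun i => ([] : List ℕ).getD i 0, fun i => ([] : List ℕ).getD i 0⟩
  bs := [⟨1, 17, 10, 18, 27, 28⟩,
    ⟨2, 7, 15, 9, 22, 24⟩,
    ⟨3, 20, 6, 23, 26, 29⟩,
    ⟨4, 8, 13, 12, 21, 25⟩,
    ⟨11, 5, 14, 16, 19, 30⟩]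
  ts := []

theorem f5_ok : f5.Ok where
  sL := by decide +kernel
  cL := by decide +kernel
  wL := by decide +kernel
  lb := by decide +kernel
  lt := by decide +kernel
  p1 := by decide +kernel
  p2 := by decide +kernel
  bb := by decide +kernel
  tt := by decide +kernel

/-- A growing family of perfect difference families with 6 blocks and step 0. -/
def f6 : Fam4 where
  n0 := 6
  g := 0
  L := ⟨0, fun i => ([] : List ℕ).getD i 0, fun i => ([] : List ℕ).getD i 0⟩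
  bs := [⟨1, 25, 9, 26, 34, 35⟩,
    ⟨2, 8, 21, 10, 29, 31⟩,
    ⟨3, 11, 19, 14, 30, 33⟩,
    ⟨4, 18, 6, 22, 24, 28⟩,
    ⟨5, 12, 15, 17, 27, 32⟩,
    ⟨13, 7, 16, 20, 23, 36⟩]
  ts := []

theorem f6_ok : f6.Ok where
  sL := by decide +kernel
  cL := by decide +kernel
  wL := by decide +kernel
  lb := by decide +kernel
  lt := by decide +kernel
  p1 := by decide +kernel
  p2 := by decide +kernel
  bb := by decide +kernel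
  tt := by decide +kernel

/-- A growing family of perfect difference families with 7 blocks and step 0. -/
def f7 : Fam4 where
  n0 := 7
  g := 0
  L := ⟨0, fun i => ([] : List ℕ).getD i 0, fun i => ([] : List ℕ).getD i 0⟩
  bs := [⟨1, 30, 5, 31, 35, 36⟩,
    ⟨3, 8, 29, 11, 37, 40⟩,
    ⟨4, 28, 6, 32, 34, 38⟩,
    ⟨10, 7, 16, 17, 23, 33⟩,
    ⟨13, 12, 14, 25, 26, 39⟩,
    ⟨15, 9, 18, 24, 27, 42⟩,
    ⟨19, 2, 20, 21, 22, 41⟩]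
  ts := []

theorem f7_ok : f7.Ok where
  sL := by decide +kernel
  cL := by decide +kernel
  wL := by decide +kernel
  lb := by decide +kernel
  lt := by decide +kernel
  p1 := by decide +kernel
  p2 := by decide +kernel
  bb := by decide +kernel
  tt := by decide +kernel

/-- A growing family of perfect difference families with 8 blocks and step 0. -/
def f8 : Fam4 where
  n0 := 8
  g := 0
  L := ⟨0, fun i => ([] : List ℕ).getD i 0, fun i => ([] : List ℕ).getD i 0⟩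
  bs := [⟨1, 31, 4, 32, 35, 36⟩,
    ⟨2, 39, 3, 41, 42, 44⟩,
    ⟨5, 16, 12, 21, 28, 33⟩,
    ⟨6, 7, 30, 13, 37, 43⟩,
    ⟨8, 18, 22, 26, 40, 48⟩,
    ⟨9, 15, 23, 24, 38, 47⟩,
    ⟨11, 14, 20, 25, 34, 45⟩,
    ⟨17, 10, 19, 27, 29, 46⟩]
  ts := []

theorem f8_ok : f8.Ok where
  sL := by decide +kernel
  cL := by decide +kernel
  wL := by decide +kernel
  lb := by decide +kernel
  lt := by decide +kernel
  p1 := by decide +kernel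
  p2 := by decide +kernel
  bb := by decide +kernel
  tt := by decide +kernel

/-- A growing family of perfect difference families with 9 blocks and step 6. -/
def f9 : Fam4 where
  n0 := 9
  g := 6
  L := ⟨26, fun i => ([2, 5, 6, 8, 9, 12, 16, 17, 20, 22, 24, 26, 27, 29, 30, 33, 35, 37, 40, 42, 44, 46, 47, 50, 51, 52] : List ℕ).getD i 0, fun i => ([3, 1, 1, 1, 1, 3, 1, 2, 1, 2, 1, 1, 1, 1, 1, 2, 1, 2, 1, 2, 1, 1, 2, 1, 1, 1] : List ℕ).getD i 0⟩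
  bs := [⟨7, 22, 23, 29, 45, 52⟩,
    ⟨1, 36, 5, 37, 41, 42⟩,
    ⟨13, 12, 28, 25, 40, 53⟩,
    ⟨18, 2, 31, 20, 33, 51⟩,
    ⟨10, 24, 14, 34, 38, 48⟩,
    ⟨3, 16, 30, 19, 46, 49⟩,
    ⟨9, 8, 27, 17, 35, 44⟩,
    ⟨15, 6, 26, 21, 32, 47⟩,
    ⟨4, 39, 11, 43, 50, 54⟩]
  ts := [⟨⟨0, 0, true⟩, ⟨6, 0, false⟩, ⟨11, 0, false⟩, ⟨7, 1, true⟩, ⟨19, 1, false⟩, ⟨20, 0, true⟩⟩,
    ⟨⟨0, 1, true⟩, ⟨8, 0, false⟩, ⟨12, 0, false⟩, ⟨9, 1, true⟩, ⟨22, 1, false⟩, ⟨23, 0, true⟩⟩,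
    ⟨⟨0, 2, true⟩, ⟨14, 0, false⟩, ⟨2, 0, false⟩, ⟨15, 1, true⟩, ⟨17, 0, false⟩, ⟨18, 0, true⟩⟩,
    ⟨⟨5, 2, true⟩, ⟨10, 0, false⟩, ⟨3, 0, false⟩, ⟨17, 1, true⟩, ⟨15, 0, false⟩, ⟨21, 0, true⟩⟩,
    ⟨⟨1, 0, false⟩, ⟨5, 0, true⟩, ⟨16, 0, false⟩, ⟨7, 0, true⟩, ⟨22, 0, true⟩, ⟨25, 0, true⟩⟩,
    ⟨⟨4, 0, false⟩, ⟨5, 1, true⟩, ⟨13, 0, false⟩, ⟨9, 0, true⟩, ⟨19, 0, true⟩, ⟨24, 0, true⟩⟩]

theorem f9_ok : f9.Ok where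
  sL := by decide +kernel
  cL := by decide +kernel
  wL := by decide +kernel
  lb := by decide +kernel
  lt := by decide +kernel
  p1 := by decide +kernel
  p2 := by decide +kernel
  bb := by decide +kernel
  tt := by decide +kernel

/-- A growing family of perfect difference families with 10 blocks and step 6. -/
def f10 : Fam4 where
  n0 := 10
  g := 6
  L := ⟨26, fun i => ([2, 6, 7, 9, 10, 13, 17, 19, 22, 25, 27, 28, 30, 32, 34, 36, 39, 41, 43, 46, 48, 50, 52, 56, 57, 58] : List ℕ).getD i 0, fun i => ([3, 1, 1, 1, 1, 3, 1, 2, 1, 2, 1, 1, 1, 1, 1, 2, 1, 2, 1, 2, 1, 1, 2, 1, 1, 1] : List ℕ).getD i 0⟩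
  bs := [⟨14, 6, 33, 20, 39, 53⟩,
    ⟨2, 23, 31, 25, 54, 56⟩,
    ⟨10, 22, 26, 32, 48, 58⟩,
    ⟨12, 18, 29, 30, 47, 59⟩,
    ⟨8, 43, 9, 51, 52, 60⟩,
    ⟨13, 15, 27, 28, 42, 55⟩,
    ⟨3, 34, 7, 37, 41, 44⟩,
    ⟨5, 11, 24, 16, 35, 40⟩,
    ⟨1, 45, 4, 46, 49, 50⟩,
    ⟨19, 17, 21, 36, 38, 57⟩]
  ts := [⟨⟨0, 1, true⟩, ⟨6, 0, false⟩, ⟨11, 0, false⟩, ⟨7, 1, true⟩, ⟨19, 0, false⟩, ⟨20, 0, true⟩⟩,
    ⟨⟨0, 2, true⟩, ⟨8, 0, false⟩, ⟨12, 0, false⟩, ⟨9, 1, true⟩, ⟨22, 1, false⟩, ⟨23, 0, true⟩⟩,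
    ⟨⟨0, 0, true⟩, ⟨14, 0, false⟩, ⟨2, 0, false⟩, ⟨15, 0, true⟩, ⟨17, 1, false⟩, ⟨18, 0, true⟩⟩,
    ⟨⟨5, 1, true⟩, ⟨10, 0, false⟩, ⟨3, 0, false⟩, ⟨17, 0, true⟩, ⟨15, 1, false⟩, ⟨21, 0, true⟩⟩,
    ⟨⟨1, 0, false⟩, ⟨5, 0, true⟩, ⟨16, 0, false⟩, ⟨7, 0, true⟩, ⟨22, 0, true⟩, ⟨25, 0, true⟩⟩,
    ⟨⟨4, 0, false⟩, ⟨5, 2, true⟩, ⟨13, 0, false⟩, ⟨9, 0, true⟩, ⟨19, 1, true⟩, ⟨24, 0, true⟩⟩]

theorem f10_ok : f10.Ok where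
  sL := by decide +kernel
  cL := by decide +kernel
  wL := by decide +kernel
  lb := by decide +kernel
  lt := by decide +kernel
  p1 := by decide +kernel
  p2 := by decide +kernel
  bb := by decide +kernel
  tt := by decide +kernel

/-- A growing family of perfect difference families with 11 blocks and step 6. -/
def f11 : Fam4 where
  n0 := 11
  g := 6
  L := ⟨26, fun i => ([1, 6, 8, 9, 11, 16, 19, 21, 24, 27, 30, 32, 35, 36, 38, 39, 43, 47, 47, 52, 53, 57, 59, 62, 64, 65] : List ℕ).getD i 0, fun i => ([3, 1, 1, 1, 1, 3, 1, 2, 1, 2, 1, 1, 1, 1, 1, 2, 1, 2, 1, 2, 1, 1, 2, 1, 1, 1] : List ℕ).getD i 0⟩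
  bs := [⟨1, 46, 2, 47, 48, 49⟩,
    ⟨3, 16, 41, 19, 57, 60⟩,
    ⟨15, 12, 28, 27, 40, 55⟩,
    ⟨17, 5, 32, 22, 37, 54⟩,
    ⟨4, 52, 10, 56, 62, 66⟩,
    ⟨18, 7, 36, 25, 43, 61⟩,
    ⟨6, 23, 35, 29, 58, 64⟩,
    ⟨20, 14, 31, 34, 45, 65⟩,
    ⟨9, 33, 11, 42, 44, 53⟩,
    ⟨13, 26, 24, 39, 50, 63⟩,
    ⟨8, 30, 21, 38, 51, 59⟩]
  ts := [⟨⟨0, 1, true⟩, ⟨6, 0, false⟩, ⟨11, 0, false⟩, ⟨7, 0, true⟩, ⟨19, 0, false⟩, ⟨20, 0, true⟩⟩,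
    ⟨⟨0, 2, true⟩, ⟨8, 0, false⟩, ⟨12, 0, false⟩, ⟨9, 0, true⟩, ⟨22, 1, false⟩, ⟨23, 0, true⟩⟩,
    ⟨⟨0, 0, true⟩, ⟨14, 0, false⟩, ⟨2, 0, false⟩, ⟨15, 0, true⟩, ⟨17, 0, false⟩, ⟨18, 0, true⟩⟩,
    ⟨⟨5, 2, true⟩, ⟨10, 0, false⟩, ⟨3, 0, false⟩, ⟨17, 1, true⟩, ⟨15, 1, false⟩, ⟨21, 0, true⟩⟩,
    ⟨⟨1, 0, false⟩, ⟨5, 0, true⟩, ⟨16, 0, false⟩, ⟨7, 1, true⟩, ⟨22, 0, true⟩, ⟨25, 0, true⟩⟩,
    ⟨⟨4, 0, false⟩, ⟨5, 1, true⟩, ⟨13, 0, false⟩, ⟨9, 1, true⟩, ⟨19, 1, true⟩, ⟨24, 0, true⟩⟩]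

theorem f11_ok : f11.Ok where
  sL := by decide +kernel
  cL := by decide +kernel
  wL := by decide +kernel
  lb := by decide +kernel
  lt := by decide +kernel
  p1 := by decide +kernel
  p2 := by decide +kernel
  bb := by decide +kernel
  tt := by decide +kernel

/-- A growing family of perfect difference families with 12 blocks and step 6. -/
def f12 : Fam4 where
  n0 := 12
  g := 6
  L := ⟨26, fun i => ([2, 7, 9, 10, 12, 18, 21, 24, 27, 31, 33, 36, 38, 39, 43, 44, 47, 52, 54, 58, 60, 62, 65, 69, 71, 72] : List ℕ).getD i 0, fun i => ([3, 1, 1, 1, 1, 3, 1, 2, 1, 2, 1, 1, 1, 1, 1, 2, 1, 2, 1, 2, 1, 1, 2, 1, 1, 1] : List ℕ).getD i 0⟩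
  bs := [⟨16, 2, 40, 18, 42, 58⟩,
    ⟨3, 43, 9, 46, 52, 55⟩,
    ⟨1, 53, 15, 54, 68, 69⟩,
    ⟨21, 13, 32, 34, 45, 66⟩,
    ⟨17, 19, 29, 36, 48, 65⟩,
    ⟨4, 31, 26, 35, 57, 61⟩,
    ⟨14, 24, 25, 38, 49, 63⟩,
    ⟨7, 23, 41, 30, 64, 71⟩,
    ⟨10, 27, 33, 37, 60, 70⟩,
    ⟨22, 6, 44, 28, 50, 72⟩,
    ⟨5, 51, 11, 56, 62, 67⟩,
    ⟨12, 8, 39, 20, 47, 59⟩]
  ts := [⟨⟨0, 1, true⟩, ⟨6, 0, false⟩, ⟨11, 0, false⟩, ⟨7, 0, true⟩, ⟨19, 0, false⟩, ⟨20, 0, true⟩⟩,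
    ⟨⟨0, 2, true⟩, ⟨8, 0, false⟩, ⟨12, 0, false⟩, ⟨9, 0, true⟩, ⟨22, 1, false⟩, ⟨23, 0, true⟩⟩,
    ⟨⟨0, 0, true⟩, ⟨14, 0, false⟩, ⟨2, 0, false⟩, ⟨15, 1, true⟩, ⟨17, 1, false⟩, ⟨18, 0, true⟩⟩,
    ⟨⟨5, 1, true⟩, ⟨10, 0, false⟩, ⟨3, 0, false⟩, ⟨17, 0, true⟩, ⟨15, 0, false⟩, ⟨21, 0, true⟩⟩,
    ⟨⟨1, 0, false⟩, ⟨5, 0, true⟩, ⟨16, 0, false⟩, ⟨7, 1, true⟩, ⟨22, 0, true⟩, ⟨25, 0, true⟩⟩,
    ⟨⟨4, 0, false⟩, ⟨5, 2, true⟩, ⟨13, 0, false⟩, ⟨9, 1, true⟩, ⟨19, 1, true⟩, ⟨24, 0, true⟩⟩]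

theorem f12_ok : f12.Ok where
  sL := by decide +kernel
  cL := by decide +kernel
  wL := by decide +kernel
  lb := by decide +kernel
  lt := by decide +kernel
  p1 := by decide +kernel
  p2 := by decide +kernel
  bb := by decide +kernel
  tt := by decide +kernel

/-- A growing family of perfect difference families with 13 blocks and step 6. -/
def f13 : Fam4 where
  n0 := 13
  g := 6
  L := ⟨26, fun i => ([2, 7, 10, 10, 12, 14, 17, 19, 25, 27, 29, 35, 37, 42, 43, 46, 49, 52, 55, 57, 59, 59, 63, 66, 69, 71] : List ℕ).getD i 0, fun i => ([3, 1, 1, 1, 1, 1, 1, 2, 2, 1, 1, 3, 1, 2, 1, 1, 2, 1, 1, 1, 1, 1, 2, 1, 1, 2] : List ℕ).getD i 0⟩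
  bs := [⟨1, 34, 43, 35, 77, 78⟩,
    ⟨7, 52, 17, 59, 69, 76⟩,
    ⟨3, 42, 15, 45, 57, 60⟩,
    ⟨10, 20, 33, 30, 53, 63⟩,
    ⟨25, 21, 29, 46, 50, 75⟩,
    ⟨2, 38, 26, 40, 64, 66⟩,
    ⟨4, 24, 44, 28, 68, 72⟩,
    ⟨6, 5, 56, 11, 61, 67⟩,
    ⟨9, 18, 47, 27, 65, 74⟩,
    ⟨8, 41, 13, 49, 54, 62⟩,
    ⟨22, 14, 37, 36, 51, 73⟩,
    ⟨12, 19, 39, 31, 58, 70⟩,
    ⟨16, 32, 23, 48, 55, 71⟩]
  ts := [⟨⟨0, 1, true⟩, ⟨6, 0, false⟩, ⟨15, 0, false⟩, ⟨7, 1, true⟩, ⟨22, 1, false⟩, ⟨23, 0, true⟩⟩,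
    ⟨⟨0, 0, true⟩, ⟨13, 0, false⟩, ⟨9, 0, true⟩, ⟨14, 0, true⟩, ⟨24, 0, false⟩, ⟨25, 0, true⟩⟩,
    ⟨⟨0, 2, true⟩, ⟨16, 0, false⟩, ⟨3, 0, true⟩, ⟨17, 0, true⟩, ⟨21, 0, false⟩, ⟨22, 0, true⟩⟩,
    ⟨⟨1, 0, false⟩, ⟨11, 1, true⟩, ⟨5, 0, false⟩, ⟨13, 1, true⟩, ⟨16, 1, true⟩, ⟨19, 0, true⟩⟩,
    ⟨⟨8, 1, true⟩, ⟨2, 0, true⟩, ⟨7, 0, false⟩, ⟨11, 2, true⟩, ⟨10, 0, false⟩, ⟨18, 0, true⟩⟩,
    ⟨⟨11, 0, true⟩, ⟨8, 0, false⟩, ⟨4, 0, true⟩, ⟨20, 0, true⟩, ⟨12, 0, false⟩, ⟨25, 1, true⟩⟩]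

theorem f13_ok : f13.Ok where
  sL := by decide +kernel
  cL := by decide +kernel
  wL := by decide +kernel
  lb := by decide +kernel
  lt := by decide +kernel
  p1 := by decide +kernel
  p2 := by decide +kernel
  bb := by decide +kernel
  tt := by decide +kernel

/-- A growing family of perfect difference families with 14 blocks and step 6. -/
def f14 : Fam4 where
  n0 := 14
  g := 6
  L := ⟨26, fun i => ([3, 8, 11, 13, 17, 18, 21, 24, 28, 31, 35, 39, 45, 48, 53, 54, 58, 61, 64, 66, 66, 72, 75, 79, 80, 84] : List ℕ).getD i 0, fun i => ([3, 1, 1, 1, 1, 1, 1, 2, 2, 1, 1, 3, 1, 2, 1, 1, 2, 1, 1, 1, 1, 1, 2, 1, 1, 2] : List ℕ).getD i 0⟩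
  bs := [⟨2, 1, 40, 3, 41, 43⟩,
    ⟨4, 58, 5, 62, 63, 67⟩,
    ⟨12, 44, 25, 56, 69, 81⟩,
    ⟨8, 42, 26, 50, 68, 76⟩,
    ⟨29, 17, 31, 46, 48, 77⟩,
    ⟨23, 32, 27, 55, 59, 82⟩,
    ⟨18, 35, 30, 53, 65, 83⟩,
    ⟨22, 16, 36, 38, 52, 74⟩,
    ⟨11, 49, 24, 60, 73, 84⟩,
    ⟨6, 39, 33, 45, 72, 78⟩,
    ⟨21, 7, 47, 28, 54, 75⟩,
    ⟨13, 51, 15, 64, 66, 79⟩,
    ⟨14, 20, 37, 34, 57, 71⟩,
    ⟨10, 9, 61, 19, 70, 80⟩]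
  ts := [⟨⟨0, 1, true⟩, ⟨6, 0, false⟩, ⟨15, 0, false⟩, ⟨7, 1, true⟩, ⟨22, 1, false⟩, ⟨23, 0, true⟩⟩,
    ⟨⟨0, 2, true⟩, ⟨13, 1, false⟩, ⟨9, 0, true⟩, ⟨14, 0, true⟩, ⟨24, 0, false⟩, ⟨25, 1, true⟩⟩,
    ⟨⟨0, 0, true⟩, ⟨16, 1, false⟩, ⟨3, 0, true⟩, ⟨17, 0, true⟩, ⟨21, 0, false⟩, ⟨22, 0, true⟩⟩,
    ⟨⟨1, 0, false⟩, ⟨11, 1, true⟩, ⟨5, 0, false⟩, ⟨13, 0, true⟩, ⟨16, 0, true⟩, ⟨19, 0, true⟩⟩,
    ⟨⟨8, 1, true⟩, ⟨2, 0, true⟩, ⟨7, 0, false⟩, ⟨11, 2, true⟩, ⟨10, 0, false⟩, ⟨18, 0, true⟩⟩,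
    ⟨⟨11, 0, true⟩, ⟨8, 0, false⟩, ⟨4, 0, true⟩, ⟨20, 0, true⟩, ⟨12, 0, false⟩, ⟨25, 0, true⟩⟩]

theorem f14_ok : f14.Ok where
  sL := by decide +kernel
  cL := by decide +kernel
  wL := by decide +kernel
  lb := by decide +kernel
  lt := by decide +kernel
  p1 := by decide +kernel
  p2 := by decide +kernel
  bb := by decide +kernel
  tt := by decide +kernel

end Pool.Agent.Helper1.PDF
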