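import Mathlib
import Pool.Agent.Helper1.PDF1

set_option autoImplicit false

namespace Pool.Agent.Helper1.PDF

open Pool.Agent.Helper1.CycleMagic Pool.Agent.Helper1.CycleMagic.Starter

/-- The six values of a block. -/
def val {ι : Type} (x y z a b c : ι → ℕ) (p : ι × Fin 6) : ℕ :=
  match p.2 with
  | 0 => x p.1
  | 1 => y p.1
  | 2 => z p.1
  | 3 => a p.1
  | 4 => b p.1
  | 5 => c p.1

theorem IsPDF.val {m : ℕ} {ι : Type} [Fintype ι] {x y z a b c : ι → ℕ}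
    (h : IsPDF m x y z a b c) :
    Function.Injective (val x y z a b c) ∧
      ∀ p, 1 ≤ val x y z a b c p ∧ val x y z a b c p ≤ 6 * m := by
  apply surj_count
  · simp only [Fintype.card_prod, Fintype.card_fin, h.1]
    ring
  · intro v h1 h2
    obtain ⟨i, hi⟩ := h.2.2.2.2 v h1 h2
    rcases hi with hi | hi | hi | hi | hi | hi
    · exact ⟨(i, 0), hi⟩
    · exact ⟨(i, 1), hi⟩
    · exact ⟨(i, 2), hi⟩
    · exact ⟨(i, 3), hi⟩
    · exact ⟨(i, 4), hi⟩
    · exact ⟨(i, 5), hi⟩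

/-- A perfect difference family indexed by `Fin m`. -/
theorem HasPDF.fin {m : ℕ} (h : HasPDF m) :
    ∃ x y z a b c : Fin m → ℕ, IsPDF m x y z a b c := by
  obtain ⟨ι, hι, x, y, z, a, b, c, h1, h2, h3, h4, h5⟩ := h
  have e : Fin m ≃ ι := (Fintype.equivFinOfCardEq h1).symm
  refine ⟨x ∘ e, y ∘ e, z ∘ e, a ∘ e, b ∘ e, c ∘ e, by simp, fun i => h2 _, fun i => h3 _,
    fun i => h4 _, fun v hv1 hv2 => ?_⟩
  obtain ⟨i, hi⟩ := h5 v hv1 hv2
  refine ⟨e.symm i, ?_⟩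
  simpa using hi

end Pool.Agent.Helper1.PDF
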